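import Pool.Agent.H94.GG.Defs

set_option autoImplicit false

/-!
# [H3 GG CDefs] THEOREM G (MP_1bad5e_ag): interface of the chapters LAT and CNT

`m = 2 g + 1`. Type: `n : Fin m → ℤ`, monotone, `n (rev i) = - n i`. Pairs of type `n` and height `h`: symmetric
matrices `G`, `B` over `F[t]`, `deg G i j ≤ n i + n j`, `deg B i j ≤ h + n i + n j` (zero if the bound is negative),
`det G ∈ (-1) ^ g F^{*2}`. The group `A_n`: invertible `P` with `deg P i j ≤ n j - n i`; it acts by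
`(Pᵀ G P, Pᵀ B P)`.

`RepL f δ G B`: `G`, `B` are the Gram matrices of `(x, y) ↦ τ(δ x y)` and `(x, y) ↦ τ(δ θ x y)` in a `K`-basis of
`L = K[x]/(f)`.

END STATEMENTS OF LAT (files `H3/GG/LEnd`):
* `lat_type`: for `f` in `Fam m h`, leading form irreducible, `O` Dedekind, `IsS0 f δ`: a type `n` with `HasTy f h n δ`,
  `n (i + 1) - n i ≤ h`, and `- h ≤ 2 n (g - 1)` if `δ` is not a square;
* `lat_count`: `#classes of type n * #A_n ≤ 2 * #pairs (G, B) of type n with det (x G - B) = det G * f`, and with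
  trivial class modulo the places `v ∈ V` if the classes are squares over the `K_v`, `v ∈ V`.
-/

namespace Pool.Agent.H3.GG

open Polynomial IsDedekindDomain Matrix
open Pool.Agent.H80.CC.Plane (overK overKv toL toLv)
open Pool.Agent.H94.GG (tau)

section
variable {F : Type} [Field F]

/-- degree at most `d`, zero if `d < 0` -/
def DLe (d : ℤ) (p : F[X]) : Prop := p = 0 ∨ (p.natDegree : ℤ) ≤ d

variable {m : ℕ}

/-- types -/
structure IsTy (n : Fin m → ℤ) : Prop where
  mono : Monotone n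
  rev : ∀ i, n i.rev = - n i

/-- pairs of type `n` and height `h` -/
structure IsGB (h : ℕ) (n : Fin m → ℤ) (G B : Matrix (Fin m) (Fin m) F[X]) : Prop where
  symG : Gᵀ = G
  symB : Bᵀ = B
  degG : ∀ i j, DLe (n i + n j) (G i j)
  degB : ∀ i j, DLe (h + n i + n j) (B i j)
  det : ∃ a : F, a ≠ 0 ∧ G.det = C ((-1) ^ (m / 2) * a ^ 2)

/-- the group `A_n` -/
def IsA (n : Fin m → ℤ) (P : Matrix (Fin m) (Fin m) F[X]) : Prop :=
  IsUnit P.det ∧ ∀ i j, DLe (n j - n i) (P i j)

/-- `det (x G - B) = det G * f` -/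
def CharEq (f : F[X][X]) (G B : Matrix (Fin m) (Fin m) F[X]) : Prop :=
  ((X : F[X][X]) • G.map C - B.map C).det = C G.det * f

/-- the pair has the trivial class: there is a vector `w` with `w ⬝ G T ^ i w = 0` for `i < m - 1` and `= 1` for
`i = m - 1`, `T = G⁻¹ B` -/
def TrivC {k : Type} [CommRing k] (G B : Matrix (Fin m) (Fin m) k) : Prop :=
  ∃ w : Fin m → k, ∀ i < m, w ⬝ᵥ ((G * (G⁻¹ * B) ^ i) *ᵥ w) = if i + 1 = m then 1 else 0

/-- the matrix modulo `v` -/
noncomputable abbrev md (v : HeightOneSpectrum F[X]) (G : Matrix (Fin m) (Fin m) F[X]) :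
    Matrix (Fin m) (Fin m) (F[X] ⧸ v.asIdeal) := G.map (Ideal.Quotient.mk v.asIdeal)

/-- Gram matrices of the forms of `δ` and `δ θ` in a basis -/
def RepL (f : F[X][X]) (δ : AdjoinRoot (overK f)) (G B : Matrix (Fin m) (Fin m) F[X]) : Prop :=
  ∃ (hf : (overK f).Monic) (e : Module.Basis (Fin m) (RatFunc F) (AdjoinRoot (overK f))),
    (∀ i j, algebraMap F[X] (RatFunc F) (G i j) = tau hf (δ * e i * e j)) ∧
    ∀ i j, algebraMap F[X] (RatFunc F) (B i j) =
      tau hf (δ * (AdjoinRoot.root (overK f) * e i) * e j)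

/-- `δ` has type `n` -/
def HasTy (f : F[X][X]) (h : ℕ) (n : Fin m → ℤ) (δ : AdjoinRoot (overK f)) : Prop :=
  ∃ G B : Matrix (Fin m) (Fin m) F[X], IsGB h n G B ∧ CharEq f G B ∧ RepL f δ G B

/-- the pairs `(G, B)` which are counted for `f` -/
def GBs (f : F[X][X]) (h : ℕ) (n : Fin m → ℤ) (V : Set (HeightOneSpectrum F[X])) :
    Set (Matrix (Fin m) (Fin m) F[X] × Matrix (Fin m) (Fin m) F[X]) :=
  {p | IsGB h n p.1 p.2 ∧ CharEq f p.1 p.2 ∧ ∀ v ∈ V, TrivC (md v p.1) (md v p.2)}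

end

end Pool.Agent.H3.GG
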