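import Pool.Agent.H3.GG.LTa

set_option autoImplicit false

/-!
# [H3 GG CO0] THEOREM G, chapter LOC: definitions

`k` a finite field of odd order `q`, `m` odd, `G`, `B` symmetric `m × m` matrices, `det G ≠ 0`, `T = G⁻¹ B`.
`kr T w`: the matrix with the columns `w, T w, .., T ^ (m - 1) w`; `hk hg β`: the Hankel matrix `τ(β θ ^ (i + j))` of `β ∈ k[x]/(g)`.
`Chr f G B`: `det (x G - B) = det G * f`.

RESULT (`CO8`): for `f` monic squarefree of degree `m` and a fixed `G` the number of the `B` with `Chr f G B` is at most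
`K / 2`, and for `f` with two factors the number of those with trivial class is at most `K / 4`, where
`K (q - 1) ^ m q ^ (m (m - 1) / 2) ≤ 2 q ^ (m m)`.
-/

namespace Pool.Agent.H3.GG

open Polynomial Matrix
open Pool.Agent.H94.GG (tau)

variable {k : Type} [Field k] {m : ℕ}

/-- the columns are `w, T w, .., T ^ (m - 1) w` -/
def kr (T : Matrix (Fin m) (Fin m) k) (w : Fin m → k) : Matrix (Fin m) (Fin m) k :=
  Matrix.of fun i j => ((T ^ (j : ℕ)) *ᵥ w) i

/-- the Hankel matrix of `β` -/
noncomputable def hk {g : k[X]} (hg : g.Monic) (m : ℕ) (β : AdjoinRoot g) :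
    Matrix (Fin m) (Fin m) k :=
  Matrix.of fun i j => tau hg (β * AdjoinRoot.root g ^ ((i : ℕ) + j))

/-- `det (x G - B) = det G * f` -/
def Chr (f : k[X]) (G B : Matrix (Fin m) (Fin m) k) : Prop :=
  ((X : k[X]) • G.map C - B.map C).det = C G.det * f

end Pool.Agent.H3.GG
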