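import Mathlib

set_option autoImplicit false

/-!
# [H3 GG CO1] Symmetric matrices over a finite field of odd order are classified by the determinant

* `dg_ex`: every symmetric matrix over a field with `2 ≠ 0` is congruent to a diagonal matrix: `LinearMap.BilinForm.exists_orthogonal_basis`
  (for `Matrix.toBilin'`), the matrix of the orthogonal basis is invertible (`Module.Basis.invertibleToMatrix`).
* `dg_two`: `a, b ≠ 0`: there is an invertible `2 × 2` matrix `P` with `Pᵀ diag(a, b) P = diag(1, a b)`:
  `a x ^ 2 + b y ^ 2 = 1` has a solution (`FiniteField.exists_root_sum_quadratic`-type; or `a X ^ 2` and `1 - b Y ^ 2` take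
  `(q + 1) / 2` values each), `P = !![x, - b y; y, a x]` has determinant `a x ^ 2 + b y ^ 2 = 1`.
* `dg_one`: `d : Fin (m + 1) → k`, all `d i ≠ 0`: `diagonal d` is congruent to `diagonal (Fin.snoc 1 (∏ d))`. Induction on `m`. `m = 0`: clear.
  `m + 1`: apply `dg_two` to the indices `0`, `1` (block matrix: `Matrix.fromBlocks` reindexed, or: the matrix which is the
  identity outside the rows and columns `0`, `1`): `d ~ (1, d 0 * d 1, d 2, ..)`, then the induction hypothesis for
  `(d 0 * d 1, d 2, ..)` with the block matrix `diag(1, P')` (`Fin.cons`). (Write congruence as an equivalence relation: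
  `Cg G G' := ∃ P, P.det ≠ 0 ∧ Pᵀ * G * P = G'`, transitive; and show: `Cg (diagonal e) (diagonal e')` for
  `e, e' : Fin n → k` gives the same for `Fin.cons x e`, `Fin.cons x e'`: `P' = ` block matrix, entries
  `Fin.cons`/`Fin.cases`.)
* `cls_ff`: `G ~ diag(1, .., 1, d)`, `G' ~ diag(1, .., 1, d')`, `d d'` is a square times squares, so `d' = d s ^ 2`, and
  `diag(1, .., 1, s)` transforms one into the other. `m = 0` trivial.
-/

namespace Pool.Agent.H3.GG

open Matrix

variable {k : Type} [Field k] {m : ℕ}

/-- congruence -/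
def Cg (G G' : Matrix (Fin m) (Fin m) k) : Prop := ∃ P : Matrix (Fin m) (Fin m) k, P.det ≠ 0 ∧ Pᵀ * G * P = G'

theorem cg_trans {G G' G'' : Matrix (Fin m) (Fin m) k} (h1 : Cg G G') (h2 : Cg G' G'') : Cg G G'' := by
  obtain ⟨P, hP, h3⟩ := h1
  obtain ⟨Q, hQ, h4⟩ := h2
  refine ⟨P * Q, ?_, ?_⟩
  · rw [det_mul]
    exact mul_ne_zero hP hQ
  · rw [← h4, ← h3, transpose_mul]
    simp only [Matrix.mul_assoc]

theorem cg_symm {G G' : Matrix (Fin m) (Fin m) k} (h1 : Cg G G') : Cg G' G := by
  obtain ⟨P, hP, h3⟩ := h1
  have hu : IsUnit P.det := isUnit_iff_ne_zero.2 hP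
  refine ⟨P⁻¹, ?_, ?_⟩
  · exact (isUnit_nonsing_inv_det P hu).ne_zero
  · have h5 : P * P⁻¹ = 1 := mul_nonsing_inv P hu
    have h6 : (P⁻¹)ᵀ * Pᵀ = 1 := by
      rw [← transpose_mul, h5, transpose_one]
    calc (P⁻¹)ᵀ * G' * P⁻¹ = ((P⁻¹)ᵀ * Pᵀ) * G * (P * P⁻¹) := by
          rw [← h3]
          simp only [Matrix.mul_assoc]
      _ = G := by rw [h5, h6, Matrix.one_mul, Matrix.mul_one]

private theorem cg_det {G G' P : Matrix (Fin m) (Fin m) k} (h : Pᵀ * G * P = G') :
    G'.det = G.det * (P.det * P.det) := by
  rw [← h, det_mul, det_mul, det_transpose]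
  ring

private theorem cg_of {G G' P : Matrix (Fin m) (Fin m) k} (h : Pᵀ * G * P = G') (h0 : G'.det ≠ 0) :
    Cg G G' := by
  refine ⟨P, fun h1 => h0 ?_, h⟩
  rw [cg_det h, h1]
  ring

theorem dg_ex (h2 : (2 : k) ≠ 0) {G : Matrix (Fin m) (Fin m) k} (hG : Gᵀ = G) :
    ∃ d : Fin m → k, Cg G (diagonal d) := by
  have : Invertible (2 : k) := invertibleOfNonzero h2
  have hB : (Matrix.toBilin' G).IsSymm := by
    refine ⟨fun x y => ?_⟩
    rw [Matrix.toBilin'_apply', Matrix.toBilin'_apply']
    rw [Matrix.dotProduct_mulVec, ← Matrix.mulVec_transpose, hG, dotProduct_comm]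
  obtain ⟨v, hv⟩ := LinearMap.BilinForm.exists_orthogonal_basis
    (LinearMap.BilinForm.isSymm_iff.1 hB)
  let w : Module.Basis (Fin m) k (Fin m → k) :=
    v.reindex (finCongr (Module.finrank_fin_fun k))
  have hw : ∀ i j, i ≠ j → (w i) ⬝ᵥ (G *ᵥ (w j)) = 0 := by
    intro i j hij
    rw [← Matrix.toBilin'_apply']
    have h3 := hv (i := (finCongr (Module.finrank_fin_fun k)).symm i)
      (j := (finCongr (Module.finrank_fin_fun k)).symm j)
      (fun h => hij ((finCongr (Module.finrank_fin_fun k)).symm.injective h))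
    have h4 : ∀ a, w a = v ((finCongr (Module.finrank_fin_fun k)).symm a) := fun a =>
      Module.Basis.reindex_apply _ _ _
    rw [h4, h4]
    exact h3
  let P : Matrix (Fin m) (Fin m) k := Matrix.of fun a b => w b a
  have hP : P.det ≠ 0 := by
    have h5 := (Pi.basisFun k (Fin m)).isUnit_det w
    rw [Module.Basis.det_apply] at h5
    have h6 : (Pi.basisFun k (Fin m)).toMatrix w = P := by
      ext a b
      rw [Module.Basis.toMatrix_apply, Pi.basisFun_repr]
      rfl
    rw [h6] at h5
    exact h5.ne_zero
  refine ⟨fun i => (w i) ⬝ᵥ (G *ᵥ (w i)), P, hP, ?_⟩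
  ext a b
  have h7 : (Pᵀ * G * P) a b = (w a) ⬝ᵥ (G *ᵥ (w b)) := by
    rw [Matrix.mul_assoc, Matrix.mul_apply]
    rfl
  rw [h7]
  by_cases hab : a = b
  · rw [hab, diagonal_apply_eq]
  · rw [diagonal_apply_ne _ hab, hw a b hab]

private theorem quad [Finite k] (h2 : (2 : k) ≠ 0) {a b : k} (ha : a ≠ 0) (hb : b ≠ 0) :
    ∃ x y : k, a * x ^ 2 + b * y ^ 2 = 1 := by
  have : Fintype k := Fintype.ofFinite k
  have hc : Fintype.card k % 2 = 1 := by
    refine FiniteField.odd_card_of_char_ne_two fun h => h2 ?_
    have h3 := CharP.cast_eq_zero k (ringChar k)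
    rw [h] at h3
    exact_mod_cast h3
  obtain ⟨x, y, hxy⟩ := FiniteField.exists_root_sum_quadratic
    (f := Polynomial.C a * Polynomial.X ^ 2 + Polynomial.C 0 * Polynomial.X + Polynomial.C (-1))
    (g := Polynomial.C b * Polynomial.X ^ 2 + Polynomial.C 0 * Polynomial.X + Polynomial.C 0)
    (Polynomial.degree_quadratic ha) (Polynomial.degree_quadratic hb) hc
  refine ⟨x, y, ?_⟩
  simp only [Polynomial.eval_add, Polynomial.eval_mul, Polynomial.eval_C, Polynomial.eval_pow,
    Polynomial.eval_X] at hxy
  linear_combination hxy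

private theorem pair [Finite k] (h2 : (2 : k) ≠ 0) (e : Fin m → k) {i j : Fin m} (hij : i ≠ j)
    (he : ∀ i, e i ≠ 0) :
    Cg (diagonal e) (diagonal fun c => if c = i then 1 else if c = j then e i * e j else e c) := by
  obtain ⟨x, y, hxy⟩ := quad h2 (he i) (he j)
  let u : Fin m → Fin m → k := fun b => if b = i then Pi.single i x + Pi.single j y else
    if b = j then Pi.single i (-(e j * y)) + Pi.single j (e i * x) else Pi.single b 1
  refine cg_of (P := Matrix.of fun c b => u b c) ?_ ?_
  · ext a b
    have h1 : ((Matrix.of fun c b => u b c)ᵀ * diagonal e * (Matrix.of fun c b => u b c)) a b =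
        ∑ c, u a c * e c * u b c := by
      rw [Matrix.mul_apply]
      refine Finset.sum_congr rfl fun c _ => ?_
      rw [Matrix.mul_diagonal]
      rfl
    have hs : ∀ (c0 : Fin m) (t : k) (w : Fin m → k),
        ∑ c, (Pi.single c0 t : Fin m → k) c * e c * w c = t * e c0 * w c0 := by
      intro c0 t w
      rw [Finset.sum_eq_single c0]
      · rw [Pi.single_eq_same]
      · intro c _ hc
        rw [Pi.single_eq_of_ne hc]
        ring
      · intro h
        exact absurd (Finset.mem_univ _) h
    have hs2 : ∀ (c0 c1 : Fin m) (t t' : k) (w : Fin m → k),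
        ∑ c, (Pi.single c0 t + Pi.single c1 t' : Fin m → k) c * e c * w c =
          t * e c0 * w c0 + t' * e c1 * w c1 := by
      intro c0 c1 t t' w
      rw [← hs c0 t w, ← hs c1 t' w, ← Finset.sum_add_distrib]
      refine Finset.sum_congr rfl fun c _ => ?_
      rw [Pi.add_apply]
      ring
    have ui : u i = Pi.single i x + Pi.single j y := if_pos rfl
    have uj : u j = Pi.single i (-(e j * y)) + Pi.single j (e i * x) := by
      show (if j = i then _ else _) = _
      rw [if_neg hij.symm, if_pos rfl]
    have ub : ∀ b, b ≠ i → b ≠ j → u b = Pi.single b 1 := by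
      intro b hbi hbj
      show (if b = i then _ else _) = _
      rw [if_neg hbi, if_neg hbj]
    have uii : u i i = x := by
      rw [ui, Pi.add_apply, Pi.single_eq_same, Pi.single_eq_of_ne hij, add_zero]
    have uij : u i j = y := by
      rw [ui, Pi.add_apply, Pi.single_eq_same, Pi.single_eq_of_ne hij.symm, zero_add]
    have uji : u j i = -(e j * y) := by
      rw [uj, Pi.add_apply, Pi.single_eq_same, Pi.single_eq_of_ne hij, add_zero]
    have ujj : u j j = e i * x := by
      rw [uj, Pi.add_apply, Pi.single_eq_same, Pi.single_eq_of_ne hij.symm, zero_add]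
    have ubi : ∀ b, b ≠ i → b ≠ j → u b i = 0 := by
      intro b hbi hbj
      rw [ub b hbi hbj, Pi.single_eq_of_ne hbi.symm]
    have ubj : ∀ b, b ≠ i → b ≠ j → u b j = 0 := by
      intro b hbi hbj
      rw [ub b hbi hbj, Pi.single_eq_of_ne hbj.symm]
    rw [h1]
    by_cases hai : a = i
    · rw [hai, ui, hs2]
      by_cases hbi : b = i
      · rw [hbi, diagonal_apply_eq, if_pos rfl, uii, uij]
        linear_combination hxy
      · rw [diagonal_apply_ne _ (fun h => hbi h.symm)]
        by_cases hbj : b = j
        · rw [hbj, uji, ujj]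
          ring
        · rw [ubi b hbi hbj, ubj b hbi hbj]
          ring
    · by_cases haj : a = j
      · rw [haj, uj, hs2]
        by_cases hbi : b = i
        · rw [hbi, diagonal_apply_ne _ hij.symm, uii, uij]
          ring
        · by_cases hbj : b = j
          · rw [hbj, diagonal_apply_eq, if_neg hij.symm, if_pos rfl, uji, ujj]
            linear_combination (e i * e j) * hxy
          · rw [diagonal_apply_ne _ (fun h => hbj h.symm), ubi b hbi hbj, ubj b hbi hbj]
            ring
      · rw [ub a hai haj, hs]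
        by_cases hbi : b = i
        · rw [hbi, diagonal_apply_ne _ hai, ui, Pi.add_apply, Pi.single_eq_of_ne hai,
            Pi.single_eq_of_ne haj]
          ring
        · by_cases hbj : b = j
          · rw [hbj, diagonal_apply_ne _ haj, uj, Pi.add_apply, Pi.single_eq_of_ne hai,
              Pi.single_eq_of_ne haj]
            ring
          · rw [ub b hbi hbj]
            by_cases hab : a = b
            · rw [hab, diagonal_apply_eq, if_neg hbi, if_neg hbj, Pi.single_eq_same]
              ring
            · rw [diagonal_apply_ne _ hab, Pi.single_eq_of_ne hab]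
              ring
  · rw [det_diagonal]
    refine Finset.prod_ne_zero_iff.2 fun c _ => ?_
    split_ifs
    · exact one_ne_zero
    · exact mul_ne_zero (he i) (he j)
    · exact he c

private theorem cg_refl (G : Matrix (Fin m) (Fin m) k) : Cg G G := by
  refine ⟨1, ?_, ?_⟩
  · rw [det_one]
    exact one_ne_zero
  · rw [transpose_one, Matrix.one_mul, Matrix.mul_one]

theorem dg_one [Finite k] (h2 : (2 : k) ≠ 0) (d : Fin (m + 1) → k) (hd : ∀ i, d i ≠ 0) :
    Cg (diagonal d) (diagonal (Fin.snoc (fun _ => 1) (∏ i, d i) : Fin (m + 1) → k)) := by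
  classical
  have key : ∀ S : Finset (Fin (m + 1)), Fin.last m ∉ S → Cg (diagonal d)
      (diagonal fun c => if c ∈ S then 1 else if c = Fin.last m then
        (∏ i ∈ S, d i) * d (Fin.last m) else d c) := by
    intro S
    induction S using Finset.induction_on with
    | empty =>
      intro _
      have h1 : (fun c => if c ∈ (∅ : Finset (Fin (m + 1))) then 1 else if c = Fin.last m then
          (∏ i ∈ (∅ : Finset (Fin (m + 1))), d i) * d (Fin.last m) else d c) = d := by
        funext c
        rw [if_neg (Finset.notMem_empty _)]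
        by_cases hc : c = Fin.last m
        · rw [if_pos hc, Finset.prod_empty, one_mul, hc]
        · rw [if_neg hc]
      rw [h1]
      exact cg_refl _
    | insert a S ha ih =>
      intro hl
      have hl1 : Fin.last m ≠ a := fun h => hl (by rw [h]; exact Finset.mem_insert_self _ _)
      have hl2 : Fin.last m ∉ S := fun h => hl (Finset.mem_insert_of_mem h)
      refine cg_trans (ih hl2) ?_
      set e : Fin (m + 1) → k := fun c => if c ∈ S then 1 else if c = Fin.last m then
        (∏ i ∈ S, d i) * d (Fin.last m) else d c with he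
      have hea : e a = d a := by
        show (if a ∈ S then (1 : k) else _) = _
        rw [if_neg ha, if_neg hl1.symm]
      have hel : e (Fin.last m) = (∏ i ∈ S, d i) * d (Fin.last m) := by
        show (if Fin.last m ∈ S then (1 : k) else _) = _
        rw [if_neg hl2, if_pos rfl]
      have h3 := pair h2 e (i := a) (j := Fin.last m) hl1.symm (by
        intro c
        show (if c ∈ S then (1 : k) else if c = Fin.last m then
          (∏ i ∈ S, d i) * d (Fin.last m) else d c) ≠ 0
        split_ifs
        · exact one_ne_zero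
        · exact mul_ne_zero (Finset.prod_ne_zero_iff.2 fun i _ => hd i) (hd _)
        · exact hd c)
      have h4 : (fun c => if c = a then 1 else if c = Fin.last m then e a * e (Fin.last m) else
          e c) = (fun c => if c ∈ insert a S then 1 else if c = Fin.last m then
          (∏ i ∈ insert a S, d i) * d (Fin.last m) else d c) := by
        funext c
        by_cases hca : c = a
        · rw [if_pos hca, if_pos (by rw [hca]; exact Finset.mem_insert_self _ _)]
        · rw [if_neg hca]
          by_cases hcl : c = Fin.last m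
          · rw [if_pos hcl, if_neg (by rw [hcl]; exact hl), if_pos hcl, hea, hel,
              Finset.prod_insert ha, mul_assoc]
          · rw [if_neg hcl]
            show (if c ∈ S then (1 : k) else if c = Fin.last m then
              (∏ i ∈ S, d i) * d (Fin.last m) else d c) = _
            by_cases hcS : c ∈ S
            · rw [if_pos hcS, if_pos (Finset.mem_insert_of_mem hcS)]
            · rw [if_neg hcS, if_neg hcl, if_neg (fun h => (Finset.mem_insert.1 h).elim hca hcS),
                if_neg hcl]
      rw [h4] at h3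
      exact h3
  have h1 := key (Finset.univ.erase (Fin.last m)) (Finset.notMem_erase _ _)
  have h3 : (fun c => if c ∈ Finset.univ.erase (Fin.last m) then 1 else if c = Fin.last m then
      (∏ i ∈ Finset.univ.erase (Fin.last m), d i) * d (Fin.last m) else d c) =
      (Fin.snoc (fun _ => 1) (∏ i, d i) : Fin (m + 1) → k) := by
    funext c
    refine Fin.lastCases ?_ (fun i => ?_) c
    · rw [if_neg (Finset.notMem_erase _ _), if_pos rfl, Fin.snoc_last,
        Finset.prod_erase_mul _ _ (Finset.mem_univ _)]
    · rw [if_pos (Finset.mem_erase.2 ⟨(Fin.castSucc_lt_last i).ne, Finset.mem_univ _⟩),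
        Fin.snoc_castSucc]
  rw [h3] at h1
  exact h1

theorem cls_ff [Finite k] (h2 : (2 : k) ≠ 0) {G G' : Matrix (Fin m) (Fin m) k} (hG : Gᵀ = G)
    (hG' : G'ᵀ = G') (h0 : G.det ≠ 0) (h0' : G'.det ≠ 0) (hs : IsSquare (G.det * G'.det)) :
    Cg G G' := by
  rcases m with - | m
  · have h3 : G = G' := by
      ext i
      exact i.elim0
    rw [h3]
    exact cg_refl _
  · have key : ∀ {G : Matrix (Fin (m + 1)) (Fin (m + 1)) k}, Gᵀ = G → G.det ≠ 0 →
        ∃ r : k, r ≠ 0 ∧
          Cg G (diagonal (Fin.snoc (fun _ => 1) (G.det * (r * r)) : Fin (m + 1) → k)) := by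
      intro G hG h0
      obtain ⟨d, P, hP, hd⟩ := dg_ex h2 hG
      have h3 := cg_det hd
      rw [det_diagonal] at h3
      have h4 : ∏ i, d i ≠ 0 := by
        rw [h3]
        exact mul_ne_zero h0 (mul_ne_zero hP hP)
      refine ⟨P.det, hP, ?_⟩
      rw [← h3]
      exact cg_trans ⟨P, hP, hd⟩ (dg_one h2 d fun i => Finset.prod_ne_zero_iff.1 h4 i
        (Finset.mem_univ _))
    obtain ⟨r, hr, h3⟩ := key hG h0
    obtain ⟨r', hr', h4⟩ := key hG' h0'
    refine cg_trans h3 (cg_trans ?_ (cg_symm h4))
    obtain ⟨t, ht⟩ := hs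
    refine cg_of (P := diagonal (Fin.snoc (fun _ => 1) (t * r' / (G.det * r)) : Fin (m + 1) → k))
      ?_ ?_
    · rw [diagonal_transpose, diagonal_mul_diagonal, diagonal_mul_diagonal]
      congr 1
      funext c
      refine Fin.lastCases ?_ (fun i => ?_) c
      · simp only [Fin.snoc_last]
        field_simp
        linear_combination (-1 : k) * ht
      · simp only [Fin.snoc_castSucc, mul_one]
    · rw [det_diagonal]
      refine Finset.prod_ne_zero_iff.2 fun c _ => ?_
      refine Fin.lastCases ?_ (fun i => ?_) c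
      · rw [Fin.snoc_last]
        exact mul_ne_zero h0' (mul_ne_zero hr' hr')
      · rw [Fin.snoc_castSucc]
        exact one_ne_zero

end Pool.Agent.H3.GG
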