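import Pool.Agent.H3.GG.CO1
import Pool.Agent.H40.GC.DIA

set_option autoImplicit false

/-!
# [H3 GG CO2] The number of the isometries

`k` finite, `q = Nat.card k`, `m` odd.
* `snd`: the number of the symmetric `G` with `det G ≠ 0` is at least `(q - 1) ^ m q ^ (m (m - 1) / 2)`: for each of the
  `q ^ (m (m - 1) / 2)` symmetric matrices `M` with zero diagonal (functions on the pairs `i < j`) at least `(q - 1) ^ m`
  diagonals (`H40.GC.dia`); `(M, d) ↦ M + diagonal d` is injective. (The number of the pairs `i < j` in `Fin m` is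
  `m (m - 1) / 2`: `Finset.card_...`, `Nat.choose_two_right`, `Sym2`, or `∑ i : Fin m, i`.)
* `half`: `G` symmetric, `det G ≠ 0`; `Cl = {G' | symmetric, det G' ≠ 0, det G * det G' a square}`: `#{symmetric, det ≠ 0} ≤ 2 #Cl`:
  let `ε` be a nonsquare (`FiniteField.exists_nonsquare`, `q` odd); `G' ↦ ε • G'` maps the complement of `Cl` injectively into
  `Cl`: `det (ε G') = ε ^ m det G'`, `m` odd, product of two nonsquares is a square (`FiniteField.isSquare_...`, the index of the
  squares is 2).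
* `iso_bd`: `N = #{X | Xᵀ G X = H}`; if `N ≠ 0` then `det G * det H` is a square `≠ 0`; for every `G' ∈ Cl` (`Cl` the class of `H`
  and of `G`) there is `P` with `Pᵀ H P = G'` (`cls_ff`), `X ↦ X P` is a bijection of `{X | Xᵀ G X = H}` with
  `{X | Xᵀ G X = G'}`; the latter sets are disjoint for different `G'`, so `#Cl * N ≤ q ^ (m * m)`.
-/

namespace Pool.Agent.H3.GG

open Matrix

variable {k : Type} [Field k] [Finite k] {m : ℕ}

private def offD (k : Type) [Field k] (m : ℕ) (c : (Σ j : Fin m, Fin j.1) → k) :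
    Matrix (Fin m) (Fin m) k :=
  fun i j => if h : i.1 < j.1 then c ⟨j, ⟨i.1, h⟩⟩ else
    if h : j.1 < i.1 then c ⟨i, ⟨j.1, h⟩⟩ else 0

private theorem offD_symm (k : Type) [Field k] (m : ℕ) (c : (Σ j : Fin m, Fin j.1) → k) :
    (offD k m c)ᵀ = offD k m c := by
  ext i j
  rw [transpose_apply]
  unfold offD
  rcases lt_trichotomy i.1 j.1 with h | h | h
  · rw [dif_neg (by omega), dif_pos h, dif_pos h]
  · rw [dif_neg (by omega), dif_neg (by omega), dif_neg (by omega), dif_neg (by omega)]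
  · rw [dif_pos h, dif_neg (by omega), dif_pos h]

theorem snd (k : Type) [Field k] [Finite k] (m : ℕ) : (Nat.card k - 1) ^ m * Nat.card k ^ (m * (m - 1) / 2) ≤
    Nat.card {G : Matrix (Fin m) (Fin m) k // Gᵀ = G ∧ G.det ≠ 0} := by
  classical
  have hfin : Fintype k := Fintype.ofFinite k
  let F : ((Σ j : Fin m, Fin j.1) → k) → Type := fun c =>
    {d : Fin m → k // (offD k m c + diagonal d).det ≠ 0}
  have hinj : Function.Injective (fun p : (Σ c : (Σ j : Fin m, Fin j.1) → k, F c) =>
      (⟨offD k m p.1 + diagonal p.2.1, by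
        rw [transpose_add, offD_symm, diagonal_transpose], p.2.2⟩ :
        {G : Matrix (Fin m) (Fin m) k // Gᵀ = G ∧ G.det ≠ 0})) := by
    rintro ⟨c, ⟨d, hd⟩⟩ ⟨c', ⟨d', hd'⟩⟩ h
    have h2 : offD k m c + diagonal d = offD k m c' + diagonal d' := Subtype.mk.inj h
    have h3 : c = c' := by
      funext ⟨j, i⟩
      have h4 := congrFun (congrFun h2 ⟨i.1, by omega⟩) j
      have h5 : (⟨i.1, by omega⟩ : Fin m) ≠ j := by
        intro h
        have := congrArg Fin.val h
        have h6 := i.2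
        simp only at this
        omega
      rw [Matrix.add_apply, Matrix.add_apply, diagonal_apply_ne _ h5, diagonal_apply_ne _ h5, add_zero,
        add_zero] at h4
      unfold offD at h4
      have h7 : (⟨i.1, by omega⟩ : Fin m).1 < j.1 := i.2
      rw [dif_pos h7, dif_pos h7] at h4
      exact h4
    subst h3
    have h4 : d = d' := diagonal_injective (add_left_cancel h2)
    subst h4
    rfl
  have h1 := Nat.card_le_card_of_injective _ hinj
  refine le_trans ?_ h1
  have hT : Fintype.card (Σ j : Fin m, Fin j.1) = m * (m - 1) / 2 := by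
    rw [Fintype.card_sigma]
    simp only [Fintype.card_fin]
    rw [Fin.sum_univ_eq_sum_range (fun i => i) m, Finset.sum_range_id]
  rw [Nat.card_sigma]
  calc (Nat.card k - 1) ^ m * Nat.card k ^ (m * (m - 1) / 2)
      = ∑ _c : (Σ j : Fin m, Fin j.1) → k, (Nat.card k - 1) ^ m := by
        rw [Finset.sum_const, Finset.card_univ, smul_eq_mul, Fintype.card_fun, hT,
          ← Nat.card_eq_fintype_card (α := k), mul_comm]
    _ ≤ ∑ c : (Σ j : Fin m, Fin j.1) → k, Nat.card (F c) :=
        Finset.sum_le_sum fun c _ => H40.GC.dia m (offD k m c)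

private theorem nonsq_mul {a b : k} (ha : ¬ IsSquare a) (hb : ¬ IsSquare b) :
    IsSquare (a * b) := by
  classical
  have hfin : Fintype k := Fintype.ofFinite k
  have ha0 : a ≠ 0 := fun h => ha (h ▸ IsSquare.zero)
  have hb0 : b ≠ 0 := fun h => hb (h ▸ IsSquare.zero)
  have h1 := quadraticChar_neg_one_iff_not_isSquare.2 ha
  have h2 := quadraticChar_neg_one_iff_not_isSquare.2 hb
  rw [← quadraticChar_one_iff_isSquare (mul_ne_zero ha0 hb0), map_mul, h1, h2]
  norm_num

theorem half (h2 : (2 : k) ≠ 0) (hm : Odd m) {G : Matrix (Fin m) (Fin m) k} (h0 : G.det ≠ 0) :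
    Nat.card {G : Matrix (Fin m) (Fin m) k // Gᵀ = G ∧ G.det ≠ 0} ≤
      2 * Nat.card {G' : Matrix (Fin m) (Fin m) k //
        G'ᵀ = G' ∧ G'.det ≠ 0 ∧ IsSquare (G.det * G'.det)} := by
  classical
  have hfin : Fintype k := Fintype.ofFinite k
  have hchar : ringChar k ≠ 2 := by
    intro h
    apply h2
    have h3 := CharP.cast_eq_zero k (ringChar k)
    rw [h] at h3
    exact_mod_cast h3
  obtain ⟨ε, hε⟩ := FiniteField.exists_nonsquare hchar
  have hε0 : ε ≠ 0 := fun h => hε (h ▸ IsSquare.zero)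
  let A := {G : Matrix (Fin m) (Fin m) k // Gᵀ = G ∧ G.det ≠ 0}
  let B := {G' : Matrix (Fin m) (Fin m) k //
        G'ᵀ = G' ∧ G'.det ≠ 0 ∧ IsSquare (G.det * G'.det)}
  have hdet : ∀ G' : Matrix (Fin m) (Fin m) k, (ε • G').det = ε ^ m * G'.det := by
    intro G'
    rw [det_smul, Fintype.card_fin]
  have hmem : ∀ G' : A, ¬ IsSquare (G.det * G'.1.det) →
      ((ε • G'.1)ᵀ = ε • G'.1 ∧ (ε • G'.1).det ≠ 0 ∧ IsSquare (G.det * (ε • G'.1).det)) := by
    intro G' h
    refine ⟨by rw [transpose_smul, G'.2.1], ?_, ?_⟩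
    · rw [hdet]
      exact mul_ne_zero (pow_ne_zero _ hε0) G'.2.2
    · rw [hdet]
      obtain ⟨j, hj⟩ := hm
      have h3 := nonsq_mul hε h
      obtain ⟨r, hr⟩ := h3
      refine ⟨ε ^ j * r, ?_⟩
      have hj2 : ε ^ m = ε ^ (2 * j + 1) := congrArg (fun i => ε ^ i) hj
      rw [hj2]
      calc G.det * (ε ^ (2 * j + 1) * G'.1.det) = ε ^ j * ε ^ j * (ε * (G.det * G'.1.det)) := by ring
        _ = ε ^ j * r * (ε ^ j * r) := by rw [hr]; ring
  let φ : A → B × Bool := fun G' =>
    if h : IsSquare (G.det * G'.1.det) then (⟨G'.1, G'.2.1, G'.2.2, h⟩, true)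
    else (⟨ε • G'.1, hmem G' h⟩, false)
  have hφ : Function.Injective φ := by
    intro G1 G2 h
    simp only [φ] at h
    by_cases h3 : IsSquare (G.det * G1.1.det)
    · by_cases h4 : IsSquare (G.det * G2.1.det)
      · rw [dif_pos h3, dif_pos h4] at h
        have h5 := congrArg (fun z => z.1.1) h
        exact Subtype.ext h5
      · rw [dif_pos h3, dif_neg h4] at h
        have h5 : true = false := congrArg (fun z => z.2) h
        exact Bool.noConfusion h5
    · by_cases h4 : IsSquare (G.det * G2.1.det)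
      · rw [dif_neg h3, dif_pos h4] at h
        have h5 : false = true := congrArg (fun z => z.2) h
        exact Bool.noConfusion h5
      · rw [dif_neg h3, dif_neg h4] at h
        have h5 : ε • G1.1 = ε • G2.1 := congrArg (fun z => z.1.1) h
        have h6 := congrArg (fun z => ε⁻¹ • z) h5
        simp only [smul_smul, inv_mul_cancel₀ hε0, one_smul] at h6
        exact Subtype.ext h6
  have h3 := Nat.card_le_card_of_injective _ hφ
  rw [Nat.card_prod] at h3
  have h4 : Nat.card Bool = 2 := by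
    rw [Nat.card_eq_fintype_card]
    rfl
  rw [h4] at h3
  rw [mul_comm]
  exact h3

theorem iso_bd (h2 : (2 : k) ≠ 0) (hm : Odd m) {G H : Matrix (Fin m) (Fin m) k} (hG : Gᵀ = G)
    (hH : Hᵀ = H) (h0 : G.det ≠ 0) (h0' : H.det ≠ 0) :
    Nat.card {X : Matrix (Fin m) (Fin m) k // Xᵀ * G * X = H} *
      ((Nat.card k - 1) ^ m * Nat.card k ^ (m * (m - 1) / 2)) ≤ 2 * Nat.card k ^ (m * m) := by
  classical
  have hfin : Fintype k := Fintype.ofFinite k
  have h1 := snd k m
  have h3 := half h2 hm h0'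
  let B := {G' : Matrix (Fin m) (Fin m) k //
        G'ᵀ = G' ∧ G'.det ≠ 0 ∧ IsSquare (H.det * G'.det)}
  let N := {X : Matrix (Fin m) (Fin m) k // Xᵀ * G * X = H}
  have h4 : ∀ G' : B, ∃ P : Matrix (Fin m) (Fin m) k, P.det ≠ 0 ∧ Pᵀ * H * P = G'.1 := fun G' =>
    cls_ff h2 hH G'.2.1 h0' G'.2.2.1 G'.2.2.2
  choose P hP0 hP using h4
  have hinj : Function.Injective (fun p : N × B => p.1.1 * P p.2) := by
    rintro ⟨X, G1⟩ ⟨Y, G2⟩ h
    have h5 : X.1 * P G1 = Y.1 * P G2 := h
    have h6 : ∀ (Z : N) (G' : B), (Z.1 * P G')ᵀ * G * (Z.1 * P G') = G'.1 := by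
      intro Z G'
      rw [transpose_mul]
      calc (P G')ᵀ * Z.1ᵀ * G * (Z.1 * P G') = (P G')ᵀ * (Z.1ᵀ * G * Z.1) * P G' := by
            simp only [Matrix.mul_assoc]
        _ = G'.1 := by rw [Z.2, hP]
    have h7 : G1 = G2 := by
      apply Subtype.ext
      rw [← h6 X G1, ← h6 Y G2, h5]
    subst h7
    have h8 : X = Y := by
      apply Subtype.ext
      have hu : IsUnit (P G1).det := isUnit_iff_ne_zero.2 (hP0 G1)
      have h9 := congrArg (fun Z => Z * (P G1)⁻¹) h5
      simp only [Matrix.mul_assoc, mul_nonsing_inv _ hu, Matrix.mul_one] at h9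
      exact h9
    rw [h8]
  have h5 := Nat.card_le_card_of_injective _ hinj
  rw [Nat.card_prod] at h5
  have h6 : Nat.card (Matrix (Fin m) (Fin m) k) = Nat.card k ^ (m * m) := by
    rw [Nat.card_eq_fintype_card, Nat.card_eq_fintype_card]
    have h7 : Fintype.card (Fin m → Fin m → k) = Fintype.card k ^ (m * m) := by
      rw [Fintype.card_fun, Fintype.card_fun, Fintype.card_fin, ← pow_mul]
    exact h7
  rw [h6] at h5
  calc Nat.card N * ((Nat.card k - 1) ^ m * Nat.card k ^ (m * (m - 1) / 2))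
      ≤ Nat.card N * (2 * Nat.card B) := Nat.mul_le_mul_left _ (h1.trans h3)
    _ = 2 * (Nat.card N * Nat.card B) := by ring
    _ ≤ 2 * Nat.card k ^ (m * m) := Nat.mul_le_mul_left _ h5

end Pool.Agent.H3.GG
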