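import Pool.Agent.H3.GG.CO0

set_option autoImplicit false

/-!
# [H3 GG CO3] Cyclic vectors

* `ker_ne`: `p` irreducible, `p ∣ T.charpoly`: there is `w ≠ 0` with `p(T) w = 0`. PROOF: `k' = AdjoinRoot p` (a field), `α` the root;
  `α` is a root of the characteristic polynomial of `T' = T.map (algebraMap k k')`, so `det (α - T') = 0`
  (`Matrix.eval_charpoly`-type: `Matrix.eval_det`), there is `u ≠ 0` over `k'` with `T' u = α u`
  (`Matrix.exists_mulVec_eq_zero_iff`), so `p(T') u = p(α) u = 0`, `det p(T') = 0`, `det p(T) = 0`, so there is `w`.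
* `ann`: if `f = T.charpoly` is squarefree there is `w` such that for all `s ∈ k[x]`: `s(T) w = 0 → f ∣ s`. PROOF: write `f` as the product
  of different monic irreducible `p_1, .., p_r` (`UniqueFactorizationMonoid.normalizedFactors`, `Squarefree` : nodup);
  `w_i ≠ 0` with `p_i(T) w_i = 0`, `w = ∑ w_i`. Let `s(T) w = 0`, `i` fixed, `P_i = f / p_i` (product of the others): `P_i(T) s(T) w =
  P_i(T) s(T) w_i = 0` (`P_i(T) w_j = 0` for `j ≠ i`). `P_i` is prime to `p_i`, so if `p_i ∤ s` then `a P_i s + b p_i = 1` and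
  `w_i = a(T) P_i(T) s(T) w_i + b(T) p_i(T) w_i = 0`: contradiction. So `p_i ∣ s` for all `i`, `f ∣ s`.
  (Alternative: induction on the squarefree divisor `d ∣ f`: there is `w` with `s(T) w = 0 → d ∣ s` and `d(T) w = 0`.)
* `cyc_ex`: `(kr T w).det ≠ 0` for this `w` (`m ≥ 0`): otherwise there is `c ≠ 0` with `∑ c_j T ^ j w = 0` (`exists_mulVec_eq_zero_iff`):
  `s = ∑ c_j X ^ j ≠ 0` of degree `< m = deg f` (`Matrix.charpoly_natDegree_eq_dim`): contradiction.
* `ann_of`: conversely if `(kr T w).det ≠ 0` and `s(T) w = 0` then `T.charpoly ∣ s`: divide `s = f u + r`, `f(T) = 0` (Cayley-Hamilton,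
  `Matrix.aeval_self_charpoly`), so `r(T) w = 0`, `deg r < m`: the coefficients of `r` are a kernel vector of `kr T w`, `r = 0`.
-/

namespace Pool.Agent.H3.GG

open Polynomial Matrix
open Pool.Agent.H94.GG (tau)

variable {k : Type} [Field k] {m : ℕ}

private theorem act_eig {K : Type} [Field K] [Algebra k K] (T : Matrix (Fin m) (Fin m) K) {α : K}
    {u : Fin m → K} (hu : T *ᵥ u = α • u) (s : k[X]) : aeval T s *ᵥ u = aeval α s • u := by
  have hpow : ∀ n : ℕ, (T ^ n) *ᵥ u = α ^ n • u := by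
    intro n
    induction n with
    | zero => rw [pow_zero, pow_zero, one_mulVec, one_smul]
    | succ n ih =>
      rw [pow_succ, ← mulVec_mulVec, hu, mulVec_smul, ih, smul_smul, pow_succ, mul_comm]
  induction s using Polynomial.induction_on' with
  | add p q hp hq => rw [map_add, map_add, add_mulVec, hp, hq, add_smul]
  | monomial n a =>
    rw [aeval_monomial, aeval_monomial, ← mulVec_mulVec, hpow, mulVec_smul,
      Algebra.algebraMap_eq_smul_one, smul_mulVec, one_mulVec, Algebra.algebraMap_eq_smul_one,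
      smul_mul_assoc, one_mul, smul_assoc, smul_comm]

theorem ker_ne (T : Matrix (Fin m) (Fin m) k) {p : k[X]} (hp : Irreducible p)
    (hd : p ∣ T.charpoly) : ∃ w : Fin m → k, w ≠ 0 ∧ aeval T p *ᵥ w = 0 := by
  have hfact : Fact (Irreducible p) := ⟨hp⟩
  rw [exists_mulVec_eq_zero_iff]
  obtain ⟨q, hq⟩ := hd
  have h1 : (T.map (algebraMap k (AdjoinRoot p))).charpoly.eval (AdjoinRoot.root p) = 0 := by
    rw [Matrix.charpoly_map, hq, Polynomial.map_mul, eval_mul, eval_map]
    have h2 : eval₂ (algebraMap k (AdjoinRoot p)) (AdjoinRoot.root p) p = 0 :=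
      AdjoinRoot.eval₂_root p
    rw [h2, zero_mul]
  rw [Matrix.eval_charpoly, ← exists_mulVec_eq_zero_iff] at h1
  obtain ⟨u, hu, hu0⟩ := h1
  have h3 : (T.map (algebraMap k (AdjoinRoot p))) *ᵥ u = AdjoinRoot.root p • u := by
    rw [sub_mulVec, sub_eq_zero, scalar_apply, ← smul_one_eq_diagonal, smul_mulVec,
      one_mulVec] at hu0
    exact hu0.symm
  have h4 := act_eig (k := k) (T.map (algebraMap k (AdjoinRoot p))) h3 p
  have h5 : aeval (AdjoinRoot.root p) p = 0 := by
    rw [aeval_def]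
    exact AdjoinRoot.eval₂_root p
  rw [h5, zero_smul] at h4
  have h6 : (aeval (T.map (algebraMap k (AdjoinRoot p))) p).det = 0 :=
    exists_mulVec_eq_zero_iff.1 ⟨u, hu, h4⟩
  have h7 : aeval (T.map (algebraMap k (AdjoinRoot p))) p =
      (Algebra.ofId k (AdjoinRoot p)).mapMatrix (aeval T p) :=
    aeval_algHom_apply ((Algebra.ofId k (AdjoinRoot p)).mapMatrix) T p
  rw [h7] at h6
  have h8 : ((Algebra.ofId k (AdjoinRoot p)).mapMatrix (aeval T p)).det =
      algebraMap k (AdjoinRoot p) (aeval T p).det :=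
    (RingHom.map_det (algebraMap k (AdjoinRoot p)) (aeval T p)).symm
  rw [h8] at h6
  exact (map_eq_zero_iff _ (algebraMap k (AdjoinRoot p)).injective).1 h6

private theorem act_mul (T : Matrix (Fin m) (Fin m) k) (s t : k[X]) (w : Fin m → k) :
    aeval T (s * t) *ᵥ w = aeval T s *ᵥ (aeval T t *ᵥ w) := by
  rw [map_mul, mulVec_mulVec]

private theorem ann_ex (T : Matrix (Fin m) (Fin m) k) (hs : Squarefree T.charpoly) (d : k[X]) :
    d ∣ T.charpoly → ∃ w : Fin m → k, (∀ s : k[X], aeval T s *ᵥ w = 0 → d ∣ s) ∧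
      aeval T d *ᵥ w = 0 := by
  refine UniqueFactorizationMonoid.induction_on_prime (P := fun d => d ∣ T.charpoly →
    ∃ w : Fin m → k, (∀ s : k[X], aeval T s *ᵥ w = 0 → d ∣ s) ∧
      aeval T d *ᵥ w = 0) d ?_ ?_ ?_
  · intro h
    exact absurd (zero_dvd_iff.1 h) (Matrix.charpoly_monic T).ne_zero
  · intro x hx _
    exact ⟨0, fun s _ => hx.dvd, mulVec_zero _⟩
  · intro a p _ hp ih hpa
    obtain ⟨w, hw, hw0⟩ := ih ((dvd_mul_left a p).trans hpa)
    obtain ⟨u, hu, hu0⟩ := ker_ne T hp.irreducible ((dvd_mul_right p a).trans hpa)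
    have hnd : ¬ p ∣ a := by
      rintro ⟨b, rfl⟩
      apply hp.not_isUnit
      apply hs p
      rw [← mul_assoc] at hpa
      exact (dvd_mul_right _ b).trans hpa
    have hcop : IsCoprime p a := (hp.irreducible.coprime_iff_not_dvd).2 hnd
    refine ⟨w + u, fun s hsw => ?_, ?_⟩
    · have e1 : aeval T (p * s) *ᵥ w = 0 := by
        have h1 : aeval T (p * s) *ᵥ (w + u) = 0 := by
          rw [act_mul, hsw, mulVec_zero]
        rw [mulVec_add, mul_comm p s, act_mul T s p u, hu0, mulVec_zero, add_zero] at h1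
        rw [mul_comm p s]
        exact h1
      have h2 : a ∣ s := (hcop.symm).dvd_of_dvd_mul_left (hw _ e1)
      have e2 : aeval T (a * s) *ᵥ u = 0 := by
        have h1 : aeval T (a * s) *ᵥ (w + u) = 0 := by
          rw [act_mul, hsw, mulVec_zero]
        rw [mulVec_add, mul_comm a s, act_mul T s a w, hw0, mulVec_zero, zero_add] at h1
        rw [mul_comm a s]
        exact h1
      have h3 : p ∣ a * s := by
        by_contra hcon
        obtain ⟨x, y, hxy⟩ := (hp.irreducible.coprime_iff_not_dvd).2 hcon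
        apply hu
        have h4 : aeval T (x * p + y * (a * s)) *ᵥ u = 0 := by
          rw [map_add, add_mulVec, act_mul, act_mul, hu0, e2, mulVec_zero, mulVec_zero, add_zero]
        rw [hxy, map_one, one_mulVec] at h4
        exact h4
      have h5 : p ∣ s := (hp.dvd_or_dvd h3).resolve_left hnd
      exact hcop.mul_dvd h5 h2
    · rw [mulVec_add, act_mul T p a w, hw0, mulVec_zero, mul_comm p a, act_mul T a p u, hu0,
        mulVec_zero, add_zero]

private theorem kr_mulVec (T : Matrix (Fin m) (Fin m) k) (w c : Fin m → k) :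
    kr T w *ᵥ c = aeval T (∑ j : Fin m, C (c j) * X ^ (j : ℕ)) *ᵥ w := by
  rw [map_sum, sum_mulVec]
  ext i
  rw [Finset.sum_apply]
  simp only [kr, mulVec, dotProduct, of_apply]
  refine Finset.sum_congr rfl fun j _ => ?_
  rw [map_mul, map_pow, aeval_C, aeval_X, Algebra.algebraMap_eq_smul_one, smul_mul_assoc, one_mul,
    Finset.sum_mul]
  refine Finset.sum_congr rfl fun l _ => ?_
  rw [Matrix.smul_apply, smul_eq_mul]
  ring

private theorem poly_coeff (c : Fin m → k) (i : ℕ) :
    (∑ j : Fin m, C (c j) * X ^ (j : ℕ) : k[X]).coeff i = if h : i < m then c ⟨i, h⟩ else 0 := by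
  rw [finsetSum_coeff]
  simp only [coeff_C_mul_X_pow]
  split_ifs with h
  · rw [Finset.sum_eq_single (⟨i, h⟩ : Fin m)]
    · rw [if_pos rfl]
    · intro j _ hj
      rw [if_neg]
      intro h1
      exact hj (Fin.ext h1.symm)
    · intro h1
      exact absurd (Finset.mem_univ _) h1
  · refine Finset.sum_eq_zero fun j _ => ?_
    rw [if_neg]
    intro h1
    exact h (h1 ▸ j.2)

theorem cyc_ex (T : Matrix (Fin m) (Fin m) k) (hs : Squarefree T.charpoly) :
    ∃ w : Fin m → k, (kr T w).det ≠ 0 := by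
  obtain ⟨w, hw, _⟩ := ann_ex T hs _ dvd_rfl
  refine ⟨w, fun h0 => ?_⟩
  obtain ⟨c, hc, hc0⟩ := exists_mulVec_eq_zero_iff.2 h0
  rw [kr_mulVec] at hc0
  have h1 := hw _ hc0
  have hdeg : (∑ j : Fin m, C (c j) * X ^ (j : ℕ) : k[X]).degree < T.charpoly.degree := by
    rw [Matrix.charpoly_degree_eq_dim, Fintype.card_fin]
    refine (degree_lt_iff_coeff_zero _ _).2 fun i hi => ?_
    rw [poly_coeff, dif_neg (by omega)]
  have h2 := eq_zero_of_dvd_of_degree_lt h1 hdeg
  apply hc
  ext j
  have h3 := poly_coeff c (j : ℕ)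
  rw [h2, coeff_zero, dif_pos j.2] at h3
  exact h3.symm

theorem ann_of (T : Matrix (Fin m) (Fin m) k) {w : Fin m → k} (hw : (kr T w).det ≠ 0) {s : k[X]}
    (hs : aeval T s *ᵥ w = 0) : T.charpoly ∣ s := by
  have hmon := Matrix.charpoly_monic T
  rw [← modByMonic_eq_zero_iff_dvd hmon]
  have h1 : aeval T (s %ₘ T.charpoly) *ᵥ w = 0 := by
    have h2 := modByMonic_add_div s T.charpoly
    have h3 : s %ₘ T.charpoly = s - T.charpoly * (s /ₘ T.charpoly) := eq_sub_of_add_eq h2
    rw [h3, map_sub, map_mul, Matrix.aeval_self_charpoly, zero_mul, sub_zero]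
    exact hs
  have hco : ∀ i, m ≤ i → (s %ₘ T.charpoly).coeff i = 0 := by
    have h2 := degree_modByMonic_lt s hmon
    rw [Matrix.charpoly_degree_eq_dim, Fintype.card_fin] at h2
    exact (degree_lt_iff_coeff_zero _ _).1 h2
  have h4 : (∑ j : Fin m, C ((s %ₘ T.charpoly).coeff j) * X ^ (j : ℕ) : k[X]) =
      s %ₘ T.charpoly := by
    ext i
    rw [poly_coeff (fun j : Fin m => (s %ₘ T.charpoly).coeff j)]
    split_ifs with h
    · rfl
    · exact (hco i (by omega)).symm
  have h5 : kr T w *ᵥ (fun j : Fin m => (s %ₘ T.charpoly).coeff j) = 0 := by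
    rw [kr_mulVec, h4]
    exact h1
  have h6 := eq_zero_of_mulVec_eq_zero hw h5
  ext i
  rw [coeff_zero]
  by_cases h : i < m
  · exact congrFun h6 ⟨i, h⟩
  · exact hco i (by omega)

end Pool.Agent.H3.GG
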