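import Pool.Agent.H3.GG.CO3

/-!
# [H3 GG CO4] The number of the cyclic vectors

* `chr_T`: `Chr f G B`, `det G ≠ 0`: `T.charpoly = f` for `T = G⁻¹ B`: `x G - B = G (x - T)` (`G` mapped to `k[x]`),
  `Matrix.charpoly`, `charmatrix`; cancel `C G.det`.
* `cyc_card`: `f = T.charpoly` squarefree: the number of the `w` with `(kr T w).det ≠ 0` is at least the number of units of `k[x]/(f)`:
  fix `w₀` (`cyc_ex`); for a unit `u` with representative `p` let `w_u = p(T) w₀`. If `w_u = w_u'` then `(p - p')(T) w₀ = 0`, so `f ∣ p - p'`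
  (`ann_of`), `u = u'`. `w_u` is cyclic: if `s(T) w_u = 0` then `f ∣ s p`, `u` is a unit, so `f ∣ s`; as in `cyc_ex` this gives
  `(kr T w_u).det ≠ 0`. (`AdjoinRoot.mk f s * u = 0 → AdjoinRoot.mk f s = 0`.)
* `kr_inj`: `T`, `T'` with the same characteristic polynomial, `kr T w = kr T' w'`, `det ≠ 0`: `T = T'`, `w = w'` (`1 ≤ m`: the column
  `0`). `T * kr T w` has the columns `T ^ (j+1) w`, `j < m`: for `j + 1 < m` the column `j + 1` of `kr T w`, and for `j + 1 = m`
  `T ^ m w = - ∑ (coefficients of f) T ^ i w` by Cayley-Hamilton: the same combination of the columns. So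
  `T * kr T w = T' * kr T' w'`, cancel the invertible matrix.
-/

set_option autoImplicit false

namespace Pool.Agent.H3.GG

open Polynomial Matrix
open Pool.Agent.H94.GG (tau)

variable {k : Type} [Field k] {m : ℕ}

theorem chr_T {f : k[X]} {G B : Matrix (Fin m) (Fin m) k} (h0 : G.det ≠ 0) (hf : Chr f G B) :
    (G⁻¹ * B).charpoly = f := by
  have hu : IsUnit G.det := isUnit_iff_ne_zero.2 h0
  have h1 : (X : k[X]) • G.map C - B.map C = G.map C * (G⁻¹ * B).charmatrix := by
    unfold Matrix.charmatrix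
    rw [mul_sub]
    congr 1
    · rw [Matrix.scalar_apply, ← Matrix.smul_one_eq_diagonal, Matrix.mul_smul, mul_one]
    · have h2 : ∀ M : Matrix (Fin m) (Fin m) k, M.map C = (C : k →+* k[X]).mapMatrix M := fun M => rfl
      rw [h2, h2, ← map_mul, ← mul_assoc, Matrix.mul_nonsing_inv _ hu, one_mul]
  unfold Chr at hf
  rw [h1, Matrix.det_mul] at hf
  have h3 : (G.map C).det = C G.det := by
    rw [RingHom.map_det]
    rfl
  rw [h3] at hf
  exact mul_left_cancel₀ (C_ne_zero.2 h0) hf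

private theorem aeval_kr (T : Matrix (Fin m) (Fin m) k) (w c : Fin m → k) :
    aeval T (∑ j : Fin m, C (c j) * X ^ (j : ℕ)) *ᵥ w = kr T w *ᵥ c := by
  rw [map_sum, Matrix.sum_mulVec]
  ext i
  rw [Finset.sum_apply]
  unfold kr
  show _ = ∑ j : Fin m, ((T ^ (j : ℕ)) *ᵥ w) i * c j
  refine Finset.sum_congr rfl fun j _ => ?_
  rw [map_mul, aeval_C, map_pow, aeval_X, Algebra.algebraMap_eq_smul_one, smul_mul_assoc, one_mul,
    Matrix.smul_mulVec, Pi.smul_apply, smul_eq_mul, mul_comm]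

private theorem deg_lt (c : Fin m → k) :
    (∑ j : Fin m, C (c j) * X ^ (j : ℕ)).degree < (m : WithBot ℕ) :=
  degree_sum_fin_lt c

private theorem coeff_sum' (c : Fin m → k) (i : Fin m) :
    (∑ j : Fin m, C (c j) * X ^ (j : ℕ)).coeff i = c i := by
  rw [finsetSum_coeff, Finset.sum_eq_single i]
  · rw [coeff_C_mul_X_pow, if_pos rfl]
  · intro j _ hj
    rw [coeff_C_mul_X_pow, if_neg]
    intro h
    exact hj (Fin.ext h.symm)
  · intro h
    exact absurd (Finset.mem_univ _) h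

private theorem mul_act (T : Matrix (Fin m) (Fin m) k) (s p : k[X]) (w : Fin m → k) :
    aeval T (s * p) *ᵥ w = aeval T s *ᵥ (aeval T p *ᵥ w) := by
  rw [map_mul, Matrix.mulVec_mulVec]

theorem cyc_card [Finite k] (T : Matrix (Fin m) (Fin m) k) (hs : Squarefree T.charpoly) :
    Nat.card (AdjoinRoot T.charpoly)ˣ ≤ Nat.card {w : Fin m → k // (kr T w).det ≠ 0} := by
  obtain ⟨w₀, hw₀⟩ := cyc_ex T hs
  have hrep : ∀ u : (AdjoinRoot T.charpoly)ˣ, ∃ p : k[X], AdjoinRoot.mk T.charpoly p = u :=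
    fun u => AdjoinRoot.mk_surjective _
  choose p hp using hrep
  have hcyc : ∀ u, (kr T (aeval T (p u) *ᵥ w₀)).det ≠ 0 := by
    intro u h0
    obtain ⟨c, hc, hc0⟩ := Matrix.exists_mulVec_eq_zero_iff.2 h0
    rw [← aeval_kr, ← mul_act] at hc0
    have h1 := ann_of T hw₀ hc0
    rw [← AdjoinRoot.mk_eq_zero, map_mul, hp] at h1
    have h2 : AdjoinRoot.mk T.charpoly (∑ j : Fin m, C (c j) * X ^ (j : ℕ)) = 0 :=
      (Units.mul_left_eq_zero u).1 h1
    rw [AdjoinRoot.mk_eq_zero] at h2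
    have h3 : (∑ j : Fin m, C (c j) * X ^ (j : ℕ)) = 0 := by
      by_contra hne
      have h4 := Polynomial.degree_le_of_dvd h2 hne
      have h5 := deg_lt c
      rw [T.charpoly_degree_eq_dim, Fintype.card_fin] at h4
      exact absurd h5 (not_lt.2 h4)
    apply hc
    ext i
    rw [← coeff_sum' c i, h3, coeff_zero, Pi.zero_apply]
  refine Nat.card_le_card_of_injective (fun u => ⟨aeval T (p u) *ᵥ w₀, hcyc u⟩) ?_
  intro u u' huu
  have h1 : aeval T (p u) *ᵥ w₀ = aeval T (p u') *ᵥ w₀ := congrArg Subtype.val huu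
  have h2 : aeval T (p u - p u') *ᵥ w₀ = 0 := by
    rw [map_sub, Matrix.sub_mulVec, h1, sub_self]
  have h3 := ann_of T hw₀ h2
  have h4 : AdjoinRoot.mk T.charpoly (p u) = AdjoinRoot.mk T.charpoly (p u') :=
    AdjoinRoot.mk_eq_mk.2 h3
  rw [hp, hp] at h4
  exact Units.ext h4

private theorem ch_pow (T : Matrix (Fin m) (Fin m) k) :
    T ^ m = - ∑ i ∈ Finset.range m, T.charpoly.coeff i • T ^ i := by
  have h := T.aeval_self_charpoly
  rw [aeval_eq_sum_range, T.charpoly_natDegree_eq_dim, Fintype.card_fin, Finset.sum_range_succ] at h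
  have h1 : T.charpoly.coeff m = 1 := by
    have h2 := T.charpoly_monic
    rw [Monic, leadingCoeff, T.charpoly_natDegree_eq_dim, Fintype.card_fin] at h2
    exact h2
  rw [h1, one_smul] at h
  exact eq_neg_of_add_eq_zero_right h

theorem kr_inj (hm : 1 ≤ m) {T T' : Matrix (Fin m) (Fin m) k} (hT : T.charpoly = T'.charpoly)
    {w w' : Fin m → k} (h : kr T w = kr T' w') (h0 : (kr T w).det ≠ 0) : T = T' ∧ w = w' := by
  have hcol : ∀ j < m, T ^ j *ᵥ w = T' ^ j *ᵥ w' := by
    intro j hj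
    ext i
    exact congrFun (congrFun h i) ⟨j, hj⟩
  have hlast : T ^ m *ᵥ w = T' ^ m *ᵥ w' := by
    rw [ch_pow T, ch_pow T', Matrix.neg_mulVec, Matrix.neg_mulVec, Matrix.sum_mulVec, Matrix.sum_mulVec]
    congr 1
    refine Finset.sum_congr rfl fun j hj => ?_
    rw [Matrix.smul_mulVec, Matrix.smul_mulVec, hT, hcol j (Finset.mem_range.1 hj)]
  have hall : ∀ j ≤ m, T ^ j *ᵥ w = T' ^ j *ᵥ w' := by
    intro j hj
    rcases hj.lt_or_eq with h1 | h1
    · exact hcol j h1
    · rw [h1]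
      exact hlast
  have hmul : ∀ (S : Matrix (Fin m) (Fin m) k) (v : Fin m → k) (i j : Fin m),
      (S * kr S v) i j = (S ^ ((j : ℕ) + 1) *ᵥ v) i := by
    intro S v i j
    rw [pow_succ', ← Matrix.mulVec_mulVec]
    rfl
  have hprod : T * kr T w = T' * kr T w := by
    ext i j
    rw [hmul]
    rw [h, hmul, hall _ j.2]
  refine ⟨?_, ?_⟩
  · have hu : IsUnit (kr T w).det := isUnit_iff_ne_zero.2 h0
    have h2 := congrArg (fun M => M * (kr T w)⁻¹) hprod
    simp only [mul_assoc, Matrix.mul_nonsing_inv _ hu, mul_one] at h2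
    exact h2
  · have h2 := hcol 0 (by omega)
    rwa [pow_zero, pow_zero, Matrix.one_mulVec, Matrix.one_mulVec] at h2

end Pool.Agent.H3.GG
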