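import Pool.Agent.H3.GG.CO4

set_option autoImplicit false

/-!
# [H3 GG CO5] The Gram matrices of the cyclic bases are Hankel matrices

`G`, `B` symmetric, `det G ≠ 0`, `T = G⁻¹ B`, `f = T.charpoly`, `A = k[x]/(f)` (`f` monic of degree `m`: `charpoly_monic`).
* `sym_pow`: `w ⬝ G T ^ (i + j) w = (T ^ i w) ⬝ G (T ^ j w)`: `Tᵀ G = G T` (`G T = B`, `Tᵀ G = Bᵀ (G⁻¹)ᵀ G = B`).
* `rep_beta`: every `k`-linear `λ : A → k` is `τ(β ·)` for some `β ∈ A`: `β ↦ τ(β ·)` is injective (`tau_nd`) from `A` to its dual, of the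
  same dimension (`Module.Finite k A` from the power basis).
* `gram`: for every `w` there is `β ∈ A` with `(kr T w)ᵀ G (kr T w) = hk β`: `λ(p) = w ⬝ G p(T) w` is well defined on `A` (`f(T) = 0`;
  `AdjoinRoot.lift`-type: `A → Matrix`, `θ ↦ T`, `AdjoinRoot.liftAlgHom`/`Ideal.Quotient.lift` of `aeval T`).
* `hk_unit`: `(hk β).det ≠ 0` implies that `β` is a unit: otherwise `β z = 0` for some `z ≠ 0` in the finite-dimensional algebra `A`;
  the coefficients `c_j`, `j < m`, of the representative of `z` satisfy `∑ c_j τ(β θ ^ (i + j)) = τ(β z θ ^ i) = 0`.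
* `hk_inj`: `hk β = hk β'` gives `β = β'`: `tau_ext` (`i = 0`: `τ((β - β') θ ^ j) = 0` for `j < m`; `1 ≤ m`).
* `hk_smul`: `hk (c • β) = c • hk β`.
* `triv_hk`: `TrivC`-vector: if `w ⬝ G T ^ i w = [i + 1 = m]` for `i < m` then `(kr T w)ᵀ G (kr T w) = hk 1`: the `β` of `gram` has
  `τ(β θ ^ i) = τ(θ ^ i)` for `i < m` (`tau_pow`), so `β = 1` (`tau_ext`).
* `hk_one`: `(hk 1).det ≠ 0` (if `hk 1 c = 0` with `c ≠ 0` then `z = ∑ c_j θ ^ j ≠ 0` has `τ(z θ ^ i) = 0`).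
-/

namespace Pool.Agent.H3.GG

open Polynomial Matrix
open Pool.Agent.H94.GG (tau)

variable {k : Type} [Field k] {m : ℕ}

private theorem fin_ad {g : k[X]} (hg : g.Monic) : Module.Finite k (AdjoinRoot g) :=
  Module.Finite.of_basis (AdjoinRoot.powerBasis' hg).basis

private theorem tpow {G B : Matrix (Fin m) (Fin m) k} (hG : Gᵀ = G) (hB : Bᵀ = B) (h0 : G.det ≠ 0) (i : ℕ) :
    ((G⁻¹ * B) ^ i)ᵀ * G = G * (G⁻¹ * B) ^ i := by
  have hu : IsUnit G.det := isUnit_iff_ne_zero.2 h0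
  have h1 : (G⁻¹ * B)ᵀ * G = G * (G⁻¹ * B) := by
    rw [transpose_mul, hB, transpose_nonsing_inv, hG, Matrix.mul_assoc, nonsing_inv_mul G hu, Matrix.mul_one,
      ← Matrix.mul_assoc, mul_nonsing_inv G hu, Matrix.one_mul]
  rw [transpose_pow]
  induction i with
  | zero => rw [pow_zero, pow_zero, Matrix.one_mul, Matrix.mul_one]
  | succ i ih => rw [pow_succ, Matrix.mul_assoc, h1, ← Matrix.mul_assoc, ih, Matrix.mul_assoc, ← pow_succ]

private theorem gram_entry {G B : Matrix (Fin m) (Fin m) k} (hG : Gᵀ = G) (hB : Bᵀ = B) (h0 : G.det ≠ 0)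
    (w : Fin m → k) (i j : Fin m) : ((kr (G⁻¹ * B) w)ᵀ * G * kr (G⁻¹ * B) w) i j =
      w ⬝ᵥ ((G * (G⁻¹ * B) ^ ((i : ℕ) + j)) *ᵥ w) := by
  have h1 : ((kr (G⁻¹ * B) w)ᵀ * G * kr (G⁻¹ * B) w) i j =
      ((G⁻¹ * B) ^ (i : ℕ) *ᵥ w) ⬝ᵥ (G *ᵥ ((G⁻¹ * B) ^ (j : ℕ) *ᵥ w)) := by
    rw [Matrix.mul_assoc, Matrix.mul_apply']
    rfl
  rw [h1, ← vecMul_transpose, ← dotProduct_mulVec, mulVec_mulVec, tpow hG hB h0, mulVec_mulVec,
    Matrix.mul_assoc, ← pow_add]

private theorem repr_z {g : k[X]} (hg : g.Monic) (hm : g.natDegree = m) (z : AdjoinRoot g) :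
    ∃ c : Fin m → k, z = ∑ j : Fin m, c j • AdjoinRoot.root g ^ (j : ℕ) := by
  obtain ⟨q, rfl⟩ := AdjoinRoot.mk_surjective z
  have hqp : AdjoinRoot.mk g q = AdjoinRoot.mk g (q %ₘ g) := by
    rw [AdjoinRoot.mk_eq_mk]
    refine ⟨q /ₘ g, ?_⟩
    rw [sub_eq_iff_eq_add, add_comm]
    exact (modByMonic_add_div q g).symm
  have hdeg : (q %ₘ g).degree < ((m : ℕ) : WithBot ℕ) := by
    have h1 : (q %ₘ g).degree < g.degree := degree_modByMonic_lt q hg
    rwa [degree_eq_natDegree hg.ne_zero, hm] at h1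
  refine ⟨fun j => (q %ₘ g).coeff j, ?_⟩
  have h2 : q %ₘ g = ∑ j : Fin m, C ((q %ₘ g).coeff j) * X ^ (j : ℕ) := by
    ext n
    rw [finsetSum_coeff]
    simp only [coeff_C_mul_X_pow]
    by_cases hn : n < m
    · rw [Finset.sum_eq_single (⟨n, hn⟩ : Fin m)]
      · rw [if_pos rfl]
      · intro j _ hj
        rw [if_neg fun h => hj (Fin.ext h.symm)]
      · intro h
        exact absurd (Finset.mem_univ _) h
    · rw [Finset.sum_eq_zero]
      · exact coeff_eq_zero_of_degree_lt (hdeg.trans_le (by exact_mod_cast Nat.not_lt.1 hn))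
      · intro j _
        rw [if_neg]
        have := j.2
        omega
  rw [hqp]
  conv_lhs => rw [h2]
  rw [map_sum]
  refine Finset.sum_congr rfl fun j _ => ?_
  rw [map_mul, map_pow, AdjoinRoot.mk_X, AdjoinRoot.mk_C, Algebra.smul_def]
  rfl

/-- the Hankel matrix times a vector -/
private theorem hk_mulVec {g : k[X]} (hg : g.Monic) (β : AdjoinRoot g) (c : Fin m → k) (i : Fin m) :
    (hk hg m β *ᵥ c) i = tau hg (β * (∑ j : Fin m, c j • AdjoinRoot.root g ^ (j : ℕ)) *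
      AdjoinRoot.root g ^ (i : ℕ)) := by
  have h1 : β * (∑ j : Fin m, c j • AdjoinRoot.root g ^ (j : ℕ)) * AdjoinRoot.root g ^ (i : ℕ) =
      ∑ j : Fin m, c j • (β * AdjoinRoot.root g ^ ((i : ℕ) + j)) := by
    rw [Finset.mul_sum, Finset.sum_mul]
    refine Finset.sum_congr rfl fun j _ => ?_
    rw [mul_smul_comm, smul_mul_assoc, mul_assoc, ← pow_add, add_comm (j : ℕ)]
  rw [h1, map_sum, Matrix.mulVec]
  unfold dotProduct
  refine Finset.sum_congr rfl fun j _ => ?_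
  rw [map_smul, smul_eq_mul, mul_comm]
  rfl

theorem rep_beta {g : k[X]} (hg : g.Monic) (hm : 1 ≤ g.natDegree) (l : AdjoinRoot g →ₗ[k] k) :
    ∃ β : AdjoinRoot g, ∀ z, l z = tau hg (β * z) := by
  have hfin := fin_ad hg
  have hinj : Function.Injective ((LinearMap.mul k (AdjoinRoot g)).compr₂ (tau hg)) := by
    rw [← LinearMap.ker_eq_bot, LinearMap.ker_eq_bot']
    intro z hz
    refine tau_nd hg hm fun y => ?_
    exact congrArg (fun t : AdjoinRoot g →ₗ[k] k => t y) hz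
  have hsurj := (LinearMap.injective_iff_surjective_of_finrank_eq_finrank
    (f := (LinearMap.mul k (AdjoinRoot g)).compr₂ (tau hg)) (Subspace.dual_finrank_eq (K := k)).symm).1 hinj
  obtain ⟨β, hβ⟩ := hsurj l
  refine ⟨β, fun z => ?_⟩
  rw [← hβ]
  rfl

theorem gram (hm : 1 ≤ m) {G B : Matrix (Fin m) (Fin m) k} (hG : Gᵀ = G) (hB : Bᵀ = B)
    (h0 : G.det ≠ 0) (w : Fin m → k) : ∃ β : AdjoinRoot (G⁻¹ * B).charpoly,
    (kr (G⁻¹ * B) w)ᵀ * G * kr (G⁻¹ * B) w = hk (Matrix.charpoly_monic (G⁻¹ * B)) m β := by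
  obtain ⟨T, hT⟩ : ∃ T, T = G⁻¹ * B := ⟨_, rfl⟩
  have hent := gram_entry hG hB h0 w
  rw [← hT] at hent ⊢
  have hd : T.charpoly.natDegree = m := by
    rw [Matrix.charpoly_natDegree_eq_dim, Fintype.card_fin]
  let l0 : k[X] →ₗ[k] k :=
    { toFun := fun p => w ⬝ᵥ ((G * aeval T p) *ᵥ w)
      map_add' := fun p q => by rw [map_add, Matrix.mul_add, Matrix.add_mulVec, dotProduct_add]
      map_smul' := fun c p => by
        rw [map_smul, Matrix.mul_smul, Matrix.smul_mulVec, dotProduct_smul, RingHom.id_apply] }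
  obtain ⟨β, hβ⟩ := rep_beta (Matrix.charpoly_monic T) (by omega)
    (l0.comp (AdjoinRoot.modByMonicHom (Matrix.charpoly_monic T)))
  refine ⟨β, ?_⟩
  ext i j
  rw [hent]
  show _ = tau (Matrix.charpoly_monic T) (β * AdjoinRoot.root T.charpoly ^ ((i : ℕ) + j))
  rw [← hβ, LinearMap.comp_apply]
  have h1 : AdjoinRoot.root T.charpoly ^ ((i : ℕ) + j) =
      AdjoinRoot.mk T.charpoly (X ^ ((i : ℕ) + j)) := by
    rw [map_pow, AdjoinRoot.mk_X]
  rw [h1, AdjoinRoot.modByMonicHom_mk]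
  show _ = w ⬝ᵥ ((G * aeval T (X ^ ((i : ℕ) + j) %ₘ T.charpoly)) *ᵥ w)
  have h2 : aeval T (X ^ ((i : ℕ) + j) %ₘ T.charpoly) = T ^ ((i : ℕ) + j) := by
    have h3 := congrArg (aeval T) (modByMonic_add_div (X ^ ((i : ℕ) + j)) T.charpoly)
    rw [map_add, map_mul, Matrix.aeval_self_charpoly, zero_mul, add_zero, map_pow, aeval_X] at h3
    exact h3
  rw [h2]

theorem hk_unit {g : k[X]} (hg : g.Monic) (hm : g.natDegree = m) {β : AdjoinRoot g}
    (h : (hk hg m β).det ≠ 0) : IsUnit β := by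
  have hfin := fin_ad hg
  have hinj : Function.Injective (LinearMap.mulLeft k β) := by
    rw [← LinearMap.ker_eq_bot, LinearMap.ker_eq_bot']
    intro z hz
    rw [LinearMap.mulLeft_apply] at hz
    obtain ⟨c, hc⟩ := repr_z hg hm z
    have h1 : hk hg m β *ᵥ c = 0 := by
      ext i
      rw [hk_mulVec, ← hc, hz, zero_mul, map_zero]
      rfl
    have h2 := Matrix.eq_zero_of_mulVec_eq_zero h h1
    rw [hc, h2]
    simp
  obtain ⟨z, hz⟩ := (LinearMap.injective_iff_surjective (f := LinearMap.mulLeft k β)).1 hinj 1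
  rw [LinearMap.mulLeft_apply] at hz
  exact IsUnit.of_mul_eq_one z hz

theorem hk_inj {g : k[X]} (hg : g.Monic) (hm : g.natDegree = m) (hm1 : 1 ≤ m)
    {β β' : AdjoinRoot g} (h : hk hg m β = hk hg m β') : β = β' := by
  rw [← sub_eq_zero]
  refine tau_ext hg (by omega) fun i hi => ?_
  have h1 : tau hg (β * AdjoinRoot.root g ^ (0 + i)) = tau hg (β' * AdjoinRoot.root g ^ (0 + i)) :=
    congrFun (congrFun h ⟨0, hm1⟩) ⟨i, by omega⟩
  rw [zero_add] at h1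
  rw [sub_mul, map_sub, h1, sub_self]

theorem hk_smul {g : k[X]} (hg : g.Monic) (c : k) (β : AdjoinRoot g) :
    hk hg m (c • β) = c • hk hg m β := by
  ext i j
  show tau hg (c • β * AdjoinRoot.root g ^ ((i : ℕ) + j)) = c * tau hg (β * AdjoinRoot.root g ^ ((i : ℕ) + j))
  rw [smul_mul_assoc, map_smul, smul_eq_mul]

theorem hk_one {g : k[X]} (hg : g.Monic) (hm : g.natDegree = m) (hm1 : 1 ≤ m) :
    (hk hg m (1 : AdjoinRoot g)).det ≠ 0 := by
  intro h
  obtain ⟨c, hc0, hc⟩ := Matrix.exists_mulVec_eq_zero_iff.2 h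
  have h1 : ∑ j : Fin m, c j • AdjoinRoot.root g ^ (j : ℕ) = 0 := by
    refine tau_ext hg (by omega) fun i hi => ?_
    have h2 := hk_mulVec hg 1 c ⟨i, by omega⟩
    rw [hc, one_mul] at h2
    exact h2.symm
  have h2 : AdjoinRoot.mk g (∑ j : Fin m, C (c j) * X ^ (j : ℕ)) = 0 := by
    rw [map_sum, ← h1]
    refine Finset.sum_congr rfl fun j _ => ?_
    rw [map_mul, map_pow, AdjoinRoot.mk_X, AdjoinRoot.mk_C, Algebra.smul_def]
    rfl
  rw [AdjoinRoot.mk_eq_zero] at h2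
  have h3 : (∑ j : Fin m, C (c j) * X ^ (j : ℕ)) = 0 := by
    refine eq_zero_of_dvd_of_degree_lt h2 ?_
    rw [degree_eq_natDegree hg.ne_zero, hm]
    refine lt_of_le_of_lt (degree_sum_le _ _) ?_
    rw [Finset.sup_lt_iff (by exact_mod_cast WithBot.bot_lt_coe m)]
    intro j _
    exact (degree_C_mul_X_pow_le _ _).trans_lt (by exact_mod_cast j.2)
  apply hc0
  funext i
  have h4 := congrArg (fun p : k[X] => p.coeff i) h3
  simp only [finsetSum_coeff, coeff_C_mul_X_pow, coeff_zero] at h4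
  rw [Finset.sum_eq_single i] at h4
  · rw [if_pos rfl] at h4
    exact h4
  · intro j _ hj
    rw [if_neg fun h => hj (Fin.ext h.symm)]
  · intro h5
    exact absurd (Finset.mem_univ _) h5

theorem triv_hk (hm : 1 ≤ m) {G B : Matrix (Fin m) (Fin m) k} (hG : Gᵀ = G) (hB : Bᵀ = B)
    (h0 : G.det ≠ 0) (w : Fin m → k)
    (hw : ∀ i < m, w ⬝ᵥ ((G * (G⁻¹ * B) ^ i) *ᵥ w) = if i + 1 = m then 1 else 0) :
    (kr (G⁻¹ * B) w)ᵀ * G * kr (G⁻¹ * B) w = hk (Matrix.charpoly_monic (G⁻¹ * B)) m 1 := by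
  obtain ⟨β, hβ⟩ := gram hm hG hB h0 w
  have hd : (G⁻¹ * B).charpoly.natDegree = m := by
    rw [Matrix.charpoly_natDegree_eq_dim, Fintype.card_fin]
  have h1 : β = 1 := by
    rw [← sub_eq_zero]
    refine tau_ext (Matrix.charpoly_monic (G⁻¹ * B)) (by omega) fun i hi => ?_
    have hi' : i < m := by omega
    have h2 : w ⬝ᵥ ((G * (G⁻¹ * B) ^ (0 + i)) *ᵥ w) = tau (Matrix.charpoly_monic (G⁻¹ * B))
        (β * AdjoinRoot.root (G⁻¹ * B).charpoly ^ (0 + i)) := by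
      rw [← gram_entry hG hB h0 w ⟨0, hm⟩ ⟨i, hi'⟩, hβ]
      rfl
    rw [zero_add, hw i hi'] at h2
    rw [sub_mul, one_mul, map_sub, ← h2, tau_pow _ i hi, hd, sub_self]
  rw [hβ, h1]

end Pool.Agent.H3.GG
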