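import Pool.Agent.H3.GG.CO2
import Pool.Agent.H3.GG.CO5

set_option autoImplicit false

/-!
# [H3 GG CO6] Bound for the number of the `B` with given characteristic polynomial

`f` monic squarefree of degree `m`, `m` odd, `G` symmetric, `det G ≠ 0`, `Bs = {B | Bᵀ = B, Chr f G B}`, `T_B = G⁻¹ B`,
`T_B.charpoly = f` (`chr_T`; `A = k[x]/(f)`, use `subst`/`▸` or state `gram` for `f` with `T.charpoly = f`).
* `Hs = {hk β | β ∈ Aˣ, det G * det (hk β) a nonzero square}`: `2 #Hs ≤ #Aˣ`: for a nonsquare `ε` the sets `Hs` and `ε • Hs` are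
  disjoint subsets of `{hk β | β ∈ Aˣ}` (`hk_smul`, `det (ε H) = ε ^ m det H`, `m` odd), of the same cardinality, and
  `β ↦ hk β` is injective.
* `(B, w) ↦ X = kr T_B w`, for `B ∈ Bs`, `(kr T_B w).det ≠ 0`, is injective (`kr_inj`; `B = G T_B`) with `Xᵀ G X ∈ Hs` (`gram`, `hk_unit`;
  the determinant is `det G * (det X) ^ 2`). So `#Bs * #Aˣ ≤ ∑ B, #{w cyclic} ≤ ∑ (H ∈ Hs) #{X | Xᵀ G X = H}` (`cyc_card`), and
  each term times `(q - 1) ^ m q ^ (m (m - 1) / 2)` is at most `2 q ^ (m m)` (`iso_bd`). Hence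
  `#Bs * #Aˣ * (q - 1) ^ m q ^ (..) ≤ #Hs * 2 q ^ (m m) ≤ #Aˣ q ^ (m m)`, cancel `#Aˣ > 0`.
-/

namespace Pool.Agent.H3.GG

open Polynomial Matrix
open Pool.Agent.H94.GG (tau)

variable {k : Type} [Field k] [Finite k] {m : ℕ}

private theorem char_ne (h2 : (2 : k) ≠ 0) : ringChar k ≠ 2 := by
  intro h
  apply h2
  have h1 : ((2 : ℕ) : k) = 0 := (ringChar.spec k 2).2 (by rw [h])
  exact_mod_cast h1

private theorem hk_symm {f : k[X]} (hf : f.Monic) (β : AdjoinRoot f) : (hk hf m β)ᵀ = hk hf m β := by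
  ext i j
  rw [Matrix.transpose_apply]
  unfold hk
  rw [Matrix.of_apply, Matrix.of_apply, add_comm]

theorem hs_half (h2 : (2 : k) ≠ 0) (hm : Odd m) {f : k[X]} (hf : f.Monic) (hd : f.natDegree = m)
    {G : Matrix (Fin m) (Fin m) k} (h0 : G.det ≠ 0) :
    2 * Nat.card {H : Matrix (Fin m) (Fin m) k // (∃ β : (AdjoinRoot f)ˣ, H = hk hf m (β : AdjoinRoot f)) ∧
      H.det ≠ 0 ∧ IsSquare (G.det * H.det)} ≤ Nat.card (AdjoinRoot f)ˣ := by
  classical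
  have hm1 : 1 ≤ m := hm.pos
  have : Module.Finite k (AdjoinRoot f) := hf.finite_adjoinRoot
  have : Finite (AdjoinRoot f) := Module.finite_of_finite k
  have : Fintype k := Fintype.ofFinite k
  obtain ⟨ε, hε⟩ := FiniteField.exists_nonsquare (char_ne h2)
  have hε0 : ε ≠ 0 := by
    rintro rfl
    exact hε (IsSquare.zero)
  obtain ⟨εu, hεu⟩ : ∃ u : (AdjoinRoot f)ˣ, (u : AdjoinRoot f) = algebraMap k (AdjoinRoot f) ε :=
    ⟨Units.map (algebraMap k (AdjoinRoot f)).toMonoidHom (Units.mk0 ε hε0), rfl⟩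
  rw [two_mul, ← Nat.card_sum]
  choose β hβ using fun H : {H : Matrix (Fin m) (Fin m) k //
    (∃ β : (AdjoinRoot f)ˣ, H = hk hf m (β : AdjoinRoot f)) ∧ H.det ≠ 0 ∧
      IsSquare (G.det * H.det)} => H.2.1
  have hβ' : ∀ H H', β H = β H' → H = H' := by
    intro H H' h
    apply Subtype.ext
    rw [hβ H, hβ H', h]
  have hcross : ∀ H H', β H ≠ εu * β H' := by
    intro H H' h
    have h1 : H.1 = ε • H'.1 := by
      conv_lhs => rw [hβ H]
      conv_rhs => rw [hβ H']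
      rw [← hk_smul, h, Units.val_mul, hεu, Algebra.smul_def]
    obtain ⟨a, ha⟩ := H.2.2.2
    obtain ⟨b, hb⟩ := H'.2.2.2
    have hb0 : b ≠ 0 := by
      rintro rfl
      rw [mul_zero] at hb
      exact mul_ne_zero h0 H'.2.2.1 hb
    rw [h1, Matrix.det_smul, Fintype.card_fin, mul_left_comm, hb] at ha
    obtain ⟨j, hj⟩ := hm
    apply hε
    have hε1 : ε ^ j ≠ 0 := pow_ne_zero _ hε0
    refine ⟨a / (b * ε ^ j), ?_⟩
    rw [div_mul_div_comm, ← ha, eq_div_iff (mul_ne_zero (mul_ne_zero hb0 hε1) (mul_ne_zero hb0 hε1)), hj]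
    ring
  refine Nat.card_le_card_of_injective (Sum.elim β (fun H => εu * β H)) ?_
  rintro (H | H) (H' | H') h
  · rw [hβ' H H' h]
  · exact absurd h (hcross H H')
  · exact absurd h.symm (hcross H' H)
  · rw [hβ' H H' (mul_left_cancel h)]

theorem cnt_a (h2 : (2 : k) ≠ 0) (hm : Odd m) {f : k[X]} (hf : f.Monic) (hd : f.natDegree = m)
    (hs : Squarefree f) {G : Matrix (Fin m) (Fin m) k} (hG : Gᵀ = G) (h0 : G.det ≠ 0) :
    Nat.card {B : Matrix (Fin m) (Fin m) k // Bᵀ = B ∧ Chr f G B} *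
      ((Nat.card k - 1) ^ m * Nat.card k ^ (m * (m - 1) / 2)) ≤ Nat.card k ^ (m * m) := by
  classical
  have hm1 : 1 ≤ m := hm.pos
  have : Module.Finite k (AdjoinRoot f) := hf.finite_adjoinRoot
  have : Finite (AdjoinRoot f) := Module.finite_of_finite k
  obtain ⟨W, hW⟩ : ∃ W, W = (Nat.card k - 1) ^ m * Nat.card k ^ (m * (m - 1) / 2) := ⟨_, rfl⟩
  rw [← hW]
  have hT : ∀ B : {B : Matrix (Fin m) (Fin m) k // Bᵀ = B ∧ Chr f G B},
      (G⁻¹ * B.1).charpoly = f := fun B => chr_T h0 B.2.2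
  have hgram : ∀ (f : k[X]) (hf : f.Monic) (B : Matrix (Fin m) (Fin m) k), Bᵀ = B →
      (G⁻¹ * B).charpoly = f → ∀ w, ∃ β : AdjoinRoot f,
        (kr (G⁻¹ * B) w)ᵀ * G * kr (G⁻¹ * B) w = hk hf m β := by
    intro f hf B hB h w
    subst h
    exact gram hm1 hG hB h0 w
  have hcyc : ∀ (f : k[X]) (T : Matrix (Fin m) (Fin m) k), Squarefree f → T.charpoly = f →
      Nat.card (AdjoinRoot f)ˣ ≤ Nat.card {w : Fin m → k // (kr T w).det ≠ 0} := by
    intro f T hs h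
    subst h
    exact cyc_card T hs
  -- the map
  have hmem : ∀ (B : {B : Matrix (Fin m) (Fin m) k // Bᵀ = B ∧ Chr f G B}) (w : Fin m → k),
      (kr (G⁻¹ * B.1) w).det ≠ 0 →
      (∃ β : (AdjoinRoot f)ˣ, (kr (G⁻¹ * B.1) w)ᵀ * G * kr (G⁻¹ * B.1) w =
        hk hf m (β : AdjoinRoot f)) ∧ ((kr (G⁻¹ * B.1) w)ᵀ * G * kr (G⁻¹ * B.1) w).det ≠ 0 ∧
        IsSquare (G.det * ((kr (G⁻¹ * B.1) w)ᵀ * G * kr (G⁻¹ * B.1) w).det) := by
    intro B w hw
    have hdet : ((kr (G⁻¹ * B.1) w)ᵀ * G * kr (G⁻¹ * B.1) w).det =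
        G.det * (kr (G⁻¹ * B.1) w).det ^ 2 := by
      rw [Matrix.det_mul, Matrix.det_mul, Matrix.det_transpose]
      ring
    have hne : ((kr (G⁻¹ * B.1) w)ᵀ * G * kr (G⁻¹ * B.1) w).det ≠ 0 := by
      rw [hdet]
      exact mul_ne_zero h0 (pow_ne_zero _ hw)
    obtain ⟨β, hβ⟩ := hgram f hf B.1 B.2.1 (hT B) w
    have hu : IsUnit β := by
      refine hk_unit hf hd (β := β) ?_
      rw [← hβ]
      exact hne
    obtain ⟨u, rfl⟩ := hu
    refine ⟨⟨u, hβ⟩, hne, ⟨G.det * (kr (G⁻¹ * B.1) w).det, ?_⟩⟩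
    rw [hdet]
    ring
  obtain ⟨Φ, hΦ⟩ : ∃ Φ : ((B : {B : Matrix (Fin m) (Fin m) k // Bᵀ = B ∧ Chr f G B}) ×
      {w : Fin m → k // (kr (G⁻¹ * B.1) w).det ≠ 0}) →
      ((H : {H : Matrix (Fin m) (Fin m) k // (∃ β : (AdjoinRoot f)ˣ, H = hk hf m (β : AdjoinRoot f)) ∧
      H.det ≠ 0 ∧ IsSquare (G.det * H.det)}) × {X : Matrix (Fin m) (Fin m) k // Xᵀ * G * X = H.1}),
      ∀ p, (Φ p).2.1 = kr (G⁻¹ * p.1.1) p.2.1 :=
    ⟨fun p => ⟨⟨_, hmem p.1 p.2.1 p.2.2⟩, ⟨kr (G⁻¹ * p.1.1) p.2.1, rfl⟩⟩, fun p => rfl⟩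
  have hinj : Function.Injective Φ := by
    rintro ⟨B, w⟩ ⟨B', w'⟩ h
    have h1 : kr (G⁻¹ * B.1) w.1 = kr (G⁻¹ * B'.1) w'.1 := by
      rw [← hΦ ⟨B, w⟩, ← hΦ ⟨B', w'⟩, h]
    obtain ⟨h3, h4⟩ := kr_inj hm1 ((hT B).trans (hT B').symm) h1 w.2
    have h5 : B = B' := by
      apply Subtype.ext
      have h6 : G * (G⁻¹ * B.1) = G * (G⁻¹ * B'.1) := by rw [h3]
      rwa [← mul_assoc, ← mul_assoc, Matrix.mul_nonsing_inv G (isUnit_iff_ne_zero.2 h0),
        one_mul, one_mul] at h6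
    subst h5
    have h6 : w = w' := Subtype.ext h4
    rw [h6]
  have hcard := Nat.card_le_card_of_injective Φ hinj
  have : Fintype {B : Matrix (Fin m) (Fin m) k // Bᵀ = B ∧ Chr f G B} := Fintype.ofFinite _
  have : Fintype {H : Matrix (Fin m) (Fin m) k // (∃ β : (AdjoinRoot f)ˣ,
    H = hk hf m (β : AdjoinRoot f)) ∧ H.det ≠ 0 ∧ IsSquare (G.det * H.det)} := Fintype.ofFinite _
  rw [Nat.card_sigma, Nat.card_sigma] at hcard
  have h1 : Nat.card {B : Matrix (Fin m) (Fin m) k // Bᵀ = B ∧ Chr f G B} *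
      Nat.card (AdjoinRoot f)ˣ ≤ ∑ B : {B : Matrix (Fin m) (Fin m) k // Bᵀ = B ∧ Chr f G B},
        Nat.card {w : Fin m → k // (kr (G⁻¹ * B.1) w).det ≠ 0} := by
    have h2 := Finset.card_nsmul_le_sum (Finset.univ : Finset {B : Matrix (Fin m) (Fin m) k //
      Bᵀ = B ∧ Chr f G B}) (fun B => Nat.card {w : Fin m → k // (kr (G⁻¹ * B.1) w).det ≠ 0})
      (Nat.card (AdjoinRoot f)ˣ) (fun B _ => hcyc f _ hs (hT B))
    rwa [smul_eq_mul, Finset.card_univ, ← Nat.card_eq_fintype_card] at h2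
  have h3 : (∑ H : {H : Matrix (Fin m) (Fin m) k // (∃ β : (AdjoinRoot f)ˣ,
      H = hk hf m (β : AdjoinRoot f)) ∧ H.det ≠ 0 ∧ IsSquare (G.det * H.det)},
        Nat.card {X : Matrix (Fin m) (Fin m) k // Xᵀ * G * X = H.1}) * W ≤
      Nat.card {H : Matrix (Fin m) (Fin m) k // (∃ β : (AdjoinRoot f)ˣ,
      H = hk hf m (β : AdjoinRoot f)) ∧ H.det ≠ 0 ∧ IsSquare (G.det * H.det)} *
        (2 * Nat.card k ^ (m * m)) := by
    rw [Finset.sum_mul]
    have h4 := Finset.sum_le_card_nsmul (Finset.univ : Finset {H : Matrix (Fin m) (Fin m) k //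
      (∃ β : (AdjoinRoot f)ˣ, H = hk hf m (β : AdjoinRoot f)) ∧ H.det ≠ 0 ∧
      IsSquare (G.det * H.det)}) (fun H => Nat.card {X : Matrix (Fin m) (Fin m) k //
        Xᵀ * G * X = H.1} * W) (2 * Nat.card k ^ (m * m)) (fun H _ => by
        obtain ⟨β, hβ⟩ := H.2.1
        have hH : H.1ᵀ = H.1 := by
          rw [hβ]
          exact hk_symm hf _
        have h5 := iso_bd h2 hm hG hH h0 H.2.2.1
        rw [hW]
        exact h5)
    rwa [smul_eq_mul, Finset.card_univ, ← Nat.card_eq_fintype_card] at h4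
  have h6 := hs_half h2 hm hf hd h0
  have hA : 0 < Nat.card (AdjoinRoot f)ˣ := Nat.card_pos
  have h7 : Nat.card {B : Matrix (Fin m) (Fin m) k // Bᵀ = B ∧ Chr f G B} *
      Nat.card (AdjoinRoot f)ˣ * W ≤ Nat.card (AdjoinRoot f)ˣ * Nat.card k ^ (m * m) := by
    refine (Nat.mul_le_mul_right W (h1.trans hcard)).trans (h3.trans ?_)
    have h8 := Nat.mul_le_mul_right (Nat.card k ^ (m * m)) h6
    refine le_trans (le_of_eq ?_) h8
    ring
  refine Nat.le_of_mul_le_mul_left (le_trans (le_of_eq ?_) h7) hA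
  ring

end Pool.Agent.H3.GG
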