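import Pool.Agent.H3.GG.CO2
import Pool.Agent.H3.GG.CO5
import Pool.Agent.H3.GG.CDefs

set_option autoImplicit false

/-!
# [H3 GG CO7] Bound for the number of the `B` with trivial class

`f = (X - c) p`, `p` irreducible monic, `p(c) ≠ 0`, `deg f = m`.
* `four`: there is `e ∈ A = k[x]/(f)` with `e ^ 2 = 1`, `e ≠ 1`, `e ≠ -1`: `a (X - c) + b p = 1`, `e = 1 - 2 b p` (`e ≡ 1` modulo `p`, `≡ -1`
  modulo `X - c`); `e ^ 2 - 1 = 4 b p (b p - 1) = - 4 a b (X - c) p = 0`; if `e = 1` then `f ∣ 2 b p`, so `X - c ∣ b p`, with `b p ≡ 1`: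
  contradiction; if `e = -1`: `f ∣ 2 (1 - b p) = 2 a (X - c)`, so `p ∣ a (X - c) ≡ 1` modulo `p`: contradiction (`p` not a unit).
* `f` is squarefree. For each `B` symmetric with `Chr f G B` and `TrivC G B` choose `w` as in `TrivC`; the four vectors
  `u(T) w`, `u ∈ {1, -1, e, -e}` (representatives), have `(kr T (u(T) w))ᵀ G (kr T (u(T) w)) = hk (u ^ 2 β) = hk 1`: directly:
  `(u(T) w) ⬝ G T ^ i (u(T) w) = w ⬝ G T ^ i u(T) ^ 2 w` and `u(T) ^ 2 = 1` (`u ^ 2 - 1` divisible by `f`, `f(T) = 0`); `triv_hk`.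
  They are different: `(u - u')(T) w = 0` gives `f ∣ u - u'` (`ann_of`; `(kr T w).det ≠ 0` by `hk_one`). The matrices `kr T (u(T) w)` are
  different for different `(B, u)` (`kr_inj`). So `4 #{B} ≤ #{X | Xᵀ G X = hk 1}`, and `iso_bd`.
-/

namespace Pool.Agent.H3.GG

open Polynomial Matrix
open Pool.Agent.H94.GG (tau)

variable {k : Type} [Field k] {m : ℕ}

theorem four (h2 : (2 : k) ≠ 0) {c : k} {p : k[X]} (hp : Irreducible p) (hc : p.eval c ≠ 0) :
    ∃ e : AdjoinRoot ((X - C c) * p), e ^ 2 = 1 ∧ e ≠ 1 ∧ e ≠ -1 := by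
  have hcop : IsCoprime (X - C c) p := by
    rw [(irreducible_X_sub_C c).coprime_iff_not_dvd, dvd_iff_isRoot]
    exact hc
  obtain ⟨a, b, hab⟩ := hcop
  have hev : b.eval c * p.eval c = 1 := by
    have h := congrArg (eval c) hab
    rw [eval_add, eval_mul, eval_mul, eval_sub, eval_X, eval_C, sub_self, mul_zero, zero_add, eval_one] at h
    exact h
  refine ⟨AdjoinRoot.mk _ (1 - 2 * (b * p)), ?_, ?_, ?_⟩
  · rw [← sub_eq_zero, ← map_pow, ← map_one (AdjoinRoot.mk ((X - C c) * p)), ← map_sub, AdjoinRoot.mk_eq_zero]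
    refine ⟨-4 * (a * b), ?_⟩
    have h1 : b * p = 1 - a * (X - C c) := by rw [← hab]; ring
    calc (1 - 2 * (b * p)) ^ 2 - 1 = -4 * (b * p) * (1 - b * p) := by ring
      _ = -4 * (b * p) * (a * (X - C c)) := by rw [← hab]; ring
      _ = _ := by ring
  · intro h
    rw [← sub_eq_zero, ← map_one (AdjoinRoot.mk ((X - C c) * p)), ← map_sub, AdjoinRoot.mk_eq_zero] at h
    obtain ⟨d, hd⟩ := h
    have h1 := congrArg (eval c) hd
    simp only [eval_sub, eval_one, eval_mul, eval_X, eval_C, eval_ofNat, sub_self, zero_mul, hev] at h1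
    apply h2
    linear_combination -h1
  · intro h
    rw [← sub_eq_zero, ← map_one (AdjoinRoot.mk ((X - C c) * p)), ← map_neg, ← map_sub, AdjoinRoot.mk_eq_zero] at h
    have h1 : p ∣ 1 - 2 * (b * p) - -1 := (Dvd.intro_left _ rfl).trans h
    have h3 : p ∣ C 2 := by
      have h4 : (C 2 : k[X]) = (1 - 2 * (b * p) - -1) + p * (2 * b) := by
        have h5 : (C 2 : k[X]) = 2 := by
          rw [← one_add_one_eq_two, C_add, C_1, one_add_one_eq_two]
        rw [h5]
        ring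
      rw [h4]
      exact dvd_add h1 (Dvd.intro _ rfl)
    exact hp.not_isUnit (isUnit_of_dvd_unit h3 (isUnit_C.2 (isUnit_iff_ne_zero.2 h2)))

private theorem co_sym {G B : Matrix (Fin m) (Fin m) k} (hG : Gᵀ = G) (hB : Bᵀ = B) (h0 : G.det ≠ 0) :
    (G⁻¹ * B)ᵀ * G = G * (G⁻¹ * B) := by
  have hu : IsUnit G.det := isUnit_iff_ne_zero.2 h0
  rw [transpose_mul, transpose_nonsing_inv, hG, hB, mul_assoc, nonsing_inv_mul _ hu, mul_one,
    mul_nonsing_inv_cancel_left _ _ hu]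

private theorem co_pow {G T : Matrix (Fin m) (Fin m) k} (h : Tᵀ * G = G * T) (n : ℕ) :
    (T ^ n)ᵀ * G = G * T ^ n := by
  induction n with
  | zero => simp
  | succ n ih =>
    rw [pow_succ, transpose_mul, mul_assoc, ih, ← mul_assoc, h, mul_assoc, ← pow_succ', ← pow_succ]

private theorem co_pol {G T : Matrix (Fin m) (Fin m) k} (h : Tᵀ * G = G * T) (u : k[X]) :
    (aeval T u)ᵀ * G = G * aeval T u := by
  induction u using Polynomial.induction_on' with
  | add a b ha hb => rw [map_add, transpose_add, add_mul, ha, hb, mul_add]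
  | monomial n a =>
    rw [aeval_monomial, Algebra.algebraMap_eq_smul_one, smul_mul_assoc, one_mul, transpose_smul,
      smul_mul_assoc, co_pow h, mul_smul_comm]

private theorem co_val {G T : Matrix (Fin m) (Fin m) k} (h : Tᵀ * G = G * T) {u : k[X]}
    (hu : aeval T u * aeval T u = 1) (w : Fin m → k) (j : ℕ) :
    (aeval T u *ᵥ w) ⬝ᵥ ((G * T ^ j) *ᵥ (aeval T u *ᵥ w)) = w ⬝ᵥ ((G * T ^ j) *ᵥ w) := by
  have h1 : ∀ x : Fin m → k, (aeval T u *ᵥ w) ⬝ᵥ x = w ⬝ᵥ ((aeval T u)ᵀ *ᵥ x) := by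
    intro x
    rw [dotProduct_mulVec, vecMul_transpose]
  rw [h1, mulVec_mulVec, mulVec_mulVec]
  congr 2
  have h2 : aeval T u * T ^ j = T ^ j * aeval T u := by
    have h3 : T ^ j = aeval T (X ^ j : k[X]) := by rw [map_pow, aeval_X]
    rw [h3, ← map_mul, ← map_mul, mul_comm]
  calc (aeval T u)ᵀ * (G * T ^ j) * aeval T u = ((aeval T u)ᵀ * G) * (T ^ j * aeval T u) := by
        simp only [mul_assoc]
    _ = G * (aeval T u * T ^ j) * aeval T u := by rw [co_pol h]; simp only [mul_assoc]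
    _ = G * T ^ j * (aeval T u * aeval T u) := by rw [h2]; simp only [mul_assoc]
    _ = G * T ^ j := by rw [hu, mul_one]

private theorem hk_congr {g f : k[X]} (hg : g.Monic) (hf : f.Monic) (h : g = f) :
    hk hg m 1 = hk hf m 1 := by
  subst h
  rfl

private theorem co_dvd {T : Matrix (Fin m) (Fin m) k} {s : k[X]} (h : T.charpoly ∣ s) : aeval T s = 0 := by
  obtain ⟨d, rfl⟩ := h
  rw [map_mul, Matrix.aeval_self_charpoly, zero_mul]

theorem cnt_b [Finite k] (h2 : (2 : k) ≠ 0) (hm : Odd m) {c : k} {p : k[X]} (hp : Irreducible p)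
    (hpm : p.Monic) (hc : p.eval c ≠ 0) (hd : ((X - C c) * p).natDegree = m)
    {G : Matrix (Fin m) (Fin m) k} (hG : Gᵀ = G) (h0 : G.det ≠ 0) :
    2 * Nat.card {B : Matrix (Fin m) (Fin m) k // Bᵀ = B ∧ Chr ((X - C c) * p) G B ∧ TrivC G B} *
      ((Nat.card k - 1) ^ m * Nat.card k ^ (m * (m - 1) / 2)) ≤ Nat.card k ^ (m * m) := by
  classical
  set f : k[X] := (X - C c) * p with hf'
  have hf : f.Monic := (monic_X_sub_C c).mul hpm
  have hm1 : 1 ≤ m := hm.pos
  have hfd : f.natDegree = m := hd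
  obtain ⟨e, he1, he2, he3⟩ := four h2 hp hc
  have hnt : Nontrivial (AdjoinRoot f) := by
    refine AdjoinRoot.nontrivial f ?_
    rw [degree_eq_natDegree hf.ne_zero, hfd]
    exact_mod_cast (by omega : m ≠ 0)
  have h2A : (2 : AdjoinRoot f) ≠ 0 := by
    have h3 : (2 : AdjoinRoot f) = algebraMap k (AdjoinRoot f) 2 := (map_ofNat _ 2).symm
    rw [h3]
    exact (map_ne_zero (algebraMap k (AdjoinRoot f))).2 h2
  have hne : (1 : AdjoinRoot f) ≠ -1 := by
    intro h
    apply h2A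
    linear_combination h
  have hee : e ≠ -e := by
    intro h
    have h3 : 2 * e = 0 := by linear_combination h
    apply h2A
    calc (2 : AdjoinRoot f) = 2 * e ^ 2 := by rw [he1, mul_one]
      _ = (2 * e) * e := by ring
      _ = 0 := by rw [h3, zero_mul]
  set S : Finset (AdjoinRoot f) := {1, -1, e, -e} with hS
  have hScard : S.card = 4 := by
    have n1 : (1 : AdjoinRoot f) ∉ ({-1, e, -e} : Finset (AdjoinRoot f)) := by
      rw [Finset.mem_insert, Finset.mem_insert, Finset.mem_singleton]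
      rintro (h | h | h)
      · exact hne h
      · exact he2 h.symm
      · exact he3 (by rw [h, neg_neg])
    have n2 : (-1 : AdjoinRoot f) ∉ ({e, -e} : Finset (AdjoinRoot f)) := by
      rw [Finset.mem_insert, Finset.mem_singleton]
      rintro (h | h)
      · exact he3 h.symm
      · exact he2 (neg_injective h).symm
    have n3 : e ∉ ({-e} : Finset (AdjoinRoot f)) := by
      rw [Finset.mem_singleton]
      exact hee
    rw [hS, Finset.card_insert_of_notMem n1, Finset.card_insert_of_notMem n2,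
      Finset.card_insert_of_notMem n3, Finset.card_singleton]
  have hSsq : ∀ z ∈ S, z ^ 2 = 1 := by
    intro z hz
    rw [hS, Finset.mem_insert, Finset.mem_insert, Finset.mem_insert, Finset.mem_singleton] at hz
    rcases hz with rfl | rfl | rfl | rfl
    · exact one_pow 2
    · ring
    · exact he1
    · rw [neg_sq]
      exact he1
  choose rp hrp using fun z : AdjoinRoot f => AdjoinRoot.mk_surjective z
  set Bs := {B : Matrix (Fin m) (Fin m) k // Bᵀ = B ∧ Chr f G B ∧ TrivC G B} with hBs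
  have hT : ∀ B : Bs, (G⁻¹ * B.1).charpoly = f := fun B => chr_T h0 B.2.2.1
  choose w hw using fun B : Bs => B.2.2.2
  have hsym : ∀ B : Bs, (G⁻¹ * B.1)ᵀ * G = G * (G⁻¹ * B.1) := fun B => co_sym hG B.2.1 h0
  have hsq : ∀ (B : Bs) (z : S), aeval (G⁻¹ * B.1) (rp z.1) * aeval (G⁻¹ * B.1) (rp z.1) = 1 := by
    intro B z
    have h3 : (G⁻¹ * B.1).charpoly ∣ rp z.1 * rp z.1 - 1 := by
      rw [hT B, ← AdjoinRoot.mk_eq_zero, map_sub, map_mul, map_one, hrp, ← sq, hSsq _ z.2, sub_self]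
    have h4 := co_dvd h3
    rw [map_sub, map_mul, map_one, sub_eq_zero] at h4
    exact h4
  set H := hk hf m (1 : AdjoinRoot f) with hH
  have hHd : H.det ≠ 0 := hk_one hf hfd hm1
  have hHs : Hᵀ = H := by
    ext i j
    rw [transpose_apply, hH]
    unfold hk
    rw [of_apply, of_apply, add_comm]
  have hX : ∀ (B : Bs) (z : S), (kr (G⁻¹ * B.1) (aeval (G⁻¹ * B.1) (rp z.1) *ᵥ w B))ᵀ * G *
      kr (G⁻¹ * B.1) (aeval (G⁻¹ * B.1) (rp z.1) *ᵥ w B) = H := by
    intro B z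
    rw [triv_hk hm1 hG B.2.1 h0 (aeval (G⁻¹ * B.1) (rp z.1) *ᵥ w B) (fun i hi => by
      rw [co_val (hsym B) (hsq B z)]
      exact hw B i hi)]
    exact hk_congr _ hf (hT B)
  have hXd : ∀ X : Matrix (Fin m) (Fin m) k, Xᵀ * G * X = H → X.det ≠ 0 := by
    intro X hXX hX0
    apply hHd
    rw [← hXX, det_mul, hX0, mul_zero]
  have hwd : ∀ B : Bs, (kr (G⁻¹ * B.1) (w B)).det ≠ 0 := by
    intro B
    apply hXd
    rw [triv_hk hm1 hG B.2.1 h0 (w B) (hw B)]
    exact hk_congr _ hf (hT B)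
  let Φ : Bs × S → {X : Matrix (Fin m) (Fin m) k // Xᵀ * G * X = H} := fun q =>
    ⟨kr (G⁻¹ * q.1.1) (aeval (G⁻¹ * q.1.1) (rp q.2.1) *ᵥ w q.1), hX q.1 q.2⟩
  have hΦ : Function.Injective Φ := by
    rintro ⟨B, z⟩ ⟨B', z'⟩ h
    have h3 : kr (G⁻¹ * B.1) (aeval (G⁻¹ * B.1) (rp z.1) *ᵥ w B) =
        kr (G⁻¹ * B'.1) (aeval (G⁻¹ * B'.1) (rp z'.1) *ᵥ w B') := congrArg Subtype.val h
    obtain ⟨h4, h5⟩ := kr_inj hm1 ((hT B).trans (hT B').symm) h3 (hXd _ (hX B z))
    have hu : IsUnit G.det := isUnit_iff_ne_zero.2 h0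
    have h6 : B = B' := by
      apply Subtype.ext
      have h7 := congrArg (fun M => G * M) h4
      simp only [mul_nonsing_inv_cancel_left _ _ hu] at h7
      exact h7
    subst h6
    have h8 : aeval (G⁻¹ * B.1) (rp z.1 - rp z'.1) *ᵥ w B = 0 := by
      rw [map_sub, sub_mulVec, h5, sub_self]
    have h9 := ann_of (G⁻¹ * B.1) (hwd B) h8
    rw [hT B, ← AdjoinRoot.mk_eq_zero, map_sub, hrp, hrp, sub_eq_zero] at h9
    exact Prod.ext rfl (Subtype.ext h9)
  have hcard := Nat.card_le_card_of_injective Φ hΦ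
  have hS4 : Nat.card S = 4 := by
    rw [Nat.card_eq_fintype_card, Fintype.card_coe, hScard]
  rw [Nat.card_prod, hS4] at hcard
  have hiso := iso_bd h2 hm hG hHs h0 hHd
  have h10 : Nat.card Bs * 4 * ((Nat.card k - 1) ^ m * Nat.card k ^ (m * (m - 1) / 2)) ≤
      2 * Nat.card k ^ (m * m) := (Nat.mul_le_mul_right _ hcard).trans hiso
  have h11 : 2 * (2 * Nat.card Bs * ((Nat.card k - 1) ^ m * Nat.card k ^ (m * (m - 1) / 2))) ≤
      2 * Nat.card k ^ (m * m) := by
    calc _ = Nat.card Bs * 4 * ((Nat.card k - 1) ^ m * Nat.card k ^ (m * (m - 1) / 2)) := by ring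
      _ ≤ _ := h10
  exact Nat.le_of_mul_le_mul_left h11 (by norm_num)

end Pool.Agent.H3.GG
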