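import Pool.Agent.H3.GG.CO6
import Pool.Agent.H3.GG.CO7
import Pool.Agent.H40.GC.CNB
import Pool.Agent.H40.GC.IRC

set_option autoImplicit false

/-!
# [H3 GG CO8] End statements of LOC in the form `LocB`

`Rs G T b` is the union over `f0 ∈ mon m T` of `{B | Bᵀ = B, Chr f0 G B, b → TrivC G B}` (`CharE = Chr`, by `rfl`); `mon m T` is finite
(`finite_mon`), `Nat.card` of the union is at most the sum. `cnt_a`, `cnt_b` in real numbers (`q = Nat.card k`):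
`#{B} ≤ q ^ (m m) / ((q - 1) ^ m q ^ (m (m - 1) / 2)) = K * q ^ (m (m - 1) / 2)`, `K = (1 - 1 / q)⁻¹ ^ m = (q / (q - 1)) ^ m`, as
`m m = m + m (m - 1) / 2 + m (m - 1) / 2` (`m (m - 1)` is even). Irreducible polynomials and the polynomials in `Tspec` are squarefree
(`Irreducible.squarefree`; `(X - C c) * G`: coprime, both irreducible). (The polynomials in `mon m T` are monic of degree `m`.)
-/

namespace Pool.Agent.H3.GG

open Polynomial Matrix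
open Pool.Agent.H40.GC (LocB Tirr Tspec mon Rs)

private theorem co8_num {q m e N c : ℕ} (hq : 1 < q) (he : m * m = m + 2 * e) (hc : 0 < c)
    (h : c * N * ((q - 1) ^ m * q ^ e) ≤ q ^ (m * m)) :
    (N : ℝ) ≤ (1 - 1 / (q : ℝ))⁻¹ ^ m / c * (q : ℝ) ^ e := by
  have hqR : (1 : ℝ) < q := by exact_mod_cast hq
  have hq0 : (0 : ℝ) < q := by linarith
  have hq1 : (0 : ℝ) < (q : ℝ) - 1 := by linarith
  have hcR : (0 : ℝ) < c := by exact_mod_cast hc
  have h1 : ((c * N * ((q - 1) ^ m * q ^ e) : ℕ) : ℝ) ≤ ((q ^ (m * m) : ℕ) : ℝ) := by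
    exact_mod_cast h
  rw [he] at h1
  rw [Nat.cast_mul, Nat.cast_mul, Nat.cast_mul, Nat.cast_pow, Nat.cast_pow, Nat.cast_pow,
    Nat.cast_sub hq.le, Nat.cast_one] at h1
  have h2 : (1 - 1 / (q : ℝ))⁻¹ = q / (q - 1) := by
    field_simp
  rw [h2, div_pow, div_div, div_mul_eq_mul_div, le_div_iff₀ (by positivity)]
  refine le_of_mul_le_mul_right ?_ (show (0 : ℝ) < (q : ℝ) ^ e by positivity)
  calc (N : ℝ) * (((q : ℝ) - 1) ^ m * c) * (q : ℝ) ^ e =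
      c * N * (((q : ℝ) - 1) ^ m * (q : ℝ) ^ e) := by ring
    _ ≤ (q : ℝ) ^ (m + 2 * e) := h1
    _ = (q : ℝ) ^ m * (q : ℝ) ^ e * (q : ℝ) ^ e := by ring

private theorem co8_even (m : ℕ) : m * m = m + 2 * (m * (m - 1) / 2) := by
  have h1 := Nat.two_mul_div_two_of_even (Nat.even_mul_pred_self m)
  rw [h1]
  rcases m with _ | m
  · rfl
  · rw [Nat.add_sub_cancel]
    ring

private theorem co8_gen {k : Type} [Field k] [Finite k] {m : ℕ} (T : Set k[X]) (b : Prop) (c : ℕ)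
    (hc : 0 < c) (h : ∀ G : Matrix (Fin m) (Fin m) k, Gᵀ = G → G.det ≠ 0 → ∀ f0 ∈ mon m T,
      c * Nat.card {B : Matrix (Fin m) (Fin m) k // Bᵀ = B ∧ Chr f0 G B ∧ (b → TrivC G B)} *
        ((Nat.card k - 1) ^ m * Nat.card k ^ (m * (m - 1) / 2)) ≤ Nat.card k ^ (m * m)) :
    LocB k m ((1 - 1 / (Nat.card k : ℝ))⁻¹ ^ m / c) T b := by
  classical
  intro G hG h0
  have hfin := Pool.Agent.H40.GC.finite_mon m T
  have hq : 1 < Nat.card k := Finite.one_lt_card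
  have h1 : Rs G T b ⊆ ⋃ f0 ∈ hfin.toFinset,
      {B : Matrix (Fin m) (Fin m) k | Bᵀ = B ∧ Chr f0 G B ∧ (b → TrivC G B)} := by
    rintro B ⟨h2, ⟨f0, h3, h4⟩, h5⟩
    simp only [Set.mem_iUnion]
    exact ⟨f0, hfin.mem_toFinset.2 h3, h2, h4, h5⟩
  have h2 : Nat.card (Rs G T b) ≤ ∑ f0 ∈ hfin.toFinset,
      Set.ncard {B : Matrix (Fin m) (Fin m) k | Bᵀ = B ∧ Chr f0 G B ∧ (b → TrivC G B)} := by
    rw [Nat.card_coe_set_eq]
    exact (Set.ncard_le_ncard h1 (Set.toFinite _)).trans (Finset.set_ncard_biUnion_le _ _)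
  have h3 : (Nat.card (Rs G T b) : ℝ) ≤ ∑ f0 ∈ hfin.toFinset,
      (Set.ncard {B : Matrix (Fin m) (Fin m) k | Bᵀ = B ∧ Chr f0 G B ∧ (b → TrivC G B)} : ℝ) := by
    exact_mod_cast h2
  refine h3.trans ?_
  have h4 : ∀ f0 ∈ hfin.toFinset, (Set.ncard {B : Matrix (Fin m) (Fin m) k | Bᵀ = B ∧
      Chr f0 G B ∧ (b → TrivC G B)} : ℝ) ≤
        (1 - 1 / (Nat.card k : ℝ))⁻¹ ^ m / c * (Nat.card k : ℝ) ^ (m * (m - 1) / 2) := by
    intro f0 hf0
    exact co8_num hq (co8_even m) hc (h G hG h0 f0 (hfin.mem_toFinset.1 hf0))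
  refine (Finset.sum_le_card_nsmul _ _ _ h4).trans (le_of_eq ?_)
  rw [nsmul_eq_mul, ← Set.ncard_eq_toFinset_card _ hfin, Nat.card_coe_set_eq]
  ring

private theorem co8_sq {k : Type} [Field k] [Finite k] {c : k} {G : k[X]} (hi : Irreducible G)
    (h : G.eval c ≠ 0) : Squarefree ((X - C c) * G) := by
  rw [squarefree_mul_iff]
  refine ⟨?_, (irreducible_X_sub_C c).squarefree, hi.squarefree⟩
  apply IsCoprime.isRelPrime
  rw [(irreducible_X_sub_C c).coprime_iff_not_dvd, dvd_iff_isRoot]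
  exact h

private theorem co8_false {k : Type} [Field k] {m : ℕ} (f0 : k[X]) (G : Matrix (Fin m) (Fin m) k) :
    Nat.card {B : Matrix (Fin m) (Fin m) k // Bᵀ = B ∧ Chr f0 G B ∧ (False → TrivC G B)} =
      Nat.card {B : Matrix (Fin m) (Fin m) k // Bᵀ = B ∧ Chr f0 G B} :=
  Nat.card_congr (Equiv.subtypeEquivRight fun _ =>
    ⟨fun h => ⟨h.1, h.2.1⟩, fun h => ⟨h.1, h.2, fun h' => h'.elim⟩⟩)

private theorem co8_true {k : Type} [Field k] {m : ℕ} (f0 : k[X]) (G : Matrix (Fin m) (Fin m) k) :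
    Nat.card {B : Matrix (Fin m) (Fin m) k // Bᵀ = B ∧ Chr f0 G B ∧ (True → TrivC G B)} =
      Nat.card {B : Matrix (Fin m) (Fin m) k // Bᵀ = B ∧ Chr f0 G B ∧ TrivC G B} :=
  Nat.card_congr (Equiv.subtypeEquivRight fun _ =>
    ⟨fun h => ⟨h.1, h.2.1, h.2.2 trivial⟩, fun h => ⟨h.1, h.2.1, fun _ => h.2.2⟩⟩)

theorem loc_irr (k : Type) [Field k] [Finite k] (h2 : (2 : k) ≠ 0) {m : ℕ} (hm : Odd m) :
    LocB k m ((1 - 1 / (Nat.card k : ℝ))⁻¹ ^ m) (Tirr k) False := by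
  have h := co8_gen (k := k) (m := m) (Tirr k) False 1 one_pos (fun G hG h0 f0 hf0 => by
    rw [co8_false, one_mul]
    obtain ⟨h1, h3, h4⟩ := hf0
    exact cnt_a h2 hm h3 h4 (Irreducible.squarefree h1) hG h0)
  rwa [Nat.cast_one, div_one] at h

theorem loc_spec (k : Type) [Field k] [Finite k] (h2 : (2 : k) ≠ 0) {m : ℕ} (hm : Odd m) :
    LocB k m ((1 - 1 / (Nat.card k : ℝ))⁻¹ ^ m) (Tspec k) False := by
  have h := co8_gen (k := k) (m := m) (Tspec k) False 1 one_pos (fun G hG h0 f0 hf0 => by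
    rw [co8_false, one_mul]
    obtain ⟨⟨c, p, h5, h6, h7, rfl⟩, h3, h4⟩ := hf0
    exact cnt_a h2 hm h3 h4 (co8_sq h5 h7) hG h0)
  rwa [Nat.cast_one, div_one] at h

theorem loc_trv (k : Type) [Field k] [Finite k] (h2 : (2 : k) ≠ 0) {m : ℕ} (hm : Odd m) :
    LocB k m ((1 - 1 / (Nat.card k : ℝ))⁻¹ ^ m / 2) (Tspec k) True := by
  have h := co8_gen (k := k) (m := m) (Tspec k) True 2 two_pos (fun G hG h0 f0 hf0 => by
    rw [co8_true]
    obtain ⟨⟨c, p, h5, h6, h7, rfl⟩, h3, h4⟩ := hf0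
    exact cnt_b h2 hm h5 h6 h7 h4 hG h0)
  rwa [Nat.cast_ofNat] at h

end Pool.Agent.H3.GG
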