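import Pool.Agent.H3.GG.CDefs

set_option autoImplicit false

/-!
# [H3 GG LAa] The action of `A_n` (here `dle_*`, `act_gb`, `act_char`)

* `dle_*`: sums and products of polynomials with degree bounds in `ℤ`.
* `act_gb`: `P` in `A_n`: `(Pᵀ G P, Pᵀ B P)` is again of type `n`: `deg (P k i) + deg (G k l) + deg (P l j) ≤
  (n i - n k) + (n k + n l) + (n j - n l)`; `det P = C c`, `c ≠ 0` (a unit of `F[t]`), the determinant gets multiplied by `c ^ 2`.
* `act_char`: `x Pᵀ G P - Pᵀ B P = Pᵀ (x G - B) P`.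
* `act_rep`: the basis `e'_j = ∑ P i j e_i` (`P` invertible over `K`: `det P ≠ 0`).
* `act_two`: `P`, `Q` invertible over `K` with the same images: apply `iso_gamma` to the bases `e P` and `e Q` with the same
  `δ`: `δ = δ γ ^ 2`, `δ ≠ 0`, so `γ ^ 2 = 1`, `γ = ± 1` (`L` a field), so `e Q = ± e P`, `Q = ± P`.
* `act_cls`: `RepL f δ G B`, `RepL f δ' G B`, `δ' ≠ 0`: `iso_gamma`: `δ = δ' γ ^ 2`, so `δ δ' = (δ' γ) ^ 2`.
-/

namespace Pool.Agent.H3.GG

open Polynomial Matrix
open Pool.Agent.H80.CC.Plane (overK toL)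
open Pool.Agent.H94.GG (Fam lead tau)

variable {F : Type} [Field F] {f : F[X][X]} {m h : ℕ}

theorem dle_mono {d d' : ℤ} {p : F[X]} (hd : d ≤ d') (hp : DLe d p) : DLe d' p := by
  rcases hp with hp | hp
  · exact Or.inl hp
  · exact Or.inr (hp.trans hd)

theorem dle_add {d : ℤ} {p q : F[X]} (hp : DLe d p) (hq : DLe d q) : DLe d (p + q) := by
  rcases hp with hp | hp
  · rw [hp, zero_add]
    exact hq
  rcases hq with hq | hq
  · rw [hq, add_zero]
    exact Or.inr hp
  · right
    have h1 := natDegree_add_le p q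
    rcases le_max_iff.1 h1 with h2 | h2
    · exact le_trans (by exact_mod_cast h2) hp
    · exact le_trans (by exact_mod_cast h2) hq

theorem dle_sum {d : ℤ} {ι : Type} (s : Finset ι) (p : ι → F[X]) (hp : ∀ i ∈ s, DLe d (p i)) :
    DLe d (∑ i ∈ s, p i) := by
  classical
  induction s using Finset.induction_on with
  | empty => exact Or.inl rfl
  | insert a s ha ih =>
    rw [Finset.sum_insert ha]
    exact dle_add (hp a (Finset.mem_insert_self a s)) (ih fun i hi => hp i (Finset.mem_insert_of_mem hi))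

theorem dle_mul {d d' : ℤ} {p q : F[X]} (hp : DLe d p) (hq : DLe d' q) : DLe (d + d') (p * q) := by
  rcases hp with hp | hp
  · left
    rw [hp, zero_mul]
  rcases hq with hq | hq
  · left
    rw [hq, mul_zero]
  · right
    have h1 : ((p * q).natDegree : ℤ) ≤ p.natDegree + q.natDegree := by exact_mod_cast natDegree_mul_le
    linarith

private theorem deg_conj {n : Fin m → ℤ} {G P : Matrix (Fin m) (Fin m) F[X]} {h : ℤ}
    (hG : ∀ i j, DLe (h + n i + n j) (G i j)) (hP : ∀ i j, DLe (n j - n i) (P i j)) (i j : Fin m) :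
    DLe (h + n i + n j) ((Pᵀ * G * P) i j) := by
  rw [Matrix.mul_apply]
  refine dle_sum _ _ fun l _ => ?_
  have h1 : DLe (h + n i + n l) ((Pᵀ * G) i l) := by
    rw [Matrix.mul_apply]
    refine dle_sum _ _ fun k _ => ?_
    refine dle_mono ?_ (dle_mul (hP k i) (hG k l))
    linarith
  refine dle_mono ?_ (dle_mul h1 (hP l j))
  linarith

theorem act_gb {n : Fin m → ℤ} {G B P : Matrix (Fin m) (Fin m) F[X]} (hG : IsGB h n G B)
    (hP : IsA n P) : IsGB h n (Pᵀ * G * P) (Pᵀ * B * P) := by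
  refine ⟨?_, ?_, ?_, ?_, ?_⟩
  · rw [transpose_mul, transpose_mul, transpose_transpose, hG.symG, Matrix.mul_assoc]
  · rw [transpose_mul, transpose_mul, transpose_transpose, hG.symB, Matrix.mul_assoc]
  · intro i j
    refine dle_mono (by linarith) (deg_conj (h := 0) (fun a b => dle_mono (by linarith) (hG.degG a b)) hP.2 i j)
  · exact deg_conj hG.degB hP.2
  · obtain ⟨a, ha, hdet⟩ := hG.det
    obtain ⟨c, hc, hc'⟩ := Polynomial.isUnit_iff.1 hP.1
    refine ⟨c * a, mul_ne_zero hc.ne_zero ha, ?_⟩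
    rw [det_mul, det_mul, det_transpose, hdet, ← hc', ← C_mul, ← C_mul]
    congr 1
    ring

theorem act_char {G B P : Matrix (Fin m) (Fin m) F[X]} (hG : CharEq f G B) :
    CharEq f (Pᵀ * G * P) (Pᵀ * B * P) := by
  unfold CharEq at *
  have h1 : (X : F[X][X]) • (Pᵀ * G * P).map C - (Pᵀ * B * P).map C =
      (P.map C)ᵀ * ((X : F[X][X]) • G.map C - B.map C) * P.map C := by
    rw [Matrix.map_mul, Matrix.map_mul, Matrix.map_mul, Matrix.map_mul, transpose_map, Matrix.mul_sub,
      Matrix.sub_mul, Matrix.mul_smul, Matrix.smul_mul]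
  have h2 : (P.map C).det = C P.det := by
    have h3 := RingHom.map_det (C : F[X] →+* F[X][X]) P
    exact h3.symm
  rw [h1, det_mul, det_mul, det_transpose, hG, h2, det_mul, det_mul, det_transpose, C_mul, C_mul]
  ring

end Pool.Agent.H3.GG
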