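import Pool.Agent.H3.GG.LTa

set_option autoImplicit false

/-!
# [H3 GG LIso] Two bases with the same Gram matrices

`g ∈ k[x]` monic irreducible, `L = k[x]/(g)`, `δ, δ' ≠ 0`, `e`, `e'` `k`-bases of `L` (indexed by `Fin m`) with
`τ(δ e_i e_j) = τ(δ' e'_i e'_j)` and `τ(δ θ e_i e_j) = τ(δ' θ e'_i e'_j)`. Let `ρ : L → L` be the linear bijection with
`ρ e_i = e'_i` (`Basis.equiv`). Then `τ(δ' ρx ρy) = τ(δ x y)` and `τ(δ' θ ρx ρy) = τ(δ θ x y)` for all `x`, `y`
(bilinearity, `Basis.ext`-type arguments; `Basis.induction` or expand both in the basis). So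
`τ(δ' (θ ρx - ρ(θ x)) ρy) = τ(δ θ x y) - τ(δ (θ x) y) = 0` for all `y`; `ρ` is onto, so `δ' (θ ρx - ρ(θx)) = 0`
(`tau_nd`), `ρ(θ x) = θ ρ x`. So `ρ(p(θ) x) = p(θ) ρ x` for all polynomials (`AdjoinRoot.induction_on`, `Polynomial`
induction), `ρ z = z ρ 1`, `γ = ρ 1 ≠ 0`, `e'_i = γ e_i`. Finally `τ((δ - δ' γ ^ 2) y) = τ(δ 1 y) - τ(δ' ρ1 ρy) = 0`.
-/

namespace Pool.Agent.H3.GG

open Polynomial
open Pool.Agent.H94.GG (tau)

variable {k : Type} [Field k] {g : k[X]} {m : ℕ}

private theorem bil (hg : g.Monic) (e e' : Module.Basis (Fin m) k (AdjoinRoot g)) {a a' : AdjoinRoot g}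
    (h : ∀ i j, tau hg (a * e i * e j) = tau hg (a' * e' i * e' j)) (x y : AdjoinRoot g) :
    tau hg (a * x * y) = tau hg (a' * e.equiv e' (Equiv.refl _) x * e.equiv e' (Equiv.refl _) y) := by
  have h1 : ∀ (x : AdjoinRoot g) (j : Fin m), tau hg (a * x * e j) =
      tau hg (a' * e.equiv e' (Equiv.refl _) x * e' j) := by
    intro x j
    have h2 : (tau hg).comp ((LinearMap.mulRight k (e j)).comp (LinearMap.mulLeft k a)) =
        (tau hg).comp ((LinearMap.mulRight k (e' j)).comp ((LinearMap.mulLeft k a').comp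
          (e.equiv e' (Equiv.refl _)).toLinearMap)) := by
      refine e.ext fun i => ?_
      simpa using h i j
    exact LinearMap.congr_fun h2 x
  have h2 : (tau hg).comp (LinearMap.mulLeft k (a * x)) =
      (tau hg).comp ((LinearMap.mulLeft k (a' * e.equiv e' (Equiv.refl _) x)).comp
        (e.equiv e' (Equiv.refl _)).toLinearMap) := by
    refine e.ext fun j => ?_
    simpa [mul_assoc] using h1 x j
  exact LinearMap.congr_fun h2 y

theorem iso_gamma (hg : g.Monic) (hirr : Irreducible g) {δ δ' : AdjoinRoot g} (hδ : δ' ≠ 0)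
    (e e' : Module.Basis (Fin m) k (AdjoinRoot g))
    (h1 : ∀ i j, tau hg (δ * e i * e j) = tau hg (δ' * e' i * e' j))
    (h2 : ∀ i j, tau hg (δ * (AdjoinRoot.root g * e i) * e j) =
      tau hg (δ' * (AdjoinRoot.root g * e' i) * e' j)) :
    ∃ γ : AdjoinRoot g, γ ≠ 0 ∧ (∀ i, e' i = γ * e i) ∧ δ = δ' * γ ^ 2 := by
  have hdom : IsDomain (AdjoinRoot g) := AdjoinRoot.isDomain_of_prime hirr.prime
  have hm1 : 1 ≤ g.natDegree := hirr.natDegree_pos
  have b1 := bil hg e e' h1
  have b2 := bil hg e e' (a := δ * AdjoinRoot.root g) (a' := δ' * AdjoinRoot.root g) (fun i j => by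
    rw [mul_assoc δ, mul_assoc δ']
    exact h2 i j)
  generalize hρ : e.equiv e' (Equiv.refl _) = ρ at b1 b2
  have hr : ∀ i, ρ (e i) = e' i := fun i => by
    rw [← hρ]
    simp
  have c1 : ∀ x, ρ (AdjoinRoot.root g * x) = AdjoinRoot.root g * ρ x := by
    intro x
    have c2 : ∀ z, tau hg (δ' * (AdjoinRoot.root g * ρ x - ρ (AdjoinRoot.root g * x)) * z) = 0 := by
      intro z
      obtain ⟨y, rfl⟩ := ρ.surjective z
      have c3 := b1 (AdjoinRoot.root g * x) y
      have c4 := b2 x y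
      have c5 : δ' * (AdjoinRoot.root g * ρ x - ρ (AdjoinRoot.root g * x)) * ρ y =
          δ' * AdjoinRoot.root g * ρ x * ρ y - δ' * ρ (AdjoinRoot.root g * x) * ρ y := by ring
      rw [c5, map_sub, ← c3, ← c4, ← mul_assoc δ, sub_self]
    have c3 := tau_nd hg hm1 c2
    rcases mul_eq_zero.1 c3 with c4 | c4
    · exact absurd c4 hδ
    · exact (sub_eq_zero.1 c4).symm
  have c2 : ∀ z x : AdjoinRoot g, ρ (z * x) = z * ρ x := by
    intro z
    induction z using AdjoinRoot.induction_on with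
    | ih p =>
      induction p using Polynomial.induction_on with
      | C a =>
        intro x
        have h3 : ∀ y : AdjoinRoot g, AdjoinRoot.mk g (C a) * y = a • y := fun y => by
          rw [Algebra.smul_def]
          rfl
        rw [h3, h3, map_smul]
      | add p q hp hq =>
        intro x
        rw [map_add, add_mul, map_add, hp, hq, add_mul]
      | monomial n a h =>
        intro x
        have h3 : AdjoinRoot.mk g (C a * X ^ (n + 1)) = AdjoinRoot.mk g (C a * X ^ n) * AdjoinRoot.root g := by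
          rw [pow_succ, ← mul_assoc, map_mul (AdjoinRoot.mk g) (C a * X ^ n) X]
          rfl
        rw [h3, mul_assoc, h, c1, mul_assoc]
  have c3 : ∀ z, ρ z = z * ρ 1 := fun z => by
    rw [← c2 z 1, mul_one]
  refine ⟨ρ 1, fun h => one_ne_zero (ρ.injective (h.trans (map_zero ρ).symm)), fun i => ?_, ?_⟩
  · rw [← hr i, c3, mul_comm]
  · refine sub_eq_zero.1 (tau_nd hg hm1 fun y => ?_)
    have c4 := b1 1 y
    rw [c3 y] at c4
    have c5 : (δ - δ' * ρ 1 ^ 2) * y = δ * 1 * y - δ' * ρ 1 * (y * ρ 1) := by ring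
    rw [c5, map_sub, c4, sub_self]

end Pool.Agent.H3.GG
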