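import Pool.Agent.H3.GG.LAa
import Pool.Agent.H3.GG.LIso

set_option autoImplicit false

/-!
# [H3 GG LAct] The action of `A_n` (here `act_rep`, `act_two`, `act_cls`)

* `dle_*`: sums and products of polynomials with degree bounds in `ℤ`.
* `act_gb`: `P` in `A_n`: `(Pᵀ G P, Pᵀ B P)` is again of type `n`: `deg (P k i) + deg (G k l) + deg (P l j) ≤
  (n i - n k) + (n k + n l) + (n j - n l)`; `det P = C c`, `c ≠ 0` (a unit of `F[t]`), the determinant gets multiplied by `c ^ 2`.
* `act_char`: `x Pᵀ G P - Pᵀ B P = Pᵀ (x G - B) P`.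
* `act_rep`: the basis `e'_j = ∑ P i j e_i` (`P` invertible over `K`: `det P ≠ 0`).
* `act_two`: `P`, `Q` invertible over `K` with the same images: apply `iso_gamma` to the bases `e P` and `e Q` with the same
  `δ`: `δ = δ γ ^ 2`, `δ ≠ 0`, so `γ ^ 2 = 1`, `γ = ± 1` (`L` a field), so `e Q = ± e P`, `Q = ± P`.
* `act_cls`: `RepL f δ G B`, `RepL f δ' G B`, `δ' ≠ 0`: `iso_gamma`: `δ = δ' γ ^ 2`, so `δ δ' = (δ' γ) ^ 2`.
-/

namespace Pool.Agent.H3.GG

open Polynomial Matrix
open Pool.Agent.H80.CC.Plane (overK toL)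
open Pool.Agent.H94.GG (Fam lead tau)

variable {F : Type} [Field F] {f : F[X][X]} {m h : ℕ}

/-- Gram matrices under a change of basis -/
private theorem act_gram (hf : (overK f).Monic) (e e' : Fin m → AdjoinRoot (overK f))
    (c : AdjoinRoot (overK f)) (G P : Matrix (Fin m) (Fin m) F[X])
    (hG : ∀ i j, algebraMap F[X] (RatFunc F) (G i j) = tau hf (c * e i * e j))
    (he : ∀ j, e' j = ∑ i, algebraMap F[X] (RatFunc F) (P i j) • e i) (i j : Fin m) :
    algebraMap F[X] (RatFunc F) ((Pᵀ * G * P) i j) = tau hf (c * e' i * e' j) := by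
  have h1 : c * e' i * e' j = ∑ l, ∑ k, (algebraMap F[X] (RatFunc F) (P k i) *
      algebraMap F[X] (RatFunc F) (P l j)) • (c * e k * e l) := by
    rw [he i, he j, Finset.mul_sum, Finset.mul_sum]
    refine Finset.sum_congr rfl fun l _ => ?_
    rw [Finset.sum_mul]
    refine Finset.sum_congr rfl fun k _ => ?_
    rw [mul_smul_comm, mul_smul_comm, smul_mul_assoc, smul_smul, mul_comm]
  rw [h1, map_sum, Matrix.mul_apply, map_sum]
  refine Finset.sum_congr rfl fun l _ => ?_
  rw [map_sum, Matrix.mul_apply, Finset.sum_mul, map_sum]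
  refine Finset.sum_congr rfl fun k _ => ?_
  rw [map_smul, ← hG k l, Matrix.transpose_apply, smul_eq_mul, map_mul, map_mul]
  ring

/-- the changed basis -/
private theorem exists_basis {K L : Type} [Field K] [CommRing L] [Algebra K L]
    (e : Module.Basis (Fin m) K L) (P : Matrix (Fin m) (Fin m) K) (hP : P.det ≠ 0) :
    ∃ e' : Module.Basis (Fin m) K L, ∀ j, e' j = ∑ i, P i j • e i := by
  refine ⟨e.map (Matrix.toLinearEquiv e P (isUnit_iff_ne_zero.mpr hP)), fun j => ?_⟩
  rw [Module.Basis.map_apply]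
  change Matrix.toLin e e P (e j) = _
  rw [Matrix.toLin_self]

private theorem exists_basis' {e : Module.Basis (Fin m) (RatFunc F) (AdjoinRoot (overK f))}
    {P : Matrix (Fin m) (Fin m) F[X]} (hP : P.det ≠ 0) :
    ∃ e' : Module.Basis (Fin m) (RatFunc F) (AdjoinRoot (overK f)),
      ∀ j, e' j = ∑ i, algebraMap F[X] (RatFunc F) (P i j) • e i := by
  have h1 : (P.map (algebraMap F[X] (RatFunc F))).det ≠ 0 := by
    have h2 : (P.map (algebraMap F[X] (RatFunc F))).det = algebraMap F[X] (RatFunc F) P.det := by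
      rw [RingHom.map_det, RingHom.mapMatrix_apply]
    rw [h2]
    intro h3
    exact hP ((injective_iff_map_eq_zero _).mp (IsFractionRing.injective F[X] (RatFunc F)) _ h3)
  obtain ⟨e', he'⟩ := exists_basis e _ h1
  exact ⟨e', fun j => by rw [he' j]; rfl⟩

theorem act_rep {δ : AdjoinRoot (overK f)} {G B P : Matrix (Fin m) (Fin m) F[X]}
    (hR : RepL f δ G B) (hP : P.det ≠ 0) : RepL f δ (Pᵀ * G * P) (Pᵀ * B * P) := by
  obtain ⟨hf, e, h1, h2⟩ := hR
  obtain ⟨e', he'⟩ := exists_basis' (e := e) hP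
  refine ⟨hf, e', fun i j => act_gram hf e e' δ G P h1 he' i j, fun i j => ?_⟩
  have h3 := act_gram hf e e' (δ * AdjoinRoot.root (overK f)) B P
    (fun i j => by rw [h2 i j, mul_assoc δ (AdjoinRoot.root (overK f)) (e i)]) he' i j
  rw [h3, mul_assoc δ (AdjoinRoot.root (overK f)) (e' i)]

/-- coordinates in a basis -/
private theorem coord_inj {K L : Type} [Field K] [CommRing L] [Algebra K L]
    (e : Module.Basis (Fin m) K L) (a b : Fin m → K) (hab : ∑ i, a i • e i = ∑ i, b i • e i)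
    (i : Fin m) : a i = b i := by
  have h1 := congrArg (fun z => e.repr z i) hab
  simp only [Module.Basis.repr_sum_self] at h1
  exact h1

theorem act_two (hK : Irreducible (overK f)) {δ : AdjoinRoot (overK f)} (hδ : δ ≠ 0)
    {G B P Q : Matrix (Fin m) (Fin m) F[X]} (hR : RepL f δ G B) (hP : P.det ≠ 0)
    (hQ : Q.det ≠ 0) (h1 : Pᵀ * G * P = Qᵀ * G * Q) (h2 : Pᵀ * B * P = Qᵀ * B * Q) :
    Q = P ∨ Q = -P := by
  obtain ⟨hf, e, hG, hB⟩ := hR
  obtain ⟨p, hp⟩ := exists_basis' (e := e) hP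
  obtain ⟨q, hq⟩ := exists_basis' (e := e) hQ
  have hB' : ∀ i j, algebraMap F[X] (RatFunc F) (B i j) =
      tau hf (δ * AdjoinRoot.root (overK f) * e i * e j) := fun i j => by
    rw [hB i j, mul_assoc δ (AdjoinRoot.root (overK f)) (e i)]
  have h3 : ∀ i j, tau hf (δ * p i * p j) = tau hf (δ * q i * q j) := fun i j => by
    rw [← act_gram hf e p δ G P hG hp i j, ← act_gram hf e q δ G Q hG hq i j, h1]
  have h4 : ∀ i j, tau hf (δ * (AdjoinRoot.root (overK f) * p i) * p j) =
      tau hf (δ * (AdjoinRoot.root (overK f) * q i) * q j) := fun i j => by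
    rw [← mul_assoc δ (AdjoinRoot.root (overK f)) (p i),
      ← mul_assoc δ (AdjoinRoot.root (overK f)) (q i),
      ← act_gram hf e p (δ * AdjoinRoot.root (overK f)) B P hB' hp i j,
      ← act_gram hf e q (δ * AdjoinRoot.root (overK f)) B Q hB' hq i j, h2]
  obtain ⟨γ, hγ, h5, h6⟩ := iso_gamma hf hK hδ p q h3 h4
  have hdom : IsDomain (AdjoinRoot (overK f)) := AdjoinRoot.isDomain_of_prime hK.prime
  have h7 : (γ - 1) * (γ + 1) = 0 := by
    have h8 : δ * ((γ - 1) * (γ + 1)) = 0 := by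
      have h9 : δ * ((γ - 1) * (γ + 1)) = δ * γ ^ 2 - δ := by ring
      rw [h9, ← h6, sub_self]
    exact (mul_eq_zero.mp h8).resolve_left hδ
  have hinj : Function.Injective (algebraMap F[X] (RatFunc F)) :=
    IsFractionRing.injective F[X] (RatFunc F)
  rcases mul_eq_zero.mp h7 with h8 | h8
  · left
    have h9 : γ = 1 := sub_eq_zero.mp h8
    ext1 i j
    apply hinj
    have h10 : ∑ i, algebraMap F[X] (RatFunc F) (Q i j) • e i =
        ∑ i, algebraMap F[X] (RatFunc F) (P i j) • e i := by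
      rw [← hq j, ← hp j, h5 j, h9, one_mul]
    exact coord_inj e (fun i => algebraMap F[X] (RatFunc F) (Q i j))
      (fun i => algebraMap F[X] (RatFunc F) (P i j)) h10 i
  · right
    have h9 : γ = -1 := eq_neg_of_add_eq_zero_left h8
    ext1 i j
    apply hinj
    have h10 : ∑ i, algebraMap F[X] (RatFunc F) (Q i j) • e i =
        ∑ i, algebraMap F[X] (RatFunc F) (-(P i j)) • e i := by
      rw [← hq j, h5 j, h9, hp j, neg_one_mul, ← Finset.sum_neg_distrib]
      refine Finset.sum_congr rfl fun i _ => ?_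
      rw [map_neg, neg_smul]
    exact coord_inj e (fun i => algebraMap F[X] (RatFunc F) (Q i j))
      (fun i => algebraMap F[X] (RatFunc F) (-(P i j))) h10 i

theorem act_cls (hK : Irreducible (overK f)) {δ δ' : AdjoinRoot (overK f)} (hδ' : δ' ≠ 0)
    {G B : Matrix (Fin m) (Fin m) F[X]} (hR : RepL f δ G B) (hR' : RepL f δ' G B) :
    IsSquare (δ * δ') := by
  obtain ⟨hf, e, hG, hB⟩ := hR
  obtain ⟨hf', e', hG', hB'⟩ := hR'
  obtain ⟨γ, hγ, h5, h6⟩ := iso_gamma hf hK hδ' e e'
    (fun i j => by rw [← hG i j, hG' i j]) (fun i j => by rw [← hB i j, hB' i j])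
  refine ⟨δ' * γ, ?_⟩
  rw [h6]
  ring

end Pool.Agent.H3.GG
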