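import Pool.Agent.H3.GG.LMul

set_option autoImplicit false

/-!
# [H3 GG LBs] Bases of an ideal `J` of `O` over `F[t]`

* `bs_exists`: `O` is free over the principal ideal domain `F[t]` with basis `θ ^ i` (`AdjoinRoot.powerBasis' hf`, dimension
  `deg f`, reindexed by `finCongr`), and a domain (instance); `Ideal.selfBasis` gives a basis of `J` indexed by `Fin m`.
* `bs_li`: uniqueness for `x = 0`.
* `bs_update`: `e' = update e i₀ (∑ u_i e_i)` with `u i₀ = C a`, `a ≠ 0`. Existence: `x = ∑ c_i e_i`,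
  `e_(i₀) = a⁻¹ (e'_(i₀) - ∑ (i ≠ i₀) u_i e_i)`. Uniqueness: `∑ c_i e'_i = 0` gives
  `∑ (i ≠ i₀) (c_i + c_(i₀) u_i) e_i + c_(i₀) u_(i₀) e_(i₀) = 0`, so `c_(i₀) = 0`, then the others.
* `bs_perm`: reindexing.
-/

namespace Pool.Agent.H3.GG

open Polynomial

variable {F : Type} [Field F] {f : F[X][X]} {m : ℕ}

theorem bs_exists (hf : f.Monic) (hm : f.natDegree = m) [IsDomain (AdjoinRoot f)]
    (J : Ideal (AdjoinRoot f)) (hJ : J ≠ ⊥) : ∃ e : Fin m → AdjoinRoot f, IsBs J e := by
  let b : Module.Basis (Fin m) F[X] (AdjoinRoot f) :=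
    (AdjoinRoot.powerBasis' hf).basis.reindex (finCongr hm)
  let B := Ideal.selfBasis b J hJ
  refine ⟨fun i => (B i : AdjoinRoot f), fun i => (B i).2, fun x hx => ⟨B.equivFun ⟨x, hx⟩, ?_, fun c hc => ?_⟩⟩
  · have h1 := B.sum_equivFun ⟨x, hx⟩
    have h2 := congrArg (fun y : J => (y : AdjoinRoot f)) h1
    simp only [Submodule.coe_sum] at h2
    exact h2
  · have h1 : ∑ i, c i • B i = ⟨x, hx⟩ := by
      apply Subtype.ext
      rw [Submodule.coe_sum]
      exact hc
    rw [← h1, ← Module.Basis.equivFun_symm_apply, LinearEquiv.apply_symm_apply]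

theorem bs_li {J : Ideal (AdjoinRoot f)} {e : Fin m → AdjoinRoot f} (he : IsBs J e)
    {c : Fin m → F[X]} (hc : ∑ i, c i • e i = 0) : c = 0 := by
  obtain ⟨c₀, -, h2⟩ := he.2 0 J.zero_mem
  rw [h2 c hc, h2 0]
  show ∑ i, (0 : Fin m → F[X]) i • e i = 0
  exact Finset.sum_eq_zero fun i _ => zero_smul _ _

theorem bs_ne {J : Ideal (AdjoinRoot f)} {e : Fin m → AdjoinRoot f} (he : IsBs J e) (i : Fin m) :
    e i ≠ 0 := by
  intro h
  have h1 : ∑ j, (Pi.single i 1 : Fin m → F[X]) j • e j = 0 := by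
    refine Finset.sum_eq_zero fun j _ => ?_
    by_cases hj : j = i
    · rw [hj, h, smul_zero]
    · rw [Pi.single_eq_of_ne hj, zero_smul]
  have h2 := congrFun (bs_li he h1) i
  rw [Pi.single_eq_same] at h2
  exact one_ne_zero h2

theorem bs_update {J : Ideal (AdjoinRoot f)} {e : Fin m → AdjoinRoot f} (he : IsBs J e)
    (i₀ : Fin m) (u : Fin m → F[X]) {a : F} (ha : a ≠ 0) (hu : u i₀ = C a) :
    IsBs J (Function.update e i₀ (∑ i, u i • e i)) := by
  classical
  have key : ∀ c : Fin m → F[X], ∑ i, c i • (Function.update e i₀ (∑ i, u i • e i)) i =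
      ∑ i, (if i = i₀ then c i₀ * C a else c i + c i₀ * u i) • e i := by
    intro c
    have e1 := Finset.add_sum_erase Finset.univ (fun i => c i • (Function.update e i₀ (∑ i, u i • e i)) i)
      (Finset.mem_univ i₀)
    have e2 := Finset.add_sum_erase Finset.univ (fun i => (if i = i₀ then c i₀ * C a else c i + c i₀ * u i) • e i)
      (Finset.mem_univ i₀)
    have e3 := Finset.add_sum_erase Finset.univ (fun i => u i • e i) (Finset.mem_univ i₀)
    simp only at e1 e2 e3
    rw [← e1, ← e2, Function.update_self, if_pos trivial, ← e3, hu, smul_add, smul_smul,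
      add_assoc, Finset.smul_sum, ← Finset.sum_add_distrib]
    congr 1
    refine Finset.sum_congr rfl fun i hi => ?_
    have hi' := (Finset.mem_erase.1 hi).1
    rw [Function.update_of_ne hi', if_neg hi', smul_smul, add_smul, add_comm]
  refine ⟨fun i => ?_, fun x hx => ?_⟩
  · by_cases hi : i = i₀
    · rw [hi, Function.update_self]
      refine J.sum_mem fun j _ => ?_
      rw [Algebra.smul_def]
      exact J.mul_mem_left _ (he.1 j)
    · rw [Function.update_of_ne hi]
      exact he.1 i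
  · obtain ⟨c₀, h1, h2⟩ := he.2 x hx
    have h1 : ∑ i, c₀ i • e i = x := h1
    have hCa : C a⁻¹ * C a = (1 : F[X]) := by rw [← C_mul, inv_mul_cancel₀ ha, C_1]
    refine ⟨fun i => if i = i₀ then C a⁻¹ * c₀ i₀ else c₀ i - (C a⁻¹ * c₀ i₀) * u i, ?_, fun c hc => ?_⟩
    · show ∑ i, _ = x
      rw [key, ← h1]
      refine Finset.sum_congr rfl fun i _ => ?_
      congr 1
      simp only [if_true]
      by_cases hi : i = i₀
      · rw [if_pos hi, hi]
        linear_combination (c₀ i₀) * hCa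
      · rw [if_neg hi, if_neg hi]
        ring
    · have hc : ∑ i, c i • (Function.update e i₀ (∑ i, u i • e i)) i = x := hc
      rw [key] at hc
      have h3 := h2 _ hc
      have h4 : ∀ i, (if i = i₀ then c i₀ * C a else c i + c i₀ * u i) = c₀ i := fun i => congrFun h3 i
      have h5 : c i₀ = C a⁻¹ * c₀ i₀ := by
        rw [← h4 i₀, if_pos rfl]
        linear_combination (-c i₀) * hCa
      funext i
      by_cases hi : i = i₀
      · rw [if_pos hi, hi, h5]
      · rw [if_neg hi, ← h5, ← h4 i, if_neg hi]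
        ring

theorem bs_perm {J : Ideal (AdjoinRoot f)} {e : Fin m → AdjoinRoot f} (he : IsBs J e)
    (σ : Equiv.Perm (Fin m)) : IsBs J (e ∘ σ) := by
  have key : ∀ c : Fin m → F[X], ∑ i, c i • (e ∘ σ) i = ∑ i, c (σ.symm i) • e i := by
    intro c
    rw [← Equiv.sum_comp σ fun i => c (σ.symm i) • e i]
    exact Finset.sum_congr rfl fun i _ => by rw [Equiv.symm_apply_apply]; rfl
  refine ⟨fun i => he.1 (σ i), fun x hx => ?_⟩
  obtain ⟨c₀, h1, h2⟩ := he.2 x hx
  have h1 : ∑ i, c₀ i • e i = x := h1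
  refine ⟨fun i => c₀ (σ i), ?_, fun c hc => ?_⟩
  · show ∑ i, _ = x
    rw [key, ← h1]
    exact Finset.sum_congr rfl fun i _ => by rw [Equiv.apply_symm_apply]
  · have hc : ∑ i, c i • (e ∘ σ) i = x := hc
    rw [key] at hc
    have h3 := h2 (fun i => c (σ.symm i)) hc
    funext i
    rw [← h3]
    show c i = c (σ.symm (σ i))
    rw [Equiv.symm_apply_apply]

end Pool.Agent.H3.GG
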