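import Pool.Agent.H3.GG.LRed

set_option autoImplicit false

/-!
# [H3 GG LCf] The determinant of the coefficient matrix of a reduced basis

`E = cf hf e`, `E i j = (rp (e j)).coeff i`, `i, j : Fin m`, `m = deg f`.
* `deg (E i j) + i h ≤ wn(e j)` (`ph_deg_coeff`), and the coefficient of `E i j` at `wn(e j) - i h` is the coefficient of `x ^ i`
  of `lf(e j)` (`ph_coeff` at `k = wn(e j)`; if `i h > wn(e j)` both are zero).
* `Λ i j = (lf (e j)).coeff i` is an invertible matrix over `F`: the `lf(e j)` are independent and of degree `< m` in `x`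
  (`lf_degree`): a combination of the columns with all coefficients zero is zero.
* `cf_det`: general lemma `det_top`: `E : Matrix (Fin m) (Fin m) F[X]`, `a j : ℕ`, `b i : ℕ`, `deg (E i j) + b i ≤ a j` if
  `E i j ≠ 0`, `Λ i j = ` coefficient of `E i j` at `a j - b i` if `b i ≤ a j`, else `0`; `det Λ ≠ 0`. Then `det E ≠ 0` and
  `natDegree (det E) + ∑ b i = ∑ a j`. PROOF: the `ph` trick in one variable: let `E' i j = X ^ (b i) * E i j`: entries
  of degree `≤ a j`, the coefficient at `X ^ (a j)` is `Λ i j`; `det E' = X ^ (∑ b) det E` (`Matrix.det_mul_column` or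
  `det_mul_row`); each term of the Leibniz formula of `det E'` has degree `≤ ∑ a j`, and the coefficient of
  `X ^ (∑ a j)` of `det E'` is `det Λ` (`coeff_prod_of_natDegree_le`-type lemma: the coefficient of a product of polynomials
  with degree bounds at the sum of the bounds is the product of the coefficients). So `natDegree (det E') = ∑ a j`.
-/

namespace Pool.Agent.H3.GG

open Polynomial Matrix

variable {F : Type} [Field F] {m : ℕ}

private theorem coeff_prod_top {ι : Type} (s : Finset ι) (p : ι → F[X]) (a : ι → ℕ)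
    (hp : ∀ i ∈ s, (p i).natDegree ≤ a i) :
    (∏ i ∈ s, p i).natDegree ≤ ∑ i ∈ s, a i ∧ (∏ i ∈ s, p i).coeff (∑ i ∈ s, a i) = ∏ i ∈ s, (p i).coeff (a i) := by
  classical
  induction s using Finset.induction_on with
  | empty => simp
  | insert j s hj ih =>
    have h1 := ih fun i hi => hp i (Finset.mem_insert_of_mem hi)
    have h2 := hp j (Finset.mem_insert_self j s)
    rw [Finset.prod_insert hj, Finset.sum_insert hj, Finset.prod_insert hj]
    exact ⟨natDegree_mul_le.trans (add_le_add h2 h1.1), by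
      rw [coeff_mul_add_eq_of_natDegree_le h2 h1.1, h1.2]⟩

/-- the coefficient at the top bound -/
theorem det_top' (E : Matrix (Fin m) (Fin m) F[X]) (a : Fin m → ℕ)
    (hE : ∀ i j, (E i j).natDegree ≤ a j) :
    E.det.natDegree ≤ ∑ j, a j ∧
      E.det.coeff (∑ j, a j) = (Matrix.of fun i j => (E i j).coeff (a j)).det := by
  rw [Matrix.det_apply', Matrix.det_apply']
  constructor
  · refine natDegree_sum_le_of_forall_le _ _ fun σ _ => ?_
    refine natDegree_mul_le.trans ?_
    rw [natDegree_intCast, zero_add]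
    exact (coeff_prod_top Finset.univ (fun i => E (σ i) i) a fun i _ => hE _ _).1
  · rw [finsetSum_coeff]
    refine Finset.sum_congr rfl fun σ _ => ?_
    rw [coeff_intCast_mul, (coeff_prod_top Finset.univ (fun i => E (σ i) i) a fun i _ => hE _ _).2]
    rfl

theorem det_top (E : Matrix (Fin m) (Fin m) F[X]) (a b : Fin m → ℕ)
    (hE : ∀ i j, E i j ≠ 0 → (E i j).natDegree + b i ≤ a j)
    (hL : (Matrix.of fun i j => if b i ≤ a j then (E i j).coeff (a j - b i) else 0).det ≠ 0) :
    E.det ≠ 0 ∧ E.det.natDegree + ∑ i, b i = ∑ j, a j := by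
  have h1 := det_top' (Matrix.of fun i j => X ^ b i * E i j) a (by
    intro i j
    rw [Matrix.of_apply]
    by_cases h0 : E i j = 0
    · rw [h0, mul_zero, natDegree_zero]
      exact Nat.zero_le _
    · have h2 := hE i j h0
      rw [natDegree_X_pow_mul _ h0]
      omega)
  have h2 : (Matrix.of fun i j => X ^ b i * E i j).det = (∏ i, (X : F[X]) ^ b i) * E.det :=
    Matrix.det_mul_column (fun i => X ^ b i) E
  rw [Finset.prod_pow_eq_pow_sum] at h2
  have h3 : (Matrix.of fun i j => ((Matrix.of fun i j => X ^ b i * E i j) i j).coeff (a j)) =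
      Matrix.of fun i j => if b i ≤ a j then (E i j).coeff (a j - b i) else 0 := by
    ext i j
    rw [Matrix.of_apply, Matrix.of_apply, Matrix.of_apply, coeff_X_pow_mul']
  rw [h3, h2] at h1
  have h4 : E.det ≠ 0 := by
    intro h
    rw [h, mul_zero, coeff_zero] at h1
    exact hL h1.2.symm
  refine ⟨h4, ?_⟩
  rw [natDegree_X_pow_mul _ h4] at h1
  refine le_antisymm h1.1 ?_
  have h5 : (X ^ (∑ i, b i) * E.det).coeff (∑ j, a j) ≠ 0 := by
    rw [h1.2]
    exact hL
  have h6 := le_natDegree_of_ne_zero h5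
  rw [natDegree_X_pow_mul _ h4] at h6
  exact h6

variable {f : F[X][X]}

theorem cf_det (h : ℕ) (hf : f.Monic) (hm : f.natDegree = m) {e : Fin m → AdjoinRoot f}
    (he : ∀ j, e j ≠ 0) (hl : LinearIndependent F fun j => lf h hf (e j)) :
    (cf hf e).det ≠ 0 ∧
      (cf hf e).det.natDegree + ∑ i : Fin m, (i : ℕ) * h = ∑ j, wn h hf (e j) := by
  have hlf : ∀ (i : Fin m) (j : Fin m), (if (i : ℕ) * h ≤ wn h hf (e j) then
      ((cf hf e) i j).coeff (wn h hf (e j) - (i : ℕ) * h) else 0) = (lf h hf (e j)).coeff (i : ℕ) := by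
    intro i j
    show _ = ((ph h (rp hf (e j))).coeff (wn h hf (e j))).coeff (i : ℕ)
    rw [ph_coeff]
    rfl
  refine det_top (cf hf e) (fun j => wn h hf (e j)) (fun i => (i : ℕ) * h) ?_ ?_
  · intro i j h0
    have h1 := ph_deg_coeff h (rp hf (e j)) (i : ℕ)
    have h2 : (ph h (rp hf (e j))).degree = (wn h hf (e j) : ℕ) := wd_wn h hf (he j)
    have h0' : (rp hf (e j)).coeff (i : ℕ) ≠ 0 := h0
    rw [h2, degree_eq_natDegree h0'] at h1
    exact_mod_cast h1
  · intro h0
    obtain ⟨v, hv, hv0⟩ := Matrix.exists_mulVec_eq_zero_iff.2 h0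
    apply hv
    have h1 : ∑ j, v j • lf h hf (e j) = 0 := by
      ext i
      rw [finsetSum_coeff, coeff_zero]
      by_cases hi : i < m
      · have h2 := congrFun hv0 ⟨i, hi⟩
        rw [Matrix.mulVec, dotProduct] at h2
        rw [← Pi.zero_apply (M := fun _ : Fin m => F) ⟨i, hi⟩, ← h2]
        refine Finset.sum_congr rfl fun j _ => ?_
        rw [Matrix.of_apply, hlf, coeff_smul, smul_eq_mul, mul_comm]
      · refine Finset.sum_eq_zero fun j _ => ?_
        rw [coeff_smul, coeff_eq_zero_of_degree_lt, smul_zero]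
        refine lt_of_lt_of_le (lf_degree h hf (e j)) ?_
        rw [hm]
        exact_mod_cast Nat.le_of_not_lt hi
    exact funext fun j => (Fintype.linearIndependent_iff.1 hl) v h1 j

end Pool.Agent.H3.GG
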