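import Pool.Agent.H3.GG.LTau

set_option autoImplicit false

/-!
# [H3 GG LCh] The characteristic equation

`RepL f δ G B` and `det G ≠ 0` give `CharEq f G B`. PROOF: let `T` be the matrix of `θ` in the basis `e` of `RepL`:
`θ e_i = ∑ T i l e_l` (`T` over `K`). Then `B = T G` (over `K`) and the characteristic polynomial of `T` is that of the
multiplication by `θ`, that is `overK f` (power basis `θ ^ i`: `charpoly_leftMulMatrix` : it is the minimal polynomial of the
generator, `AdjoinRoot.minpoly_powerBasis_gen_of_monic`; the characteristic polynomial does not depend on the basis: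
`LinearMap.charpoly_toMatrix`, and is the same for the transpose). So `det (x G - B) = det (x - T) det G` over `K[x]`; all
entries are in `F[t]`, and `F[t][x] → K[x]` is injective.
-/

namespace Pool.Agent.H3.GG

open Polynomial Matrix
open Pool.Agent.H80.CC.Plane (overK toL)
open Pool.Agent.H94.GG (Fam lead tau)

variable {F : Type} [Field F] {f : F[X][X]} {m h : ℕ}

private theorem charpoly_root {k : Type} [Field k] {g : k[X]} (hg : g.Monic) (hirr : Irreducible g)
    (e : Module.Basis (Fin m) k (AdjoinRoot g)) :
    (LinearMap.toMatrix e e (Algebra.lmul k (AdjoinRoot g) (AdjoinRoot.root g))).charpoly = g := by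
  have hfd : FiniteDimensional k (AdjoinRoot g) := (AdjoinRoot.powerBasis hirr.ne_zero).finite
  have h1 := charpoly_leftMulMatrix (AdjoinRoot.powerBasis hirr.ne_zero)
  rw [AdjoinRoot.minpoly_powerBasis_gen_of_monic hg] at h1
  rw [LinearMap.charpoly_toMatrix, ← LinearMap.charpoly_toMatrix _ (AdjoinRoot.powerBasis hirr.ne_zero).basis]
  exact h1

theorem chareq (hf : f.Monic) (hm : f.natDegree = m) (hK : Irreducible (overK f))
    {δ : AdjoinRoot (overK f)} {G B : Matrix (Fin m) (Fin m) F[X]} (hG : G.det ≠ 0)
    (hR : RepL f δ G B) : CharEq f G B := by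
  obtain ⟨hf', e, h1, h2⟩ := hR
  have hinj : Function.Injective (Polynomial.mapRingHom (algebraMap F[X] (RatFunc F))) :=
    Polynomial.map_injective _ (IsFractionRing.injective F[X] (RatFunc F))
  refine hinj ?_
  set M := LinearMap.toMatrix e e (Algebra.lmul (RatFunc F) (AdjoinRoot (overK f)) (AdjoinRoot.root (overK f)))
    with hM
  have h3 : B.map (algebraMap F[X] (RatFunc F)) = Mᵀ * G.map (algebraMap F[X] (RatFunc F)) := by
    ext i j
    rw [Matrix.map_apply, h2, Matrix.mul_apply]
    have h4 : AdjoinRoot.root (overK f) * e i = ∑ l, M l i • e l := by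
      have h5 := e.sum_repr (AdjoinRoot.root (overK f) * e i)
      rw [← h5]
      refine Finset.sum_congr rfl fun l _ => ?_
      rw [hM, LinearMap.toMatrix_apply]
      rfl
    rw [h4, Finset.mul_sum, Finset.sum_mul, map_sum]
    refine Finset.sum_congr rfl fun l _ => ?_
    rw [Matrix.transpose_apply, Matrix.map_apply, h1, mul_smul_comm, smul_mul_assoc, map_smul, smul_eq_mul]
  have h4 : ((X : F[X][X]) • G.map C - B.map C).map (Polynomial.mapRingHom (algebraMap F[X] (RatFunc F))) =
      Matrix.charmatrix Mᵀ * (G.map (algebraMap F[X] (RatFunc F))).map C := by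
    have h5 : ((B.map (algebraMap F[X] (RatFunc F))).map C : Matrix (Fin m) (Fin m) (RatFunc F)[X]) =
        Mᵀ.map C * (G.map (algebraMap F[X] (RatFunc F))).map C := by
      rw [h3, Matrix.map_mul]
    rw [Matrix.charmatrix, sub_mul, RingHom.mapMatrix_apply, ← h5, Matrix.scalar_apply, ← Matrix.smul_eq_diagonal_mul]
    ext1 i j
    simp
  rw [RingHom.map_det, RingHom.mapMatrix_apply, h4, Matrix.det_mul, ← Matrix.charpoly, Matrix.charpoly_transpose,
    hM, charpoly_root hf' hK e, map_mul, mul_comm]
  congr 1
  rw [← RingHom.mapMatrix_apply, ← RingHom.map_det, ← RingHom.mapMatrix_apply, ← RingHom.map_det]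
  simp

end Pool.Agent.H3.GG
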