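import Pool.Agent.H94.GG.Defs

set_option autoImplicit false

/-!
# [H3 GG LTa] The functional `tau` over a field

`k` a field, `g ∈ k[x]` monic of degree `m ≥ 1`, `θ = root g`; `tau hg z` is the coefficient of `x ^ (m - 1)` of the
representative (`H94/GG/Defs`; `AdjoinRoot.modByMonicHom`).
* `tau_pow`: `tau (θ ^ i) = 0` for `i + 1 < m`, `= 1` for `i + 1 = m` (the representative is `X ^ i`).
* `tau_ext`: if `tau (z θ ^ i) = 0` for all `i < m` then `z = 0`: let `z ≠ 0` have the representative `p` of degree `d < m`;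
  `p X ^ (m - 1 - d)` has degree `m - 1`, is the representative of `z θ ^ (m - 1 - d)` and its coefficient at `m - 1` is
  the leading coefficient of `p`.
* `tau_const`: with `c = tau (z θ ^ (m - 1))` the element `z - c` satisfies the hypothesis of `tau_ext` (`tau` is linear, `tau_pow`).
-/

namespace Pool.Agent.H3.GG

open Polynomial
open Pool.Agent.H94.GG (tau)

section
variable {k : Type} [Field k] {g : k[X]}

private theorem tau_mk (hg : g.Monic) (p : k[X]) :
    tau hg (AdjoinRoot.mk g p) = (p %ₘ g).coeff (g.natDegree - 1) := by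
  unfold tau
  rw [LinearMap.comp_apply, AdjoinRoot.modByMonicHom_mk, lcoeff_apply]

private theorem tau_mk_of_lt (hg : g.Monic) {p : k[X]} (hp : p.degree < g.degree) :
    tau hg (AdjoinRoot.mk g p) = p.coeff (g.natDegree - 1) := by
  rw [tau_mk, (modByMonic_eq_self_iff hg).mpr hp]

theorem tau_pow (hg : g.Monic) (i : ℕ) (hi : i < g.natDegree) :
    tau hg (AdjoinRoot.root g ^ i) = if i + 1 = g.natDegree then 1 else 0 := by
  have h1 : AdjoinRoot.root g ^ i = AdjoinRoot.mk g (X ^ i) := by
    rw [map_pow, AdjoinRoot.mk_X]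
  rw [h1, tau_mk_of_lt hg, coeff_X_pow]
  · by_cases h2 : i + 1 = g.natDegree
    · rw [if_pos h2, if_pos (by omega)]
    · rw [if_neg h2, if_neg (by omega)]
  · rw [degree_X_pow, degree_eq_natDegree hg.ne_zero]
    exact_mod_cast hi

theorem tau_ext (hg : g.Monic) (hm : 1 ≤ g.natDegree) {z : AdjoinRoot g}
    (h : ∀ i < g.natDegree, tau hg (z * AdjoinRoot.root g ^ i) = 0) : z = 0 := by
  obtain ⟨q, rfl⟩ := AdjoinRoot.mk_surjective z
  set p := q %ₘ g with hp
  have hqp : AdjoinRoot.mk g q = AdjoinRoot.mk g p := by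
    rw [AdjoinRoot.mk_eq_mk, hp]
    refine ⟨q /ₘ g, ?_⟩
    have := modByMonic_add_div q g
    rw [sub_eq_iff_eq_add]
    rw [add_comm]
    exact this.symm
  have hdeg : p.degree < g.degree := degree_modByMonic_lt q hg
  rw [hqp] at h ⊢
  by_contra hne
  have hp0 : p ≠ 0 := by
    rintro h0
    rw [h0, map_zero] at hne
    exact hne rfl
  have hnd : p.natDegree < g.natDegree := natDegree_lt_natDegree hp0 hdeg
  have h1 := h (g.natDegree - 1 - p.natDegree) (by omega)
  have h2 : AdjoinRoot.mk g p * AdjoinRoot.root g ^ (g.natDegree - 1 - p.natDegree) =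
      AdjoinRoot.mk g (p * X ^ (g.natDegree - 1 - p.natDegree)) := by
    rw [map_mul, map_pow, AdjoinRoot.mk_X]
  rw [h2, tau_mk_of_lt hg, coeff_mul_X_pow', if_pos (by omega)] at h1
  · have h3 : g.natDegree - 1 - (g.natDegree - 1 - p.natDegree) = p.natDegree := by omega
    rw [h3] at h1
    exact hp0 (leadingCoeff_eq_zero.mp h1)
  · rw [degree_mul, degree_X_pow, degree_eq_natDegree hp0, degree_eq_natDegree hg.ne_zero]
    exact_mod_cast (by omega : p.natDegree + (g.natDegree - 1 - p.natDegree) < g.natDegree)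

theorem tau_nd (hg : g.Monic) (hm : 1 ≤ g.natDegree) {z : AdjoinRoot g}
    (h : ∀ y, tau hg (z * y) = 0) : z = 0 :=
  tau_ext hg hm fun _ _ => h _

/-- the elements with `tau (z θ ^ i) = 0` for `i < m - 1` are the constants -/
theorem tau_const (hg : g.Monic) (hm : 1 ≤ g.natDegree) {z : AdjoinRoot g}
    (h : ∀ i, i + 1 < g.natDegree → tau hg (z * AdjoinRoot.root g ^ i) = 0) :
    z = algebraMap k (AdjoinRoot g) (tau hg (z * AdjoinRoot.root g ^ (g.natDegree - 1))) := by
  rw [← sub_eq_zero]
  apply tau_ext hg hm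
  intro i hi
  rw [sub_mul, map_sub, ← Algebra.smul_def, map_smul, tau_pow hg i hi, smul_eq_mul]
  by_cases h1 : i + 1 = g.natDegree
  · rw [if_pos h1, mul_one]
    have h2 : g.natDegree - 1 = i := by omega
    rw [h2, sub_self]
  · rw [if_neg h1, mul_zero, sub_zero]
    exact h i (by omega)

end

end Pool.Agent.H3.GG
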