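import Pool.Agent.H3.GG.LWd
import Pool.Agent.H3.GG.LTa

set_option autoImplicit false

/-!
# [H3 GG LTau] The functional `tau` on `O` and `L`

* `toL_inj`: `f` monic: the representative of degree `< deg f` of `z` maps to that of `toL z` (`Polynomial.map_modByMonic`,
  `AdjoinRoot.map_mk`), and `F[t] → K` is injective.
* `tau_toL`: the same.
* `tau_int`: `z ∈ L`, `tau (z θ ^ i) ∈ F[t]` for all `i < m`; then all coefficients of the representative of `z` are in
  `F[t]`: write `z = ∑ i < m, z_i θ ^ i`; by induction on `j`, `z_(m - 1 - j) ∈ F[t]`: `tau (z θ ^ j) = z_(m-1-j) +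
  ∑ (i > m - 1 - j) z_i tau (θ ^ (i + j))`, `tau (θ ^ k) ∈ F[t]` for all `k` (`tau_toL`). So `z = toL (∑ z_i θ ^ i)`.
* `tauO_deg`: `ph_deg_coeff` with `i = m - 1`.
-/

namespace Pool.Agent.H3.GG

open Polynomial
open Pool.Agent.H80.CC.Plane (overK toL)
open Pool.Agent.H94.GG (Fam lead tau)

section
variable {F : Type} [Field F] {f : F[X][X]}

theorem overK_monic (hf : f.Monic) : (overK f).Monic := hf.map _

theorem overK_deg (hf : f.Monic) : (overK f).natDegree = f.natDegree := hf.natDegree_map _

private theorem toL_mk' (p : F[X][X]) :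
    toL f (AdjoinRoot.mk f p) = AdjoinRoot.mk (overK f) (p.map (algebraMap F[X] (RatFunc F))) := by
  have h : (toL f).comp (AdjoinRoot.mk f) =
      (AdjoinRoot.mk (overK f)).comp (mapRingHom (algebraMap F[X] (RatFunc F))) := by
    refine Polynomial.ringHom_ext (fun a => ?_) ?_
    · rw [RingHom.comp_apply, RingHom.comp_apply, coe_mapRingHom, map_C]
      exact AdjoinRoot.map_of _ _ _ _ _
    · rw [RingHom.comp_apply, RingHom.comp_apply, coe_mapRingHom, map_X]
      exact AdjoinRoot.map_root _ _ _ _
  exact congrArg (fun φ : F[X][X] →+* AdjoinRoot (overK f) => φ p) h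

private theorem rp_toL (hf : f.Monic) (z : AdjoinRoot f) :
    AdjoinRoot.modByMonicHom (overK_monic hf) (toL f z) = (rp hf z).map (algebraMap F[X] (RatFunc F)) := by
  obtain ⟨p, rfl⟩ := AdjoinRoot.mk_surjective z
  rw [toL_mk', AdjoinRoot.modByMonicHom_mk, rp_mk, map_modByMonic _ hf]
  rfl

theorem toL_inj (hf : f.Monic) : Function.Injective (toL f) := by
  refine (injective_iff_map_eq_zero _).2 fun z hz => ?_
  have h1 := rp_toL hf z
  rw [hz, map_zero] at h1
  have h2 : rp hf z = 0 := by
    refine Polynomial.map_injective _ (IsFractionRing.injective F[X] (RatFunc F)) ?_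
    rw [Polynomial.map_zero]
    exact h1.symm
  rw [← mk_rp hf z, h2, map_zero]

theorem tau_toL (hf : f.Monic) (z : AdjoinRoot f) :
    tau (overK_monic hf) (toL f z) = algebraMap F[X] (RatFunc F) (tauO hf z) := by
  unfold tau tauO
  rw [LinearMap.comp_apply, LinearMap.comp_apply, rp_toL, lcoeff_apply, lcoeff_apply, coeff_map, overK_deg hf]

theorem tau_int (hf : f.Monic) (hm : 1 ≤ f.natDegree) {z : AdjoinRoot (overK f)}
    (h : ∀ i < f.natDegree, ∃ a : F[X],
      tau (overK_monic hf) (z * AdjoinRoot.root (overK f) ^ i) = algebraMap F[X] (RatFunc F) a) :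
    ∃ y : AdjoinRoot f, z = toL f y := by
  classical
  set ι := algebraMap F[X] (RatFunc F) with hι
  set m := f.natDegree with hm'
  set P : (RatFunc F)[X] := AdjoinRoot.modByMonicHom (overK_monic hf) z with hP
  have hd : (overK f).natDegree = m := overK_deg hf
  have hPd : P.natDegree < m := by
    rw [← hd]
    obtain ⟨p, hp⟩ := AdjoinRoot.mk_surjective z
    rw [hP, ← hp, AdjoinRoot.modByMonicHom_mk]
    refine natDegree_modByMonic_lt _ (overK_monic hf) ?_
    intro h1
    rw [h1, natDegree_one] at hd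
    omega
  have hz : z = AdjoinRoot.mk (overK f) P := (AdjoinRoot.mk_leftInverse (overK_monic hf) z).symm
  have hsum : P = ∑ i ∈ Finset.range m, C (P.coeff i) * X ^ i := by
    rw [as_sum_range' P m hPd]
    simp only [← C_mul_X_pow_eq_monomial]
    refine Finset.sum_congr rfl fun i hi => ?_
    rw [finsetSum_coeff, Finset.sum_eq_single i]
    · simp
    · intro j _ hj
      rw [coeff_C_mul_X_pow, if_neg (Ne.symm hj)]
    · intro h1
      exact absurd hi h1
  have hz2 : z = ∑ i ∈ Finset.range m, (P.coeff i) • AdjoinRoot.root (overK f) ^ i := by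
    rw [hz]
    conv_lhs => rw [hsum]
    rw [map_sum]
    refine Finset.sum_congr rfl fun i _ => ?_
    rw [map_mul, map_pow, AdjoinRoot.mk_X, AdjoinRoot.mk_C, Algebra.smul_def]
    rfl
  have htau : ∀ k : ℕ, tau (overK_monic hf) (AdjoinRoot.root (overK f) ^ k) ∈ ι.range := by
    intro k
    have h1 : AdjoinRoot.root (overK f) ^ k = toL f (AdjoinRoot.root f ^ k) := by
      rw [map_pow]
      congr 1
      exact (AdjoinRoot.map_root _ _ _ _).symm
    rw [h1, tau_toL hf]
    exact ⟨_, rfl⟩
  have key : ∀ j, j < m → P.coeff (m - 1 - j) ∈ ι.range := by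
    intro j
    induction j using Nat.strong_induction_on with
    | _ j ih =>
      intro hj
      obtain ⟨a, ha⟩ := h j hj
      have h1 : tau (overK_monic hf) (z * AdjoinRoot.root (overK f) ^ j) =
          ∑ i ∈ Finset.range m, P.coeff i * tau (overK_monic hf) (AdjoinRoot.root (overK f) ^ (i + j)) := by
        conv_lhs => rw [hz2]
        rw [Finset.sum_mul, map_sum]
        refine Finset.sum_congr rfl fun i _ => ?_
        rw [smul_mul_assoc, ← pow_add, map_smul, smul_eq_mul]
      have hmem : m - 1 - j ∈ Finset.range m := Finset.mem_range.2 (by omega)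
      rw [← Finset.add_sum_erase _ _ hmem] at h1
      have h2 : tau (overK_monic hf) (AdjoinRoot.root (overK f) ^ (m - 1 - j + j)) = 1 := by
        have h3 : m - 1 - j + j = m - 1 := by omega
        rw [h3, tau_pow (overK_monic hf) (m - 1) (by rw [hd]; omega), if_pos (by rw [hd]; omega)]
      rw [h2, mul_one, ha] at h1
      have h4 : P.coeff (m - 1 - j) = ι a - ∑ i ∈ (Finset.range m).erase (m - 1 - j),
          P.coeff i * tau (overK_monic hf) (AdjoinRoot.root (overK f) ^ (i + j)) := by
        rw [h1]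
        ring
      rw [h4]
      refine sub_mem ⟨a, rfl⟩ (sum_mem fun i hi => ?_)
      rw [Finset.mem_erase, Finset.mem_range] at hi
      rcases lt_or_gt_of_ne hi.1 with h5 | h5
      · rw [tau_pow (overK_monic hf) (i + j) (by rw [hd]; omega), if_neg (by rw [hd]; omega), mul_zero]
        exact zero_mem _
      · refine mul_mem ?_ (htau _)
        have h6 := ih (m - 1 - i) (by omega) (by omega)
        have h7 : m - 1 - (m - 1 - i) = i := by omega
        rwa [h7] at h6
  have key2 : ∀ i, ∃ a : F[X], i < m → ι a = P.coeff i := by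
    intro i
    by_cases hi : i < m
    · obtain ⟨a, ha⟩ := key (m - 1 - i) (by omega)
      have h7 : m - 1 - (m - 1 - i) = i := by omega
      rw [h7] at ha
      exact ⟨a, fun _ => ha⟩
    · exact ⟨0, fun h => absurd h hi⟩
  choose c hc using key2
  refine ⟨AdjoinRoot.mk f (∑ i ∈ Finset.range m, C (c i) * X ^ i), ?_⟩
  rw [toL_mk', hz]
  congr 1
  rw [Polynomial.map_sum]
  conv_lhs => rw [hsum]
  refine Finset.sum_congr rfl fun i hi => ?_
  rw [Polynomial.map_mul, map_C, Polynomial.map_pow, map_X, hc i (Finset.mem_range.1 hi)]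

theorem tauO_deg {m h : ℕ} (hF : Fam m h f) (hm : 1 ≤ m) (z : AdjoinRoot f) :
    (tauO hF.monic z).degree + ((m - 1) * h : ℕ) ≤ wd h hF.monic z := by
  have h1 := ph_deg_coeff h (rp hF.monic z) (m - 1)
  unfold wd tauO
  rw [LinearMap.comp_apply, lcoeff_apply, hF.deg]
  exact h1

end

end Pool.Agent.H3.GG
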