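import Pool.Agent.H3.GG.LDist
import Pool.Agent.H3.GG.LTau

set_option autoImplicit false

/-!
# [H3 GG LDc] The conditions on the type (here only `dc_dist`)

* `dc_dist`: `δ` not a square, `RepL f δ G B`, `IsGB h n G B`, `N(δ)` a square. Then `- h ≤ 2 n (m / 2 - 1)` (index
  `m / 2 - 1`). Otherwise for `i, j < m / 2` (`n` monotone): `n i + n j ≤ 2 n (m/2 - 1) < - h ≤ 0`, so `G i j = B i j = 0`;
  `X` = span of the `e_i`, `i < m / 2` (dimension `m / 2`), in the basis of `RepL`; `dist` (`m = 2 (m / 2) + 1`) gives that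
  `δ` is a square.
* `dc_chain`: `e` a reduced basis of `J`, `i + 1 < m`: `wn(e_(i+1)) ≤ h + wn(e_i)`. Otherwise for `j ≤ i` write
  `θ e_j = ∑ c_l e_l` (`θ e_j ∈ J`); if `c_l ≠ 0` then `wn(e_l) ≤ wn(θ e_j) = h + wn(e_j) ≤ h + wn(e_i) < wn(e_(i+1))`
  (`red_deg`, `wn_root`, monotone), so `l ≤ i`. So the span of `toL e_0, .., toL e_i` over `K` is a nonzero subspace of `L`
  of dimension `i + 1 < m`, stable under `θ`, so an ideal of the field `L` (`L` is generated by `θ`): contradiction.
-/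

namespace Pool.Agent.H3.GG

open Polynomial Matrix
open Pool.Agent.H80.CC.Plane (overK toL)
open Pool.Agent.H94.GG (Fam lead tau)

variable {F : Type} [Field F] {f : F[X][X]} {m h : ℕ}

private theorem iso_span {k : Type} [Field k] {g : k[X]} (hg : g.Monic) (a : AdjoinRoot g)
    {ι : Type} (v : ι → AdjoinRoot g) (hv : ∀ i j, tau hg (a * v i * v j) = 0) :
    ∀ x ∈ Submodule.span k (Set.range v), ∀ y ∈ Submodule.span k (Set.range v),
      tau hg (a * x * y) = 0 := by
  have h1 : ∀ i, ∀ y ∈ Submodule.span k (Set.range v), tau hg (a * v i * y) = 0 := by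
    intro i y hy
    have h2 : Submodule.span k (Set.range v) ≤
        LinearMap.ker ((tau hg).comp (LinearMap.mulLeft k (a * v i))) := by
      rw [Submodule.span_le]
      rintro _ ⟨j, rfl⟩
      exact hv i j
    exact h2 hy
  intro x hx y hy
  have h2 : Submodule.span k (Set.range v) ≤
      LinearMap.ker ((tau hg).comp (LinearMap.mulLeft k (a * y))) := by
    rw [Submodule.span_le]
    rintro _ ⟨j, rfl⟩
    show tau hg (a * y * v j) = 0
    rw [mul_right_comm]
    exact h1 j y hy
  have h3 : tau hg (a * y * x) = 0 := h2 hx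
  rwa [mul_right_comm] at h3

private theorem dle_neg {d : ℤ} {p : F[X]} (hd : d < 0) (hp : DLe d p) : p = 0 := by
  rcases hp with hp | hp
  · exact hp
  · exfalso
    have := Int.natCast_nonneg p.natDegree
    linarith

theorem dc_dist (hf : f.Monic) (hm : f.natDegree = m) (hodd : m % 2 = 1) (h3 : 3 ≤ m)
    (hK : Irreducible (overK f)) {δ : AdjoinRoot (overK f)} (hδ : δ ≠ 0) (hns : ¬ IsSquare δ)
    (hN : ∃ y : RatFunc F, Algebra.norm (RatFunc F) δ = y ^ 2) {n : Fin m → ℤ} (hn : IsTy n)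
    {G B : Matrix (Fin m) (Fin m) F[X]} (hG : IsGB h n G B) (hR : RepL f δ G B) (k : Fin m)
    (hk : (k : ℕ) + 1 = m / 2) : - (h : ℤ) ≤ 2 * n k := by
  by_contra hc
  push Not at hc
  apply hns
  obtain ⟨hfK, e, h1, h2⟩ := hR
  obtain ⟨r, hr⟩ : ∃ r, m / 2 = r := ⟨_, rfl⟩
  have hrm : r ≤ m := by omega
  have hi : ∀ i : Fin r, n (Fin.castLE hrm i) ≤ n k := by
    intro i
    apply hn.mono
    rw [Fin.le_def]
    have := i.2
    have h4 : ((Fin.castLE hrm i : Fin m) : ℕ) = (i : ℕ) := rfl
    omega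
  have hh := Int.natCast_nonneg h
  have hG0 : ∀ i j : Fin r, tau hfK (δ * e (Fin.castLE hrm i) * e (Fin.castLE hrm j)) = 0 := by
    intro i j
    rw [← h1, dle_neg (by have := hi i; have := hi j; linarith) (hG.degG _ _), map_zero]
  have hB0 : ∀ i j : Fin r, tau hfK ((δ * AdjoinRoot.root (overK f)) * e (Fin.castLE hrm i) *
      e (Fin.castLE hrm j)) = 0 := by
    intro i j
    rw [mul_assoc δ, ← h2, dle_neg (by have := hi i; have := hi j; linarith) (hG.degB _ _),
      map_zero]
  have hli : LinearIndependent (RatFunc F) fun i : Fin r => e (Fin.castLE hrm i) :=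
    e.linearIndependent.comp _ (Fin.castLE_injective hrm)
  refine dist hfK hK (r := r) ?_ (by omega) hδ
    (Submodule.span (RatFunc F) (Set.range fun i : Fin r => e (Fin.castLE hrm i))) ?_
    (iso_span hfK δ _ hG0) ?_ hN
  · rw [overK_deg hf, hm]
    omega
  · rw [finrank_span_eq_card hli, Fintype.card_fin]
  · intro x hx y hy
    have h4 := iso_span hfK (δ * AdjoinRoot.root (overK f)) _ hB0 x hx y hy
    rwa [mul_assoc δ] at h4

end Pool.Agent.H3.GG
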