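import Pool.Agent.H3.GG.LRed
import Pool.Agent.H3.GG.LTau

set_option autoImplicit false

/-!
# [H3 GG LDd] The chain condition on the type (here only `dc_chain`)

* `dc_dist`: `δ` not a square, `RepL f δ G B`, `IsGB h n G B`, `N(δ)` a square. Then `- h ≤ 2 n (m / 2 - 1)` (index
  `m / 2 - 1`). Otherwise for `i, j < m / 2` (`n` monotone): `n i + n j ≤ 2 n (m/2 - 1) < - h ≤ 0`, so `G i j = B i j = 0`;
  `X` = span of the `e_i`, `i < m / 2` (dimension `m / 2`), in the basis of `RepL`; `dist` (`m = 2 (m / 2) + 1`) gives that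
  `δ` is a square.
* `dc_chain`: `e` a reduced basis of `J`, `i + 1 < m`: `wn(e_(i+1)) ≤ h + wn(e_i)`. Otherwise for `j ≤ i` write
  `θ e_j = ∑ c_l e_l` (`θ e_j ∈ J`); if `c_l ≠ 0` then `wn(e_l) ≤ wn(θ e_j) = h + wn(e_j) ≤ h + wn(e_i) < wn(e_(i+1))`
  (`red_deg`, `wn_root`, monotone), so `l ≤ i`. So the span of `toL e_0, .., toL e_i` over `K` is a nonzero subspace of `L`
  of dimension `i + 1 < m`, stable under `θ`, so an ideal of the field `L` (`L` is generated by `θ`): contradiction.
-/

namespace Pool.Agent.H3.GG

open Polynomial Matrix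
open Pool.Agent.H80.CC.Plane (overK toL)
open Pool.Agent.H94.GG (Fam lead tau)

variable {F : Type} [Field F] {f : F[X][X]} {m h : ℕ}

private theorem toL_smul (c : F[X]) (z : AdjoinRoot f) :
    toL f (c • z) = algebraMap F[X] (RatFunc F) c • toL f z := by
  rw [Algebra.smul_def, Algebra.smul_def, map_mul]
  congr 1
  exact AdjoinRoot.map_of _ _ _ _ _

private theorem toL_root : toL f (AdjoinRoot.root f) = AdjoinRoot.root (overK f) :=
  AdjoinRoot.map_root _ _ _ _

/-- a subspace stable under the root is stable under multiplication -/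
private theorem stab_mul {k : Type} [Field k] {g : k[X]} (W : Submodule k (AdjoinRoot g))
    (hW : ∀ x ∈ W, AdjoinRoot.root g * x ∈ W) (y x : AdjoinRoot g) (hx : x ∈ W) : y * x ∈ W := by
  induction y using AdjoinRoot.induction_on with
  | ih p =>
    induction p using Polynomial.induction_on' with
    | add p q hp hq =>
      rw [map_add, add_mul]
      exact W.add_mem hp hq
    | monomial n a =>
      rw [← Polynomial.C_mul_X_pow_eq_monomial, map_mul, map_pow, AdjoinRoot.mk_X, AdjoinRoot.mk_C, mul_assoc]
      have h1 : AdjoinRoot.root g ^ n * x ∈ W := by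
        induction n with
        | zero => rwa [pow_zero, one_mul]
        | succ n ih =>
          rw [pow_succ', mul_assoc]
          exact hW _ ih
      have h2 : (AdjoinRoot.of g) a * (AdjoinRoot.root g ^ n * x) = a • (AdjoinRoot.root g ^ n * x) := by
        rw [Algebra.smul_def]
        rfl
      rw [h2]
      exact W.smul_mem a h1

theorem dc_chain (hF : Fam m h f) (hirr : Irreducible (lead m h f)) (h3 : 3 ≤ m)
    (hK : Irreducible (overK f)) {J : Ideal (AdjoinRoot f)} {e : Fin m → AdjoinRoot f}
    (he : IsBs J e) (hl : LinearIndependent F fun j => lf h hF.monic (e j))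
    (hmono : Monotone fun j => wn h hF.monic (e j)) (i j : Fin m) (hij : (i : ℕ) + 1 = j) :
    wn h hF.monic (e j) ≤ h + wn h hF.monic (e i) := by
  classical
  by_contra hcon
  push Not at hcon
  have : Fact (Irreducible (overK f)) := ⟨hK⟩
  obtain ⟨S, hS⟩ : ∃ S : Finset (AdjoinRoot (overK f)), S = (Finset.Iic i).image fun l => toL f (e l) := ⟨_, rfl⟩
  obtain ⟨W, hW⟩ : ∃ W : Submodule (RatFunc F) (AdjoinRoot (overK f)), W = Submodule.span (RatFunc F) (S : Set _) :=
    ⟨_, rfl⟩
  have hmem : ∀ l, l ≤ i → toL f (e l) ∈ W := by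
    intro l hli
    rw [hW]
    refine Submodule.subset_span ?_
    rw [hS, Finset.coe_image]
    exact ⟨l, by simpa using hli, rfl⟩
  -- stable under the root
  have hst : ∀ x ∈ W, AdjoinRoot.root (overK f) * x ∈ W := by
    intro x hx
    rw [hW] at hx
    induction hx using Submodule.span_induction with
    | mem x hx =>
      rw [hS, Finset.coe_image] at hx
      obtain ⟨l, hli, rfl⟩ := hx
      have hli' : l ≤ i := by simpa using hli
      obtain ⟨c, hc, _⟩ := he.2 (AdjoinRoot.root f * e l) (J.mul_mem_left _ (he.1 l))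
      have h4 : AdjoinRoot.root (overK f) * toL f (e l) = ∑ k, algebraMap F[X] (RatFunc F) (c k) • toL f (e k) := by
        rw [← toL_root, ← map_mul, ← hc, map_sum]
        exact Finset.sum_congr rfl fun k _ => toL_smul _ _
      change AdjoinRoot.root (overK f) * toL f (e l) ∈ W
      rw [h4]
      refine W.sum_mem fun k _ => ?_
      by_cases hk0 : c k = 0
      · rw [hk0, map_zero, zero_smul]
        exact W.zero_mem
      · refine W.smul_mem _ (hmem k ?_)
        have h5 := (red_deg h hF.monic (bs_ne he) hl c hk0).2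
        rw [hc, (wn_root hF hirr (by omega) (bs_ne he l)).2] at h5
        have h6 : wn h hF.monic (e l) ≤ wn h hF.monic (e i) := hmono hli'
        have h7 : k < j := by
          by_contra h8
          have h9 : wn h hF.monic (e j) ≤ wn h hF.monic (e k) := hmono (not_lt.1 h8)
          omega
        rw [Fin.lt_def] at h7
        rw [Fin.le_def]
        omega
    | zero =>
      rw [mul_zero]
      exact W.zero_mem
    | add x y _ _ hx hy =>
      rw [mul_add]
      exact W.add_mem hx hy
    | smul a x _ hx =>
      rw [mul_smul_comm]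
      exact W.smul_mem a hx
  have hi0 : toL f (e i) ≠ 0 := by
    intro h0
    exact bs_ne he i (toL_inj hF.monic (h0.trans (map_zero _).symm))
  have h1W : (1 : AdjoinRoot (overK f)) ∈ W := by
    have h4 := stab_mul W hst (toL f (e i))⁻¹ (toL f (e i)) (hmem i le_rfl)
    rwa [inv_mul_cancel₀ hi0] at h4
  have htop : W = ⊤ := by
    rw [eq_top_iff]
    intro y _
    have h4 := stab_mul W hst y 1 h1W
    rwa [mul_one] at h4
  have hfr : Module.finrank (RatFunc F) (AdjoinRoot (overK f)) = m := by
    rw [(AdjoinRoot.powerBasis' (overK_monic hF.monic)).finrank, AdjoinRoot.powerBasis'_dim,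
      overK_deg hF.monic, hF.deg]
  have h5 : Module.finrank (RatFunc F) W ≤ S.card := by
    rw [hW]
    exact finrank_span_finset_le_card S
  have h6 : S.card ≤ i + 1 := by
    rw [hS]
    refine Finset.card_image_le.trans ?_
    rw [Fin.card_Iic]
  rw [htop, finrank_top, hfr] at h5
  have h7 := j.isLt
  omega

end Pool.Agent.H3.GG
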