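import Pool.Agent.H3.GG.CDefs

set_option autoImplicit false

/-!
# [H3 GG LDefs] THEOREM G, chapter LAT: definitions

`f ∈ F[t][x]` monic in `x` of degree `m`, `O = AdjoinRoot f`, `θ = root f`, `rp hf z` the representative of degree `< m`
of `z ∈ O`. `ph h : F[t][x] → F[x][T]`, `t ↦ T`, `x ↦ x T ^ h`. The weight `wd h hf z` is the degree of
`ph h (rp hf z)` in `T` (`⊥` for `z = 0`), `wn` the same as a natural number, `lf h hf z ∈ F[x]` the leading
coefficient. If the leading form of `f` is irreducible then `wd` is additive.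

`tauO` is the coefficient of `x ^ (m - 1)` on `O`. `IsBs J e`: `e` is an `F[t]`-basis of the ideal `J` of `O`.
-/

namespace Pool.Agent.H3.GG

open Polynomial

section
variable {F : Type} [Field F]

/-- `t ↦ T`, `x ↦ x T ^ h`; the value is a polynomial in `T` over `F[x]` -/
noncomputable def ph (h : ℕ) : F[X][X] →+* F[X][X] :=
  eval₂RingHom (mapRingHom (C : F →+* F[X])) (C X * X ^ h)

variable {f : F[X][X]}

/-- the representative of degree less than `deg f` -/
noncomputable abbrev rp (hf : f.Monic) (z : AdjoinRoot f) : F[X][X] :=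
  AdjoinRoot.modByMonicHom hf z

/-- the weight -/
noncomputable def wd (h : ℕ) (hf : f.Monic) (z : AdjoinRoot f) : WithBot ℕ := (ph h (rp hf z)).degree

/-- the weight as a natural number -/
noncomputable def wn (h : ℕ) (hf : f.Monic) (z : AdjoinRoot f) : ℕ := (ph h (rp hf z)).natDegree

/-- the leading form -/
noncomputable def lf (h : ℕ) (hf : f.Monic) (z : AdjoinRoot f) : F[X] :=
  (ph h (rp hf z)).leadingCoeff

/-- coefficient of `x ^ (deg f - 1)` on `O` -/
noncomputable def tauO (hf : f.Monic) : AdjoinRoot f →ₗ[F[X]] F[X] :=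
  (lcoeff F[X] (f.natDegree - 1)).comp (AdjoinRoot.modByMonicHom hf)

/-- `e` is an `F[t]`-basis of the ideal `J` -/
def IsBs {m : ℕ} (J : Ideal (AdjoinRoot f)) (e : Fin m → AdjoinRoot f) : Prop :=
  (∀ i, e i ∈ J) ∧ ∀ x ∈ J, ∃! c : Fin m → F[X], ∑ i, c i • e i = x

/-- the matrix of the coefficients of the `e j` in the basis `θ ^ i` -/
noncomputable def cf {m : ℕ} (hf : f.Monic) (e : Fin m → AdjoinRoot f) :
    Matrix (Fin m) (Fin m) F[X] :=
  Matrix.of fun i j => (rp hf (e j)).coeff i

/-- the data of a class: `(b) = J ^ 2`, `e` a basis of `J`, `b * z i j = e i * e j` -/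
structure Dat {m : ℕ} (J : Ideal (AdjoinRoot f)) (b : AdjoinRoot f) (e : Fin m → AdjoinRoot f)
    (z : Fin m → Fin m → AdjoinRoot f) : Prop where
  b0 : b ≠ 0
  sq : Ideal.span {b} = J ^ 2
  bs : IsBs J e
  eq : ∀ i j, b * z i j = e i * e j

/-- the Gram matrix -/
noncomputable def gm {m : ℕ} (hf : f.Monic) (z : Fin m → Fin m → AdjoinRoot f) :
    Matrix (Fin m) (Fin m) F[X] := Matrix.of fun i j => tauO hf (z i j)

/-- the Gram matrix of `θ` -/
noncomputable def bm {m : ℕ} (hf : f.Monic) (z : Fin m → Fin m → AdjoinRoot f) :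
    Matrix (Fin m) (Fin m) F[X] := Matrix.of fun i j => tauO hf (AdjoinRoot.root f * z i j)

end

end Pool.Agent.H3.GG
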