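import Pool.Agent.H3.GG.LTa

set_option autoImplicit false

/-!
# [H3 GG LDh] (here only claim (3)) DIST: an isotropic `X` with `τ(δ θ X X) = 0`

`k` a field, `g` monic irreducible of degree `m = 2 r + 1`, `L = k[x]/(g)`, `δ ≠ 0`, `X ⊆ L` a subspace of dimension `r` with
`τ(δ x y) = 0 = τ(δ θ x y)` for `x, y ∈ X`. Then `δ` is a constant times a square; if the norm of `δ` is a square it is a
square.

PROOF. `r = 0`: `m = 1`, `L = k`, `δ` is a constant (`δ * 1 ^ 2`). `r ≥ 1`.
(1) No subspace `0 ≠ Y ≠ L` is stable under `θ` (it would be an ideal of the field `L`).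
(2) `X + θ X` is contained in `X^⊥ = {y | τ(δ x y) = 0 for x ∈ X}`, of dimension `m - r = r + 1` (the form is nondegenerate:
`tau_nd`; in fact only `dim X^⊥ ≤ r + 1` is needed: the map `L → Dual X`, `y ↦ τ(δ · y)` is onto, as its transpose is
injective). So `dim (X + θ X) ≤ r + 1`.
(3) CLAIM: if `0 ≠ Y` is a subspace, `dim Y = s ≥ 1`, `dim (Y + θ Y) ≤ s + 1`, then there is `λ ≠ 0` with
`Y = span (λ, θ λ, .., θ ^ (s - 1) λ)`. Induction on `s`; `s = 1` clear. `s ≥ 2`: `Y' = {y ∈ Y | θ y ∈ Y}`: it is the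
kernel of `Y → (Y + θ Y)/Y`, `y ↦ θ y`, so `dim Y' ≥ s - 1`, and `Y' ≠ Y` if `Y ≠ L` by (1) (here `s ≤ r < m`), so
`dim Y' = s - 1`; `Y' + θ Y' ⊆ Y` has dimension `≤ s`. So `Y' = span (λ, .., θ ^ (s - 2) λ)`, `θ ^ (s - 1) λ ∈ Y`,
the `s` elements `θ ^ i λ` are independent (`s ≤ m`), so they span `Y`.
(4) `X = span (θ ^ i λ, i < r)`. So `τ(δ λ ^ 2 θ ^ i) = 0` for `i ≤ 2 r - 2`, and with `θ` for `i ≤ 2 r - 1 = m - 2`
(`θ ^ (2 r - 1) λ ^ 2 = θ (θ ^ (r - 1) λ) (θ ^ (r - 1) λ)`). By `tau_const` `δ λ ^ 2 = c` is a constant.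
(5) `N(δ) N(λ) ^ 2 = c ^ m` (`Algebra.norm_algebraMap`, `finrank = m`), so `c ^ m` is a square, `m` odd, so `c` is a square
`s ^ 2` (`c ≠ 0`), `δ = (s / λ) ^ 2`.
-/

namespace Pool.Agent.H3.GG

open Polynomial
open Pool.Agent.H94.GG (tau)

variable {k : Type} [Field k] {g : k[X]}

private theorem stable_mul (Y : Submodule k (AdjoinRoot g))
    (h : ∀ y ∈ Y, AdjoinRoot.root g * y ∈ Y) (z y : AdjoinRoot g) (hy : y ∈ Y) : z * y ∈ Y := by
  obtain ⟨p, rfl⟩ := AdjoinRoot.mk_surjective z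
  have hpow : ∀ n : ℕ, AdjoinRoot.root g ^ n * y ∈ Y := by
    intro n
    induction n with
    | zero => rwa [pow_zero, one_mul]
    | succ n ih =>
      rw [pow_succ', mul_assoc]
      exact h _ ih
  induction p using Polynomial.induction_on' with
  | add p q hp hq =>
    rw [map_add, add_mul]
    exact Y.add_mem hp hq
  | monomial n a =>
    rw [← C_mul_X_pow_eq_monomial, map_mul, map_pow, AdjoinRoot.mk_X, AdjoinRoot.mk_C, mul_assoc]
    have h1 := Y.smul_mem a (hpow n)
    rwa [Algebra.smul_def] at h1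

private theorem stable_top (hirr : Irreducible g) (Y : Submodule k (AdjoinRoot g)) (hY : Y ≠ ⊥)
    (h : ∀ y ∈ Y, AdjoinRoot.root g * y ∈ Y) : Y = ⊤ := by
  have hfact : Fact (Irreducible g) := ⟨hirr⟩
  obtain ⟨y, hy, hy0⟩ := Y.ne_bot_iff.1 hY
  rw [Submodule.eq_top_iff']
  intro z
  have h1 := stable_mul Y h (z * y⁻¹) y hy
  rwa [mul_assoc, inv_mul_cancel₀ hy0, mul_one] at h1

/-- claim (3) -/
theorem dist_chain (hg : g.Monic) (hirr : Irreducible g) (s : ℕ) (hs : 1 ≤ s)
    (hsm : s < g.natDegree) (Y : Submodule k (AdjoinRoot g)) (hY : Module.finrank k Y = s)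
    (hθ : Module.finrank k (Y ⊔ Y.map (LinearMap.mulLeft k (AdjoinRoot.root g)) :
      Submodule k (AdjoinRoot g)) ≤ s + 1) :
    ∃ l : AdjoinRoot g, l ≠ 0 ∧ ∀ i < s, AdjoinRoot.root g ^ i * l ∈ Y := by
  have hfact : Fact (Irreducible g) := ⟨hirr⟩
  have hfin : Module.Finite k (AdjoinRoot g) := (AdjoinRoot.powerBasis hirr.ne_zero).finite
  have hrank : Module.finrank k (AdjoinRoot g) = g.natDegree := by
    rw [(AdjoinRoot.powerBasis hirr.ne_zero).finrank, AdjoinRoot.powerBasis_dim]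
  induction s generalizing Y with
  | zero => exact absurd hs (by norm_num)
  | succ s ih =>
    have hne : Y ≠ ⊥ := by
      intro h
      rw [h, finrank_bot] at hY
      exact Nat.succ_ne_zero s hY.symm
    rcases Nat.eq_zero_or_pos s with rfl | hs0
    · obtain ⟨l, hl, hl0⟩ := Y.ne_bot_iff.1 hne
      refine ⟨l, hl0, fun i hi => ?_⟩
      have hi0 : i = 0 := by omega
      rw [hi0, pow_zero, one_mul]
      exact hl
    · have hroot : AdjoinRoot.root g ≠ 0 := by
        intro h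
        rw [← AdjoinRoot.mk_X, AdjoinRoot.mk_eq_zero] at h
        have h1 := natDegree_le_of_dvd h X_ne_zero
        rw [natDegree_X] at h1
        omega
      set μ := LinearMap.mulLeft k (AdjoinRoot.root g) with hμ
      have hinj : Function.Injective μ := mul_right_injective₀ hroot
      let Y' : Submodule k (AdjoinRoot g) := Y ⊓ Y.comap μ
      have h1 : Y ⊓ Y.map μ = Y'.map μ ⊔ (Y ⊓ Y.map μ) := by
        rw [eq_comm, sup_eq_right]
        rintro _ ⟨y, hy, rfl⟩
        exact ⟨hy.2, y, hy.1, rfl⟩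
      have h2 : Y'.map μ = Y ⊓ Y.map μ := by
        apply le_antisymm
        · rintro _ ⟨y, hy, rfl⟩
          exact ⟨hy.2, y, hy.1, rfl⟩
        · rintro _ ⟨hy1, y, hy, rfl⟩
          exact ⟨y, ⟨hy, hy1⟩, rfl⟩
      have h3 : Module.finrank k (Y.map μ : Submodule k (AdjoinRoot g)) = s + 1 := by
        rw [← hY]
        exact (LinearEquiv.finrank_eq (Submodule.equivMapOfInjective μ hinj Y)).symm
      have h4 : Module.finrank k (Y'.map μ : Submodule k (AdjoinRoot g)) = Module.finrank k Y' :=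
        (LinearEquiv.finrank_eq (Submodule.equivMapOfInjective μ hinj Y')).symm
      have h5 := Submodule.finrank_sup_add_finrank_inf_eq Y (Y.map μ)
      rw [← h2, h4, h3, hY] at h5
      have h6 : Y' ≠ Y := by
        intro h
        have h7 : Y = ⊤ := stable_top hirr Y hne fun y hy => by
          rw [← h] at hy
          exact hy.2
        rw [h7, finrank_top, hrank] at hY
        omega
      have h7 : Module.finrank k Y' < Module.finrank k Y :=
        Submodule.finrank_lt_finrank_of_lt (lt_of_le_of_ne inf_le_left h6)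
      have h8 : Module.finrank k Y' = s := by omega
      have h9 : Y' ⊔ Y'.map μ ≤ Y := by
        rw [sup_le_iff]
        refine ⟨inf_le_left, ?_⟩
        rw [h2]
        exact inf_le_left
      have h10 := Submodule.finrank_mono h9
      obtain ⟨l, hl0, hl⟩ := ih hs0 (by omega) Y' h8 (by omega)
      refine ⟨l, hl0, fun i hi => ?_⟩
      rcases Nat.eq_zero_or_pos i with rfl | hi0
      · exact (hl 0 hs0).1
      · obtain ⟨j, rfl⟩ : ∃ j, i = j + 1 := ⟨i - 1, by omega⟩
        rw [pow_succ', mul_assoc]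
        exact (hl j (by omega)).2

end Pool.Agent.H3.GG
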