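import Pool.Agent.H3.GG.LDh

set_option autoImplicit false

/-!
# [H3 GG LDist] DIST: an isotropic `X` with `τ(δ θ X X) = 0`

`k` a field, `g` monic irreducible of degree `m = 2 r + 1`, `L = k[x]/(g)`, `δ ≠ 0`, `X ⊆ L` a subspace of dimension `r` with
`τ(δ x y) = 0 = τ(δ θ x y)` for `x, y ∈ X`. Then `δ` is a constant times a square; if the norm of `δ` is a square it is a
square.

PROOF. `r = 0`: `m = 1`, `L = k`, `δ` is a constant (`δ * 1 ^ 2`). `r ≥ 1`.
(1) No subspace `0 ≠ Y ≠ L` is stable under `θ` (it would be an ideal of the field `L`).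
(2) `X + θ X` is contained in `X^⊥ = {y | τ(δ x y) = 0 for x ∈ X}`, of dimension `m - r = r + 1` (the form is nondegenerate:
`tau_nd`; in fact only `dim X^⊥ ≤ r + 1` is needed: the map `L → Dual X`, `y ↦ τ(δ · y)` is onto, as its transpose is
injective). So `dim (X + θ X) ≤ r + 1`.
(3) CLAIM: if `0 ≠ Y` is a subspace, `dim Y = s ≥ 1`, `dim (Y + θ Y) ≤ s + 1`, then there is `λ ≠ 0` with
`Y = span (λ, θ λ, .., θ ^ (s - 1) λ)`. Induction on `s`; `s = 1` clear. `s ≥ 2`: `Y' = {y ∈ Y | θ y ∈ Y}`: it is the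
kernel of `Y → (Y + θ Y)/Y`, `y ↦ θ y`, so `dim Y' ≥ s - 1`, and `Y' ≠ Y` if `Y ≠ L` by (1) (here `s ≤ r < m`), so
`dim Y' = s - 1`; `Y' + θ Y' ⊆ Y` has dimension `≤ s`. So `Y' = span (λ, .., θ ^ (s - 2) λ)`, `θ ^ (s - 1) λ ∈ Y`,
the `s` elements `θ ^ i λ` are independent (`s ≤ m`), so they span `Y`.
(4) `X = span (θ ^ i λ, i < r)`. So `τ(δ λ ^ 2 θ ^ i) = 0` for `i ≤ 2 r - 2`, and with `θ` for `i ≤ 2 r - 1 = m - 2`
(`θ ^ (2 r - 1) λ ^ 2 = θ (θ ^ (r - 1) λ) (θ ^ (r - 1) λ)`). By `tau_const` `δ λ ^ 2 = c` is a constant.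
(5) `N(δ) N(λ) ^ 2 = c ^ m` (`Algebra.norm_algebraMap`, `finrank = m`), so `c ^ m` is a square, `m` odd, so `c` is a square
`s ^ 2` (`c ≠ 0`), `δ = (s / λ) ^ 2`.
-/

namespace Pool.Agent.H3.GG

open Polynomial
open Pool.Agent.H94.GG (tau)

variable {k : Type} [Field k] {g : k[X]}

/-- the form of `δ` -/
private noncomputable def Bf (hg : g.Monic) (δ : AdjoinRoot g) : LinearMap.BilinForm k (AdjoinRoot g) :=
  LinearMap.mk₂ k (fun x y => tau hg (δ * x * y))
    (fun x y z => by rw [← map_add]; congr 1; ring)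
    (fun c x y => by rw [mul_smul_comm, smul_mul_assoc, map_smul])
    (fun x y z => by rw [← map_add]; congr 1; ring)
    (fun c x y => by rw [mul_smul_comm, map_smul])

private theorem Bf_apply (hg : g.Monic) (δ x y : AdjoinRoot g) : Bf hg δ x y = tau hg (δ * x * y) := rfl

private theorem fin_dim (hirr : Irreducible g) : FiniteDimensional k (AdjoinRoot g) :=
  (AdjoinRoot.powerBasis hirr.ne_zero).finite

private theorem fr (hirr : Irreducible g) : Module.finrank k (AdjoinRoot g) = g.natDegree := by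
  rw [(AdjoinRoot.powerBasis hirr.ne_zero).finrank, AdjoinRoot.powerBasis_dim]

theorem dist (hg : g.Monic) (hirr : Irreducible g) {r : ℕ} (hm : g.natDegree = 2 * r + 1)
    (hr : 1 ≤ r) {δ : AdjoinRoot g} (hδ : δ ≠ 0) (X : Submodule k (AdjoinRoot g))
    (hX : Module.finrank k X = r) (h1 : ∀ x ∈ X, ∀ y ∈ X, tau hg (δ * x * y) = 0)
    (h2 : ∀ x ∈ X, ∀ y ∈ X, tau hg (δ * (AdjoinRoot.root g * x) * y) = 0)
    (hN : ∃ y : k, Algebra.norm k δ = y ^ 2) : IsSquare δ := by
  have hdom : IsDomain (AdjoinRoot g) := AdjoinRoot.isDomain_of_prime hirr.prime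
  have hfd : FiniteDimensional k (AdjoinRoot g) := fin_dim hirr
  have hm1 : 1 ≤ g.natDegree := hirr.natDegree_pos
  have hker : LinearMap.ker (Bf hg δ) = ⊥ := by
    rw [LinearMap.ker_eq_bot']
    intro x hx
    have h3 : δ * x = 0 := tau_nd hg hm1 fun y => by
      have := LinearMap.congr_fun hx y
      rwa [Bf_apply] at this
    exact (mul_eq_zero.1 h3).resolve_left hδ
  have hdim := LinearMap.BilinForm.finrank_add_finrank_orthogonal' (B := Bf hg δ) X
  rw [hker, inf_bot_eq, finrank_bot, add_zero, fr hirr, hX, hm] at hdim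
  have hle : X ⊔ X.map (LinearMap.mulLeft k (AdjoinRoot.root g)) ≤ (Bf hg δ).orthogonal X := by
    refine sup_le (fun y hy => ?_) ?_
    · rw [LinearMap.BilinForm.mem_orthogonal_iff]
      intro x hx
      exact h1 x hx y hy
    · rintro _ ⟨y, hy, rfl⟩
      rw [LinearMap.BilinForm.mem_orthogonal_iff]
      intro x hx
      change tau hg (δ * x * (AdjoinRoot.root g * y)) = 0
      have := h2 x hx y hy
      have h3 : δ * x * (AdjoinRoot.root g * y) = δ * (AdjoinRoot.root g * x) * y := by ring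
      rw [h3]
      exact this
  have hdim2 := Submodule.finrank_mono hle
  obtain ⟨l, hl, hi⟩ := dist_chain hg hirr r hr (by omega) X hX (by omega)
  have h3 : ∀ i, i + 1 < g.natDegree → tau hg (δ * l ^ 2 * AdjoinRoot.root g ^ i) = 0 := by
    intro i hi'
    by_cases hc : i ≤ 2 * r - 2
    · obtain ⟨a, b, ha, hb, hab⟩ : ∃ a b, a < r ∧ b < r ∧ i = a + b :=
        ⟨min i (r - 1), i - min i (r - 1), by omega, by omega, by omega⟩
      have h4 := h1 _ (hi a ha) _ (hi b hb)
      have h5 : δ * l ^ 2 * AdjoinRoot.root g ^ i =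
          δ * (AdjoinRoot.root g ^ a * l) * (AdjoinRoot.root g ^ b * l) := by
        rw [hab, pow_add]
        ring
      rw [h5]
      exact h4
    · have h4 := h2 _ (hi (r - 1) (by omega)) _ (hi (r - 1) (by omega))
      have h5 : δ * l ^ 2 * AdjoinRoot.root g ^ i =
          δ * (AdjoinRoot.root g * (AdjoinRoot.root g ^ (r - 1) * l)) * (AdjoinRoot.root g ^ (r - 1) * l) := by
        have h6 : i = (r - 1) + (r - 1) + 1 := by omega
        rw [h6, pow_succ, pow_add]
        ring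
      rw [h5]
      exact h4
  have h4 := tau_const hg hm1 h3
  generalize tau hg (δ * l ^ 2 * AdjoinRoot.root g ^ (g.natDegree - 1)) = c at h4
  have hc : c ≠ 0 := by
    rintro rfl
    rw [map_zero] at h4
    rcases mul_eq_zero.1 h4 with h5 | h5
    · exact hδ h5
    · exact hl ((pow_eq_zero_iff two_ne_zero).1 h5)
  obtain ⟨y, hy⟩ := hN
  have h5 : (y * Algebra.norm k l) ^ 2 = c ^ (2 * r + 1) := by
    rw [mul_pow, ← hy, ← map_pow, ← map_mul, h4, Algebra.norm_algebraMap, fr hirr, hm]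
  have h6 : c = (y * Algebra.norm k l / c ^ r) ^ 2 := by
    rw [div_pow, h5]
    field_simp
    ring
  obtain ⟨l', hl'⟩ : ∃ l', l * l' = 1 := by
    have : Fact (Irreducible g) := ⟨hirr⟩
    exact ⟨l⁻¹, mul_inv_cancel₀ hl⟩
  refine ⟨algebraMap k (AdjoinRoot g) (y * Algebra.norm k l / c ^ r) * l', ?_⟩
  calc δ = δ * (l * l') ^ 2 := by rw [hl', one_pow, mul_one]
    _ = (δ * l ^ 2) * l' ^ 2 := by ring
    _ = algebraMap k (AdjoinRoot g) c * l' ^ 2 := by rw [h4]
    _ = algebraMap k (AdjoinRoot g) ((y * Algebra.norm k l / c ^ r) ^ 2) * l' ^ 2 := by rw [← h6]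
    _ = _ := by
      rw [map_pow]
      ring

end Pool.Agent.H3.GG
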