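import Mathlib

set_option autoImplicit false

/-!
# [H3 GG LFc] The abstract counting lemma

For every `s ∈ T` a map `Φ s : A → Y` into the finite set `W`, with at most two preimages of each point, images for different
`s` disjoint: `|T| |A| ≤ 2 |W|`. PROOF: the map `T × A → Y` has at most two preimages of each point
(`Finset.card_le_mul_card_image`).
-/

namespace Pool.Agent.H3.GG

theorem count {S A Y : Type} [Finite A] (T : Finset S) (W : Set Y) (hW : W.Finite)
    (Φ : S → A → Y) (h1 : ∀ s ∈ T, ∀ a, Φ s a ∈ W)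
    (h2 : ∀ s ∈ T, ∀ a, ∃ b : A, ∀ c : A, Φ s c = Φ s a → c = a ∨ c = b)
    (h3 : ∀ s ∈ T, ∀ s' ∈ T, ∀ a a', Φ s a = Φ s' a' → s = s') :
    T.card * Nat.card A ≤ 2 * W.ncard := by
  classical
  have hA : Fintype A := Fintype.ofFinite A
  have h4 := Finset.card_le_mul_card_image (f := fun p : S × A => Φ p.1 p.2) (T ×ˢ (Finset.univ : Finset A)) 2 (by
    intro y hy
    obtain ⟨⟨s, a⟩, hsa, rfl⟩ := Finset.mem_image.1 hy
    have hs : s ∈ T := (Finset.mem_product.1 hsa).1
    obtain ⟨b, hb⟩ := h2 s hs a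
    have h5 : ((T ×ˢ (Finset.univ : Finset A)).filter fun p : S × A => Φ p.1 p.2 = Φ s a) ⊆ {(s, a), (s, b)} := by
      rintro ⟨s', c⟩ hp
      obtain ⟨hp1, hp2⟩ := Finset.mem_filter.1 hp
      have h6 : s' = s := h3 s' (Finset.mem_product.1 hp1).1 s hs c a hp2
      subst h6
      rcases hb c hp2 with h7 | h7
      · rw [h7]; exact Finset.mem_insert_self _ _
      · rw [h7]; exact Finset.mem_insert_of_mem (Finset.mem_singleton_self _)
    exact (Finset.card_le_card h5).trans Finset.card_le_two)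
  rw [Finset.card_product, Finset.card_univ, ← Nat.card_eq_fintype_card] at h4
  refine h4.trans (Nat.mul_le_mul_left 2 ?_)
  rw [Set.ncard_eq_toFinset_card W hW]
  refine Finset.card_le_card fun y hy => ?_
  obtain ⟨⟨s, a⟩, hsa, rfl⟩ := Finset.mem_image.1 hy
  exact hW.mem_toFinset.2 (h1 s (Finset.mem_product.1 hsa).1 a)

end Pool.Agent.H3.GG
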