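import Pool.Agent.H3.GG.LAa
import Pool.Agent.H3.GG.LFc

set_option autoImplicit false

/-!
# [H3 GG LFin] Finiteness

* `fin_dle`: `F` finite: `{p | DLe d p}` is finite (`Polynomial.degreeLT` is finite, or injection to the coefficients).
* `fin_A`, `fin_GB`: matrices with entries in finite sets (`Set.Finite.pi`).
* `count`: abstract: finite sets. For every `s ∈ S` a map `Φ s : A → Y` with at most two preimages of each point, images for
  different `s` disjoint: `|S| |A| ≤ 2 |Y|`. PROOF: the map `S × A → Y` has at most two preimages of each point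
  (`Finset.card_le_mul_card_image` : `card ≤ 2 * card image`).
-/

namespace Pool.Agent.H3.GG

open Polynomial Matrix

variable {F : Type} [Field F] [Finite F] {f : F[X][X]} {m h : ℕ}

theorem fin_dle (d : ℤ) : {p : F[X] | DLe d p}.Finite := by
  have hfin : Finite (degreeLT F (d.toNat + 1)) := Finite.of_equiv _ (degreeLTEquiv F (d.toNat + 1)).toEquiv.symm
  have h1 : ((degreeLT F (d.toNat + 1) : Submodule F F[X]) : Set F[X]).Finite := Set.toFinite _
  refine h1.subset fun p hp => ?_
  show p ∈ degreeLT F (d.toNat + 1)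
  rw [mem_degreeLT]
  rcases hp with hp | hp
  · rw [hp, degree_zero]
    exact WithBot.bot_lt_coe _
  · refine lt_of_le_of_lt degree_le_natDegree ?_
    exact_mod_cast (by omega : p.natDegree < d.toNat + 1)

private theorem fin_mat (S : Fin m → Fin m → Set F[X]) (hS : ∀ i j, (S i j).Finite) :
    {P : Matrix (Fin m) (Fin m) F[X] | ∀ i j, P i j ∈ S i j}.Finite := by
  have h1 : ∀ i, {r : Fin m → F[X] | ∀ j, r j ∈ S i j}.Finite := fun i => Set.Finite.pi' (hS i)
  exact Set.Finite.pi' h1

theorem fin_A (n : Fin m → ℤ) : Finite {P : Matrix (Fin m) (Fin m) F[X] // IsA n P} := by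
  have h1 := fin_mat (fun i j => {p : F[X] | DLe (n j - n i) p}) (fun i j => fin_dle (n j - n i))
  exact (h1.subset (fun P (hP : IsA n P) => hP.2) : {P : Matrix (Fin m) (Fin m) F[X] | IsA n P}.Finite).to_subtype

theorem fin_GB (n : Fin m → ℤ) : {p : Matrix (Fin m) (Fin m) F[X] × Matrix (Fin m) (Fin m) F[X] |
    IsGB h n p.1 p.2}.Finite := by
  have h1 := fin_mat (fun i j => {p : F[X] | DLe (n i + n j) p}) (fun i j => fin_dle (n i + n j))
  have h2 := fin_mat (fun i j => {p : F[X] | DLe (h + n i + n j) p}) (fun i j => fin_dle (h + n i + n j))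
  exact (h1.prod h2).subset fun p hp => ⟨hp.degG, hp.degB⟩

end Pool.Agent.H3.GG
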