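import Pool.Agent.H3.GG.LLv

/-!
# [H3 GG LLc] (here only `loc_triv`) The local condition: squares over `K_v` have trivial class modulo `v`

`v` a place, `ϖ ∈ F[t]` irreducible with `v = (ϖ)`, `K_v` the completion, `O_v` its ring of integers. `f` monic, `f` modulo `v`
squarefree, `det G = C c`, `c ≠ 0`, `RepL f δ G B` with basis `e`, `toLv δ = z ^ 2` in `L_v = K_v[x]/(f)`.
`T = G⁻¹ B` has entries in `F[t]`, and `θ e_j = ∑ (B G⁻¹)_jl e_l`, `B G⁻¹ = Tᵀ` (`G`, `B` symmetric): `θ e_j = ∑ T_lj e_l`, so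
`τ(δ e_k θ ^ i e_j) = (G T ^ i)_kj` (`rep_pow`).
(1) `δ e_j ^ 2 ∈ toL O`: `τ(δ e_j ^ 2 θ ^ i) = (G T ^ i)_jj ∈ F[t]` for all `i`, `tau_int`.
(2) `z e_j ∈ L_v` is the class of a polynomial over `O_v`: its square is `toLv (δ e_j ^ 2)`; `nor` with `A = O_v`, `M = K_v`,
`κ` the residue field of `O_v` (`φ f` squarefree: `F[t]/v → κ` is an isomorphism; or: a field extension of perfect fields;
`F[X] ⧸ v.asIdeal → κ` is onto by `H94.TC.exists_approx`).
(3) `u_j = τ(z e_j) ∈ O_v`. `z` is a unit (`δ ≠ 0`). Let `w = G⁻¹ u ∈ O_v ^ m`. Then `z⁻¹ = ∑ w_j e_j` in `L_v`: the images of the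
`e_j` are a `K_v`-basis of `L_v`; for all `k` `τ(δ (∑ w_j e_j) e_k) = (G w)_k = u_k = τ(δ z⁻¹ e_k)`; the form is nondegenerate.
(4) `∑ w_k w_j (G T ^ i)_kj = τ(δ z⁻¹ θ ^ i z⁻¹) = τ(θ ^ i) = [i + 1 = m]` for `i < m` (`tau_pow`).
(5) choose `y_j ∈ F[t]` with `w_j ≡ y_j` modulo `ϖ O_v` (`H94.TC.exists_approx`, `n = 1`): `∑ y_k y_j (G T ^ i)_kj - [i + 1 = m]` is an
element of `F[t]` in `ϖ O_v`, so divisible by `ϖ`. The reduction of `y` is the vector; reduction commutes with inverse and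
powers (`det G` is a unit).
`T` of `TrivC` is `(md G)⁻¹ * (md B)`.
-/

set_option autoImplicit false

namespace Pool.Agent.H3.GG

open Polynomial Matrix IsDedekindDomain
open Pool.Agent.H80.CC.Plane (overK overKv toL toLv)
open Pool.Agent.H94.GG (Fam lead tau SqAt)

variable {F : Type} [Field F] {f : F[X][X]} {m h : ℕ}

private theorem map_form {R S : Type} [CommRing R] [CommRing S] (φ : R →+* S)
    {G B : Matrix (Fin m) (Fin m) R} (hG : IsUnit G.det) (i : ℕ) :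
    G.map φ * ((G.map φ)⁻¹ * B.map φ) ^ i = (G * (G⁻¹ * B) ^ i).map φ := by
  have h1 : (G.map φ)⁻¹ = (G⁻¹).map φ := by
    apply Matrix.inv_eq_left_inv
    rw [← Matrix.map_mul, Matrix.nonsing_inv_mul _ hG, Matrix.map_one _ (map_zero φ) (map_one φ)]
  have h2 : ∀ M : Matrix (Fin m) (Fin m) R, M.map φ = φ.mapMatrix M := fun M => rfl
  rw [h1, h2, h2, h2, h2, ← map_mul, ← map_pow, ← map_mul]

private theorem quad {R S : Type} [CommRing R] [CommRing S] (φ : R →+* S) (M : Matrix (Fin m) (Fin m) R)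
    (y : Fin m → R) :
    (fun j => φ (y j)) ⬝ᵥ ((M.map φ) *ᵥ fun j => φ (y j)) = φ (∑ k, ∑ j, y k * y j * M k j) := by
  rw [map_sum]
  unfold dotProduct
  refine Finset.sum_congr rfl fun k _ => ?_
  unfold Matrix.mulVec
  unfold dotProduct
  rw [map_sum, Finset.mul_sum]
  refine Finset.sum_congr rfl fun j _ => ?_
  show φ (y k) * (φ (M k j) * φ (y j)) = φ (y k * y j * M k j)
  rw [map_mul, map_mul]
  ring

theorem loc_triv (hf : f.Monic) (hm : f.natDegree = m) (hm1 : 1 ≤ m) (v : HeightOneSpectrum F[X])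
    (hsq : Squarefree (f.map (Ideal.Quotient.mk v.asIdeal))) {δ : AdjoinRoot (overK f)}
    (hδ : δ ≠ 0) (hK : Irreducible (overK f)) {G B : Matrix (Fin m) (Fin m) F[X]} (hGs : Gᵀ = G)
    (hBs : Bᵀ = B) (hG : IsUnit G.det) (hR : RepL f δ G B) (hS : SqAt f v δ) :
    TrivC (md v G) (md v B) := by
  obtain ⟨w, hw⟩ := loc_vec hf hm hm1 v hsq hδ hK hGs hBs hG hR hS
  obtain ⟨ϖ, hv⟩ : ∃ ϖ : F[X], v.asIdeal = Ideal.span {ϖ} :=
    (IsPrincipalIdealRing.principal v.asIdeal).principal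
  have hϖ : ϖ ≠ 0 := by
    rintro rfl
    apply v.ne_bot
    rw [hv, Ideal.span_singleton_eq_bot]
  obtain ⟨α, hα⟩ : ∃ α : F[X] →+* v.adicCompletionIntegers (RatFunc F),
    α = algebraMap F[X] (v.adicCompletionIntegers (RatFunc F)) := ⟨_, rfl⟩
  have hex : ∀ j, ∃ y : F[X], α ϖ ∣ w j - α y := by
    intro j
    obtain ⟨y, hy⟩ := Pool.Agent.H94.TC.exists_approx (K := RatFunc F) v ϖ hϖ hv 1 (w j)
    rw [pow_one] at hy
    rw [hα]
    exact ⟨y, hy⟩
  choose y hy using hex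
  refine ⟨fun j => Ideal.Quotient.mk v.asIdeal (y j), fun i hi => ?_⟩
  unfold md
  rw [map_form _ hG, quad]
  have h1 := hw i hi
  rw [← hα] at h1
  have h2 : α ϖ ∣ α ((∑ k, ∑ j, y k * y j * (G * (G⁻¹ * B) ^ i) k j) -
      (if i + 1 = m then 1 else 0)) := by
    rw [← Ideal.mem_span_singleton, ← Ideal.Quotient.eq_zero_iff_mem]
    have h3 : ∀ j, Ideal.Quotient.mk (Ideal.span {α ϖ}) (w j) =
        Ideal.Quotient.mk (Ideal.span {α ϖ}) (α (y j)) := by
      intro j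
      rw [Ideal.Quotient.eq, Ideal.mem_span_singleton]
      exact hy j
    have h4 := congrArg (Ideal.Quotient.mk (Ideal.span {α ϖ})) h1
    rw [map_sum] at h4
    simp only [map_sum, map_mul] at h4
    simp only [h3] at h4
    rw [map_sub, map_sub]
    simp only [map_sum, map_mul]
    rw [h4]
    split_ifs <;> simp
  have h5 : (∑ k, ∑ j, y k * y j * (G * (G⁻¹ * B) ^ i) k j) - (if i + 1 = m then 1 else 0) ∈ v.asIdeal := by
    rw [hα, Pool.Agent.H94.TC.dvd_iff_lt_one (K := RatFunc F) v ϖ hϖ hv,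
      Pool.Agent.H94.TC.val_alg, v.intValuation_lt_one_iff_mem] at h2
    exact h2
  rw [← Ideal.Quotient.eq_zero_iff_mem, map_sub, sub_eq_zero] at h5
  rw [h5]
  split_ifs <;> simp

end Pool.Agent.H3.GG
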