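import Pool.Agent.H3.GG.LGB
import Pool.Agent.H3.GG.LDc
import Pool.Agent.H3.GG.LDd
import Pool.Agent.H3.GG.LLc
import Pool.Agent.H3.GG.LFin
import Pool.Agent.H3.GG.LAct

set_option autoImplicit false

/-!
# [H3 GG LEnd] End statements of the chapter LAT

* `irr_overK`: `O` is a domain (`dom`), `f` monic; `overK f` is irreducible: `f` is irreducible over `F[t]` (a factorisation into
  monic factors of smaller degree would give zero divisors of `O`; `AdjoinRoot` domain iff `f` prime), Gauss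
  (`Polynomial.Monic.irreducible_iff_irreducible_map_fraction_map`).
* `lat_type`: `IsS0 f δ` gives `I`, `b`, `c` with `δ c ^ 2 = b`, `(b) = I ^ 2`; `b ≠ 0` (`δ ≠ 0`, `toL_inj`), `I ≠ ⊥`;
  `N(b) = N(δ) N(c) ^ 2` is a square (`norm_toL`). `red_exists` for `I`, `dat_exists`, `wn_even`, `ty_exists`, `gb_is`,
  `rep_basis`, `chareq`, `dc_chain`, `dc_dist`.
* `lat_count`: for `δ ∈ S` choose `(G_δ, B_δ)` from `HasTy`; `Φ δ P = (Pᵀ G P, Pᵀ B P)` on `{P // IsA n P}`; `act_gb`, `act_char`,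
  `act_rep` + `loc_triv` (for the pair `(Pᵀ G P, Pᵀ B P)`); `act_two` (the second preimage is `- P`, which is in `A_n`); `act_cls`
  and the pairwise inequivalence; `count`, `fin_A`, `fin_GB`.
-/

namespace Pool.Agent.H3.GG

open Polynomial Matrix IsDedekindDomain
open Pool.Agent.H80.CC.Plane (overK overKv toL toLv)
open Pool.Agent.H94.GG (Fam lead tau SqAt IsS0)

variable {F : Type} [Field F] {f : F[X][X]} {m h : ℕ}

theorem irr_overK (hF : Fam m h f) (hm : 1 ≤ m) (hirr : Irreducible (lead m h f)) :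
    Irreducible (overK f) := by
  have hp : Prime f := by
    refine ⟨hF.monic.ne_zero, fun hu => ?_, fun a b hab => ?_⟩
    · have h1 := natDegree_eq_zero_of_isUnit hu
      rw [hF.deg] at h1
      omega
    · rw [← AdjoinRoot.mk_eq_zero, map_mul] at hab
      rw [← AdjoinRoot.mk_eq_zero, ← AdjoinRoot.mk_eq_zero]
      exact dom hF hirr hab
  exact (hF.monic.irreducible_iff_irreducible_map_fraction_map (K := RatFunc F)).1 hp.irreducible

private theorem gb_det {n : Fin m → ℤ} {G B : Matrix (Fin m) (Fin m) F[X]} (hG : IsGB h n G B) :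
    IsUnit G.det := by
  obtain ⟨a, ha, hd⟩ := hG.det
  rw [hd, isUnit_C, isUnit_iff_ne_zero]
  exact mul_ne_zero (pow_ne_zero _ (neg_ne_zero.2 one_ne_zero)) (pow_ne_zero _ ha)

/-- **End statement 1 of LAT.** -/
theorem lat_type (hF : Fam m h f) (hirr : Irreducible (lead m h f)) (hodd : m % 2 = 1)
    (h3 : 3 ≤ m) [IsDedekindDomain (AdjoinRoot f)] {δ : AdjoinRoot (overK f)} (hδ : IsS0 f δ) :
    ∃ n : Fin m → ℤ, IsTy n ∧ HasTy f h n δ ∧
      (∀ i j : Fin m, (i : ℕ) + 1 = j → n j ≤ h + n i) ∧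
      (¬ IsSquare δ → ∀ k : Fin m, (k : ℕ) + 1 = m / 2 → - (h : ℤ) ≤ 2 * n k) := by
  have hK := irr_overK hF (by omega) hirr
  have : Fact (Irreducible (overK f)) := ⟨hK⟩
  obtain ⟨hδ0, ⟨y, hy⟩, I, b, c, hc, hbc, hbI⟩ := hδ
  have hcL : toL f c ≠ 0 := fun h0 => hc (toL_inj hF.monic (h0.trans (map_zero _).symm))
  have hb : b ≠ 0 := by
    intro h0
    rw [h0, map_zero] at hbc
    exact mul_ne_zero hδ0 (pow_ne_zero 2 hcL) hbc
  have hI : I ≠ ⊥ := by
    intro h0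
    rw [h0] at hbI
    have h1 : b ∈ Ideal.span {b} := Ideal.mem_span_singleton_self b
    rw [hbI, pow_two, Ideal.bot_mul] at h1
    exact hb (Ideal.mem_bot.1 h1)
  obtain ⟨e, he, hmono, hl⟩ := red_exists h hF.monic hF.deg I hI
  obtain ⟨z, hD⟩ := dat_exists hb hbI he
  obtain ⟨v, hv, hs⟩ := wn_even hF hirr hodd hK hD hl
  have hTy := ty_exists hF hirr hodd hK hD hl hmono hv hs
  have hN : ∃ y : RatFunc F, algebraMap F[X] (RatFunc F) (Algebra.norm F[X] b) = y ^ 2 := by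
    refine ⟨y * Algebra.norm (RatFunc F) (toL f c), ?_⟩
    rw [← norm_toL hF.monic, ← hbc, map_mul, map_pow, hy, mul_pow]
  have hGB := gb_is hF hirr hodd h3 hK hD hN hv
  have hR := rep_basis hF.monic hF.deg hK hD hc hbc
  refine ⟨_, hTy, ⟨_, _, hGB, chareq hF.monic hF.deg hK (gb_det hGB).ne_zero hR, hR⟩, ?_, ?_⟩
  · intro i j hij
    have h1 := dc_chain hF hirr h3 hK he hl hmono i j hij
    have h2 : (wn h hF.monic (e j) : ℤ) ≤ h + wn h hF.monic (e i) := by exact_mod_cast h1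
    linarith
  · intro hns k hk
    exact dc_dist hF.monic hF.deg hodd h3 hK hδ0 hns ⟨y, hy⟩ hTy hGB hR k hk

private theorem isA_neg {n : Fin m → ℤ} {P : Matrix (Fin m) (Fin m) F[X]} (hP : IsA n P) :
    IsA n (-P) := by
  refine ⟨?_, fun i j => ?_⟩
  · rw [det_neg]
    exact ((isUnit_neg_one (α := F[X])).pow _).mul hP.1
  · rcases hP.2 i j with h1 | h1
    · left
      rw [neg_apply, h1, neg_zero]
    · right
      rw [neg_apply, natDegree_neg]
      exact h1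

/-- **End statement 2 of LAT.** -/
theorem lat_count [Finite F] (hF : Fam m h f) (hirr : Irreducible (lead m h f))
    (hodd : m % 2 = 1) (h3 : 3 ≤ m) (n : Fin m → ℤ) (V : Set (HeightOneSpectrum F[X]))
    (hV : ∀ v ∈ V, Squarefree (f.map (Ideal.Quotient.mk v.asIdeal)))
    (S : Finset (AdjoinRoot (overK f)))
    (h1 : ∀ δ ∈ S, δ ≠ 0 ∧ HasTy f h n δ ∧ ∀ v ∈ V, SqAt f v δ)
    (h2 : ∀ δ ∈ S, ∀ δ' ∈ S, δ ≠ δ' → ¬ IsSquare (δ * δ')) :
    S.card * Nat.card {P : Matrix (Fin m) (Fin m) F[X] // IsA n P} ≤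
      2 * (GBs f h n V).ncard := by
  classical
  have hK := irr_overK hF (by omega) hirr
  have hfA := fin_A (F := F) n
  have hex : ∀ δ : AdjoinRoot (overK f), ∃ p : Matrix (Fin m) (Fin m) F[X] ×
      Matrix (Fin m) (Fin m) F[X], δ ∈ S → IsGB h n p.1 p.2 ∧ CharEq f p.1 p.2 ∧
        RepL f δ p.1 p.2 := by
    intro δ
    by_cases hδ : δ ∈ S
    · obtain ⟨G, B, hGB⟩ := (h1 δ hδ).2.1
      exact ⟨(G, B), fun _ => hGB⟩
    · exact ⟨(0, 0), fun h0 => absurd h0 hδ⟩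
  choose p hp using hex
  have hdet : ∀ a : {P : Matrix (Fin m) (Fin m) F[X] // IsA n P}, a.1.det ≠ 0 :=
    fun a => a.2.1.ne_zero
  have hrep : ∀ δ ∈ S, ∀ a : {P : Matrix (Fin m) (Fin m) F[X] // IsA n P},
      RepL f δ (a.1ᵀ * (p δ).1 * a.1) (a.1ᵀ * (p δ).2 * a.1) :=
    fun δ hδ a => act_rep (hp δ hδ).2.2 (hdet a)
  refine count S (GBs f h n V) ((fin_GB (h := h) n).subset fun q hq => hq.1)
    (fun δ a => (a.1ᵀ * (p δ).1 * a.1, a.1ᵀ * (p δ).2 * a.1)) ?_ ?_ ?_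
  · intro δ hδ a
    have hgb : IsGB h n (a.1ᵀ * (p δ).1 * a.1) (a.1ᵀ * (p δ).2 * a.1) :=
      act_gb (hp δ hδ).1 a.2
    refine ⟨hgb, act_char (hp δ hδ).2.1, fun v hv => ?_⟩
    exact loc_triv hF.monic hF.deg (by omega) v (hV v hv) (h1 δ hδ).1 hK hgb.symG hgb.symB
      (gb_det hgb) (hrep δ hδ a) ((h1 δ hδ).2.2 v hv)
  · intro δ hδ a
    refine ⟨⟨-a.1, isA_neg a.2⟩, fun c hc => ?_⟩
    obtain ⟨e1, e2⟩ := Prod.mk.inj hc
    rcases act_two hK (h1 δ hδ).1 (hp δ hδ).2.2 (hdet a) (hdet c) e1.symm e2.symm with h4 | h4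
    · exact Or.inl (Subtype.ext h4)
    · exact Or.inr (Subtype.ext h4)
  · intro δ hδ δ' hδ' a a' hc
    obtain ⟨e1, e2⟩ := Prod.mk.inj hc
    by_contra hne
    refine h2 δ hδ δ' hδ' hne ?_
    have hR := hrep δ hδ a
    rw [e1, e2] at hR
    exact act_cls hK (h1 δ' hδ').1 hR (hrep δ' hδ' a')

end Pool.Agent.H3.GG
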