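import Pool.Agent.H3.GG.LNn
import Pool.Agent.H3.GG.LCh

set_option autoImplicit false

/-!
# [H3 GG LGB] The pair of a class

`n_j = wn(e_j) - v - (m / 2) h`, `wn b = 2 v`, `m - 1 = 2 (m / 2)`.
* `gb_is`: `symG`, `symB`: `gm_sym`; `degG`, `degB`: `gm_degG`, `gm_degB` (arithmetic); `det`: `gm_detc`.
* `rep_basis`: the elements `toL (e_j)` are a `K`-basis of `L`: independent (clear the denominators of a relation, `toL_inj`,
  `bs_li`), and there are `m = dim L` of them (`basisOfLinearIndependentOfCardEqFinrank`). Multiply by the unit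
  `u = toL c / toL b` (`δ c ^ 2 = b`): `δ (u e_i) (u e_j) = e_i e_j / b = toL z_ij`. So `RepL f δ (gm z) (bm z)`
  (`tau_toL`).
* `chareq`: `RepL f δ G B` and `det G ≠ 0` give `CharEq f G B`. PROOF: let `T` be the matrix of `θ` in the basis `e`:
  `θ e_i = ∑ T i l e_l` (`T` over `K`). Then `B = T G` and the characteristic polynomial of `T` is that of `θ`, that is
  `overK f` (`charpoly` of multiplication by the root: `AdjoinRoot.. ` / `minpoly` of the power basis,
  `Algebra.leftMulMatrix` `charpoly_leftMulMatrix`). So `det (x G - B) = det (x - T) det G` over `K[x]`; all entries are in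
  `F[t]`, and `F[t][x] → K[x]` is injective.
-/

namespace Pool.Agent.H3.GG

open Polynomial Matrix
open Pool.Agent.H80.CC.Plane (overK toL)
open Pool.Agent.H94.GG (Fam lead tau)

variable {F : Type} [Field F] {f : F[X][X]} {m h : ℕ}

theorem gb_is (hF : Fam m h f) (hirr : Irreducible (lead m h f)) (hodd : m % 2 = 1) (h3 : 3 ≤ m)
    [IsDedekindDomain (AdjoinRoot f)] (hK : Irreducible (overK f))
    {J : Ideal (AdjoinRoot f)} {b : AdjoinRoot f} {e : Fin m → AdjoinRoot f}
    {z : Fin m → Fin m → AdjoinRoot f} (hD : Dat J b e z)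
    (hN : ∃ y : RatFunc F, algebraMap F[X] (RatFunc F) (Algebra.norm F[X] b) = y ^ 2)
    {v : ℕ} (hv : wn h hF.monic b = 2 * v) :
    IsGB h (fun j => (wn h hF.monic (e j) : ℤ) - v - (m / 2 : ℕ) * h) (gm hF.monic z)
      (bm hF.monic z) := by
  obtain ⟨g, hg⟩ : ∃ g, m / 2 = g := ⟨_, rfl⟩
  have hm1 : m - 1 = 2 * g := by omega
  have hgh : (m - 1) * h = 2 * (g * h) := by rw [hm1, mul_assoc]
  have hgh' : ((g * h : ℕ) : ℤ) = (g : ℤ) * h := by push_cast; rfl
  refine ⟨(gm_sym hF.monic hD).1, (gm_sym hF.monic hD).2, fun i j => ?_, fun i j => ?_,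
    gm_detc hF.monic hF.deg hodd hK hD hN⟩
  · by_cases h0 : gm hF.monic z i j = 0
    · exact Or.inl h0
    · right
      have h1 := gm_degG hF hirr (by omega) hD i j h0
      rw [hgh, hv] at h1
      show ((gm hF.monic z i j).natDegree : ℤ) ≤ _
      rw [hg, ← hgh']
      omega
  · by_cases h0 : bm hF.monic z i j = 0
    · exact Or.inl h0
    · right
      have h1 := gm_degB hF hirr (by omega) hD i j h0
      rw [hgh, hv] at h1
      show ((bm hF.monic z i j).natDegree : ℤ) ≤ _
      rw [hg, ← hgh']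
      omega

private theorem toL_mk' (f p : F[X][X]) :
    toL f (AdjoinRoot.mk f p) = AdjoinRoot.mk (overK f) (p.map (algebraMap F[X] (RatFunc F))) :=
  Pool.Agent.H94.TC.toField_mk (RatFunc F) f p

private theorem toL_root' (f : F[X][X]) :
    toL f (AdjoinRoot.root f) = AdjoinRoot.root (overK f) := by
  have h := toL_mk' f X
  rwa [Polynomial.map_X] at h

private theorem toL_smul' (c : F[X]) (x : AdjoinRoot f) :
    toL f (c • x) = algebraMap F[X] (RatFunc F) c • toL f x := by
  have h1 : toL f (AdjoinRoot.mk f (C c)) =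
      algebraMap (RatFunc F) (AdjoinRoot (overK f)) (algebraMap F[X] (RatFunc F) c) := by
    rw [toL_mk', Polynomial.map_C]
    rfl
  have h2 : c • x = AdjoinRoot.mk f (C c) * x := Algebra.smul_def c x
  rw [h2, map_mul, h1, Algebra.smul_def]

private theorem li_toL (hf : f.Monic) {J : Ideal (AdjoinRoot f)} {e : Fin m → AdjoinRoot f}
    (he : IsBs J e) (k : Fin m → RatFunc F) (hk : ∑ i, k i • toL f (e i) = 0) : k = 0 := by
  obtain ⟨s, hs⟩ := IsLocalization.exist_integer_multiples_of_finite (nonZeroDivisors F[X]) k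
  choose c hc using hs
  have h1 : toL f (∑ i, c i • e i) = 0 := by
    rw [map_sum]
    have h2 : ∀ i, toL f (c i • e i) =
        algebraMap F[X] (RatFunc F) (s : F[X]) • (k i • toL f (e i)) := by
      intro i
      rw [toL_smul', hc i, ← smul_assoc]
      congr 1
      rw [smul_eq_mul]
      exact Algebra.smul_def _ _
    rw [Finset.sum_congr rfl fun i _ => h2 i, ← Finset.smul_sum, hk, smul_zero]
  have h3 : ∑ i, c i • e i = 0 := toL_inj hf (by rw [h1, map_zero])
  have h4 := bs_li he h3
  ext i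
  have h5 := hc i
  rw [h4, Pi.zero_apply, map_zero] at h5
  have h6 : algebraMap F[X] (RatFunc F) (s : F[X]) ≠ 0 :=
    IsLocalization.to_map_ne_zero_of_mem_nonZeroDivisors _ le_rfl s.2
  have h7 : algebraMap F[X] (RatFunc F) (s : F[X]) * k i = 0 := by
    rw [h5, ← Algebra.smul_def]
  rw [Pi.zero_apply]
  exact (mul_eq_zero.1 h7).resolve_left h6

theorem rep_basis (hf : f.Monic) (hm : f.natDegree = m) (hK : Irreducible (overK f))
    {J : Ideal (AdjoinRoot f)} {b : AdjoinRoot f} {e : Fin m → AdjoinRoot f}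
    {z : Fin m → Fin m → AdjoinRoot f} (hD : Dat J b e z) {δ : AdjoinRoot (overK f)}
    {c : AdjoinRoot f} (hc : c ≠ 0) (hδ : δ * toL f c ^ 2 = toL f b) :
    RepL f δ (gm hf z) (bm hf z) := by
  let _ : Fact (Irreducible (overK f)) := ⟨hK⟩
  have hne : ∀ {x : AdjoinRoot f}, x ≠ 0 → toL f x ≠ 0 := fun hx h0 =>
    hx (toL_inj hf (by rw [h0, map_zero]))
  have hc' := hne hc
  have hb' := hne hD.b0
  obtain ⟨u, hu⟩ : ∃ u : AdjoinRoot (overK f), u = toL f c / toL f b := ⟨_, rfl⟩
  have hu0 : u ≠ 0 := by rw [hu]; exact div_ne_zero hc' hb'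
  have hu2 : δ * u ^ 2 * toL f b = 1 := by
    rw [hu, div_pow, mul_div_assoc', hδ, sq, ← div_div, div_self hb', div_mul_cancel₀ _ hb']
  have hli : LinearIndependent (RatFunc F) fun i => u * toL f (e i) := by
    rw [Fintype.linearIndependent_iff]
    intro k hk
    have h1 : u * ∑ i, k i • toL f (e i) = 0 := by
      rw [Finset.mul_sum, ← hk]
      exact Finset.sum_congr rfl fun i _ => mul_smul_comm _ _ _
    have h2 := li_toL hf hD.bs k ((mul_eq_zero.1 h1).resolve_left hu0)
    intro i
    rw [h2]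
    rfl
  have hd : (overK f).natDegree = m := (overK_deg hf).trans hm
  have hm0 : 0 < m := by
    rw [← hd]
    exact hK.natDegree_pos
  have : Nonempty (Fin m) := ⟨⟨0, hm0⟩⟩
  have hcard : Fintype.card (Fin m) = Module.finrank (RatFunc F) (AdjoinRoot (overK f)) := by
    rw [Fintype.card_fin, (AdjoinRoot.powerBasis' (overK_monic hf)).finrank,
      AdjoinRoot.powerBasis'_dim, hd]
  have hz : ∀ i j, δ * (u * toL f (e i)) * (u * toL f (e j)) = toL f (z i j) := by
    intro i j
    have h1 := congrArg (toL f) (hD.eq i j)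
    rw [map_mul, map_mul] at h1
    linear_combination (- δ * u ^ 2) * h1 + toL f (z i j) * hu2
  refine ⟨overK_monic hf, basisOfLinearIndependentOfCardEqFinrank hli hcard, fun i j => ?_,
    fun i j => ?_⟩
  · rw [coe_basisOfLinearIndependentOfCardEqFinrank]
    show _ = tau (overK_monic hf) (δ * (u * toL f (e i)) * (u * toL f (e j)))
    rw [hz, tau_toL hf]
    rfl
  · rw [coe_basisOfLinearIndependentOfCardEqFinrank]
    show _ = tau (overK_monic hf)
      (δ * (AdjoinRoot.root (overK f) * (u * toL f (e i))) * (u * toL f (e j)))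
    have h1 : δ * (AdjoinRoot.root (overK f) * (u * toL f (e i))) * (u * toL f (e j)) =
        toL f (AdjoinRoot.root f * z i j) := by
      rw [map_mul, toL_root', ← hz i j]
      ring
    rw [h1, tau_toL hf]
    rfl

end Pool.Agent.H3.GG
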