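import Pool.Agent.H3.GG.LTa

set_option autoImplicit false

/-!
# [H3 GG LGa] The determinant of the form of `δ` in the basis `θ ^ i`

* `sgn_H0`: `H_ij = 0` for `i + j < m - 1`, `= 1` for `i + j = m - 1` (anti-triangular). Reverse the rows
  (`Matrix.det_permute`, `Fin.revPerm`): lower or upper triangular with ones on the diagonal, determinant 1
  (`Matrix.det_of_upperTriangular`). The sign of `Fin.revPerm` on `Fin m` is `(-1) ^ (m (m - 1) / 2)`: compare with the special
  case `H = ` the reversal matrix, or by induction on `m` (Laplace expansion along the first row: the only nonzero entry of the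
  first row is the last one, `(-1) ^ (m - 1)` times the determinant of size `m - 1`;
  `Matrix.det_succ_row_zero`; `m (m + 1) / 2 = m + m (m - 1) / 2`).
* `det_form`: `H = H₀ M`, `H₀_ik = τ(θ ^ (i + k))`, `M` the matrix of the multiplication by `δ` in the power basis `θ ^ i`:
  `δ θ ^ j = ∑ M_kj θ ^ k`, `det M = N(δ)` (`Algebra.norm_eq_matrix_det`, `AdjoinRoot.powerBasis'`), `det H₀` by `sgn_H0`
  (`tau_pow`).
-/

namespace Pool.Agent.H3.GG

open Polynomial Matrix
open Pool.Agent.H94.GG (tau)

section
variable {k : Type} [Field k] {g : k[X]} {m : ℕ}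

/-- an anti-triangular matrix -/
theorem sgn_H0 (H : Matrix (Fin m) (Fin m) k) (h0 : ∀ i j : Fin m, (i : ℕ) + j + 1 < m → H i j = 0)
    (h1 : ∀ i j : Fin m, (i : ℕ) + j + 1 = m → H i j = 1) :
    H.det = (-1) ^ (m * (m - 1) / 2) := by
  induction m with
  | zero => simp
  | succ n ih =>
    rw [Matrix.det_succ_row_zero, Finset.sum_eq_single (Fin.last n)]
    · rw [h1 0 (Fin.last n) (by rw [Fin.val_zero, Fin.val_last, zero_add]), ih, Fin.val_last, mul_one, ← pow_add,
        Nat.triangle_succ, add_comm]
      · intro i j hij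
        rw [Matrix.submatrix_apply, Fin.succAbove_last]
        exact h0 _ _ (by rw [Fin.val_succ, Fin.val_castSucc]; omega)
      · intro i j hij
        rw [Matrix.submatrix_apply, Fin.succAbove_last]
        exact h1 _ _ (by rw [Fin.val_succ, Fin.val_castSucc]; omega)
    · intro j _ hj
      have hj' : (j : ℕ) < n := by
        have h3 : (j : ℕ) ≠ n := fun h => hj (Fin.ext h)
        have h4 := j.2
        omega
      rw [h0 0 j (by rw [Fin.val_zero]; omega), mul_zero, zero_mul]
    · exact fun h => absurd (Finset.mem_univ _) h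

/-- the determinant of the form of `δ` in the basis `θ ^ i` -/
theorem det_form (hg : g.Monic) (hm : g.natDegree = m) (δ : AdjoinRoot g) :
    (Matrix.of fun i j : Fin m => tau hg (δ * AdjoinRoot.root g ^ (i : ℕ) *
      AdjoinRoot.root g ^ (j : ℕ))).det = (-1) ^ (m * (m - 1) / 2) * Algebra.norm k δ := by
  subst hm
  let b : Module.Basis (Fin g.natDegree) k (AdjoinRoot g) := (AdjoinRoot.powerBasis' hg).basis
  have hb : ∀ j : Fin g.natDegree, b j = AdjoinRoot.root g ^ (j : ℕ) := fun j =>
    (AdjoinRoot.powerBasis' hg).basis_eq_pow j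
  have h1 : (Matrix.of fun i j : Fin g.natDegree => tau hg (δ * AdjoinRoot.root g ^ (i : ℕ) *
      AdjoinRoot.root g ^ (j : ℕ))) =
      (Matrix.of fun i j : Fin g.natDegree => tau hg (AdjoinRoot.root g ^ ((i : ℕ) + (j : ℕ)))) *
        Algebra.leftMulMatrix b δ := by
    ext i j
    rw [Matrix.mul_apply, Matrix.of_apply]
    have h2 : δ * AdjoinRoot.root g ^ (j : ℕ) = ∑ l, (Algebra.leftMulMatrix b δ l j) • AdjoinRoot.root g ^ (l : ℕ) := by
      have h3 := b.sum_repr (δ * b j)
      rw [hb] at h3
      rw [← h3]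
      refine Finset.sum_congr rfl fun l _ => ?_
      rw [Algebra.leftMulMatrix_eq_repr_mul, hb, hb]
    have h4 : δ * AdjoinRoot.root g ^ (i : ℕ) * AdjoinRoot.root g ^ (j : ℕ) =
        ∑ l, (Algebra.leftMulMatrix b δ l j) • AdjoinRoot.root g ^ ((i : ℕ) + (l : ℕ)) := by
      rw [mul_right_comm, h2, Finset.sum_mul]
      refine Finset.sum_congr rfl fun l _ => ?_
      rw [smul_mul_assoc, ← pow_add, add_comm]
    rw [h4, map_sum]
    refine Finset.sum_congr rfl fun l _ => ?_
    rw [map_smul, Matrix.of_apply, smul_eq_mul, mul_comm]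
  rw [h1, Matrix.det_mul, Algebra.norm_eq_matrix_det b]
  congr 1
  refine sgn_H0 _ (fun i j hij => ?_) (fun i j hij => ?_)
  · rw [Matrix.of_apply, tau_pow hg _ (by omega), if_neg (by omega)]
  · rw [Matrix.of_apply, tau_pow hg _ (by omega), if_pos hij]

end

end Pool.Agent.H3.GG
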