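import Pool.Agent.H3.GG.LMul

set_option autoImplicit false

/-!
# [H3 GG LNm] The degree of the norm is `m` times the weight

`N = Algebra.norm F[X]`, `O` is free over `F[t]` with basis `θ ^ i`, `i < m` (`AdjoinRoot.powerBasis'`).
* `nm_le`: `N z` is the determinant of the matrix `M`, `z θ ^ j = ∑ i, M i j θ ^ i`, `M i j = (rp (z θ ^ j)).coeff i`, so
  `deg (M i j) + i h ≤ wd (z θ ^ j) = wd z + j h` (`ph_deg_coeff`, `wd_mul`, `wd_pow`). Each term `∏ M (σ j) j` of the
  determinant has degree `≤ ∑ (wd z + j h - σ j h) = m wd z`.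
* `nm_eq`: `z ≠ 0`. There is `z' ∈ O` with `z z' = N z` (`Algebra.dvd_algebraMap_norm`-like:
  `Algebra.norm` divides: Cayley-Hamilton, or `Algebra.intNorm`; or: the adjugate matrix; in Mathlib
  `Algebra.norm_eq_...`/`Ideal.absNorm..`; the constant term of the characteristic polynomial of multiplication by `z`
  is `± N z` and `z` is a root of it, so `z ∣ algebraMap (N z)`). `N z ≠ 0` (`Algebra.norm_ne_zero_iff`), so
  `deg N z = wn z + wn z'` (`wd_c`, `wn_mul`) and `N z * N z' = N (algebraMap (N z)) = (N z) ^ m`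
  (`Algebra.norm_algebraMap`), so `(m - 1) deg N z = deg N z' ≤ m wn z'` (`nm_le`). With `wn z' = deg N z - wn z` this
  gives `m wn z ≤ deg N z`. With `nm_le`: equality.
-/

namespace Pool.Agent.H3.GG

open Polynomial
open Pool.Agent.H94.GG (Fam lead)

variable {F : Type} [Field F] {f : F[X][X]} {m h : ℕ}

private theorem basis_eq (hf : f.Monic) (i : Fin f.natDegree) :
    AdjoinRoot.powerBasisAux' hf i = AdjoinRoot.root f ^ (i : ℕ) := by
  have := (AdjoinRoot.powerBasis' hf).basis_eq_pow i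
  exact this

private theorem entry (hF : Fam m h f) (hirr : Irreducible (lead m h f)) {z : AdjoinRoot f}
    (hz : z ≠ 0) (i j : Fin f.natDegree) :
    Algebra.leftMulMatrix (AdjoinRoot.powerBasisAux' hF.monic) z i j = 0 ∨
      (Algebra.leftMulMatrix (AdjoinRoot.powerBasisAux' hF.monic) z i j).natDegree + (i : ℕ) * h ≤
        wn h hF.monic z + (j : ℕ) * h := by
  rw [Algebra.leftMulMatrix_eq_repr_mul, AdjoinRoot.powerBasisAux'_repr_apply_to_fun, basis_eq]
  by_cases h0 : (rp hF.monic (z * AdjoinRoot.root f ^ (j : ℕ))).coeff i = 0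
  · left; exact h0
  right
  have h1 := ph_deg_coeff h (rp hF.monic (z * AdjoinRoot.root f ^ (j : ℕ))) i
  have h2 : wd h hF.monic (z * AdjoinRoot.root f ^ (j : ℕ)) =
      wd h hF.monic z + ((j : ℕ) * h : ℕ) := by
    rw [wd_mul hF hirr, wd_pow h hF.monic j.2]
  rw [wd_wn h hF.monic hz] at h2
  have h3 : ((((rp hF.monic (z * AdjoinRoot.root f ^ (j : ℕ))).coeff i).natDegree +
      (i : ℕ) * h : ℕ) : WithBot ℕ) ≤ ((wn h hF.monic z + (j : ℕ) * h : ℕ) : WithBot ℕ) := by
    push_cast
    push_cast at h1 h2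
    rw [← h2]
    rw [degree_eq_natDegree h0] at h1
    exact h1
  exact_mod_cast h3

private theorem det_bound {n : ℕ} (M : Matrix (Fin n) (Fin n) F[X]) (h a : ℕ)
    (hM : ∀ i j, M i j = 0 ∨ (M i j).natDegree + (i : ℕ) * h ≤ a + (j : ℕ) * h) :
    M.det.natDegree ≤ n * a := by
  rw [Matrix.det_apply']
  refine natDegree_sum_le_of_forall_le _ _ fun σ _ => ?_
  have hprod : (∏ j, M (σ j) j).natDegree ≤ n * a := by
    by_cases h0 : ∃ j, M (σ j) j = 0
    · obtain ⟨j, hj⟩ := h0
      have h1 : ∏ j, M (σ j) j = 0 := Finset.prod_eq_zero (Finset.mem_univ j) hj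
      rw [h1, natDegree_zero]
      exact Nat.zero_le _
    · push Not at h0
      refine (natDegree_prod_le _ _).trans ?_
      have h1 : ∀ j, (M (σ j) j).natDegree + ((σ j : Fin n) : ℕ) * h ≤ a + (j : ℕ) * h := fun j =>
        (hM (σ j) j).resolve_left (h0 j)
      have h2 := Finset.sum_le_sum fun j (_ : j ∈ Finset.univ) => h1 j
      rw [Finset.sum_add_distrib, Finset.sum_add_distrib, Finset.sum_const, Finset.card_univ,
        Fintype.card_fin, smul_eq_mul] at h2
      have h3 : ∑ j, ((σ j : Fin n) : ℕ) * h = ∑ j : Fin n, (j : ℕ) * h :=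
        Equiv.sum_comp σ fun j : Fin n => (j : ℕ) * h
      rw [h3] at h2
      exact Nat.le_of_add_le_add_right h2
  rcases Int.units_eq_one_or (Equiv.Perm.sign σ) with h4 | h4
  · rw [h4]
    simpa using hprod
  · rw [h4]
    simpa using hprod

theorem nm_le (hF : Fam m h f) (hirr : Irreducible (lead m h f)) {z : AdjoinRoot f} (hz : z ≠ 0) :
    (Algebra.norm F[X] z).natDegree ≤ m * wn h hF.monic z := by
  have h1 := det_bound (Algebra.leftMulMatrix (AdjoinRoot.powerBasisAux' hF.monic) z) h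
    (wn h hF.monic z) (entry hF hirr hz)
  rw [← Algebra.norm_eq_matrix_det] at h1
  have h2 : f.natDegree * wn h hF.monic z = m * wn h hF.monic z := by rw [hF.deg]
  exact h1.trans h2.le

private theorem exists_cofactor (hf : f.Monic) (z : AdjoinRoot f) :
    ∃ y : AdjoinRoot f, z * y = algebraMap F[X] (AdjoinRoot f) (Algebra.norm F[X] z) := by
  classical
  set b := AdjoinRoot.powerBasisAux' hf
  set M := Algebra.leftMulMatrix b z with hM
  have h1 : aeval z M.charpoly = 0 := by
    apply Algebra.leftMulMatrix_injective b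
    rw [map_zero, ← aeval_algHom_apply]
    exact Matrix.aeval_self_charpoly M
  have h2 := Matrix.det_eq_sign_charpoly_coeff M
  rw [← Algebra.norm_eq_matrix_det b z] at h2
  have h3 : M.charpoly = M.charpoly.divX * X + C (M.charpoly.coeff 0) := (divX_mul_X_add _).symm
  rw [h3, map_add, map_mul, aeval_X, aeval_C] at h1
  refine ⟨- (-1) ^ Fintype.card (Fin f.natDegree) * aeval z M.charpoly.divX, ?_⟩
  rw [h2, map_mul, map_pow, map_neg, map_one]
  linear_combination (- (-1) ^ Fintype.card (Fin f.natDegree)) * h1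

theorem nm_eq (hF : Fam m h f) (hirr : Irreducible (lead m h f)) (hm : 1 ≤ m) {z : AdjoinRoot f}
    (hz : z ≠ 0) : Algebra.norm F[X] z ≠ 0 ∧
      (Algebra.norm F[X] z).natDegree = m * wn h hF.monic z := by
  haveI : Nontrivial (AdjoinRoot f) := nontrivial_of_ne z 0 hz
  haveI : NoZeroDivisors (AdjoinRoot f) := ⟨fun {a b} hab => dom hF hirr hab⟩
  haveI : IsDomain (AdjoinRoot f) := NoZeroDivisors.to_isDomain _
  have hN : Algebra.norm F[X] z ≠ 0 :=
    (Algebra.norm_ne_zero_iff_of_basis (AdjoinRoot.powerBasisAux' hF.monic)).mpr hz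
  refine ⟨hN, ?_⟩
  obtain ⟨y, hy⟩ := exists_cofactor hF.monic z
  have hwc := wd_c h hF.monic (by rw [hF.deg]; exact hm) (Algebra.norm F[X] z)
  rw [← hy] at hwc
  have hzy : z * y ≠ 0 := by
    intro h0
    rw [h0, (wd_bot h hF.monic).mpr rfl] at hwc
    exact hN (degree_eq_bot.mp hwc.symm)
  have hy0 : y ≠ 0 := fun h0 => hzy (by rw [h0, mul_zero])
  rw [wd_wn h hF.monic hzy, wn_mul hF hirr hz hy0, degree_eq_natDegree hN] at hwc
  have e1 : wn h hF.monic z + wn h hF.monic y = (Algebra.norm F[X] z).natDegree := by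
    exact_mod_cast hwc
  have e2 : Algebra.norm F[X] z * Algebra.norm F[X] y = Algebra.norm F[X] z ^ m := by
    rw [← map_mul, hy, Algebra.norm_algebraMap_of_basis (AdjoinRoot.powerBasisAux' hF.monic),
      Fintype.card_fin, hF.deg]
  have hNy : Algebra.norm F[X] y ≠ 0 :=
    (Algebra.norm_ne_zero_iff_of_basis (AdjoinRoot.powerBasisAux' hF.monic)).mpr hy0
  have e3 := congrArg natDegree e2
  rw [natDegree_mul hN hNy, natDegree_pow] at e3
  have e4 := nm_le hF hirr hz
  have e5 := nm_le hF hirr hy0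
  have e6 : m * wn h hF.monic z + m * wn h hF.monic y = m * (Algebra.norm F[X] z).natDegree := by
    rw [← e1]; ring
  omega

end Pool.Agent.H3.GG
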