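import Pool.Agent.H3.GG.LBs
import Pool.Agent.H3.GG.LNm
import Pool.Agent.H3.GG.LTau

set_option autoImplicit false

/-!
# [H3 GG LGb] The Gram matrices of a class (here without `gm_E`)

Data (`Dat J b e z`, `H3/GG/LDefs`): `(b) = J ^ 2`, `e` a basis of `J`, `b z_ij = e_i e_j`; `O` a domain.
* `dat_exists`: `e_i e_j ∈ J ^ 2 = (b)`.
* `z_sym`: `b z_ij = b z_ji`.
* `gm_degG`: `G_ij = tauO z_ij`; `wn b + wn z_ij = wn e_i + wn e_j` (`wn_mul`; `z_ij ≠ 0` as `e_i e_j ≠ 0`), `tauO_deg`: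
  `deg G_ij + (m - 1) h ≤ wn z_ij`. `gm_degB`: the same with `θ z_ij` (`wn_root`).
* `gm_E`: `G = Eᵀ H' E` where `E = cf hf e` and `H'_ij = tauO'(θ ^ (i + j) / b)` does not live on `O`; so the identity of
  determinants is stated as `det G * N(b) = (-1) ^ (m (m - 1) / 2) * (det E) ^ 2`, `N` the norm of `O` over `F[t]`.
  PROOF over `K`: `L = K[x]/(overK f)` (only a `K`-algebra with basis `θ ^ i` is needed), `δ = 1 / toL b` (`toL b` is a unit:
  `N(b) ≠ 0`, or: `L` is a field). `toL z_ij = δ toL e_i toL e_j`, so `G_ij = τ(δ e_i e_j)` (`tau_toL`), `toL e_j =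
  ∑ E_ij θ ^ i`. So `G = Eᵀ H E`, `H_ij = τ(δ θ ^ i θ ^ j)`. `H = H₀ M`, `H₀_ij = τ(θ ^ (i + j))`, `M` the matrix of the
  multiplication by `δ`: `δ θ ^ j = ∑ M_kj θ ^ k`, `det M = N(δ) = N(b)⁻¹`. `H₀_ij = 0` for `i + j < m - 1`, `= 1` for
  `i + j = m - 1`: `det H₀ = (-1) ^ (m (m - 1) / 2)` (reverse the rows by `Fin.revPerm`, lower triangular with ones; the
  sign of `Fin.revPerm` is `(-1) ^ (m (m - 1) / 2)`; or, since only `det H₀ = ± 1` with the sign depending on `m` is
  needed: see `sgn_H0`). `N` of `O` and of `L` agree: `Algebra.norm_localization` or compare the matrices in the bases `θ ^ i`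
  (`Algebra.norm_eq_matrix_det`).
-/

namespace Pool.Agent.H3.GG

open Polynomial Matrix
open Pool.Agent.H80.CC.Plane (overK toL)
open Pool.Agent.H94.GG (Fam lead tau)

section
variable {F : Type} [Field F] {f : F[X][X]} {m : ℕ}

private theorem toL_mk' (f p : F[X][X]) :
    toL f (AdjoinRoot.mk f p) = AdjoinRoot.mk (overK f) (p.map (algebraMap F[X] (RatFunc F))) :=
  Pool.Agent.H94.TC.toField_mk (RatFunc F) f p

private theorem toL_root' (f : F[X][X]) :
    toL f (AdjoinRoot.root f) = AdjoinRoot.root (overK f) := by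
  have h := toL_mk' f X
  rwa [Polynomial.map_X] at h

private theorem rp_toL' (hf : f.Monic) (z : AdjoinRoot f) :
    AdjoinRoot.modByMonicHom (overK_monic hf) (toL f z) =
      (AdjoinRoot.modByMonicHom hf z).map (algebraMap F[X] (RatFunc F)) := by
  obtain ⟨p, rfl⟩ := AdjoinRoot.mk_surjective z
  rw [toL_mk', AdjoinRoot.modByMonicHom_mk, AdjoinRoot.modByMonicHom_mk, map_modByMonic _ hf]
  rfl

private theorem aux_pow {R : Type} [CommRing R] [Nontrivial R] {g : R[X]} (hg : g.Monic)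
    (j : Fin g.natDegree) : AdjoinRoot.powerBasisAux' hg j = AdjoinRoot.root g ^ (j : ℕ) :=
  (AdjoinRoot.powerBasis' hg).basis_eq_pow j

theorem norm_toL (hf : f.Monic) (z : AdjoinRoot f) :
    Algebra.norm (RatFunc F) (toL f z) = algebraMap F[X] (RatFunc F) (Algebra.norm F[X] z) := by
  classical
  have hK := overK_monic hf
  have hd := overK_deg hf
  rw [Algebra.norm_eq_matrix_det ((AdjoinRoot.powerBasisAux' hK).reindex (finCongr hd)),
    Algebra.norm_eq_matrix_det (AdjoinRoot.powerBasisAux' hf), RingHom.map_det]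
  congr 1
  ext i j
  rw [RingHom.mapMatrix_apply, Matrix.map_apply, Algebra.leftMulMatrix_eq_repr_mul,
    Algebra.leftMulMatrix_eq_repr_mul, Module.Basis.repr_reindex_apply, Module.Basis.reindex_apply,
    aux_pow, aux_pow]
  have h1 : toL f z * AdjoinRoot.root (overK f) ^ (j : ℕ) =
      toL f (z * AdjoinRoot.root f ^ (j : ℕ)) := by
    rw [map_mul, map_pow, toL_root']
  have h2 : (((finCongr hd).symm j : Fin _) : ℕ) = (j : ℕ) := rfl
  rw [h2, h1, AdjoinRoot.powerBasisAux'_repr_apply_to_fun,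
    AdjoinRoot.powerBasisAux'_repr_apply_to_fun, rp_toL' hf, coeff_map]
  rfl

theorem dat_exists {J : Ideal (AdjoinRoot f)} {b : AdjoinRoot f} (hb : b ≠ 0)
    (hJ : Ideal.span {b} = J ^ 2) {e : Fin m → AdjoinRoot f} (he : IsBs J e) :
    ∃ z, Dat J b e z := by
  have h1 : ∀ i j, ∃ z, b * z = e i * e j := by
    intro i j
    have h2 : e i * e j ∈ Ideal.span {b} := by
      rw [hJ, sq]
      exact Ideal.mul_mem_mul (he.1 i) (he.1 j)
    obtain ⟨z, hz⟩ := Ideal.mem_span_singleton.1 h2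
    exact ⟨z, hz.symm⟩
  choose z hz using h1
  exact ⟨z, hb, hJ, he, hz⟩

theorem gm_sym [IsDomain (AdjoinRoot f)] (hf : f.Monic) {J : Ideal (AdjoinRoot f)}
    {b : AdjoinRoot f} {e : Fin m → AdjoinRoot f} {z : Fin m → Fin m → AdjoinRoot f}
    (hD : Dat J b e z) : (gm hf z)ᵀ = gm hf z ∧ (bm hf z)ᵀ = bm hf z := by
  have h1 : ∀ i j, z i j = z j i := by
    intro i j
    apply mul_left_cancel₀ hD.b0
    rw [hD.eq, hD.eq, mul_comm]
  constructor
  · ext i j : 2
    rw [Matrix.transpose_apply, gm, Matrix.of_apply, Matrix.of_apply, h1]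
  · ext i j : 2
    rw [Matrix.transpose_apply, bm, Matrix.of_apply, Matrix.of_apply, h1]

private theorem dat_wn {h : ℕ} (hF : Fam m h f) (hirr : Irreducible (lead m h f))
    {J : Ideal (AdjoinRoot f)} {b : AdjoinRoot f} {e : Fin m → AdjoinRoot f}
    {z : Fin m → Fin m → AdjoinRoot f} (hD : Dat J b e z) (i j : Fin m) (h0 : z i j ≠ 0) :
    wn h hF.monic b + wn h hF.monic (z i j) = wn h hF.monic (e i) + wn h hF.monic (e j) := by
  rw [← wn_mul hF hirr hD.b0 h0, hD.eq, wn_mul hF hirr (bs_ne hD.bs i) (bs_ne hD.bs j)]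

theorem gm_degG {h : ℕ} (hF : Fam m h f) (hirr : Irreducible (lead m h f)) (hm : 1 ≤ m)
    {J : Ideal (AdjoinRoot f)} {b : AdjoinRoot f} {e : Fin m → AdjoinRoot f}
    {z : Fin m → Fin m → AdjoinRoot f} (hD : Dat J b e z) (i j : Fin m)
    (h0 : gm hF.monic z i j ≠ 0) :
    (gm hF.monic z i j).natDegree + (m - 1) * h + wn h hF.monic b ≤
      wn h hF.monic (e i) + wn h hF.monic (e j) := by
  have h1 : gm hF.monic z i j = tauO hF.monic (z i j) := rfl
  rw [h1] at h0 ⊢
  have hz : z i j ≠ 0 := by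
    intro h2
    rw [h2, map_zero] at h0
    exact h0 rfl
  have h3 := tauO_deg hF hm (z i j)
  rw [wd_wn h hF.monic hz, degree_eq_natDegree h0] at h3
  have h4 := dat_wn hF hirr hD i j hz
  have h5 : (tauO hF.monic (z i j)).natDegree + (m - 1) * h ≤ wn h hF.monic (z i j) := by
    exact_mod_cast h3
  omega

theorem gm_degB {h : ℕ} (hF : Fam m h f) (hirr : Irreducible (lead m h f)) (hm : 2 ≤ m)
    {J : Ideal (AdjoinRoot f)} {b : AdjoinRoot f} {e : Fin m → AdjoinRoot f}
    {z : Fin m → Fin m → AdjoinRoot f} (hD : Dat J b e z) (i j : Fin m)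
    (h0 : bm hF.monic z i j ≠ 0) :
    (bm hF.monic z i j).natDegree + (m - 1) * h + wn h hF.monic b ≤
      h + wn h hF.monic (e i) + wn h hF.monic (e j) := by
  have h1 : bm hF.monic z i j = tauO hF.monic (AdjoinRoot.root f * z i j) := rfl
  rw [h1] at h0 ⊢
  have hz : z i j ≠ 0 := by
    intro h2
    rw [h2, mul_zero, map_zero] at h0
    exact h0 rfl
  obtain ⟨h6, h7⟩ := wn_root hF hirr hm hz
  have h3 := tauO_deg hF (by omega) (AdjoinRoot.root f * z i j)
  rw [wd_wn h hF.monic h6, degree_eq_natDegree h0] at h3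
  have h4 := dat_wn hF hirr hD i j hz
  have h5 : (tauO hF.monic (AdjoinRoot.root f * z i j)).natDegree + (m - 1) * h ≤
      wn h hF.monic (AdjoinRoot.root f * z i j) := by
    exact_mod_cast h3
  omega

end

end Pool.Agent.H3.GG
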