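import Pool.Agent.H3.GG.LGa
import Pool.Agent.H3.GG.LGb

set_option autoImplicit false

/-!
# [H3 GG LGm] The Gram matrices of a class

Data (`Dat J b e z`, `H3/GG/LDefs`): `(b) = J ^ 2`, `e` a basis of `J`, `b z_ij = e_i e_j`; `O` a domain.
* `dat_exists`: `e_i e_j ∈ J ^ 2 = (b)`.
* `z_sym`: `b z_ij = b z_ji`.
* `gm_degG`: `G_ij = tauO z_ij`; `wn b + wn z_ij = wn e_i + wn e_j` (`wn_mul`; `z_ij ≠ 0` as `e_i e_j ≠ 0`), `tauO_deg`:
  `deg G_ij + (m - 1) h ≤ wn z_ij`. `gm_degB`: the same with `θ z_ij` (`wn_root`).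
* `gm_E`: `G = Eᵀ H' E` where `E = cf hf e` and `H'_ij = tauO'(θ ^ (i + j) / b)` does not live on `O`; so the identity of
  determinants is stated as `det G * N(b) = (-1) ^ (m (m - 1) / 2) * (det E) ^ 2`, `N` the norm of `O` over `F[t]`.
  PROOF over `K`: `L = K[x]/(overK f)` (only a `K`-algebra with basis `θ ^ i` is needed), `δ = 1 / toL b` (`toL b` is a unit:
  `N(b) ≠ 0`, or: `L` is a field). `toL z_ij = δ toL e_i toL e_j`, so `G_ij = τ(δ e_i e_j)` (`tau_toL`), `toL e_j =
  ∑ E_ij θ ^ i`. So `G = Eᵀ H E`, `H_ij = τ(δ θ ^ i θ ^ j)`. `H = H₀ M`, `H₀_ij = τ(θ ^ (i + j))`, `M` the matrix of the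
  multiplication by `δ`: `δ θ ^ j = ∑ M_kj θ ^ k`, `det M = N(δ) = N(b)⁻¹`. `H₀_ij = 0` for `i + j < m - 1`, `= 1` for
  `i + j = m - 1`: `det H₀ = (-1) ^ (m (m - 1) / 2)` (reverse the rows by `Fin.revPerm`, lower triangular with ones; the
  sign of `Fin.revPerm` is `(-1) ^ (m (m - 1) / 2)`; or, since only `det H₀ = ± 1` with the sign depending on `m` is
  needed: see `sgn_H0`). `N` of `O` and of `L` agree: `Algebra.norm_localization` or compare the matrices in the bases `θ ^ i`
  (`Algebra.norm_eq_matrix_det`).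
-/

namespace Pool.Agent.H3.GG

open Polynomial Matrix
open Pool.Agent.H80.CC.Plane (overK toL)
open Pool.Agent.H94.GG (Fam lead tau)

section
variable {F : Type} [Field F] {f : F[X][X]} {m : ℕ}

private theorem toL_mk (p : F[X][X]) :
    toL f (AdjoinRoot.mk f p) = AdjoinRoot.mk (overK f) (p.map (algebraMap F[X] (RatFunc F))) := by
  induction p using Polynomial.induction_on' with
  | add p q hp hq => rw [map_add, map_add, hp, hq, Polynomial.map_add, map_add]
  | monomial n a =>
    rw [← C_mul_X_pow_eq_monomial, Polynomial.map_mul, Polynomial.map_pow, Polynomial.map_C, Polynomial.map_X,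
      map_mul, map_mul, map_mul, map_pow, map_pow, map_pow, AdjoinRoot.mk_X, AdjoinRoot.mk_X, AdjoinRoot.mk_C,
      AdjoinRoot.mk_C]
    rw [toL, AdjoinRoot.map_root, AdjoinRoot.map_of]

private theorem toL_sum (hf : f.Monic) (hm : f.natDegree = m) (hm1 : 1 ≤ m) (x : AdjoinRoot f) :
    toL f x = ∑ i : Fin m, (algebraMap F[X] (RatFunc F) ((rp hf x).coeff i)) •
      AdjoinRoot.root (overK f) ^ (i : ℕ) := by
  have h1 : (rp hf x).natDegree < m := by
    rw [← hm]
    by_cases h0 : rp hf x = 0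
    · rw [h0, natDegree_zero]
      omega
    · exact Polynomial.natDegree_lt_natDegree h0 (rp_degree hf x)
  conv_lhs => rw [← mk_rp hf x, toL_mk, (rp hf x).as_sum_range_C_mul_X_pow' h1]
  rw [Finset.sum_range, Polynomial.map_sum, map_sum]
  refine Finset.sum_congr rfl fun i _ => ?_
  rw [Polynomial.map_mul, Polynomial.map_pow, Polynomial.map_C, Polynomial.map_X, map_mul, map_pow,
    AdjoinRoot.mk_X, AdjoinRoot.mk_C, Algebra.smul_def]
  rfl

theorem gm_det (hf : f.Monic) (hm : f.natDegree = m) (hm1 : 1 ≤ m)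
    (hirr : Irreducible (overK f)) {J : Ideal (AdjoinRoot f)} {b : AdjoinRoot f}
    {e : Fin m → AdjoinRoot f} {z : Fin m → Fin m → AdjoinRoot f} (hD : Dat J b e z) :
    (gm hf z).det * Algebra.norm F[X] b = (-1) ^ (m * (m - 1) / 2) * (cf hf e).det ^ 2 := by
  have hinj : Function.Injective (algebraMap F[X] (RatFunc F)) := IsFractionRing.injective F[X] (RatFunc F)
  have hb : toL f b ≠ 0 := fun h => hD.b0 (toL_inj hf (h.trans (map_zero _).symm))
  obtain ⟨δ, hδ⟩ : ∃ δ, toL f b * δ = 1 := by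
    have : Fact (Irreducible (overK f)) := ⟨hirr⟩
    exact ⟨(toL f b)⁻¹, mul_inv_cancel₀ hb⟩
  have hz : ∀ i j, toL f (z i j) = δ * toL f (e i) * toL f (e j) := by
    intro i j
    have h1 := congrArg (toL f) (hD.eq i j)
    rw [map_mul, map_mul] at h1
    calc toL f (z i j) = (toL f b * δ) * toL f (z i j) := by rw [hδ, one_mul]
      _ = δ * (toL f b * toL f (z i j)) := by ring
      _ = _ := by rw [h1, mul_assoc]
  set H : Matrix (Fin m) (Fin m) (RatFunc F) := Matrix.of fun i j : Fin m =>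
    tau (overK_monic hf) (δ * AdjoinRoot.root (overK f) ^ (i : ℕ) * AdjoinRoot.root (overK f) ^ (j : ℕ)) with hH
  set E : Matrix (Fin m) (Fin m) (RatFunc F) := (cf hf e).map (algebraMap F[X] (RatFunc F)) with hE
  have hG : (gm hf z).map (algebraMap F[X] (RatFunc F)) = Eᵀ * (H * E) := by
    ext i j
    rw [Matrix.map_apply, gm, Matrix.of_apply, ← tau_toL, hz, toL_sum hf hm hm1 (e i),
      Finset.mul_sum, Finset.sum_mul, map_sum, Matrix.mul_apply]
    refine Finset.sum_congr rfl fun a _ => ?_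
    rw [toL_sum hf hm hm1 (e j), Finset.mul_sum, map_sum, Matrix.mul_apply, Finset.mul_sum]
    refine Finset.sum_congr rfl fun c _ => ?_
    rw [mul_smul_comm, mul_smul_comm, smul_mul_assoc, map_smul, map_smul, smul_eq_mul, smul_eq_mul]
    change _ = algebraMap F[X] (RatFunc F) ((rp hf (e i)).coeff a) * (tau (overK_monic hf) (δ *
      AdjoinRoot.root (overK f) ^ (a : ℕ) * AdjoinRoot.root (overK f) ^ (c : ℕ)) *
      algebraMap F[X] (RatFunc F) ((rp hf (e j)).coeff c))
    ring
  have hH' : H.det = (-1) ^ (m * (m - 1) / 2) * Algebra.norm (RatFunc F) δ :=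
    det_form (overK_monic hf) ((overK_deg hf).trans hm) δ
  have hN : Algebra.norm (RatFunc F) (toL f b) * Algebra.norm (RatFunc F) δ = 1 := by
    rw [← map_mul, hδ, map_one]
  refine hinj ?_
  have hdG : algebraMap F[X] (RatFunc F) (gm hf z).det = E.det ^ 2 * H.det := by
    rw [RingHom.map_det, RingHom.mapMatrix_apply, hG, Matrix.det_mul, Matrix.det_mul, Matrix.det_transpose]
    ring
  have hdE : algebraMap F[X] (RatFunc F) (cf hf e).det = E.det := by
    rw [RingHom.map_det, RingHom.mapMatrix_apply]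
  rw [map_mul, ← norm_toL hf b, hdG, hH', map_mul, map_pow, map_pow, hdE, map_neg, map_one]
  calc E.det ^ 2 * ((-1) ^ (m * (m - 1) / 2) * Algebra.norm (RatFunc F) δ) * Algebra.norm (RatFunc F) (toL f b) =
      (-1) ^ (m * (m - 1) / 2) * E.det ^ 2 * (Algebra.norm (RatFunc F) (toL f b) * Algebra.norm (RatFunc F) δ) := by
        ring
    _ = _ := by rw [hN, mul_one]

end

end Pool.Agent.H3.GG
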