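import Pool.Agent.H3.GG.LTau

set_option autoImplicit false

/-!
# [H3 GG LLa] (here only `rep_pow`) The local condition: squares over `K_v` have trivial class modulo `v`

`v` a place, `ϖ ∈ F[t]` irreducible with `v = (ϖ)`, `K_v` the completion, `O_v` its ring of integers. `f` monic, `f` modulo `v`
squarefree, `det G = C c`, `c ≠ 0`, `RepL f δ G B` with basis `e`, `toLv δ = z ^ 2` in `L_v = K_v[x]/(f)`.
`T = G⁻¹ B` has entries in `F[t]`, and `θ e_j = ∑ (B G⁻¹)_jl e_l`, `B G⁻¹ = Tᵀ` (`G`, `B` symmetric): `θ e_j = ∑ T_lj e_l`, so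
`τ(δ e_k θ ^ i e_j) = (G T ^ i)_kj` (`rep_pow`).
(1) `δ e_j ^ 2 ∈ toL O`: `τ(δ e_j ^ 2 θ ^ i) = (G T ^ i)_jj ∈ F[t]` for all `i`, `tau_int`.
(2) `z e_j ∈ L_v` is the class of a polynomial over `O_v`: its square is `toLv (δ e_j ^ 2)`; `nor` with `A = O_v`, `M = K_v`,
`κ` the residue field of `O_v` (`φ f` squarefree: `F[t]/v → κ` is an isomorphism; or: a field extension of perfect fields;
`F[X] ⧸ v.asIdeal → κ` is onto by `H94.TC.exists_approx`).
(3) `u_j = τ(z e_j) ∈ O_v`. `z` is a unit (`δ ≠ 0`). Let `w = G⁻¹ u ∈ O_v ^ m`. Then `z⁻¹ = ∑ w_j e_j` in `L_v`: the images of the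
`e_j` are a `K_v`-basis of `L_v`; for all `k` `τ(δ (∑ w_j e_j) e_k) = (G w)_k = u_k = τ(δ z⁻¹ e_k)`; the form is nondegenerate.
(4) `∑ w_k w_j (G T ^ i)_kj = τ(δ z⁻¹ θ ^ i z⁻¹) = τ(θ ^ i) = [i + 1 = m]` for `i < m` (`tau_pow`).
(5) choose `y_j ∈ F[t]` with `w_j ≡ y_j` modulo `ϖ O_v` (`H94.TC.exists_approx`, `n = 1`): `∑ y_k y_j (G T ^ i)_kj - [i + 1 = m]` is an
element of `F[t]` in `ϖ O_v`, so divisible by `ϖ`. The reduction of `y` is the vector; reduction commutes with inverse and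
powers (`det G` is a unit).
`T` of `TrivC` is `(md G)⁻¹ * (md B)`.
-/

namespace Pool.Agent.H3.GG

open Polynomial Matrix IsDedekindDomain
open Pool.Agent.H80.CC.Plane (overK overKv toL toLv)
open Pool.Agent.H94.GG (Fam lead tau SqAt)

variable {F : Type} [Field F] {f : F[X][X]} {m h : ℕ}

private theorem mul_left_mat {k : Type} [Field k] {g : k[X]} (hg : g.Monic) {ι : Type} [Fintype ι] [DecidableEq ι]
    (e : Module.Basis ι k (AdjoinRoot g)) (δ z : AdjoinRoot g) (a j : ι) :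
    tau hg (δ * z * e a * e j) = ∑ l, tau hg (δ * e a * e l) * Algebra.leftMulMatrix e z l j := by
  have h1 : δ * z * e a * e j = δ * e a * ∑ l, Algebra.leftMulMatrix e z l j • e l := by
    simp only [Algebra.leftMulMatrix_eq_repr_mul]
    rw [e.sum_repr]
    ring
  rw [h1, Finset.mul_sum, map_sum]
  refine Finset.sum_congr rfl fun l _ => ?_
  rw [mul_smul_comm, map_smul, smul_eq_mul, mul_comm]

/-- the values of the form of `δ θ ^ i` -/
theorem rep_pow (hm : (overK f).natDegree = m) (hf : (overK f).Monic)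
    {δ : AdjoinRoot (overK f)} {G B : Matrix (Fin m) (Fin m) F[X]} (hGs : Gᵀ = G) (hBs : Bᵀ = B)
    (hG : IsUnit G.det) (e : Module.Basis (Fin m) (RatFunc F) (AdjoinRoot (overK f)))
    (h1 : ∀ i j, algebraMap F[X] (RatFunc F) (G i j) = tau hf (δ * e i * e j))
    (h2 : ∀ i j, algebraMap F[X] (RatFunc F) (B i j) =
      tau hf (δ * (AdjoinRoot.root (overK f) * e i) * e j)) (i : ℕ) (k j : Fin m) :
    algebraMap F[X] (RatFunc F) ((G * (G⁻¹ * B) ^ i) k j) =
      tau hf (δ * AdjoinRoot.root (overK f) ^ i * e k * e j) := by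
  set φ : F[X] →+* RatFunc F := algebraMap F[X] (RatFunc F) with hφ
  set Θ := Algebra.leftMulMatrix e (AdjoinRoot.root (overK f)) with hΘ
  have e1 : ∀ z, G.map φ * Algebra.leftMulMatrix e z = Matrix.of fun a b => tau hf (δ * z * e a * e b) := by
    intro z
    ext a b
    rw [Matrix.mul_apply]
    show _ = tau hf (δ * z * e a * e b)
    rw [mul_left_mat]
    refine Finset.sum_congr rfl fun l _ => ?_
    rw [Matrix.map_apply, h1]
  have e2 : B.map φ = G.map φ * Θ := by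
    rw [hΘ, e1]
    ext a b
    rw [Matrix.map_apply, h2]
    show _ = tau hf (δ * AdjoinRoot.root (overK f) * e a * e b)
    congr 1
    ring
  have e3 : G.map φ * (G⁻¹ * B).map φ = B.map φ := by
    rw [← Matrix.map_mul, ← Matrix.mul_assoc, Matrix.mul_nonsing_inv _ hG, Matrix.one_mul]
  have hunit : IsUnit (G.map φ).det := by
    have h3 := RingHom.map_det φ G
    have h4 : (G.map φ).det = φ G.det := h3.symm
    rw [h4]
    exact hG.map φ
  have e4 : (G⁻¹ * B).map φ = Θ := by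
    have h5 : G.map φ * (G⁻¹ * B).map φ = G.map φ * Θ := by rw [e3, e2]
    have h6 := congrArg (fun M => (G.map φ)⁻¹ * M) h5
    rwa [← Matrix.mul_assoc, ← Matrix.mul_assoc, Matrix.nonsing_inv_mul _ hunit, Matrix.one_mul,
      Matrix.one_mul] at h6
  have e5 : ((G⁻¹ * B) ^ i).map φ = Algebra.leftMulMatrix e (AdjoinRoot.root (overK f) ^ i) := by
    rw [map_pow, ← hΘ, ← e4]
    exact map_pow (RingHom.mapMatrix φ) (G⁻¹ * B) i
  have e6 : (G * (G⁻¹ * B) ^ i).map φ = G.map φ * Algebra.leftMulMatrix e (AdjoinRoot.root (overK f) ^ i) := by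
    rw [Matrix.map_mul, e5]
  have e7 := congrFun (congrFun e6 k) j
  rw [e1] at e7
  exact e7

end Pool.Agent.H3.GG
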