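import Pool.Agent.H3.GG.LNor
import Pool.Agent.H3.GG.LLa
import Pool.Agent.H94.TC.Adic

set_option autoImplicit false

/-!
# [H3 GG LLv] (here only `loc_vec`) The local condition: squares over `K_v` have trivial class modulo `v`

`v` a place, `ϖ ∈ F[t]` irreducible with `v = (ϖ)`, `K_v` the completion, `O_v` its ring of integers. `f` monic, `f` modulo `v`
squarefree, `det G = C c`, `c ≠ 0`, `RepL f δ G B` with basis `e`, `toLv δ = z ^ 2` in `L_v = K_v[x]/(f)`.
`T = G⁻¹ B` has entries in `F[t]`, and `θ e_j = ∑ (B G⁻¹)_jl e_l`, `B G⁻¹ = Tᵀ` (`G`, `B` symmetric): `θ e_j = ∑ T_lj e_l`, so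
`τ(δ e_k θ ^ i e_j) = (G T ^ i)_kj` (`rep_pow`).
(1) `δ e_j ^ 2 ∈ toL O`: `τ(δ e_j ^ 2 θ ^ i) = (G T ^ i)_jj ∈ F[t]` for all `i`, `tau_int`.
(2) `z e_j ∈ L_v` is the class of a polynomial over `O_v`: its square is `toLv (δ e_j ^ 2)`; `nor` with `A = O_v`, `M = K_v`,
`κ` the residue field of `O_v` (`φ f` squarefree: `F[t]/v → κ` is an isomorphism; or: a field extension of perfect fields;
`F[X] ⧸ v.asIdeal → κ` is onto by `H94.TC.exists_approx`).
(3) `u_j = τ(z e_j) ∈ O_v`. `z` is a unit (`δ ≠ 0`). Let `w = G⁻¹ u ∈ O_v ^ m`. Then `z⁻¹ = ∑ w_j e_j` in `L_v`: the images of the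
`e_j` are a `K_v`-basis of `L_v`; for all `k` `τ(δ (∑ w_j e_j) e_k) = (G w)_k = u_k = τ(δ z⁻¹ e_k)`; the form is nondegenerate.
(4) `∑ w_k w_j (G T ^ i)_kj = τ(δ z⁻¹ θ ^ i z⁻¹) = τ(θ ^ i) = [i + 1 = m]` for `i < m` (`tau_pow`).
(5) choose `y_j ∈ F[t]` with `w_j ≡ y_j` modulo `ϖ O_v` (`H94.TC.exists_approx`, `n = 1`): `∑ y_k y_j (G T ^ i)_kj - [i + 1 = m]` is an
element of `F[t]` in `ϖ O_v`, so divisible by `ϖ`. The reduction of `y` is the vector; reduction commutes with inverse and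
powers (`det G` is a unit).
`T` of `TrivC` is `(md G)⁻¹ * (md B)`.
-/

namespace Pool.Agent.H3.GG

open Polynomial Matrix IsDedekindDomain
open scoped WithZero
open Pool.Agent.H80.CC.Plane (overK overKv toL toLv)
open Pool.Agent.H94.GG (Fam lead tau SqAt)

variable {F : Type} [Field F] {f : F[X][X]} {m h : ℕ}

private theorem ar_map_mk {R S : Type} [CommRing R] [CommRing S] (φ : R →+* S) (g : R[X])
    (g' : S[X]) (h : g' ∣ g.map φ) (p : R[X]) :
    AdjoinRoot.map φ g g' h (AdjoinRoot.mk g p) = AdjoinRoot.mk g' (p.map φ) := by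
  induction p using Polynomial.induction_on' with
  | add p q hp hq =>
    rw [map_add, map_add, hp, hq, Polynomial.map_add, map_add]
  | monomial n a =>
    rw [← C_mul_X_pow_eq_monomial, map_mul, map_mul, map_pow, map_pow, AdjoinRoot.mk_X,
      AdjoinRoot.mk_C, AdjoinRoot.map_of, AdjoinRoot.map_root, Polynomial.map_mul,
      Polynomial.map_pow, map_C, map_X, map_mul, map_pow, AdjoinRoot.mk_X, AdjoinRoot.mk_C]

private theorem tau_map {k k' : Type} [Field k] [Field k'] (φ : k →+* k') {g : k[X]}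
    (hg : g.Monic) (hg' : (g.map φ).Monic) (x : AdjoinRoot g) :
    tau hg' (AdjoinRoot.map φ g (g.map φ) dvd_rfl x) = φ (tau hg x) := by
  obtain ⟨p, rfl⟩ := AdjoinRoot.mk_surjective x
  rw [ar_map_mk]
  show ((AdjoinRoot.modByMonicHom hg' (AdjoinRoot.mk (g.map φ) (p.map φ))).coeff
      ((g.map φ).natDegree - 1)) =
    φ ((AdjoinRoot.modByMonicHom hg (AdjoinRoot.mk g p)).coeff (g.natDegree - 1))
  rw [AdjoinRoot.modByMonicHom_mk, AdjoinRoot.modByMonicHom_mk, ← Polynomial.map_modByMonic φ hg,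
    coeff_map, natDegree_map]

private theorem tau_mk_map {A k' : Type} [CommRing A] [Field k'] (φ : A →+* k') {g : A[X]}
    (hg : g.Monic) {g' : k'[X]} (e : g' = g.map φ) (hg' : g'.Monic) (p : A[X]) :
    tau hg' (AdjoinRoot.mk g' (p.map φ)) = φ ((p %ₘ g).coeff (g'.natDegree - 1)) := by
  subst e
  show ((AdjoinRoot.modByMonicHom hg' (AdjoinRoot.mk (g.map φ) (p.map φ))).coeff
      ((g.map φ).natDegree - 1)) = _
  rw [AdjoinRoot.modByMonicHom_mk, ← Polynomial.map_modByMonic φ hg, coeff_map]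

private theorem coe_alg (v : HeightOneSpectrum F[X]) (c : F[X]) :
    algebraMap (v.adicCompletionIntegers (RatFunc F)) (v.adicCompletion (RatFunc F))
      (algebraMap F[X] (v.adicCompletionIntegers (RatFunc F)) c) =
    algebraMap (RatFunc F) (v.adicCompletion (RatFunc F)) (algebraMap F[X] (RatFunc F) c) := by
  rw [HeightOneSpectrum.algebraMap_adicCompletion]
  rfl

private theorem sqf_map {A B : Type} [CommRing A] [CommRing B] (e : A ≃+* B)
    {p : A[X]} (hp : Squarefree p) : Squarefree (p.map (e : A →+* B)) := by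
  intro x hx
  have h1 : x.map (e.symm : B →+* A) * x.map (e.symm : B →+* A) ∣ p := by
    have h2 := Polynomial.map_dvd (e.symm : B →+* A) hx
    rw [Polynomial.map_mul, Polynomial.map_map] at h2
    simpa using h2
  have h3 := (hp _ h1).map (mapRingHom (e : A →+* B))
  rw [coe_mapRingHom, Polynomial.map_map] at h3
  simpa using h3

private theorem exists_gen (v : HeightOneSpectrum F[X]) :
    ∃ ϖ : F[X], ϖ ≠ 0 ∧ v.asIdeal = Ideal.span {ϖ} := by
  obtain ⟨ϖ, h⟩ := (IsPrincipalIdealRing.principal v.asIdeal).principal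
  refine ⟨ϖ, ?_, h⟩
  rintro rfl
  apply v.ne_bot
  rw [h]
  simp

private noncomputable abbrev Ow (v : HeightOneSpectrum F[X]) := v.adicCompletionIntegers (RatFunc F)

private noncomputable abbrev Kw (v : HeightOneSpectrum F[X]) := v.adicCompletion (RatFunc F)

private theorem wker (v : HeightOneSpectrum F[X]) {ϖ : F[X]} (hϖ : ϖ ≠ 0)
    (hv : v.asIdeal = Ideal.span {ϖ}) (a : Ow v) :
    IsLocalRing.residue (Ow v) a = 0 ↔ algebraMap F[X] (Ow v) ϖ ∣ a :=
  Pool.Agent.H94.TC.residue_eq_zero_iff (K := RatFunc F) v ϖ hϖ hv a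

private theorem wden (v : HeightOneSpectrum F[X]) {ϖ : F[X]} (hϖ : ϖ ≠ 0)
    (hv : v.asIdeal = Ideal.span {ϖ}) (x : Kw v) :
    ∃ (a : Ow v) (k : ℕ), algebraMap (Ow v) (Kw v) (algebraMap F[X] (Ow v) ϖ) ^ k * x =
      algebraMap (Ow v) (Kw v) a := by
  have h1 : (Valued.v (algebraMap (Ow v) (Kw v) (algebraMap F[X] (Ow v) ϖ)) : ℤᵐ⁰) =
      WithZero.exp (-1 : ℤ) := Pool.Agent.H94.TC.val_varpi (K := RatFunc F) v ϖ hϖ hv
  by_cases hx : (Valued.v x : ℤᵐ⁰) = 0
  · refine ⟨0, 0, ?_⟩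
    have : x = 0 := (Valuation.zero_iff _).mp hx
    rw [this]
    simp
  · have h2 : (Valued.v x : ℤᵐ⁰) = WithZero.exp (WithZero.log (Valued.v x : ℤᵐ⁰)) :=
      (WithZero.exp_log hx).symm
    set n := WithZero.log (Valued.v x : ℤᵐ⁰) with hn
    have h3 : (Valued.v (algebraMap (Ow v) (Kw v) (algebraMap F[X] (Ow v) ϖ) ^ n.toNat * x) :
        ℤᵐ⁰) ≤ 1 := by
      rw [map_mul, map_pow, h1, h2, ← WithZero.exp_nsmul, ← WithZero.exp_add, ← WithZero.exp_zero,
        WithZero.exp_le_exp]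
      simp only [smul_eq_mul, nsmul_eq_mul]
      omega
    exact ⟨⟨_, h3⟩, n.toNat, rfl⟩

private theorem wsq (v : HeightOneSpectrum F[X]) {ϖ : F[X]} (hϖ : ϖ ≠ 0)
    (hv : v.asIdeal = Ideal.span {ϖ}) (hsq : Squarefree (f.map (Ideal.Quotient.mk v.asIdeal))) :
    Squarefree ((f.map (algebraMap F[X] (Ow v))).map (IsLocalRing.residue (Ow v))) := by
  have h0 : ∀ a : F[X], a ∈ v.asIdeal ↔
      ((IsLocalRing.residue (Ow v)).comp (algebraMap F[X] (Ow v))) a = 0 := by
    intro a
    rw [RingHom.comp_apply, wker v hϖ hv]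
    have h1 := Pool.Agent.H94.TC.pow_dvd_iff (K := RatFunc F) v ϖ hϖ hv 1
      (algebraMap F[X] (Ow v) a)
    rw [pow_one] at h1
    rw [h1, Pool.Agent.H94.TC.val_alg, HeightOneSpectrum.intValuation_le_pow_iff_mem, pow_one]
  let ψ : F[X] ⧸ v.asIdeal →+* IsLocalRing.ResidueField (Ow v) :=
    Ideal.Quotient.lift v.asIdeal ((IsLocalRing.residue (Ow v)).comp (algebraMap F[X] (Ow v)))
      (fun a ha => (h0 a).mp ha)
  have hψ : ∀ a : F[X], ψ (Ideal.Quotient.mk v.asIdeal a) =
      IsLocalRing.residue (Ow v) (algebraMap F[X] (Ow v) a) := fun a => rfl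
  have hinj : Function.Injective ψ := by
    rw [injective_iff_map_eq_zero]
    intro a ha
    obtain ⟨a, rfl⟩ := Ideal.Quotient.mk_surjective a
    rw [Ideal.Quotient.eq_zero_iff_mem]
    exact (h0 a).mpr ha
  have hsur : Function.Surjective ψ := by
    intro b
    obtain ⟨x, rfl⟩ := IsLocalRing.residue_surjective b
    obtain ⟨y, hy⟩ := Pool.Agent.H94.TC.exists_approx (K := RatFunc F) v ϖ hϖ hv 1 x
    rw [pow_one] at hy
    refine ⟨Ideal.Quotient.mk v.asIdeal y, ?_⟩
    have h2 := (wker v hϖ hv _).mpr hy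
    rw [map_sub, sub_eq_zero] at h2
    rw [hψ, h2]
  have h3 := sqf_map (RingEquiv.ofBijective ψ ⟨hinj, hsur⟩) hsq
  have e : (f.map (algebraMap F[X] (Ow v))).map (IsLocalRing.residue (Ow v)) =
      (f.map (Ideal.Quotient.mk v.asIdeal)).map
        (RingEquiv.ofBijective ψ ⟨hinj, hsur⟩ : F[X] ⧸ v.asIdeal →+* _) := by
    rw [Polynomial.map_map, Polynomial.map_map]
    rfl
  rw [e]
  exact h3

/-- normality over the completion -/
private theorem nor_v (hf : f.Monic) (v : HeightOneSpectrum F[X])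
    (hsq : Squarefree (f.map (Ideal.Quotient.mk v.asIdeal)))
    {y : AdjoinRoot (overKv f v)} {r : (Ow v)[X]}
    (hy : y ^ 2 = AdjoinRoot.mk (overKv f v) (r.map (algebraMap (Ow v) (Kw v)))) :
    ∃ p : (Ow v)[X], y = AdjoinRoot.mk (overKv f v) (p.map (algebraMap (Ow v) (Kw v))) := by
  obtain ⟨ϖ, hϖ, hv⟩ := exists_gen v
  have hval := Pool.Agent.H94.TC.val_varpi (K := RatFunc F) v ϖ hϖ hv
  have hϖ0 : algebraMap F[X] (Ow v) ϖ ≠ 0 := by
    intro h0
    rw [h0, ZeroMemClass.coe_zero, map_zero] at hval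
    exact WithZero.exp_ne_zero hval.symm
  have hfv : (f.map (algebraMap F[X] (Ow v))).map (algebraMap (Ow v) (Kw v)) = overKv f v := by
    unfold overKv overK
    rw [Polynomial.map_map, Polynomial.map_map]
    congr 1
  have key : ∀ (g : (Kw v)[X]) (hg : g = (f.map (algebraMap F[X] (Ow v))).map
      (algebraMap (Ow v) (Kw v))) (y : AdjoinRoot g)
      (hy : y ^ 2 = AdjoinRoot.mk g (r.map (algebraMap (Ow v) (Kw v)))),
      ∃ p : (Ow v)[X], y = AdjoinRoot.mk g (p.map (algebraMap (Ow v) (Kw v))) := by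
    rintro g rfl y hy
    exact nor (IsLocalRing.residue (Ow v)) hϖ0 (wker v hϖ hv) (wden v hϖ hv) (hf.map _)
      (wsq v hϖ hv hsq) hy
  exact key _ hfv.symm y hy

/-- steps (1) to (4) -/
theorem loc_vec (hf : f.Monic) (hm : f.natDegree = m) (hm1 : 1 ≤ m) (v : HeightOneSpectrum F[X])
    (hsq : Squarefree (f.map (Ideal.Quotient.mk v.asIdeal))) {δ : AdjoinRoot (overK f)}
    (hδ : δ ≠ 0) (hK : Irreducible (overK f)) {G B : Matrix (Fin m) (Fin m) F[X]} (hGs : Gᵀ = G)
    (hBs : Bᵀ = B) (hG : IsUnit G.det) (hR : RepL f δ G B) (hS : SqAt f v δ) :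
    ∃ w : Fin m → v.adicCompletionIntegers (RatFunc F), ∀ i < m,
      ∑ k, ∑ j, w k * w j *
        algebraMap F[X] (v.adicCompletionIntegers (RatFunc F)) ((G * (G⁻¹ * B) ^ i) k j) =
        if i + 1 = m then 1 else 0 := by
  classical
  obtain ⟨hfK, e, h1, h2⟩ := hR
  obtain ⟨z, hz⟩ := hS
  haveI : Fact (Irreducible (overK f)) := ⟨hK⟩
  have hfv : (overKv f v).Monic := hfK.map _
  have hdK : (overK f).natDegree = m := by rw [overK_deg hf, hm]
  have hdv : (overKv f v).natDegree = m := by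
    unfold overKv
    rw [natDegree_map, hdK]
  have hfv' : overKv f v = (f.map (algebraMap F[X] (Ow v))).map (algebraMap (Ow v) (Kw v)) := by
    unfold overKv overK
    rw [Polynomial.map_map, Polynomial.map_map]
    congr 1
  have htau : ∀ x : AdjoinRoot (overK f), tau hfv (toLv f v x) =
      algebraMap (RatFunc F) (Kw v) (tau hfK x) := fun x => tau_map _ hfK hfv x
  have hrep := rep_pow hdK hfK hGs hBs hG e h1 h2
  -- step 1
  have s1 : ∀ j, ∃ y : AdjoinRoot f, δ * e j * e j = toL f y := by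
    intro j
    apply tau_int hf (by omega)
    intro i hi
    refine ⟨(G * (G⁻¹ * B) ^ i) j j, ?_⟩
    rw [hrep i j j]
    congr 1
    ring
  choose y hy using s1
  -- step 2
  have s2 : ∀ j, ∃ p : (Ow v)[X], z * toLv f v (e j) =
      AdjoinRoot.mk (overKv f v) (p.map (algebraMap (Ow v) (Kw v))) := by
    intro j
    apply nor_v hf v hsq (r := (rp hf (y j)).map (algebraMap F[X] (Ow v)))
    have h3 : (z * toLv f v (e j)) ^ 2 = toLv f v (δ * e j * e j) := by
      rw [map_mul, map_mul, hz]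
      ring
    rw [h3, hy j]
    have h4 : toL f (y j) = AdjoinRoot.mk (overK f)
        ((rp hf (y j)).map (algebraMap F[X] (RatFunc F))) := by
      conv_lhs => rw [← mk_rp hf (y j)]
      exact ar_map_mk _ _ _ _ _
    rw [h4]
    refine (ar_map_mk _ _ _ _ _).trans ?_
    rw [Polynomial.map_map, Polynomial.map_map]
    congr 1
  choose p hp using s2
  -- step 3
  set u : Fin m → Ow v := fun j =>
    (p j %ₘ (f.map (algebraMap F[X] (Ow v)))).coeff (m - 1) with hudef
  have hu : ∀ j, algebraMap (Ow v) (Kw v) (u j) = tau hfv (z * toLv f v (e j)) := by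
    intro j
    rw [hp j, tau_mk_map (algebraMap (Ow v) (Kw v)) (hf.map (algebraMap F[X] (Ow v))) hfv' hfv,
      hdv]
  set w : Fin m → Ow v := fun k => ∑ j, algebraMap F[X] (Ow v) (G⁻¹ k j) * u j with hwdef
  have hGw : ∀ k, ∑ j, algebraMap F[X] (Ow v) (G k j) * w j = u k := by
    intro k
    have h3 : ∑ j, algebraMap F[X] (Ow v) (G k j) * w j =
        ∑ l, algebraMap F[X] (Ow v) ((G * G⁻¹) k l) * u l := by
      simp only [hwdef, Finset.mul_sum]
      rw [Finset.sum_comm]
      refine Finset.sum_congr rfl (fun l _ => ?_)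
      rw [Matrix.mul_apply, map_sum, Finset.sum_mul]
      refine Finset.sum_congr rfl (fun j _ => ?_)
      rw [map_mul]
      ring
    rw [h3, Matrix.mul_nonsing_inv _ hG, Finset.sum_eq_single k]
    · simp
    · intro b _ hb
      rw [Matrix.one_apply_ne (Ne.symm hb)]
      simp
    · intro hk
      exact absurd (Finset.mem_univ k) hk
  -- values of the form over the completion
  have hroot : toLv f v (AdjoinRoot.root (overK f)) = AdjoinRoot.root (overKv f v) :=
    AdjoinRoot.map_root _ _ _ _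
  have hA : ∀ (i : ℕ) (k j : Fin m), tau hfv (toLv f v δ * AdjoinRoot.root (overKv f v) ^ i *
      toLv f v (e k) * toLv f v (e j)) =
      algebraMap (Ow v) (Kw v) (algebraMap F[X] (Ow v) ((G * (G⁻¹ * B) ^ i) k j)) := by
    intro i k j
    rw [coe_alg, hrep i k j, ← htau]
    congr 1
    rw [map_mul, map_mul, map_mul, map_pow, hroot]
  set y0 : AdjoinRoot (overKv f v) :=
    ∑ k, algebraMap (Ow v) (Kw v) (w k) • toLv f v (e k) with hy0
  have hC : ∀ x : AdjoinRoot (overKv f v), (∀ k, tau hfv (x * toLv f v (e k)) = 0) → x = 0 := by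
    intro x hx
    apply tau_ext hfv (by omega)
    intro i _
    have h3 : AdjoinRoot.root (overKv f v) ^ i =
        ∑ k, algebraMap (RatFunc F) (Kw v) (e.repr (AdjoinRoot.root (overK f) ^ i) k) •
          toLv f v (e k) := by
      rw [← hroot, ← map_pow]
      conv_lhs => rw [← e.sum_repr (AdjoinRoot.root (overK f) ^ i)]
      rw [map_sum]
      refine Finset.sum_congr rfl (fun k _ => ?_)
      rw [Algebra.smul_def, map_mul, Algebra.smul_def]
      congr 1
      exact AdjoinRoot.map_of _ _ _ _ _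
    rw [h3, Finset.mul_sum, map_sum]
    refine Finset.sum_eq_zero (fun k _ => ?_)
    rw [mul_smul_comm, map_smul, hx k, smul_zero]
  have hB : toLv f v δ * y0 = z := by
    rw [← sub_eq_zero]
    apply hC
    intro k
    have h3 : (toLv f v δ * y0 - z) * toLv f v (e k) =
        ∑ j, algebraMap (Ow v) (Kw v) (w j) • (toLv f v δ * AdjoinRoot.root (overKv f v) ^ 0 *
          toLv f v (e k) * toLv f v (e j)) - z * toLv f v (e k) := by
      rw [sub_mul, hy0, Finset.mul_sum, Finset.sum_mul]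
      congr 1
      refine Finset.sum_congr rfl (fun j _ => ?_)
      rw [mul_smul_comm, smul_mul_assoc, pow_zero, mul_one]
      congr 1
      ring
    rw [h3, map_sub, map_sum, ← hu k, ← hGw k, map_sum, sub_eq_zero]
    refine Finset.sum_congr rfl (fun j _ => ?_)
    rw [map_smul, hA 0 k j, pow_zero, mul_one, smul_eq_mul, map_mul]
    ring
  have hzu : IsUnit z := by
    have h3 : IsUnit (toLv f v δ) := (isUnit_iff_ne_zero.mpr hδ).map (toLv f v)
    rw [hz] at h3
    exact (isUnit_pow_iff two_ne_zero).mp h3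
  have hzy : z * y0 = 1 := by
    apply hzu.mul_left_cancel
    rw [mul_one, ← mul_assoc, ← pow_two, ← hz, hB]
  refine ⟨w, fun i hi => ?_⟩
  apply IsFractionRing.injective (Ow v) (Kw v)
  have h5 : algebraMap (Ow v) (Kw v) (∑ k, ∑ j, w k * w j *
      algebraMap F[X] (v.adicCompletionIntegers (RatFunc F)) ((G * (G⁻¹ * B) ^ i) k j)) =
      tau hfv (toLv f v δ * AdjoinRoot.root (overKv f v) ^ i * y0 * y0) := by
    have h6 : toLv f v δ * AdjoinRoot.root (overKv f v) ^ i * y0 * y0 =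
        ∑ k, ∑ j, (algebraMap (Ow v) (Kw v) (w k) * algebraMap (Ow v) (Kw v) (w j)) •
          (toLv f v δ * AdjoinRoot.root (overKv f v) ^ i * toLv f v (e k) * toLv f v (e j)) := by
      conv_lhs => rw [hy0]
      rw [Finset.mul_sum, Finset.sum_comm]
      refine Finset.sum_congr rfl (fun j _ => ?_)
      rw [Finset.mul_sum, Finset.sum_mul]
      refine Finset.sum_congr rfl (fun k _ => ?_)
      rw [mul_smul_comm, mul_smul_comm, smul_mul_assoc, smul_smul, mul_comm (algebraMap _ _ (w j))]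
    rw [h6, map_sum, map_sum]
    refine Finset.sum_congr rfl (fun k _ => ?_)
    rw [map_sum, map_sum]
    refine Finset.sum_congr rfl (fun j _ => ?_)
    rw [map_smul, hA i k j, smul_eq_mul, map_mul, map_mul]
  have h7 : toLv f v δ * AdjoinRoot.root (overKv f v) ^ i * y0 * y0 =
      AdjoinRoot.root (overKv f v) ^ i := by
    rw [hz]
    have : z ^ 2 * AdjoinRoot.root (overKv f v) ^ i * y0 * y0 =
        (z * y0) * (z * y0) * AdjoinRoot.root (overKv f v) ^ i := by ring
    rw [this, hzy, one_mul, one_mul]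
  rw [h5, h7, tau_pow hfv i (by omega), hdv]
  split_ifs <;> simp

end Pool.Agent.H3.GG
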