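import Pool.Agent.H3.GG.LWd

set_option autoImplicit false

/-!
# [H3 GG LMul] The weight is additive on products if the leading form is irreducible

`f` in `Fam m h`, `λ = lead m h f` irreducible of degree `m`. `z, w ∈ O`, `p = rp z`, `q = rp w`, `r = rp (z w)`:
`p q = f s + r` (`modByMonic_add_div`, `rp (z w) = (p q) %ₘ f`). Apply `ph`: `P Q = Φ S + R`, `Φ = ph f` of degree `m h` in
`T` with leading coefficient `λ` (`ph_fam`). If `z = 0` or `w = 0`: both sides `⊥`. Otherwise let `d = deg P + deg Q`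
(`degree_mul`, `F[x][T]` is a domain).
* `deg (Φ S) ≤ d`: otherwise `deg R = deg (Φ S) > d` and the leading coefficient of `R` is minus that of `Φ S`, i.e.
  `- λ * lc S`, of degree `≥ m` in `x`; but the coefficients of `R` have degree `< m` in `x` (`ph_low`, `rp_degree`).
* So `deg R ≤ d`. If `deg R < d`, the coefficient of `T ^ d` of `P Q = Φ S + R` is `lc P * lc Q = [T ^ d] (Φ S)`, which is
  `λ * [T ^ (d - m h)] S` (as `deg Φ = m h` and `deg S ≤ d - m h`). So `λ ∣ lc P * lc Q`, `λ` is prime, `λ ∣ lc P` or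
  `λ ∣ lc Q`, both nonzero of degree `< m` in `x` (`ph_low`): contradiction.
* `wd_root`: `θ z`: `wd_mul`, `wd_pow` with `i = 1`.
* `wn_*`: the same with natural numbers for nonzero elements (`O` is a domain: `wd (z w) ≠ ⊥`).
* `dom`: `z w = 0` gives `⊥ = wd z + wd w`.
-/

namespace Pool.Agent.H3.GG

open Polynomial
open Pool.Agent.H94.GG (Fam lead)

variable {F : Type} [Field F] {f : F[X][X]} {m h : ℕ}

private theorem key_deg {P Q R Φ S : F[X][X]} {l : F[X]} {m : ℕ}
    (hl : Irreducible l) (hld : l.natDegree = m) (hΦ : Φ.leadingCoeff = l)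
    (hP : P ≠ 0) (hQ : Q ≠ 0) (hPm : ∀ k, (P.coeff k).degree < m) (hQm : ∀ k, (Q.coeff k).degree < m)
    (hRm : ∀ k, (R.coeff k).degree < m) (heq : P * Q = R + Φ * S) :
    R.degree = P.degree + Q.degree := by
  have hl0 : l ≠ 0 := hl.ne_zero
  have hld' : l.degree = m := by rw [degree_eq_natDegree hl0, hld]
  have hPQ : (P * Q).natDegree = P.natDegree + Q.natDegree := natDegree_mul hP hQ
  have hPQlc : (P * Q).coeff (P.natDegree + Q.natDegree) = P.leadingCoeff * Q.leadingCoeff := by
    rw [← hPQ, coeff_natDegree, leadingCoeff_mul]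
  set d := P.natDegree + Q.natDegree with hd
  -- claim 1
  have c1 : (Φ * S).natDegree ≤ d := by
    by_contra hcon
    push Not at hcon
    have h1 : (P * Q).coeff (Φ * S).natDegree = 0 := coeff_eq_zero_of_natDegree_lt (by omega)
    rw [heq, coeff_add, coeff_natDegree, leadingCoeff_mul, hΦ] at h1
    have h2 : S.leadingCoeff ≠ 0 := by
      intro h3
      rw [leadingCoeff_eq_zero] at h3
      rw [h3, mul_zero, natDegree_zero] at hcon
      omega
    have h4 := hRm (Φ * S).natDegree
    have h5 : R.coeff (Φ * S).natDegree = - (l * S.leadingCoeff) := by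
      linear_combination h1
    rw [h5, degree_neg, degree_mul, hld', degree_eq_natDegree h2] at h4
    have h6 : ((m + S.leadingCoeff.natDegree : ℕ) : WithBot ℕ) < (m : ℕ) := by
      push_cast
      exact h4
    have h7 : m + S.leadingCoeff.natDegree < m := by exact_mod_cast h6
    omega
  have c2 : R.degree ≤ (d : ℕ) := by
    have h1 : R = P * Q - Φ * S := by rw [heq]; ring
    have h2 : R.natDegree ≤ d := by
      rw [h1]
      refine (natDegree_sub_le _ _).trans ?_
      rw [hPQ]
      exact max_le le_rfl c1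
    exact degree_le_of_natDegree_le h2
  have c3 : R.coeff d ≠ 0 := by
    intro h0
    rw [heq, coeff_add, h0, zero_add] at hPQlc
    have hne : P.leadingCoeff * Q.leadingCoeff ≠ 0 :=
      mul_ne_zero (leadingCoeff_ne_zero.mpr hP) (leadingCoeff_ne_zero.mpr hQ)
    have h1 : (Φ * S).natDegree = d := by
      rcases Nat.lt_or_ge (Φ * S).natDegree d with h2 | h2
      · rw [coeff_eq_zero_of_natDegree_lt h2] at hPQlc
        exact absurd hPQlc.symm hne
      · omega
    rw [← h1, coeff_natDegree, leadingCoeff_mul, hΦ] at hPQlc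
    have hdvd : l ∣ P.leadingCoeff * Q.leadingCoeff := ⟨_, hPQlc.symm⟩
    rcases hl.prime.dvd_or_dvd hdvd with h3 | h3
    · have h4 := degree_le_of_dvd h3 (leadingCoeff_ne_zero.mpr hP)
      rw [hld'] at h4
      exact absurd (hPm P.natDegree) (not_lt.mpr h4)
    · have h4 := degree_le_of_dvd h3 (leadingCoeff_ne_zero.mpr hQ)
      rw [hld'] at h4
      exact absurd (hQm Q.natDegree) (not_lt.mpr h4)
  have c4 : R.degree = (d : ℕ) := le_antisymm c2 (le_degree_of_ne_zero c3)
  rw [c4, degree_eq_natDegree hP, degree_eq_natDegree hQ, hd]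
  push_cast
  rfl

theorem wd_mul (hF : Fam m h f) (hirr : Irreducible (lead m h f)) (z w : AdjoinRoot f) :
    wd h hF.monic (z * w) = wd h hF.monic z + wd h hF.monic w := by
  have hbot : wd h hF.monic (0 : AdjoinRoot f) = ⊥ := (wd_bot h hF.monic).mpr rfl
  by_cases hz : z = 0
  · rw [hz, zero_mul, hbot, WithBot.bot_add]
  by_cases hw : w = 0
  · rw [hw, mul_zero, hbot, WithBot.add_bot]
  have hfm : f.degree = (m : ℕ) := by rw [degree_eq_natDegree hF.monic.ne_zero, hF.deg]
  have hlow : ∀ (y : AdjoinRoot f) (k : ℕ), ((ph h (rp hF.monic y)).coeff k).degree < m := by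
    intro y k
    apply ph_low
    rw [← hfm]
    exact rp_degree hF.monic y
  have hne : ∀ {y : AdjoinRoot f}, y ≠ 0 → ph h (rp hF.monic y) ≠ 0 := by
    intro y hy h0
    apply hy
    rw [← wd_bot h hF.monic, wd, h0, degree_zero]
  have hzw : rp hF.monic (z * w) = (rp hF.monic z * rp hF.monic w) %ₘ f := by
    rw [← rp_mk hF.monic, map_mul, mk_rp, mk_rp]
  have heq : rp hF.monic z * rp hF.monic w = rp hF.monic (z * w) +
      f * ((rp hF.monic z * rp hF.monic w) /ₘ f) := by
    rw [hzw]
    exact (modByMonic_add_div _ f).symm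
  have heq' := congrArg (ph h) heq
  rw [map_mul, map_add, map_mul] at heq'
  exact key_deg hirr (lead_monic hF).2 (ph_fam hF).2 (hne hz) (hne hw) (hlow z)
    (hlow w) (hlow (z * w)) heq'

theorem dom (hF : Fam m h f) (hirr : Irreducible (lead m h f)) {z w : AdjoinRoot f}
    (hzw : z * w = 0) : z = 0 ∨ w = 0 := by
  have h1 := wd_mul hF hirr z w
  rw [hzw, (wd_bot h hF.monic).mpr rfl] at h1
  rcases WithBot.add_eq_bot.mp h1.symm with h2 | h2
  · left; exact (wd_bot h hF.monic).mp h2
  · right; exact (wd_bot h hF.monic).mp h2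

theorem wn_mul (hF : Fam m h f) (hirr : Irreducible (lead m h f)) {z w : AdjoinRoot f} (hz : z ≠ 0)
    (hw : w ≠ 0) : wn h hF.monic (z * w) = wn h hF.monic z + wn h hF.monic w := by
  have hzw : z * w ≠ 0 := fun h0 => (dom hF hirr h0).elim hz hw
  have h1 := wd_mul hF hirr z w
  rw [wd_wn h hF.monic hz, wd_wn h hF.monic hw, wd_wn h hF.monic hzw] at h1
  exact_mod_cast h1

theorem wn_root (hF : Fam m h f) (hirr : Irreducible (lead m h f)) (hm : 2 ≤ m) {z : AdjoinRoot f}
    (hz : z ≠ 0) : AdjoinRoot.root f * z ≠ 0 ∧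
      wn h hF.monic (AdjoinRoot.root f * z) = h + wn h hF.monic z := by
  have h1 : wd h hF.monic (AdjoinRoot.root f) = (h : ℕ) := by
    have h2 := wd_pow h hF.monic (i := 1) (by rw [hF.deg]; omega)
    rw [pow_one, one_mul] at h2
    exact h2
  have hr : AdjoinRoot.root f ≠ 0 := by
    intro h0
    rw [h0, (wd_bot h hF.monic).mpr rfl] at h1
    exact WithBot.bot_ne_coe h1
  refine ⟨fun h0 => (dom hF hirr h0).elim hr hz, ?_⟩
  rw [wn_mul hF hirr hr hz]
  rw [wd_wn h hF.monic hr] at h1
  have h3 : wn h hF.monic (AdjoinRoot.root f) = h := by exact_mod_cast h1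
  rw [h3]

end Pool.Agent.H3.GG
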