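import Pool.Agent.H3.GG.LGb

set_option autoImplicit false

/-!
# [H3 GG LUd] (here only `dual_mem`) The Gram matrix is unimodular

`O` Dedekind, `(b) = J ^ 2`, `e` a basis of `J`.
* `dual_mem`: `x ∈ L` with `τ(x e_j θ ^ i / b) ∈ F[t]` for all `i`, `j` is `toL` of an element of `J`. PROOF: `x e_j / b =
  toL y_j` with `y_j ∈ O` (`tau_int`). Write `x = toL r / s`, `r ∈ O`, `s ∈ F[t]`, `s ≠ 0` (clear the denominators of the
  coefficients of the representative). So `r e_j = s b y_j` in `O`; the `e_j` generate `J`, so `(r) J ⊆ (s) (b) = (s) J J`,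
  and `(r) ⊆ (s) J` (cancel the nonzero ideal `J` of a Dedekind domain: `Ideal.dvd_iff_le`, `mul_dvd_mul_iff_right`), so
  `r = s j` with `j ∈ J` (`Ideal.mem_span_singleton_mul`), `x = toL j`.
* `gm_unit`: let `Q` be the inverse matrix over `K` of `G` (`det G ≠ 0` by `gm_det`, `cf_det`-free: `det E ≠ 0` since the `e_j`
  are independent; or directly from the nondegeneracy of `τ`). For a column `k`: `x_k = ∑ Q_ik toL e_i ∈ L` has
  `τ(x_k e_j / b) = δ_jk`; to apply `dual_mem` one needs `τ(x_k e_j θ ^ i / b) ∈ F[t]`: `θ ^ i e_j ∈ J` is a combination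
  of the `e_l` with coefficients in `F[t]`. So `x_k ∈ toL J`, `x_k = ∑ c_i toL e_i`, `c_i ∈ F[t]`, and `Q_ik = c_i` as the
  `toL e_i` are independent over `K` (clear denominators, `bs_li`, `toL_inj`). So `Q` has entries in `F[t]`, `G Q = 1`.
* `gm_detc`: `det G = C c`, `c ≠ 0`; `N(b)` a square in `K` (`hN`), so by `gm_det` `c (-1) ^ (m (m-1) / 2)` is a square in `K`,
  hence in `F` (`s ^ 2 = C c'` with `s ∈ RatFunc F`: `s` is integral over `F[t]`, so in `F[t]`, of degree 0). For `m` odd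
  `(-1) ^ (m (m - 1) / 2) = (-1) ^ (m / 2)`.
-/

namespace Pool.Agent.H3.GG

open Polynomial Matrix
open Pool.Agent.H80.CC.Plane (overK toL)
open Pool.Agent.H94.GG (Fam lead tau)

variable {F : Type} [Field F] {f : F[X][X]} {m : ℕ}

private theorem toL_mk (p : F[X][X]) :
    toL f (AdjoinRoot.mk f p) = AdjoinRoot.mk (overK f) (p.map (algebraMap F[X] (RatFunc F))) := by
  induction p using Polynomial.induction_on' with
  | add p q hp hq => rw [map_add, map_add, hp, hq, Polynomial.map_add, map_add]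
  | monomial n a =>
    rw [← C_mul_X_pow_eq_monomial, Polynomial.map_mul, Polynomial.map_pow, Polynomial.map_C, Polynomial.map_X,
      map_mul, map_mul, map_mul, map_pow, map_pow, map_pow, AdjoinRoot.mk_X, AdjoinRoot.mk_X, AdjoinRoot.mk_C,
      AdjoinRoot.mk_C]
    rw [toL, AdjoinRoot.map_root, AdjoinRoot.map_of]

private theorem toL_alg (c : F[X]) : toL f (algebraMap F[X] (AdjoinRoot f) c) =
    algebraMap (RatFunc F) (AdjoinRoot (overK f)) (algebraMap F[X] (RatFunc F) c) := by
  change toL f (AdjoinRoot.of f c) = AdjoinRoot.of (overK f) (algebraMap F[X] (RatFunc F) c)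
  rw [toL, AdjoinRoot.map_of]

theorem dual_mem (hf : f.Monic) (hm : 1 ≤ f.natDegree) [IsDedekindDomain (AdjoinRoot f)]
    (hirr : Irreducible (overK f)) {J : Ideal (AdjoinRoot f)} {b : AdjoinRoot f}
    {e : Fin m → AdjoinRoot f} {z : Fin m → Fin m → AdjoinRoot f} (hD : Dat J b e z)
    (x : AdjoinRoot (overK f))
    (hx : ∀ (j : Fin m), ∀ i < f.natDegree, ∃ a : F[X], ∀ w : AdjoinRoot (overK f),
      w * toL f b = x * toL f (e j) * AdjoinRoot.root (overK f) ^ i →
        tau (overK_monic hf) w = algebraMap F[X] (RatFunc F) a) :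
    ∃ y ∈ J, x = toL f y := by
  have hdom : IsDomain (AdjoinRoot (overK f)) := AdjoinRoot.isDomain_of_prime hirr.prime
  have hb : toL f b ≠ 0 := fun h => hD.b0 (toL_inj hf (h.trans (map_zero _).symm))
  obtain ⟨δ, hδ⟩ : ∃ δ, toL f b * δ = 1 := by
    have : Fact (Irreducible (overK f)) := ⟨hirr⟩
    exact ⟨(toL f b)⁻¹, mul_inv_cancel₀ hb⟩
  have h1 : ∀ j, ∃ y : AdjoinRoot f, x * toL f (e j) * δ = toL f y := by
    intro j
    refine tau_int hf hm fun i hi => ?_
    obtain ⟨a, ha⟩ := hx j i hi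
    refine ⟨a, ha _ ?_⟩
    calc x * toL f (e j) * δ * AdjoinRoot.root (overK f) ^ i * toL f b =
        x * toL f (e j) * AdjoinRoot.root (overK f) ^ i * (toL f b * δ) := by ring
      _ = _ := by rw [hδ, mul_one]
  choose y hy using h1
  -- denominators
  obtain ⟨r, s, hs, hr⟩ : ∃ (r : AdjoinRoot f) (s : F[X]), s ≠ 0 ∧
      toL f r = toL f (algebraMap F[X] (AdjoinRoot f) s) * x := by
    induction x using AdjoinRoot.induction_on with
    | ih p =>
      obtain ⟨s, hs⟩ := IsLocalization.integerNormalization_map_to_map (nonZeroDivisors F[X]) p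
      refine ⟨AdjoinRoot.mk f (IsLocalization.integerNormalization (nonZeroDivisors F[X]) p), s,
        nonZeroDivisors.coe_ne_zero s, ?_⟩
      rw [toL_mk, hs, toL_alg]
      rw [← IsScalarTower.algebraMap_smul (RatFunc F) (s : F[X]) p, ← Polynomial.C_mul', map_mul (AdjoinRoot.mk (overK f)),
        AdjoinRoot.mk_C]
      rfl
  have hs0 : toL f (algebraMap F[X] (AdjoinRoot f) s) ≠ 0 := by
    rw [toL_alg]
    exact (map_ne_zero_iff _ (algebraMap (RatFunc F) (AdjoinRoot (overK f))).injective).2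
      ((map_ne_zero_iff _ (IsFractionRing.injective F[X] (RatFunc F))).2 hs)
  have h2 : ∀ j, r * e j = algebraMap F[X] (AdjoinRoot f) s * (b * y j) := by
    intro j
    refine toL_inj hf ?_
    rw [map_mul, map_mul (toL f) _ (b * y j), map_mul (toL f) b, ← hy j, hr]
    calc toL f (algebraMap F[X] (AdjoinRoot f) s) * x * toL f (e j) =
        toL f (algebraMap F[X] (AdjoinRoot f) s) * (x * toL f (e j) * (toL f b * δ)) := by
          rw [hδ]
          ring
      _ = _ := by ring
  have hJ : J ≠ ⊥ := by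
    rintro rfl
    have h3 := hD.sq
    rw [← Ideal.zero_eq_bot, zero_pow two_ne_zero, Ideal.zero_eq_bot, Ideal.span_singleton_eq_bot] at h3
    exact hD.b0 h3
  have h3 : Ideal.span {r} * J ≤ Ideal.span {algebraMap F[X] (AdjoinRoot f) s} * J * J := by
    rw [mul_assoc, ← sq, ← hD.sq, Ideal.span_singleton_mul_span_singleton]
    intro u hu
    rw [Ideal.mem_span_singleton_mul] at hu
    obtain ⟨v, hv, rfl⟩ := hu
    obtain ⟨c, hc, _⟩ := hD.bs.2 v hv
    rw [← hc, Finset.mul_sum]
    refine Ideal.sum_mem _ fun i _ => ?_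
    rw [mul_smul_comm, h2 i, Algebra.smul_def, ← mul_assoc (algebraMap F[X] (AdjoinRoot f) s) b]
    exact Ideal.mul_mem_left _ _ (Ideal.mul_mem_right _ _ (Ideal.mem_span_singleton_self _))
  have h4 : Ideal.span {r} ≤ Ideal.span {algebraMap F[X] (AdjoinRoot f) s} * J := by
    rw [← Ideal.dvd_iff_le] at h3 ⊢
    exact (mul_dvd_mul_iff_right hJ).1 h3
  have h5 := h4 (Ideal.mem_span_singleton_self r)
  rw [Ideal.mem_span_singleton_mul] at h5
  obtain ⟨v, hv, hv'⟩ := h5
  refine ⟨v, hv, ?_⟩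
  rw [← hv', map_mul] at hr
  exact (mul_left_cancel₀ hs0 hr).symm

end Pool.Agent.H3.GG
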