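import Pool.Agent.H3.GG.LGm
import Pool.Agent.H3.GG.LUd

set_option autoImplicit false

/-!
# [H3 GG LUn] The Gram matrix is unimodular

`O` Dedekind, `(b) = J ^ 2`, `e` a basis of `J`.
* `dual_mem`: `x ∈ L` with `τ(x e_j θ ^ i / b) ∈ F[t]` for all `i`, `j` is `toL` of an element of `J`. PROOF: `x e_j / b =
  toL y_j` with `y_j ∈ O` (`tau_int`). Write `x = toL r / s`, `r ∈ O`, `s ∈ F[t]`, `s ≠ 0` (clear the denominators of the
  coefficients of the representative). So `r e_j = s b y_j` in `O`; the `e_j` generate `J`, so `(r) J ⊆ (s) (b) = (s) J J`,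
  and `(r) ⊆ (s) J` (cancel the nonzero ideal `J` of a Dedekind domain: `Ideal.dvd_iff_le`, `mul_dvd_mul_iff_right`), so
  `r = s j` with `j ∈ J` (`Ideal.mem_span_singleton_mul`), `x = toL j`.
* `gm_unit`: let `Q` be the inverse matrix over `K` of `G` (`det G ≠ 0` by `gm_det`, `cf_det`-free: `det E ≠ 0` since the `e_j`
  are independent; or directly from the nondegeneracy of `τ`). For a column `k`: `x_k = ∑ Q_ik toL e_i ∈ L` has
  `τ(x_k e_j / b) = δ_jk`; to apply `dual_mem` one needs `τ(x_k e_j θ ^ i / b) ∈ F[t]`: `θ ^ i e_j ∈ J` is a combination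
  of the `e_l` with coefficients in `F[t]`. So `x_k ∈ toL J`, `x_k = ∑ c_i toL e_i`, `c_i ∈ F[t]`, and `Q_ik = c_i` as the
  `toL e_i` are independent over `K` (clear denominators, `bs_li`, `toL_inj`). So `Q` has entries in `F[t]`, `G Q = 1`.
* `gm_detc`: `det G = C c`, `c ≠ 0`; `N(b)` a square in `K` (`hN`), so by `gm_det` `c (-1) ^ (m (m-1) / 2)` is a square in `K`,
  hence in `F` (`s ^ 2 = C c'` with `s ∈ RatFunc F`: `s` is integral over `F[t]`, so in `F[t]`, of degree 0). For `m` odd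
  `(-1) ^ (m (m - 1) / 2) = (-1) ^ (m / 2)`.
-/

namespace Pool.Agent.H3.GG

open Polynomial Matrix
open Pool.Agent.H80.CC.Plane (overK toL)
open Pool.Agent.H94.GG (Fam lead tau)

variable {F : Type} [Field F] {f : F[X][X]} {m : ℕ}

private theorem toL_alg (c : F[X]) : toL f (algebraMap F[X] (AdjoinRoot f) c) =
    algebraMap (RatFunc F) (AdjoinRoot (overK f)) (algebraMap F[X] (RatFunc F) c) := by
  change toL f (AdjoinRoot.of f c) = AdjoinRoot.of (overK f) (algebraMap F[X] (RatFunc F) c)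
  rw [toL, AdjoinRoot.map_of]

private theorem toL_comb (c : Fin m → F[X]) (e : Fin m → AdjoinRoot f) :
    toL f (∑ i, c i • e i) = ∑ i, algebraMap F[X] (RatFunc F) (c i) • toL f (e i) := by
  rw [map_sum]
  refine Finset.sum_congr rfl fun i _ => ?_
  rw [Algebra.smul_def, map_mul, toL_alg, Algebra.smul_def]

private theorem cf_ne (hf : f.Monic) (hm : f.natDegree = m) {J : Ideal (AdjoinRoot f)}
    {e : Fin m → AdjoinRoot f} (he : IsBs J e) : (cf hf e).det ≠ 0 := by
  intro h
  obtain ⟨v, hv, hv'⟩ := Matrix.exists_mulVec_eq_zero_iff.2 h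
  refine hv (bs_li he ?_)
  have h1 : rp hf (∑ i, v i • e i) = 0 := by
    ext1 i
    rw [coeff_zero]
    by_cases hi : i < m
    · have h2 := congrFun hv' ⟨i, hi⟩
      rw [Matrix.mulVec, dotProduct, Pi.zero_apply] at h2
      rw [← h2]
      change (AdjoinRoot.modByMonicHom hf (∑ i, v i • e i)).coeff i = _
      rw [map_sum, finsetSum_coeff]
      refine Finset.sum_congr rfl fun j _ => ?_
      rw [map_smul, coeff_smul, smul_eq_mul, mul_comm]
      rfl
    · refine coeff_eq_zero_of_degree_lt ((rp_degree hf _).trans_le ?_)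
      rw [degree_eq_natDegree hf.ne_zero, hm]
      exact_mod_cast not_lt.1 hi
  rw [← mk_rp hf (∑ i, v i • e i), h1, map_zero]

private theorem gm_ne (hf : f.Monic) (hm : f.natDegree = m) (hm1 : 1 ≤ m)
    (hirr : Irreducible (overK f)) {J : Ideal (AdjoinRoot f)} {b : AdjoinRoot f}
    {e : Fin m → AdjoinRoot f} {z : Fin m → Fin m → AdjoinRoot f} (hD : Dat J b e z) : (gm hf z).det ≠ 0 := by
  intro h
  have h1 := gm_det hf hm hm1 hirr hD
  rw [h, zero_mul] at h1
  have h2 : ((-1 : F[X]) ^ (m * (m - 1) / 2)) ≠ 0 := pow_ne_zero _ (neg_ne_zero.2 one_ne_zero)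
  exact mul_ne_zero h2 (pow_ne_zero 2 (cf_ne hf hm hD.bs)) h1.symm

theorem gm_unit (hf : f.Monic) (hm : f.natDegree = m) (hm1 : 1 ≤ m)
    [IsDedekindDomain (AdjoinRoot f)] (hirr : Irreducible (overK f))
    {J : Ideal (AdjoinRoot f)} {b : AdjoinRoot f} {e : Fin m → AdjoinRoot f}
    {z : Fin m → Fin m → AdjoinRoot f} (hD : Dat J b e z) : IsUnit (gm hf z).det := by
  have hinj : Function.Injective (algebraMap F[X] (RatFunc F)) := IsFractionRing.injective F[X] (RatFunc F)
  have hb : toL f b ≠ 0 := fun h => hD.b0 (toL_inj hf (h.trans (map_zero _).symm))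
  obtain ⟨δ, hδ⟩ : ∃ δ, toL f b * δ = 1 := by
    have : Fact (Irreducible (overK f)) := ⟨hirr⟩
    exact ⟨(toL f b)⁻¹, mul_inv_cancel₀ hb⟩
  have hz : ∀ i j, toL f (z i j) = δ * toL f (e i) * toL f (e j) := by
    intro i j
    have h1 := congrArg (toL f) (hD.eq i j)
    rw [map_mul, map_mul] at h1
    calc toL f (z i j) = (toL f b * δ) * toL f (z i j) := by rw [hδ, one_mul]
      _ = δ * (toL f b * toL f (z i j)) := by ring
      _ = _ := by rw [h1, mul_assoc]
  set G := (gm hf z).map (algebraMap F[X] (RatFunc F)) with hG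
  have hGa : ∀ i j, G i j = tau (overK_monic hf) (δ * toL f (e i) * toL f (e j)) := by
    intro i j
    rw [hG, Matrix.map_apply, gm, Matrix.of_apply, ← tau_toL, hz]
  have hGd : G.det ≠ 0 := by
    rw [hG, ← RingHom.mapMatrix_apply, ← RingHom.map_det]
    exact (map_ne_zero_iff _ hinj).2 (gm_ne hf hm hm1 hirr hD)
  have hQ : G * G⁻¹ = 1 := Matrix.mul_nonsing_inv _ (isUnit_iff_ne_zero.2 hGd)
  -- the dual basis
  have h1 : ∀ k : Fin m, ∃ c : Fin m → F[X], ∀ j, ∑ i, gm hf z j i * c i = (1 : Matrix (Fin m) (Fin m) F[X]) j k := by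
    intro k
    set x : AdjoinRoot (overK f) := ∑ i, G⁻¹ i k • toL f (e i) with hx
    have hx1 : ∀ j, tau (overK_monic hf) (x * δ * toL f (e j)) = (1 : Matrix (Fin m) (Fin m) (RatFunc F)) j k := by
      intro j
      rw [← hQ, Matrix.mul_apply, hx, Finset.sum_mul, Finset.sum_mul, map_sum]
      refine Finset.sum_congr rfl fun i _ => ?_
      rw [smul_mul_assoc, smul_mul_assoc, map_smul, smul_eq_mul, hGa, mul_comm]
      congr 2
      ring
    obtain ⟨y, hy, hxy⟩ := dual_mem hf (hm1.trans_eq hm.symm) hirr hD x (fun j i _ => by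
      obtain ⟨c, hc, _⟩ := hD.bs.2 _ (J.mul_mem_left (AdjoinRoot.root f ^ i) (hD.bs.1 j))
      refine ⟨c k, fun w hw => ?_⟩
      have h2 : toL f (e j) * AdjoinRoot.root (overK f) ^ i = ∑ l, algebraMap F[X] (RatFunc F) (c l) • toL f (e l) := by
        rw [← toL_comb, hc, map_mul, map_pow, toL, AdjoinRoot.map_root, mul_comm]
      have h3 : w = ∑ l, algebraMap F[X] (RatFunc F) (c l) • (x * δ * toL f (e l)) := by
        calc w = (w * toL f b) * δ := by rw [mul_assoc, hδ, mul_one]
          _ = x * δ * (toL f (e j) * AdjoinRoot.root (overK f) ^ i) := by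
            rw [hw]
            ring
          _ = _ := by
            rw [h2, Finset.mul_sum]
            refine Finset.sum_congr rfl fun l _ => ?_
            rw [mul_smul_comm]
      rw [h3, map_sum, Finset.sum_eq_single k]
      · rw [map_smul, hx1, Matrix.one_apply_eq, smul_eq_mul, mul_one]
      · intro l _ hl
        rw [map_smul, hx1, Matrix.one_apply_ne hl, smul_zero]
      · intro h
        exact absurd (Finset.mem_univ _) h)
    obtain ⟨c, hc, _⟩ := hD.bs.2 y hy
    refine ⟨c, fun j => hinj ?_⟩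
    have h2 := hx1 j
    rw [hxy, ← hc, toL_comb, Finset.sum_mul, Finset.sum_mul, map_sum] at h2
    rw [map_sum]
    have h3 : algebraMap F[X] (RatFunc F) ((1 : Matrix (Fin m) (Fin m) F[X]) j k) =
        (1 : Matrix (Fin m) (Fin m) (RatFunc F)) j k := by
      rw [Matrix.one_apply, Matrix.one_apply]
      split_ifs
      · exact map_one _
      · exact map_zero _
    rw [h3, ← h2]
    refine Finset.sum_congr rfl fun i _ => ?_
    have h4 := hGa j i
    rw [hG, Matrix.map_apply] at h4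
    rw [map_mul, h4, smul_mul_assoc, smul_mul_assoc, map_smul, smul_eq_mul, mul_comm]
    congr 2
    ring
  choose c hc using h1
  have h2 : gm hf z * Matrix.of (fun i k => c k i) = 1 := by
    ext1 j k
    rw [Matrix.mul_apply, ← hc k j]
    rfl
  have h3 := congrArg Matrix.det h2
  rw [Matrix.det_mul, Matrix.det_one] at h3
  exact IsUnit.of_mul_eq_one _ h3

theorem gm_detc (hf : f.Monic) (hm : f.natDegree = m) (hodd : m % 2 = 1)
    [IsDedekindDomain (AdjoinRoot f)] (hirr : Irreducible (overK f))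
    {J : Ideal (AdjoinRoot f)} {b : AdjoinRoot f} {e : Fin m → AdjoinRoot f}
    {z : Fin m → Fin m → AdjoinRoot f} (hD : Dat J b e z)
    (hN : ∃ y : RatFunc F, algebraMap F[X] (RatFunc F) (Algebra.norm F[X] b) = y ^ 2) :
    ∃ a : F, a ≠ 0 ∧ (gm hf z).det = C ((-1) ^ (m / 2) * a ^ 2) := by
  have hinj : Function.Injective (algebraMap F[X] (RatFunc F)) := IsFractionRing.injective F[X] (RatFunc F)
  have hm1 : 1 ≤ m := by omega
  obtain ⟨c, hc, hcG⟩ := Polynomial.isUnit_iff.1 (gm_unit hf hm hm1 hirr hD)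
  have hc0 : c ≠ 0 := hc.ne_zero
  have h1 := gm_det hf hm hm1 hirr hD
  have hE := cf_ne hf hm hD.bs
  have hexp : ((-1 : F[X]) ^ (m * (m - 1) / 2)) = C ((-1) ^ (m / 2)) := by
    obtain ⟨k, hk⟩ : ∃ k, m = 2 * k + 1 := ⟨m / 2, by omega⟩
    have h2 : m * (m - 1) / 2 = (2 * k + 1) * k := by
      rw [hk]
      have h3 : (2 * k + 1) * (2 * k + 1 - 1) = ((2 * k + 1) * k) * 2 := by
        rw [Nat.add_sub_cancel]
        ring
      rw [h3, Nat.mul_div_cancel _ two_pos]
    have h3 : m / 2 = k := by omega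
    rw [h2, h3, pow_mul, map_pow, map_neg, map_one]
    congr 1
    exact Odd.neg_one_pow ⟨k, rfl⟩
  have heps : ((-1 : F) ^ (m / 2)) * (-1) ^ (m / 2) = 1 := by
    rw [← mul_pow]
    simp
  obtain ⟨y, hy⟩ := hN
  have h2 : algebraMap F[X] (RatFunc F) (C ((-1) ^ (m / 2) * c)) * y ^ 2 =
      algebraMap F[X] (RatFunc F) (cf hf e).det ^ 2 := by
    rw [← hy, ← map_mul, ← map_pow]
    congr 1
    rw [← hcG, hexp] at h1
    calc C ((-1) ^ (m / 2) * c) * Algebra.norm F[X] b = C ((-1) ^ (m / 2)) * (C c * Algebra.norm F[X] b) := by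
          rw [C_mul]
          ring
      _ = C ((-1) ^ (m / 2) * (-1) ^ (m / 2)) * (cf hf e).det ^ 2 := by
          rw [h1, C_mul]
          ring
      _ = _ := by rw [heps, C_1, one_mul]
  have hy0 : y ≠ 0 := by
    rintro rfl
    rw [zero_pow two_ne_zero, mul_zero] at h2
    exact pow_ne_zero 2 ((map_ne_zero_iff _ hinj).2 hE) h2.symm
  have h3 : algebraMap F[X] (RatFunc F) (C ((-1) ^ (m / 2) * c)) =
      (algebraMap F[X] (RatFunc F) (cf hf e).det / y) ^ 2 := by
    rw [div_pow, ← h2]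
    field_simp
  obtain ⟨p, hp⟩ := IsIntegrallyClosed.exists_algebraMap_eq_of_isIntegral_pow (R := F[X]) (K := RatFunc F) two_pos
    (x := algebraMap F[X] (RatFunc F) (cf hf e).det / y) (by
      rw [← h3]
      exact isIntegral_algebraMap)
  have h4 : C ((-1) ^ (m / 2) * c) = p ^ 2 := by
    refine hinj ?_
    rw [h3, map_pow, hp]
  have h5 : p.natDegree = 0 := by
    have h6 := congrArg natDegree h4
    rw [natDegree_C, natDegree_pow] at h6
    omega
  rw [eq_C_of_natDegree_eq_zero h5, ← C_pow] at h4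
  have h6 := C_injective h4
  refine ⟨p.coeff 0, ?_, ?_⟩
  · intro h7
    rw [h7, zero_pow two_ne_zero] at h6
    exact mul_ne_zero (pow_ne_zero _ (neg_ne_zero.2 one_ne_zero)) hc0 h6
  · rw [← hcG, ← h6, ← mul_assoc, heps, one_mul]

end Pool.Agent.H3.GG
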