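import Pool.Agent.H3.GG.LCf
import Pool.Agent.H3.GG.LUn

set_option autoImplicit false

/-!
# [H3 GG LNn] The type of a class

`m = 2 g + 1`, `n_j = wn(e_j) - wn(b) / 2 - g h` for a reduced basis `e` of `J`, `(b) = J ^ 2`.
* `wn_even`: by `gm_det` and `gm_unit` (`det G` a nonzero constant) `deg N(b) = 2 deg det E`; `nm_eq`: `deg N(b) = m wn b`, `m`
  odd, so `wn b` is even.
* `ty_sum`: `m wn b = 2 (∑ wn(e_j) - h m (m - 1) / 2)` (`cf_det`), so `∑ n_j = ∑ wn(e_j) - m wn(b) / 2 - m g h = 0`.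
* `zero_block`: a square matrix with `G i j = 0` for `i ≤ a`, `j ≤ rev a` (a zero block with `a + 1` rows and `m - a` columns)
  has determinant zero: each permutation `σ` maps some `i ≤ a` into `{j ≤ rev a}` (otherwise it maps the `a + 1` elements
  `i ≤ a` injectively into the `a` elements `j > rev a`), so each term of the Leibniz formula vanishes (`Matrix.det_apply`).
* `ty_rev`: `n_i + n_(rev i) ≥ 0`: otherwise `n_i' + n_j' < 0`, so `G i' j' = 0` for `i' ≤ i`, `j' ≤ rev i` (monotone, degree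
  bound `gm_degG`), contradiction to `det G ≠ 0`. The sum over `i` of `n_i + n_(rev i)` is `2 ∑ n_i = 0`: all are zero.
-/

namespace Pool.Agent.H3.GG

open Polynomial Matrix
open Pool.Agent.H80.CC.Plane (overK toL)
open Pool.Agent.H94.GG (Fam lead tau)

theorem zero_block {R : Type} [CommRing R] {m : ℕ} (G : Matrix (Fin m) (Fin m) R) (a : Fin m)
    (h : ∀ i j : Fin m, i ≤ a → j ≤ a.rev → G i j = 0) : G.det = 0 := by
  rw [Matrix.det_apply]
  refine Finset.sum_eq_zero fun σ _ => ?_
  have h1 : ∃ j : Fin m, j ≤ a.rev ∧ σ j ≤ a := by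
    by_contra hcon
    push Not at hcon
    have h2 : (Finset.Iic a.rev).card ≤ (Finset.Ioi a).card := by
      refine Finset.card_le_card_of_injOn σ (fun j hj => ?_) (σ.injective.injOn)
      have hj' : j ≤ a.rev := by simpa using hj
      simpa using hcon j hj'
    rw [Fin.card_Iic, Fin.card_Ioi, Fin.val_rev] at h2
    have h3 := a.isLt
    omega
  obtain ⟨j, hj1, hj2⟩ := h1
  have h4 : ∏ i, G (σ i) i = 0 := Finset.prod_eq_zero (Finset.mem_univ j) (h _ _ hj2 hj1)
  exact (congrArg (fun x => Equiv.Perm.sign σ • x) h4).trans (smul_zero _)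

variable {F : Type} [Field F] {f : F[X][X]} {m h : ℕ}

private theorem sum_fin (m h : ℕ) (hodd : m % 2 = 1) : ∑ i : Fin m, (i : ℕ) * h = m * (m / 2) * h := by
  rw [← Finset.sum_mul, Fin.sum_univ_eq_sum_range (fun i => i) m]
  congr 1
  have h1 := Finset.sum_range_id_mul_two m
  have h2 : m - 1 = 2 * (m / 2) := by omega
  rw [h2] at h1
  have h3 : m * (2 * (m / 2)) = (m * (m / 2)) * 2 := by ring
  rw [h3] at h1
  exact Nat.eq_of_mul_eq_mul_right (by norm_num) h1

theorem wn_even (hF : Fam m h f) (hirr : Irreducible (lead m h f)) (hodd : m % 2 = 1)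
    [IsDedekindDomain (AdjoinRoot f)] (hK : Irreducible (overK f))
    {J : Ideal (AdjoinRoot f)} {b : AdjoinRoot f} {e : Fin m → AdjoinRoot f}
    {z : Fin m → Fin m → AdjoinRoot f} (hD : Dat J b e z)
    (hl : LinearIndependent F fun j => lf h hF.monic (e j)) :
    ∃ v, wn h hF.monic b = 2 * v ∧ ∑ j, wn h hF.monic (e j) = m * v + m * (m / 2) * h := by
  have hm1 : 1 ≤ m := by omega
  have h1 := gm_det hF.monic hF.deg hm1 hK hD
  obtain ⟨c, hc, hc1⟩ := Polynomial.isUnit_iff.1 (gm_unit hF.monic hF.deg hm1 hK hD)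
  obtain ⟨h2, h3⟩ := nm_eq hF hirr hm1 hD.b0
  obtain ⟨h4, h5⟩ := cf_det h hF.monic hF.deg (bs_ne hD.bs) hl
  have h6 := congrArg Polynomial.natDegree h1
  have h7 : ((-1 : F[X]) ^ (m * (m - 1) / 2) * (cf hF.monic e).det ^ 2).natDegree =
      2 * (cf hF.monic e).det.natDegree := by
    have h8 : (-1 : F[X]) ^ (m * (m - 1) / 2) = C ((-1) ^ (m * (m - 1) / 2)) := by simp
    rw [h8, Polynomial.natDegree_C_mul (pow_ne_zero _ (neg_ne_zero.2 one_ne_zero)), Polynomial.natDegree_pow]
  rw [h7, ← hc1, Polynomial.natDegree_C_mul hc.ne_zero, h3] at h6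
  have h9 : Even (wn h hF.monic b) := by
    have h10 : Even (m * wn h hF.monic b) := ⟨(cf hF.monic e).det.natDegree, by omega⟩
    rcases Nat.even_mul.1 h10 with h11 | h11
    · exfalso
      rw [Nat.even_iff] at h11
      omega
    · exact h11
  obtain ⟨v, hv⟩ := h9
  refine ⟨v, by omega, ?_⟩
  rw [← h5, sum_fin m h hodd]
  congr 1
  rw [hv] at h6
  have h10 : m * (v + v) = 2 * (m * v) := by ring
  omega

/-- the type -/
theorem ty_exists (hF : Fam m h f) (hirr : Irreducible (lead m h f)) (hodd : m % 2 = 1)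
    [IsDedekindDomain (AdjoinRoot f)] (hK : Irreducible (overK f))
    {J : Ideal (AdjoinRoot f)} {b : AdjoinRoot f} {e : Fin m → AdjoinRoot f}
    {z : Fin m → Fin m → AdjoinRoot f} (hD : Dat J b e z)
    (hl : LinearIndependent F fun j => lf h hF.monic (e j))
    (hmono : Monotone fun j => wn h hF.monic (e j)) {v : ℕ} (hv : wn h hF.monic b = 2 * v)
    (hs : ∑ j, wn h hF.monic (e j) = m * v + m * (m / 2) * h) :
    IsTy fun j => (wn h hF.monic (e j) : ℤ) - v - (m / 2 : ℕ) * h := by
  have _ := hl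
  have hm1 : 1 ≤ m := by omega
  have hunit := gm_unit hF.monic hF.deg hm1 hK hD
  obtain ⟨n, hn⟩ : ∃ n : Fin m → ℤ, ∀ j, n j = (wn h hF.monic (e j) : ℤ) - v - (m / 2 : ℕ) * h :=
    ⟨_, fun _ => rfl⟩
  have hnm : Monotone n := by
    intro i j hij
    rw [hn, hn]
    have h1 : wn h hF.monic (e i) ≤ wn h hF.monic (e j) := hmono hij
    have h2 : (wn h hF.monic (e i) : ℤ) ≤ wn h hF.monic (e j) := by exact_mod_cast h1
    linarith
  have hnn : ∀ i, 0 ≤ n i + n i.rev := by
    intro i
    by_contra hcon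
    have h0 : (gm hF.monic z).det = 0 := by
      refine zero_block _ i fun i' j' hi hj => ?_
      by_contra hne
      have h1 := gm_degG hF hirr hm1 hD i' j' hne
      have h2 := hnm hi
      have h3 := hnm hj
      have h4 := hn i'
      have h5 := hn j'
      have h6 : (m - 1) * h = 2 * ((m / 2) * h) := by
        have : m - 1 = 2 * (m / 2) := by omega
        rw [this]
        ring
      rw [h6, hv] at h1
      have h7 : (0 : ℤ) + 2 * (((m / 2 : ℕ) : ℤ) * h) + 2 * v ≤ wn h hF.monic (e i') + wn h hF.monic (e j') := by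
        have h8 : 0 + 2 * ((m / 2) * h) + 2 * v ≤ wn h hF.monic (e i') + wn h hF.monic (e j') := by omega
        exact_mod_cast h8
      have h9 : 0 ≤ n i' + n j' := by
        rw [h4, h5]
        linarith
      linarith
    rw [h0] at hunit
    exact not_isUnit_zero hunit
  have hsum : ∑ i, n i = 0 := by
    have h1 : ∑ i, n i = ((∑ j, wn h hF.monic (e j) : ℕ) : ℤ) - m * v - m * ((m / 2 : ℕ) * h) := by
      rw [Nat.cast_sum]
      simp only [hn, Finset.sum_sub_distrib, Finset.sum_const, Finset.card_univ, Fintype.card_fin, nsmul_eq_mul]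
    rw [h1, hs, Nat.cast_add, Nat.cast_mul, Nat.cast_mul, Nat.cast_mul]
    ring
  have hsum2 : ∑ i, (n i + n i.rev) = 0 := by
    rw [Finset.sum_add_distrib]
    have h1 : ∑ i : Fin m, n i.rev = ∑ i, n i := Equiv.sum_comp Fin.revPerm n
    rw [h1, hsum, add_zero]
  have hz := (Finset.sum_eq_zero_iff_of_nonneg fun i _ => hnn i).1 hsum2
  have heq : n = fun j => (wn h hF.monic (e j) : ℤ) - v - (m / 2 : ℕ) * h := funext hn
  rw [← heq]
  exact ⟨hnm, fun i => by
    have := hz i (Finset.mem_univ i)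
    linarith⟩

end Pool.Agent.H3.GG
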