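import Pool.Agent.H3.GG.LTau

set_option autoImplicit false

/-!
# [H3 GG LNor] `A[x]/(f)` is normal if `f` is squarefree modulo the uniformizer

`A` a domain with fraction field `M` (here: `A` the ring of integers of a completion), `ϖ ∈ A`, `ϖ ≠ 0`, such that every element of
`M` is `a / ϖ ^ k` with `a ∈ A`; `φ : A → κ` onto a field `κ` with kernel `(ϖ)`. `f ∈ A[x]` monic, `φ f` squarefree.
If `y ∈ M[x]/(f)` and `y ^ 2` is the class of a polynomial over `A` then `y` is the class of a polynomial over `A` of degree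
`< deg f`.

PROOF. Let `p` be the representative of `y` of degree `< deg f` and `k` minimal such that `ϖ ^ k p` has coefficients in
`A`: `ϖ ^ k p = p₀`. Suppose `k ≥ 1`. `y ^ 2 = r`, so `p₀ ^ 2 - ϖ ^ (2 k) r = f s` with `s ∈ M[x]`; division by the monic `f` over `A`:
`s ∈ A[x]` (`map_dvd_map`/`Polynomial.map_modByMonic`: the remainder of `p₀ ^ 2 - ϖ ^ (2k) r` modulo `f` over `A` maps to
zero, `A → M` is injective). Apply `φ`: `φ(p₀) ^ 2 = φ(f) φ(s)` (`φ ϖ = 0`, `k ≥ 1`), `φ f` squarefree, so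
`φ f ∣ φ p₀` (`Squarefree.dvd_of_squarefree_of_mul_dvd_mul_..`, `UniqueFactorizationMonoid.dvd_pow_iff_dvd_of_squarefree`), of
degree `< deg f = deg φ f`: `φ p₀ = 0`, all coefficients of `p₀` are divisible by `ϖ`, so `ϖ ^ (k - 1) p` has coefficients
in `A`: contradiction to the minimality.
-/

namespace Pool.Agent.H3.GG

open Polynomial

private theorem nor_den {A M : Type} [CommRing A] [Field M] [Algebra A M] {ϖ : A}
    (hden : ∀ x : M, ∃ (a : A) (k : ℕ), algebraMap A M ϖ ^ k * x = algebraMap A M a) (P : M[X]) :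
    ∃ (k : ℕ) (p : A[X]), p.map (algebraMap A M) = C (algebraMap A M ϖ ^ k) * P := by
  induction P using Polynomial.induction_on' with
  | add p q hp hq =>
    obtain ⟨k, a, ha⟩ := hp
    obtain ⟨l, b, hb⟩ := hq
    refine ⟨k + l, C (ϖ ^ l) * a + C (ϖ ^ k) * b, ?_⟩
    rw [Polynomial.map_add, Polynomial.map_mul, Polynomial.map_mul, ha, hb]
    have e1 : (C (ϖ ^ l)).map (algebraMap A M) = C (algebraMap A M ϖ ^ l) := by
      rw [map_C, map_pow]
    have e2 : (C (ϖ ^ k)).map (algebraMap A M) = C (algebraMap A M ϖ ^ k) := by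
      rw [map_C, map_pow]
    rw [e1, e2, pow_add, C_mul]
    ring
  | monomial n x =>
    obtain ⟨a, k, h⟩ := hden x
    refine ⟨k, monomial n a, ?_⟩
    rw [map_monomial, C_mul_monomial, h]

theorem nor {A M κ : Type} [CommRing A] [IsDomain A] [Field M] [Algebra A M] [IsFractionRing A M]
    [Field κ] (φ : A →+* κ) {ϖ : A} (hϖ : ϖ ≠ 0) (hker : ∀ a, φ a = 0 ↔ ϖ ∣ a)
    (hden : ∀ x : M, ∃ (a : A) (k : ℕ), algebraMap A M ϖ ^ k * x = algebraMap A M a)
    {f : A[X]} (hf : f.Monic) (hsq : Squarefree (f.map φ))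
    {y : AdjoinRoot (f.map (algebraMap A M))} {r : A[X]}
    (hy : y ^ 2 = AdjoinRoot.mk (f.map (algebraMap A M)) (r.map (algebraMap A M))) :
    ∃ p : A[X], y = AdjoinRoot.mk (f.map (algebraMap A M)) (p.map (algebraMap A M)) := by
  classical
  have hinj : Function.Injective (algebraMap A M) := IsFractionRing.injective A M
  have hg : (f.map (algebraMap A M)).Monic := hf.map _
  obtain ⟨P', hP'⟩ := AdjoinRoot.mk_surjective y
  set P := P' %ₘ f.map (algebraMap A M) with hPdef
  have hPy : AdjoinRoot.mk (f.map (algebraMap A M)) P = y := by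
    rw [← hP', AdjoinRoot.mk_eq_mk]
    refine ⟨-(P' /ₘ f.map (algebraMap A M)), ?_⟩
    have := modByMonic_add_div P' (f.map (algebraMap A M))
    rw [← hPdef] at this
    linear_combination this
  have hPdeg : P.degree < (f.map (algebraMap A M)).degree := degree_modByMonic_lt _ hg
  have hdvd : f.map (algebraMap A M) ∣ P ^ 2 - r.map (algebraMap A M) := by
    rw [← AdjoinRoot.mk_eq_mk, map_pow, hPy, hy]
  have hex : ∃ k : ℕ, ∃ p : A[X], p.map (algebraMap A M) = C (algebraMap A M ϖ ^ k) * P :=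
    nor_den hden P
  obtain ⟨p, hp⟩ := Nat.find_spec hex
  rcases Nat.eq_zero_or_pos (Nat.find hex) with h0 | hpos
  · refine ⟨p, ?_⟩
    rw [h0, pow_zero, C_1, one_mul] at hp
    rw [hp, hPy]
  exfalso
  obtain ⟨k, hk⟩ : ∃ k, Nat.find hex = k + 1 := ⟨_, (Nat.succ_pred_eq_of_pos hpos).symm⟩
  rw [hk] at hp
  have hϖM : algebraMap A M ϖ ≠ 0 := by
    intro h
    exact hϖ (hinj (by rw [h, map_zero]))
  have hpdeg : p.degree < f.degree := by
    have h1 : (p.map (algebraMap A M)).degree = p.degree := degree_map_eq_of_injective hinj p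
    have h2 : (f.map (algebraMap A M)).degree = f.degree := degree_map_eq_of_injective hinj f
    rw [← h1, ← h2, hp]
    refine lt_of_le_of_lt ?_ hPdeg
    rw [degree_C_mul (pow_ne_zero _ hϖM)]
  have h3 : f ∣ p ^ 2 - C (ϖ ^ (2 * (k + 1))) * r := by
    rw [← Polynomial.map_dvd_map (algebraMap A M) hinj hf, Polynomial.map_sub, Polynomial.map_pow,
      Polynomial.map_mul, hp]
    have : (C (algebraMap A M ϖ ^ (k + 1)) * P) ^ 2 -
        (C (ϖ ^ (2 * (k + 1)))).map (algebraMap A M) * r.map (algebraMap A M) =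
        C (algebraMap A M ϖ ^ (k + 1)) ^ 2 * (P ^ 2 - r.map (algebraMap A M)) := by
      have e1 : (algebraMap A M) (ϖ ^ (2 * (k + 1))) = ((algebraMap A M ϖ) ^ (k + 1)) ^ 2 := by
        rw [map_pow, mul_comm 2, pow_mul]
      rw [map_C, e1, C_pow (n := 2)]
      ring
    rw [this]
    exact hdvd.mul_left _
  have hφϖ : φ ϖ = 0 := (hker ϖ).2 dvd_rfl
  have h4 : f.map φ ∣ (p.map φ) ^ 2 := by
    have := Polynomial.map_dvd φ h3
    rw [Polynomial.map_sub, Polynomial.map_pow, Polynomial.map_mul, map_C, map_pow, hφϖ,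
      zero_pow (by omega), C_0, zero_mul, sub_zero] at this
    exact this
  have h5 : f.map φ ∣ p.map φ :=
    (hsq.dvd_pow_iff_dvd two_ne_zero).1 h4
  have h6 : p.map φ = 0 := by
    refine eq_zero_of_dvd_of_degree_lt h5 ?_
    rw [hf.degree_map φ]
    exact lt_of_le_of_lt degree_map_le hpdeg
  have h7 : C ϖ ∣ p := by
    rw [C_dvd_iff_dvd_coeff]
    intro i
    rw [← hker, ← coeff_map, h6, coeff_zero]
  obtain ⟨q, hq⟩ := h7
  have h8 : q.map (algebraMap A M) = C (algebraMap A M ϖ ^ k) * P := by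
    have h9 : C (algebraMap A M ϖ) * q.map (algebraMap A M) =
        C (algebraMap A M ϖ) * (C (algebraMap A M ϖ ^ k) * P) := by
      rw [← map_C, ← Polynomial.map_mul, ← hq, hp, pow_succ, C_mul, map_C]
      ring
    exact mul_left_cancel₀ (by rwa [Ne, C_eq_zero]) h9
  exact Nat.find_min hex (m := k) (by omega) ⟨q, h8⟩

end Pool.Agent.H3.GG
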