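import Pool.Agent.H3.GG.LDefs

set_option autoImplicit false

/-!
# [H3 GG LPh] The map `ph h : F[t][x] → F[x][T]`, `t ↦ T`, `x ↦ x T ^ h`

* `ph_coeff`: both sides are additive in `p`; for `p = monomial i (monomial j a)`: `ph h p = C (C a * X ^ i) * X ^ (j + i h)`
  (`eval₂_monomial`, `mapRingHom`, `Polynomial.map_monomial`). `Polynomial.induction_on'` twice, or: `ph h p` is
  `∑ i ∈ p.support, (p.coeff i).map C * (C X * X ^ h) ^ i` (`eval₂_eq_sum`), `(C X) ^ i = C (X ^ i)`, `coeff_mul_X_pow'`,
  `coeff_mul_C`, `coeff_map`, then the coefficient of `x ^ i` of `C (..) * X ^ i'` is zero for `i' ≠ i`.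
* `ph_inj`: if `ph h p = 0` then by `ph_coeff` with `k = j + i h` all coefficients of `p` vanish.
* `ph_low`: the coefficient of `x ^ i` in `(ph h p).coeff k` vanishes if `p.coeff i = 0`.
* `ph_deg_le`: `d ≥` degree in `T` iff all coefficients vanish above: `ph_coeff`.
* `ph_fam`: `deg (f.coeff i) ≤ (m - i) h` gives `degree ≤ m h`; the coefficient of `T ^ (m h)` is `lead m h f` by `ph_coeff`
  (`m h - i h = (m - i) h` for `i ≤ m`; zero for `i > m`), it is monic of degree `m` as `f.coeff m = 1`, so it is not zero.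
-/

namespace Pool.Agent.H3.GG

open Polynomial
open Pool.Agent.H94.GG (Fam lead)

variable {F : Type} [Field F]

theorem ph_coeff (h : ℕ) (p : F[X][X]) (k i : ℕ) :
    ((ph h p).coeff k).coeff i = if i * h ≤ k then (p.coeff i).coeff (k - i * h) else 0 := by
  have key : ph h p = p.sum fun l c => (c.map (C : F →+* F[X])) * (C (X ^ l) * X ^ (l * h)) := by
    unfold ph
    rw [coe_eval₂RingHom, eval₂_eq_sum]
    refine Finset.sum_congr rfl (fun l _ => ?_)
    simp only [coe_mapRingHom]
    rw [mul_pow, ← pow_mul, C_pow, mul_comm h l]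
  rw [key, Polynomial.sum_def, finset_sum_coeff, finset_sum_coeff]
  have h1 : ∀ l, (((p.coeff l).map (C : F →+* F[X])) * (C (X ^ l) * X ^ (l * h))).coeff k =
      if l * h ≤ k then C ((p.coeff l).coeff (k - l * h)) * X ^ l else 0 := by
    intro l
    rw [← mul_assoc, coeff_mul_X_pow', coeff_mul_C, coeff_map]
  simp only [h1]
  have h2 : ∀ l, (if l * h ≤ k then C ((p.coeff l).coeff (k - l * h)) * X ^ l
      else (0 : F[X])).coeff i =
      if l = i then (if i * h ≤ k then (p.coeff i).coeff (k - i * h) else 0) else 0 := by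
    intro l
    by_cases hl : l = i
    · subst hl
      simp only [if_true]
      split_ifs
      · rw [coeff_C_mul_X_pow, if_pos rfl]
      · simp
    · rw [if_neg hl]
      split_ifs
      · rw [coeff_C_mul_X_pow, if_neg (fun h3 => hl h3.symm)]
      · simp
  simp only [h2]
  rw [Finset.sum_ite_eq' p.support i]
  split_ifs with h3 h4
  · rfl
  · rfl
  · rw [notMem_support_iff.mp h3]; simp
  · rfl

theorem ph_inj (h : ℕ) {p : F[X][X]} (hp : ph h p = 0) : p = 0 := by
  ext i j
  have h1 := ph_coeff h p (j + i * h) i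
  rw [hp, if_pos (by omega), Nat.add_sub_cancel] at h1
  simpa using h1.symm

theorem ph_low (h : ℕ) {p : F[X][X]} {m : ℕ} (hp : p.degree < m) (k : ℕ) :
    ((ph h p).coeff k).degree < m := by
  rw [degree_lt_iff_coeff_zero]
  intro i hi
  rw [ph_coeff]
  have h1 : p.coeff i = 0 := by
    apply coeff_eq_zero_of_degree_lt
    exact hp.trans_le (by exact_mod_cast hi)
  rw [h1]
  simp

theorem ph_deg_le (h : ℕ) {p : F[X][X]} {d : ℕ} (hp : ∀ i, p.coeff i ≠ 0 →
    (p.coeff i).natDegree + i * h ≤ d) : (ph h p).degree ≤ d := by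
  rw [degree_le_iff_coeff_zero]
  intro k hk
  have hk' : d < k := by exact_mod_cast hk
  ext i
  rw [ph_coeff, coeff_zero]
  split_ifs with h1
  · by_cases h2 : p.coeff i = 0
    · rw [h2]; simp
    · apply coeff_eq_zero_of_natDegree_lt
      have := hp i h2
      omega
  · rfl

theorem ph_deg_coeff (h : ℕ) (p : F[X][X]) (i : ℕ) :
    (p.coeff i).degree + (i * h : ℕ) ≤ (ph h p).degree := by
  by_cases h2 : p.coeff i = 0
  · rw [h2, degree_zero, WithBot.bot_add]
    exact bot_le
  · rw [degree_eq_natDegree h2, ← Nat.cast_add]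
    apply le_degree_of_ne_zero
    intro h3
    have h4 := ph_coeff h p ((p.coeff i).natDegree + i * h) i
    rw [h3, if_pos (by omega), Nat.add_sub_cancel, coeff_zero] at h4
    exact h2 (leadingCoeff_eq_zero.mp h4.symm)

theorem lead_monic {m h : ℕ} {f : F[X][X]} (hf : Fam m h f) :
    (lead m h f).Monic ∧ (lead m h f).natDegree = m := by
  have hc : f.coeff m = 1 := by
    have := hf.monic.coeff_natDegree
    rwa [hf.deg] at this
  have e : lead m h f = X ^ m + ∑ i ∈ Finset.range m, C ((f.coeff i).coeff ((m - i) * h)) * X ^ i := by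
    unfold lead
    rw [Finset.sum_range_succ, hc, add_comm]
    simp
  have hd : (∑ i ∈ Finset.range m, C ((f.coeff i).coeff ((m - i) * h)) * X ^ i : F[X]).degree < m := by
    rw [degree_lt_iff_coeff_zero]
    intro k hk
    rw [finset_sum_coeff]
    refine Finset.sum_eq_zero (fun i hi => ?_)
    rw [Finset.mem_range] at hi
    rw [coeff_C_mul_X_pow, if_neg (by omega)]
  have hm : (lead m h f).Monic := by
    rw [e]
    exact monic_X_pow_add hd
  refine ⟨hm, ?_⟩
  apply natDegree_eq_of_degree_eq_some
  rw [e, degree_add_eq_left_of_degree_lt (by rw [degree_X_pow]; exact hd), degree_X_pow]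

theorem ph_fam {m h : ℕ} {f : F[X][X]} (hf : Fam m h f) :
    (ph h f).degree = (m * h : ℕ) ∧ (ph h f).leadingCoeff = lead m h f := by
  have hco : (ph h f).coeff (m * h) = lead m h f := by
    ext i
    rw [ph_coeff]
    unfold lead
    rw [finset_sum_coeff]
    simp only [coeff_C_mul_X_pow]
    rw [Finset.sum_ite_eq (Finset.range (m + 1)) i]
    by_cases hi : i ≤ m
    · rw [if_pos (Nat.mul_le_mul_right _ hi), if_pos (by rw [Finset.mem_range]; omega),
        Nat.sub_mul]
    · have h1 : f.coeff i = 0 := by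
        apply coeff_eq_zero_of_natDegree_lt
        rw [hf.deg]; omega
      rw [h1]
      simp
  have hne : lead m h f ≠ 0 := (lead_monic hf).1.ne_zero
  have hle : (ph h f).degree ≤ (m * h : ℕ) := by
    apply ph_deg_le
    intro i hi
    have hi' : i ≤ m := by
      by_contra h2
      exact hi (coeff_eq_zero_of_natDegree_lt (by rw [hf.deg]; omega))
    rcases Nat.lt_or_ge i m with h1 | h1
    · have h3 := hf.coeff i h1
      have h4 : (m - i) * h + i * h = m * h := by rw [← Nat.add_mul, Nat.sub_add_cancel hi']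
      omega
    · have h2 : i = m := by omega
      subst h2
      have hc : f.coeff i = 1 := by
        have := hf.monic.coeff_natDegree
        rwa [hf.deg] at this
      rw [hc]
      simp
  have hdeg : (ph h f).degree = (m * h : ℕ) :=
    le_antisymm hle (le_degree_of_ne_zero (by rw [hco]; exact hne))
  refine ⟨hdeg, ?_⟩
  rw [leadingCoeff, natDegree_eq_of_degree_eq_some hdeg, hco]

end Pool.Agent.H3.GG
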