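import Pool.Agent.H3.GG.LBs

set_option autoImplicit false

/-!
# [H3 GG LRed] Reduced bases

`wn` the weight, `lf` the leading form (`H3/GG/LDefs`). Assumption: `f` monic, `e` a basis of `J`.
* `comb_lt`: `λ : Fin m → F`, `∑ λ_j lf(e_j) = 0`, `N ≥ wn(e_j)` for all `j` with `λ_j ≠ 0`: then
  `z = ∑ C(λ_j) X ^ (N - wn(e_j)) • e_j` has `wd z < N`: `ph (rp z) = ∑ C(C λ_j) T ^ (N - wn(e_j)) ph (rp e_j)` has degree
  `≤ N` and its coefficient at `T ^ N` is `∑ λ_j lf(e_j) = 0`. (`ph h (C (C a * X ^ n) * p)`; the terms with `λ_j = 0` are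
  zero.)
* `red_exists`: choose a basis `e` of `J` with `∑ wn(e_j)` minimal (`bs_exists`, well-foundedness of `ℕ`). Its leading forms are
  independent over `F`: otherwise `∑ λ_j lf(e_j) = 0` with `λ ≠ 0`; let `i₀` be an index with `λ_(i₀) ≠ 0` and `wn(e_(i₀))`
  maximal among those, `N = wn(e_(i₀))`, `u_j = C(λ_j) X ^ (N - wn(e_j))`; `u_(i₀) = C λ_(i₀)`. By `bs_update` replacing
  `e_(i₀)` by `z` gives a basis; `z ≠ 0` (`bs_ne`), `wn z < N` (`comb_lt`, `wd_wn`), so the sum gets smaller:
  contradiction. Finally sort: `Tuple.sort`, `bs_perm`, the independence is invariant under permutations.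
* `red_deg`: if the leading forms of `e` are independent, `c : Fin m → F[X]`, `c_k ≠ 0`, then `∑ c_j e_j ≠ 0` and
  `deg c_k + wn(e_k) ≤ wn(∑ c_j e_j)`: let `M` be the maximum of `deg c_j + wn(e_j)` over the `j` with `c_j ≠ 0`; the
  coefficient of `T ^ M` in `ph (rp (∑ c_j e_j)) = ∑ (c_j).map C * ph (rp e_j)` is the sum of `lc(c_j) lf(e_j)` over the `j`
  with `deg c_j + wn(e_j) = M`: not zero by independence. So `M ≤ wn(..)`.
-/

namespace Pool.Agent.H3.GG

open Polynomial

variable {F : Type} [Field F] {f : F[X][X]} {m : ℕ}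

private theorem ph_C (h : ℕ) (c : F[X]) : ph h (C c) = c.map C := by
  simp [ph]

private theorem ph_rp_sum (h : ℕ) (hf : f.Monic) (c : Fin m → F[X]) (e : Fin m → AdjoinRoot f) :
    ph h (rp hf (∑ j, c j • e j)) = ∑ j, (c j).map C * ph h (rp hf (e j)) := by
  unfold rp
  rw [map_sum, map_sum]
  refine Finset.sum_congr rfl fun j _ => ?_
  rw [LinearMap.map_smul, smul_eq_C_mul, map_mul, ph_C]

theorem comb_lt (h : ℕ) (hf : f.Monic) (e : Fin m → AdjoinRoot f) (l : Fin m → F)
    (hl : ∑ j, l j • lf h hf (e j) = 0) (N : ℕ) (hN : ∀ j, l j ≠ 0 → wn h hf (e j) ≤ N) :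
    wd h hf (∑ j, (C (l j) * X ^ (N - wn h hf (e j))) • e j) < N := by
  unfold wd
  rw [ph_rp_sum, degree_lt_iff_coeff_zero]
  intro k hk
  rw [finset_sum_coeff]
  have hk' : N ≤ k := by exact_mod_cast hk
  have key : ∀ j, (((C (l j) * X ^ (N - wn h hf (e j)) : F[X]).map C) *
      ph h (rp hf (e j))).coeff k = if k = N then l j • lf h hf (e j) else 0 := by
    intro j
    by_cases hj : l j = 0
    · simp [hj]
    · have hw := hN j hj
      rw [Polynomial.map_mul, Polynomial.map_pow, map_X, map_C, mul_assoc, coeff_C_mul,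
        mul_comm (X ^ _) _, coeff_mul_X_pow', if_pos (by omega)]
      by_cases hkN : k = N
      · subst hkN
        rw [if_pos rfl, show k - (k - wn h hf (e j)) = wn h hf (e j) by omega, ← smul_eq_C_mul]
        rfl
      · rw [if_neg hkN, coeff_eq_zero_of_natDegree_lt, mul_zero]
        have : (ph h (rp hf (e j))).natDegree = wn h hf (e j) := rfl
        omega
  simp_rw [key]
  by_cases hkN : k = N
  · simp only [hkN, if_true]
    exact hl
  · simp [hkN]

theorem red_exists (h : ℕ) (hf : f.Monic) (hm : f.natDegree = m) [IsDomain (AdjoinRoot f)]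
    (J : Ideal (AdjoinRoot f)) (hJ : J ≠ ⊥) : ∃ e : Fin m → AdjoinRoot f, IsBs J e ∧
      Monotone (fun j => wn h hf (e j)) ∧ LinearIndependent F fun j => lf h hf (e j) := by
  classical
  have hex : ∃ n : ℕ, ∃ e : Fin m → AdjoinRoot f, IsBs J e ∧ ∑ j, wn h hf (e j) = n := by
    obtain ⟨e, he⟩ := bs_exists hf hm J hJ
    exact ⟨_, e, he, rfl⟩
  obtain ⟨e, he, hsum⟩ := Nat.find_spec hex
  have hmin : ∀ e' : Fin m → AdjoinRoot f, IsBs J e' →
      ∑ j, wn h hf (e j) ≤ ∑ j, wn h hf (e' j) := by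
    intro e' he'
    rw [hsum]
    exact Nat.find_min' hex ⟨e', he', rfl⟩
  have hli : LinearIndependent F fun j => lf h hf (e j) := by
    by_contra hnot
    rw [Fintype.not_linearIndependent_iff] at hnot
    obtain ⟨l, hl, i₁, hi₁⟩ := hnot
    obtain ⟨i₀, hi₀, hmax⟩ := Finset.exists_max_image (Finset.univ.filter fun j => l j ≠ 0)
      (fun j => wn h hf (e j)) ⟨i₁, by simp [hi₁]⟩
    have hl0 : l i₀ ≠ 0 := by simpa using hi₀
    have hN : ∀ j, l j ≠ 0 → wn h hf (e j) ≤ wn h hf (e i₀) := fun j hj =>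
      hmax j (by simp [hj])
    have hlt := comb_lt h hf e l hl (wn h hf (e i₀)) hN
    set z := ∑ j, (C (l j) * X ^ (wn h hf (e i₀) - wn h hf (e j))) • e j with hz
    have hbs := bs_update he i₀ (fun j => C (l j) * X ^ (wn h hf (e i₀) - wn h hf (e j))) hl0
      (by simp)
    have hz0 : z ≠ 0 := by
      have := bs_ne hbs i₀
      rwa [Function.update_self] at this
    rw [wd_wn h hf hz0] at hlt
    have hlt' : wn h hf z < wn h hf (e i₀) := by exact_mod_cast hlt
    have h1 := hmin _ hbs
    have h2 : ∑ j, wn h hf (Function.update e i₀ z j) < ∑ j, wn h hf (e j) := by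
      apply Finset.sum_lt_sum
      · intro j _
        by_cases hj : j = i₀
        · subst hj
          rw [Function.update_self]
          exact hlt'.le
        · rw [Function.update_of_ne hj]
      · exact ⟨i₀, Finset.mem_univ _, by rw [Function.update_self]; exact hlt'⟩
    exact absurd h1 (not_le.2 h2)
  refine ⟨e ∘ Tuple.sort (fun j => wn h hf (e j)), bs_perm he _, ?_, ?_⟩
  · exact Tuple.monotone_sort (fun j => wn h hf (e j))
  · exact hli.comp _ (Tuple.sort (fun j => wn h hf (e j))).injective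

theorem red_deg (h : ℕ) (hf : f.Monic) {e : Fin m → AdjoinRoot f} (he : ∀ j, e j ≠ 0)
    (hl : LinearIndependent F fun j => lf h hf (e j)) (c : Fin m → F[X]) {k : Fin m}
    (hk : c k ≠ 0) : ∑ j, c j • e j ≠ 0 ∧
      (c k).natDegree + wn h hf (e k) ≤ wn h hf (∑ j, c j • e j) := by
  classical
  obtain ⟨i₀, hi₀, hmax⟩ := Finset.exists_max_image (Finset.univ.filter fun j => c j ≠ 0)
    (fun j => (c j).natDegree + wn h hf (e j)) ⟨k, by simp [hk]⟩
  have hc0 : c i₀ ≠ 0 := by simpa using hi₀
  set M := (c i₀).natDegree + wn h hf (e i₀) with hM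
  have hM' : ∀ j, c j ≠ 0 → (c j).natDegree + wn h hf (e j) ≤ M := fun j hj =>
    hmax j (by simp [hj])
  have hcoef : (ph h (rp hf (∑ j, c j • e j))).coeff M =
      ∑ j, (if c j ≠ 0 ∧ (c j).natDegree + wn h hf (e j) = M then (c j).leadingCoeff else 0) •
        lf h hf (e j) := by
    rw [ph_rp_sum, finset_sum_coeff]
    refine Finset.sum_congr rfl fun j _ => ?_
    by_cases hj : c j = 0
    · simp [hj]
    · have h1 := hM' j hj
      have hd : ((c j).map (C : F →+* F[X])).natDegree = (c j).natDegree :=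
        natDegree_map_eq_of_injective C_injective _
      have hw : (ph h (rp hf (e j))).natDegree = wn h hf (e j) := rfl
      by_cases hjM : (c j).natDegree + wn h hf (e j) = M
      · rw [if_pos ⟨hj, hjM⟩, ← hjM, ← hw]
        conv_lhs => rw [← hd]
        rw [coeff_mul_degree_add_degree, leadingCoeff_map_of_injective C_injective,
          smul_eq_C_mul]
        rfl
      · rw [if_neg (fun hh => hjM hh.2), zero_smul]
        apply coeff_eq_zero_of_natDegree_lt
        calc _ ≤ ((c j).map (C : F →+* F[X])).natDegree + (ph h (rp hf (e j))).natDegree :=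
              natDegree_mul_le
          _ < M := by rw [hd, hw]; omega
  have hne : (ph h (rp hf (∑ j, c j • e j))).coeff M ≠ 0 := by
    intro h0
    rw [hcoef] at h0
    have := (Fintype.linearIndependent_iff.1 hl) _ h0 i₀
    rw [if_pos ⟨hc0, rfl⟩] at this
    exact hc0 (leadingCoeff_eq_zero.1 this)
  constructor
  · intro h0
    rw [h0] at hne
    simp at hne
  · exact (hM' k hk).trans (le_natDegree_of_ne_zero hne)

end Pool.Agent.H3.GG
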