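import Pool.Agent.H3.GG.LPh

set_option autoImplicit false

/-!
# [H3 GG LWd] The weight on `O`: additive properties

`rp hf` is `F[t]`-linear, `degree (rp hf z) < degree f`, `AdjoinRoot.mk f (rp hf z) = z` (`AdjoinRoot.mk_leftInverse`),
`rp hf (mk f p) = p %ₘ f` (`AdjoinRoot.modByMonicHom_mk`).
* `wd_bot`: `degree = ⊥` iff `ph h (rp hf z) = 0` iff `rp hf z = 0` (`ph_inj`) iff `z = 0`.
* `wd_smul`: `ph h (C c * p) = (c.map C) * ph h p`, the degree of `c.map C` in `T` is the degree of `c`; `degree_mul`.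
* `wd_pow`: `rp hf (θ ^ i) = X ^ i` for `i < deg f`, `ph h (X ^ i) = C (X ^ i) * X ^ (i h)`.
* `wd_c`: `rp hf (algebraMap c) = C c` (`1 ≤ deg f`).
* `wd_wn`: `degree_eq_natDegree`.
-/

namespace Pool.Agent.H3.GG

open Polynomial

variable {F : Type} [Field F] {f : F[X][X]}

theorem rp_mk (hf : f.Monic) (p : F[X][X]) : rp hf (AdjoinRoot.mk f p) = p %ₘ f :=
  AdjoinRoot.modByMonicHom_mk hf p

theorem rp_degree (hf : f.Monic) (z : AdjoinRoot f) : (rp hf z).degree < f.degree := by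
  obtain ⟨p, rfl⟩ := AdjoinRoot.mk_surjective z
  rw [rp_mk]
  exact degree_modByMonic_lt p hf

theorem mk_rp (hf : f.Monic) (z : AdjoinRoot f) : AdjoinRoot.mk f (rp hf z) = z :=
  AdjoinRoot.mk_leftInverse hf z

private theorem rp_zero (hf : f.Monic) : rp hf (0 : AdjoinRoot f) = 0 :=
  (AdjoinRoot.modByMonicHom hf).map_zero

private theorem rp_add (hf : f.Monic) (z w : AdjoinRoot f) : rp hf (z + w) = rp hf z + rp hf w :=
  (AdjoinRoot.modByMonicHom hf).map_add z w

private theorem rp_neg (hf : f.Monic) (z : AdjoinRoot f) : rp hf (-z) = - rp hf z :=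
  (AdjoinRoot.modByMonicHom hf).map_neg z

private theorem rp_smul (hf : f.Monic) (c : F[X]) (z : AdjoinRoot f) : rp hf (c • z) = c • rp hf z :=
  (AdjoinRoot.modByMonicHom hf).map_smul c z

private theorem rp_small (hf : f.Monic) {p : F[X][X]} (hp : p.degree < f.degree) :
    rp hf (AdjoinRoot.mk f p) = p := by
  rw [rp_mk, (modByMonic_eq_self_iff hf).mpr hp]

theorem wd_bot (h : ℕ) (hf : f.Monic) {z : AdjoinRoot f} : wd h hf z = ⊥ ↔ z = 0 := by
  unfold wd
  rw [degree_eq_bot]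
  constructor
  · intro h1
    rw [← mk_rp hf z, ph_inj h h1, map_zero]
  · intro h1
    rw [h1, rp_zero, map_zero]

theorem ph_rp_ne (h : ℕ) (hf : f.Monic) {z : AdjoinRoot f} (hz : z ≠ 0) :
    ph h (rp hf z) ≠ 0 := by
  intro h1
  exact hz ((wd_bot h hf).mp (degree_eq_bot.mpr h1))

theorem wd_wn (h : ℕ) (hf : f.Monic) {z : AdjoinRoot f} (hz : z ≠ 0) : wd h hf z = wn h hf z :=
  degree_eq_natDegree (ph_rp_ne h hf hz)

theorem lf_ne (h : ℕ) (hf : f.Monic) {z : AdjoinRoot f} (hz : z ≠ 0) : lf h hf z ≠ 0 :=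
  leadingCoeff_ne_zero.mpr (ph_rp_ne h hf hz)

theorem lf_degree (h : ℕ) (hf : f.Monic) (z : AdjoinRoot f) : (lf h hf z).degree < f.natDegree := by
  apply ph_low
  have := rp_degree hf z
  rwa [degree_eq_natDegree hf.ne_zero] at this

theorem wd_add (h : ℕ) (hf : f.Monic) (z w : AdjoinRoot f) :
    wd h hf (z + w) ≤ max (wd h hf z) (wd h hf w) := by
  unfold wd
  rw [rp_add, map_add]
  exact degree_add_le _ _

theorem wd_neg (h : ℕ) (hf : f.Monic) (z : AdjoinRoot f) : wd h hf (-z) = wd h hf z := by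
  unfold wd
  rw [rp_neg, map_neg, degree_neg]

theorem wd_sum (h : ℕ) (hf : f.Monic) {ι : Type} (s : Finset ι) (z : ι → AdjoinRoot f)
    (d : WithBot ℕ) (hz : ∀ i ∈ s, wd h hf (z i) ≤ d) : wd h hf (∑ i ∈ s, z i) ≤ d := by
  classical
  induction s using Finset.induction_on with
  | empty =>
    rw [Finset.sum_empty, (wd_bot h hf).mpr rfl]
    exact bot_le
  | insert a s ha ih =>
    rw [Finset.sum_insert ha]
    refine (wd_add h hf _ _).trans (max_le (hz a (Finset.mem_insert_self a s)) ?_)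
    exact ih (fun i hi => hz i (Finset.mem_insert_of_mem hi))

theorem wd_smul (h : ℕ) (hf : f.Monic) (c : F[X]) (z : AdjoinRoot f) :
    wd h hf (c • z) = c.degree + wd h hf z := by
  unfold wd
  rw [rp_smul, smul_eq_C_mul, map_mul, degree_mul]
  congr 1
  have e : ph h (C c) = c.map (C : F →+* F[X]) := by
    unfold ph
    rw [coe_eval₂RingHom, eval₂_C, coe_mapRingHom]
  rw [e, degree_map_eq_of_injective C_injective]

theorem wd_pow (h : ℕ) (hf : f.Monic) {i : ℕ} (hi : i < f.natDegree) :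
    wd h hf (AdjoinRoot.root f ^ i) = (i * h : ℕ) := by
  have e1 : AdjoinRoot.root f ^ i = AdjoinRoot.mk f (X ^ i) := by
    rw [map_pow, AdjoinRoot.mk_X]
  have e2 : ph h (X ^ i : F[X][X]) = C (X ^ i) * X ^ (i * h) := by
    rw [map_pow]
    unfold ph
    rw [coe_eval₂RingHom, eval₂_X, mul_pow, ← pow_mul, C_pow, mul_comm h i]
  unfold wd
  rw [e1, rp_small hf, e2, degree_C_mul_X_pow _ (pow_ne_zero _ X_ne_zero)]
  rw [degree_X_pow, degree_eq_natDegree hf.ne_zero]
  exact_mod_cast hi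

theorem wd_c (h : ℕ) (hf : f.Monic) (hm : 1 ≤ f.natDegree) (c : F[X]) :
    wd h hf (algebraMap F[X] (AdjoinRoot f) c) = c.degree := by
  have h1 := wd_pow h hf (i := 0) (by omega)
  rw [pow_zero, Nat.zero_mul, Nat.cast_zero] at h1
  rw [Algebra.algebraMap_eq_smul_one, wd_smul, h1, add_zero]

end Pool.Agent.H3.GG
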